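import Mathlib

set_option autoImplicit false

namespace Pool.Agent.H15.Kne

open Set Pointwise

variable {G : Type*} [AddCommGroup G] [Finite G]

/-- The stabilizer of a set. -/
def st (C : Set G) : AddSubgroup G where
  carrier := {g | ∀ x, g + x ∈ C ↔ x ∈ C}
  zero_mem' := by simp
  add_mem' := fun {a b} ha hb x => by rw [add_assoc, ha, hb]
  neg_mem' := fun {a} ha x => by rw [← ha, add_neg_cancel_left]

omit [Finite G] in
lemma mk_st {C : Set G} {K : AddSubgroup G} (h : ∀ g ∈ K, ∀ x ∈ C, g + x ∈ C) : K ≤ st C :=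
  fun g hg x => ⟨fun k => by simpa using h _ (K.neg_mem hg) _ k, h g hg x⟩

omit [Finite G] in
lemma add_st {C : Set G} {K : AddSubgroup G} (h : K ≤ st C) : C + K = C :=
  Subset.antisymm (by rintro _ ⟨x, hx, g, hg, rfl⟩; exact (add_comm g x ▸ (h hg x).2 hx : x + g ∈ C))
    fun x hx => ⟨x, hx, 0, K.zero_mem, add_zero x⟩

omit [Finite G] in
lemma sub_add (C : Set G) (K : AddSubgroup G) : C ⊆ C + K :=
  fun x hx => ⟨x, hx, 0, K.zero_mem, add_zero x⟩

omit [Finite G] in
lemma st_add (C : Set G) (K : AddSubgroup G) : K ≤ st (C + (K : Set G)) := mk_st (by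
  rintro g hg _ ⟨x, hx, k, hk, rfl⟩
  exact ⟨x, hx, _, K.add_mem hg hk, add_left_comm _ _ _⟩)

omit [Finite G] in
lemma st_sum (A B : Set G) : st B ≤ st (A + B) := mk_st (by
  rintro g hg _ ⟨x, hx, k, hk, rfl⟩
  exact ⟨x, hx, _, (hg k).2 hk, add_left_comm _ _ _⟩)

omit [Finite G] in
lemma dvd (C : Set G) (K : AddSubgroup G) : (K : Set G).ncard ∣ (C + K).ncard :=
  ⟨_, AddSubgroup.card_add_eq_card_addSubgroup_add_card_quotient K C⟩

/-- A coset. -/
def co (H : AddSubgroup G) (a : G) : Set G := {x | x - a ∈ H}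

omit [Finite G] in
lemma co_card (H : AddSubgroup G) (a : G) : (co H a).ncard = (H : Set G).ncard := by
  rw [← ncard_image_of_injective _ (sub_left_injective (b := a))]
  congr 1
  exact Subset.antisymm (by rintro _ ⟨x, hx, rfl⟩; exact hx)
    fun x hx => ⟨x + a, by simpa [co] using hx, by simp⟩

lemma two {X Y Z W : Set G} (h : X ∪ Y ⊆ Z) (k : X ∩ Y ⊆ W) :
    X.ncard + Y.ncard ≤ Z.ncard + W.ncard :=
  (ncard_union_add_ncard_inter X Y).symm.trans_le
    (add_le_add (ncard_le_ncard h) (ncard_le_ncard k))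

lemma loc {U : Set G} {H K : AddSubgroup G} (h : K ≤ H) {u : G} (hu : u ∈ U) :
    (U + K).ncard + (H : Set G).ncard ≤ (U + H).ncard + (U ∩ co H u + K).ncard := by
  rw [← co_card H u]
  refine two (union_subset (add_subset_add_left h) fun x hx => ⟨u, hu, _, hx, by simp⟩) ?_
  rintro _ ⟨⟨x, hx, g, hg, rfl⟩, k⟩
  exact ⟨x, ⟨hx, by simpa [co, add_sub_right_comm] using H.sub_mem k (h hg)⟩, g, hg, rfl⟩

theorem kneser (A B : Set G) (hA : A.Nonempty) (hB : B.Nonempty) :
    (A + st (A + B)).ncard + (B + st (A + B)).ncard ≤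
      (A + B).ncard + (st (A + B) : Set G).ncard := by
  induction hn : (A + B).ncard using Nat.strong_induction_on generalizing A B with | _ n ih => ?_
  induction hm : (A + st (A + B)).ncard using Nat.strong_induction_on generalizing A B with
    | _ m ih' => ?_
  subst hm
  wlog p : st (A + B) ≤ st A ∧ st (A + B) ≤ st B generalizing A B
  · have e : A + st (A + B) + (B + st (A + B)) = A + B := by
      rw [add_add_add_comm, ← add_assoc, add_st le_rfl, add_st le_rfl]
    have := this (A + st (A + B)) (B + st (A + B)) (hA.mono (sub_add _ _)) (hB.mono (sub_add _ _))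
    simp only [e] at this
    have z : ∀ X : Set G, X + st (A + B) + st (A + B) = X + st (A + B) :=
      fun X => add_st (st_add _ _)
    simp only [z] at this
    exact this hn ih' ⟨st_add _ _, st_add _ _⟩
  obtain ⟨a, ha⟩ := id hA
  by_cases q : A ⊆ co (st (A + B)) a
  · obtain ⟨p1, p2⟩ := p
    rw [add_st p1, add_st p2, ← hn, add_comm]
    refine add_le_add ?_ ((ncard_le_ncard q).trans_eq (co_card _ _))
    rw [← ncard_image_of_injective B (add_right_injective a)]
    exact ncard_le_ncard (by rintro _ ⟨b, hb, rfl⟩; exact ⟨a, ha, b, hb, rfl⟩)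
  obtain ⟨a', ha', q⟩ := not_subset.1 q
  obtain ⟨b, hb, q⟩ : ∃ b ∈ B, a' - a + b ∉ B := by
    by_contra! k
    refine q (st_sum A B (mk_st (K := .zmultiples (a' - a)) ?_ (AddSubgroup.mem_zmultiples _)))
    intro g hg x hx
    obtain ⟨j, rfl⟩ := (mem_multiples_iff_mem_zmultiples.2 hg :)
    induction j with
    | zero => simpa
    | succ j e => simpa only [succ_nsmul', add_assoc] using k _ (e (by simp))
  wlog r : a = b generalizing B b
  · have f : ∀ X : Set G, st ((a - b) +ᵥ X) = st X := fun X => by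
      ext g
      refine ⟨fun h x => ?_, fun h x => ?_⟩
      · simpa [add_left_comm g, mem_vadd_set_iff_neg_vadd_mem, ← add_assoc] using h (a - b + x)
      · simpa [mem_vadd_set_iff_neg_vadd_mem, add_left_comm g] using h (b - a + x)
    have e : A + ((a - b) +ᵥ B) = (a - b) +ᵥ (A + B) := add_vadd_comm _ _ _
    have := this ((a - b) +ᵥ B) hB.vadd_set
    simp only [e, f, vadd_add_assoc, ncard_vadd_set] at this
    exact this hn ih' p ‹_› ‹_› a ⟨b, hb, by simp⟩
      (by rwa [mem_vadd_set_iff_neg_vadd_mem, vadd_eq_add,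
        show -(a - b) + (a' - a + a) = a' - a + b by abel]) rfl
  subst r hn
  rw [sub_add_cancel] at q
  obtain ⟨p1, p2⟩ := p
  rw [add_st p1] at ih'
  rw [add_st p1, add_st p2]
  by_contra! neg
  let P := fun C : Set G => C ⊆ A + B ∧ st (A + B) ≤ st C ∧
    (A ∩ B).ncard + (A ∪ B + st C).ncard ≤ C.ncard + (st C : Set G).ncard
  have pi : st (A + B) ≤ st (A ∩ B) := mk_st fun g hg x hx => ⟨(p1 hg x).2 hx.1, (p2 hg x).2 hx.2⟩
  have pu : st (A + B) ≤ st (A ∪ B) :=
    mk_st fun g hg x hx => hx.imp (p1 hg x).2 (p2 hg x).2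
  have c0 : P (A ∩ B + (A ∪ B)) := by
    refine ⟨inter_add_union_subset, pu.trans (st_sum _ _),
      le_trans (Nat.add_le_add_right (ncard_le_ncard (sub_add _ _)) _) (?_ : (A ∩ B + st (A ∩ B + (A ∪ B))).ncard + _ ≤ _)⟩
    rcases (inter_add_union_subset (s := A) (t := B)).eq_or_ssubset with e | e
    · have := ih' _ ?_ (A ∩ B) (A ∪ B) ⟨a, ha, hb⟩ hA.inl (by rw [e]) rfl
      · rwa [← e] at this
      · rw [e, add_st pi]
        exact ncard_lt_ncard ⟨inter_subset_left, fun k => q (k ha').2⟩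
    · exact ih _ (ncard_lt_ncard e) _ _ ⟨a, ha, hb⟩ hA.inl rfl
  obtain ⟨C, ⟨c1, c2, c3⟩, mn⟩ := exists_min_image {C | P C} (fun C => (st C : Set G).ncard)
    (toFinite _) ⟨_, c0⟩
  have ui := ncard_inter_add_ncard_union A B
  have cle := ncard_le_ncard c1
  obtain ⟨h, hh, x, hx, y, hy, k⟩ : ∃ h ∈ st C, ∃ x ∈ A, ∃ y ∈ B, h + (x + y) ∉ A + B := by
    by_contra! k
    have : st C = st (A + B) := le_antisymm (mk_st (by
      rintro g hg _ ⟨x, hx, y, hy, rfl⟩; exact k g hg x hx y hy)) c2
    rw [this, add_st pu] at c3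
    omega
  have cne : C.Nonempty := by
    rcases C.eq_empty_or_nonempty with rfl | h
    · have := ncard_le_ncard (s := (st (∅ : Set G) : Set G)) (t := A ∪ B + st (∅ : Set G))
        fun g _ => ⟨a, .inl ha, g - a, by simp [st], by simp⟩
      have := (ncard_pos (s := A ∩ B)).2 ⟨a, ha, hb⟩
      simp only [ncard_empty] at c3
      omega
    · exact h
  have key : ∀ u v, u + v = x + y → (A ∩ co (st C) u).Nonempty → (B ∩ co (st C) v).Nonempty →
      ∃ K ≤ st C, (A ∪ B + st C).ncard + (A ∩ co (st C) u + K).ncard + (B ∩ co (st C) v + K).ncard <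
        (A ∪ B + K).ncard + (st C : Set G).ncard ∧
      C.ncard + 2 * (A ∩ co (st C) u).ncard + 2 * (B ∩ co (st C) v).ncard ≤
        (A + B).ncard + (st C : Set G).ncard := by
    intro u v e n1 n2
    set D := A ∩ co (st C) u + B ∩ co (st C) v
    have d1 : D ⊆ A + B := add_subset_add inter_subset_left inter_subset_left
    have d2 : D ⊆ co (st C) (x + y) := by
      rintro _ ⟨s, hs, t, ht, rfl⟩
      simpa [co, ← e, add_sub_add_comm] using (st C).add_mem hs.2 ht.2
    have d3 : ∀ z ∈ co (st C) (x + y), z ∉ C := fun z hz n => k (c1 (by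
      simpa [sub_add_eq_add_sub, add_sub_assoc] using ((st C).sub_mem hh hz z).2 n))
    have d4 : Disjoint C D := disjoint_right.2 fun z hz => d3 z (d2 hz)
    obtain ⟨d, hd⟩ : D.Nonempty := n1.add n2
    have k1 : st D ≤ st C := fun g hg => by
      simpa [co] using (st C).sub_mem (d2 ((hg d).2 hd)) (d2 hd)
    have k2 : st (C ∪ D) = st D := by
      refine le_antisymm (mk_st fun g hg z hz => ?_)
        (mk_st fun g hg z hz => hz.imp (k1 hg z).2 (hg z).2)
      refine ((hg z).2 (.inr hz)).resolve_left fun n => k ?_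
      have := ((st C).sub_mem hh (d2 hz) _).2 n
      rw [show h - (z - (x + y)) + (g + z) = g + (h + (x + y)) by abel] at this
      exact union_subset c1 d1 ((hg _).1 (.inl this))
    have k3 : (st D : Set G).ncard < (st C : Set G).ncard := ncard_lt_ncard ⟨k1, fun n => k (by
      simpa [sub_add_eq_add_sub, add_sub_assoc] using
        d1 ((n ((st C).sub_mem hh (d2 hd)) d).2 hd))⟩
    have k4 := ncard_le_ncard (union_subset c1 d1)
    have k5 := ncard_union_eq d4
    have k6 := (ncard_pos (s := C)).2 cne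
    have k7 : (A ∩ co (st C) u + st D).ncard + (B ∩ co (st C) v + st D).ncard ≤
        D.ncard + (st D : Set G).ncard := ih D.ncard (by omega) _ _ n1 n2 rfl
    have k8 : ¬P (C ∪ D) := fun n => (mn _ n).not_gt (by simpa only [k2] using k3)
    have pc : ∀ X w, st (A + B) ≤ st X → st (A + B) ≤ st (X ∩ co (st C) w) := fun X w p =>
      mk_st fun g hg z hz => ⟨(p hg z).2 hz.1, by
        simpa [co, add_sub_assoc] using (st C).add_mem (c2 hg) hz.2⟩
    simp only [P, k2, not_and, not_le] at k8
    have k9 := k8 (union_subset c1 d1) ((pc _ _ p2).trans (st_sum _ _))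
    have l1 := ncard_le_ncard (add_subset_add_left (s := A ∪ B) (show (st D : Set G) ⊆ st C from k1))
    have l2 := ncard_le_ncard (sub_add (A ∩ co (st C) u) (st D))
    have l3 := ncard_le_ncard (sub_add (B ∩ co (st C) v) (st D))
    have l4 : (A ∩ co (st C) u + st D).ncard + (B ∩ co (st C) v + st D).ncard +
        (st D : Set G).ncard ≤ (st C : Set G).ncard :=
      Nat.le_of_lt_add_of_dvd (by omega) (dvd_add (dvd_add (dvd _ _) (dvd _ _)) dvd_rfl)
        (AddSubgroup.card_dvd_of_le k1)
    exact ⟨_, k1, by omega, by omega⟩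
  have m : ∀ z, z ∈ co (st C) z := fun z => by simp [co]
  obtain ⟨K, k1, k2, k3⟩ := key x y rfl ⟨x, hx, m x⟩ ⟨y, hy, m y⟩
  have l1 := loc k1 (U := A ∪ B) (.inl hx)
  have l2 := loc k1 (U := A ∪ B) (.inr hy)
  rw [union_inter_distrib_right] at l1 l2
  have n1 : (A ∩ co (st C) y).Nonempty := nonempty_iff_ne_empty.2 fun e => by
    rw [e, empty_union] at l2; omega
  have n2 : (B ∩ co (st C) x).Nonempty := nonempty_iff_ne_empty.2 fun e => by
    rw [e, union_empty] at l1; omega
  obtain ⟨-, -, -, k4⟩ := key y x (add_comm _ _) n1 n2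
  have dj : Disjoint (co (st C) x) (co (st C) y) := disjoint_left.2 fun z z1 z2 => by
    have : co (st C) x = co (st C) y := by
      ext w
      exact ⟨fun n => by simpa [co] using (st C).add_mem ((st C).sub_mem n z1) z2,
        fun n => by simpa [co] using (st C).add_mem ((st C).sub_mem n z2) z1⟩
    rw [this] at l1 k2
    have := ncard_union_le (A ∩ co (st C) y + (K : Set G)) (B ∩ co (st C) y + K)
    rw [← union_add] at this
    omega
  have f := two (X := A ∪ B) (Y := co (st C) x ∪ co (st C) y) (Z := A ∪ B + st C)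
    (union_subset (sub_add _ _) (union_subset (fun z hz => ⟨x, .inl hx, _, hz, by simp⟩)
      fun z hz => ⟨y, .inr hy, _, hz, by simp⟩)) Subset.rfl
  rw [ncard_union_eq dj, co_card, co_card, inter_union_distrib_left, union_inter_distrib_right,
    union_inter_distrib_right] at f
  have g1 := ncard_union_le (A ∩ co (st C) x ∪ B ∩ co (st C) x) (A ∩ co (st C) y ∪ B ∩ co (st C) y)
  have g2 := ncard_union_le (A ∩ co (st C) x) (B ∩ co (st C) x)
  have g3 := ncard_union_le (A ∩ co (st C) y) (B ∩ co (st C) y)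
  omega

end Pool.Agent.H15.Kne
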