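import Pool.Agent.H2.AG3

set_option autoImplicit false

/-! Real version of `Pool.Agent.H2.AG.abstract` (same proof), recording decay of coefficients. -/

namespace Pool.Agent.H15.AGR

open scoped RealInnerProductSpace
open Filter Topology Pool.Agent.H2.AG

theorem abstractR {Γ : Type} (G : Γ → HH) (hB : ∀ g i, |⟪G g, bb i⟫| ≤ 1)
    (hT : ∀ g, ∀ s : ℕ, ∃ g0, (∀ (ξ : HH) (t : ℝ), (∀ i, |⟪bb i, ξ⟫| ≤ t) →
      |⟪G g0, ξ⟫| ≤ 4 * √s * t) ∧ ∀ i, (s : ℝ) * ⟪G g - G g0, bb i⟫ ^ 2 ≤ 1)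
    (hN : ∀ (π : Equiv.Perm ℕ) (R : ℝ), ∃ (N : ℕ) (f : HH), f ∈ Submodule.span ℝ (Set.range bb) ∧
      ‖f‖ ≤ 1 ∧ (∀ g, |⟪G g, f⟫| ≤ 1) ∧
      ∃ g, R ≤ ⟪G g, ∑ k ∈ Finset.range N, ⟪bb (π k), f⟫ • bb (π k)⟫) :
    ¬ (∀ (X : Type) [NormedAddCommGroup X] [NormedSpace ℝ X]
      [CompleteSpace X] (e : ℕ → X) (e' : ℕ → X →L[ℝ] ℝ),
      (∀ i j : ℕ, e' i (e j) = if i = j then (1 : ℝ) else 0) →
      Dense ((Submodule.span ℝ (Set.range e) : Submodule ℝ X) : Set X) →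
      (∀ x : X, Tendsto (fun i => |e' i x|) atTop (𝓝 0)) →
      (∃ C : ℝ, ∀ (x : X) (A B : Finset ℕ),
        (∀ i ∈ A, ∀ j : ℕ, j ∉ A → ‖e' j x‖ ≤ ‖e' i x‖) →
        B.card ≤ A.card →
        ‖x - ∑ i ∈ A, e' i x • e i‖ ≤ C * ‖x - ∑ i ∈ B, e' i x • e i‖) →
      ∃ π : Equiv.Perm ℕ, ∀ x : X,
        Tendsto (fun n : ℕ => ∑ k ∈ Finset.range n, e' (π k) x • e (π k)) atTop (𝓝 x)) := by
  intro hall
  let Y := HH × lp (fun _ : Γ => ℝ) ⊤
  let v : ℕ → Y := fun i => (bb i, ⟨fun g => ⟪G g, bb i⟫, memℓp_infty ⟨1, by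
    rintro _ ⟨g, rfl⟩; exact hB g i⟩⟩)
  let W : Submodule ℝ Y := (Submodule.span ℝ (Set.range v)).topologicalClosure
  have : CompleteSpace W :=
    (Submodule.isClosed_topologicalClosure _).completeSpace_coe
  have hv : ∀ i, v i ∈ W := fun i =>
    Submodule.le_topologicalClosure _ (Submodule.subset_span ⟨i, rfl⟩)
  have hW : ∀ x ∈ W, ∀ g, x.2 g = ⟪G g, x.1⟫ := by
    intro x hx g
    have hcl : IsClosed {x : Y | x.2 g = ⟪G g, x.1⟫} := by
      apply isClosed_eq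
      · exact (lp.evalCLM ℝ (fun _ : Γ => ℝ) ⊤ g).continuous.comp continuous_snd
      · fun_prop
    refine closure_minimal (s := (Submodule.span ℝ (Set.range v) : Set Y)) ?_ hcl hx
    intro y hy
    refine Submodule.span_induction (p := fun y _ => y.2 g = ⟪G g, y.1⟫) ?_ ?_ ?_ ?_ hy
    · rintro _ ⟨i, rfl⟩; rfl
    · simp [Y]
    · intro a c _ _ ha hc
      simp only [Y, Prod.snd_add, Prod.fst_add, inner_add_right, lp.coeFn_add, Pi.add_apply, ha, hc]
    · intro a c _ hc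
      simp only [Y, Prod.smul_snd, Prod.smul_fst, real_inner_smul_right, lp.coeFn_smul,
        Pi.smul_apply, hc, smul_eq_mul]
  let e : ℕ → W := fun i => ⟨v i, hv i⟩
  let p : W →L[ℝ] HH := (ContinuousLinearMap.fst ℝ _ _).comp W.subtypeL
  let e' : ℕ → W →L[ℝ] ℝ := fun i => (innerSL ℝ (bb i)).comp p
  have he' : ∀ i x, e' i x = ⟪bb i, p x⟫ := fun i x => rfl
  have hpe : ∀ i, p (e i) = bb i := fun i => rfl
  have n1 : ∀ x : W, ‖p x‖ ≤ ‖x‖ := fun x => norm_fst_le (x : Y)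
  have n2 : ∀ (x : W) g, |⟪G g, p x⟫| ≤ ‖x‖ := fun x g => by
    have h1 := hW x x.2 g
    have h2 : ‖(x : Y).2 g‖ ≤ ‖(x : Y).2‖ := lp.norm_apply_le_norm (by simp) _ g
    rw [h1] at h2
    exact h2.trans (norm_snd_le (x : Y))
  have n3 : ∀ (x : W) (c : ℝ), ‖p x‖ ≤ c → (∀ g, |⟪G g, p x⟫| ≤ c) → ‖x‖ ≤ c := by
    intro x c h1 h2
    show ‖(x : Y)‖ ≤ c
    rw [Prod.norm_def]
    refine max_le h1 ?_
    refine lp.norm_le_of_forall_le ((norm_nonneg _).trans h1) fun g => ?_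
    rw [hW x x.2 g]; exact h2 g
  have hpP : ∀ (x : W) (A : Finset ℕ), p (∑ i ∈ A, e' i x • e i) = ∑ i ∈ A, ⟪bb i, p x⟫ • bb i := by
    intro x A
    rw [map_sum]
    simp only [map_smul, hpe, he']
  obtain ⟨π, hπ⟩ := hall W e e' (fun i j => by rw [he', hpe, ib])
    (by
      rw [Subtype.dense_iff]
      refine closure_mono ?_
      intro y hy
      have : Submodule.span ℝ (Set.range v) = (Submodule.span ℝ (Set.range e)).map W.subtype := by
        rw [Submodule.map_span, ← Set.range_comp]; rfl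
      rw [this] at hy
      exact hy)
    (by
      intro x
      have := ((lp.memℓp (p x)).summable (by norm_num)).tendsto_atTop_zero.sqrt
      simp only [ENNReal.toReal_ofNat, Real.rpow_ofNat, Real.sqrt_sq (norm_nonneg _),
        Real.sqrt_zero] at this
      simpa only [he', bb_inner, Real.norm_eq_abs] using this)
    (by
      refine ⟨8, fun x A B hA hAB => ?_⟩
      rcases A.eq_empty_or_nonempty with rfl | hne
      · have : B = ∅ := by simpa using hAB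
        subst this
        linarith [norm_nonneg (x - ∑ i ∈ ∅, e' i x • e i)]
      obtain ⟨i0, hi0, hmin⟩ := A.exists_min_image (fun i => |⟪bb i, p x⟫|) hne
      set t := |⟪bb i0, p x⟫| with ht
      have ht0 : 0 ≤ t := abs_nonneg _
      have hout : ∀ j, j ∉ A → |⟪bb j, p x⟫| ≤ t := fun j hj => hA i0 hi0 j hj
      set y := x - ∑ i ∈ B, e' i x • e i with hy
      set z := x - ∑ i ∈ A, e' i x • e i with hz
      set r := ‖y‖ with hr
      have hr0 : 0 ≤ r := norm_nonneg _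
      have py : p y = p x - ∑ i ∈ B, ⟪bb i, p x⟫ • bb i := by rw [hy, map_sub, hpP]
      have pz : p z = p x - ∑ i ∈ A, ⟪bb i, p x⟫ • bb i := by rw [hz, map_sub, hpP]
      have pzy : p z = p y - ∑ i ∈ A \ B, ⟪bb i, p x⟫ • bb i
          + ∑ i ∈ B \ A, ⟪bb i, p x⟫ • bb i := by
        rw [py, pz, ← Finset.sum_inter_add_sum_sdiff A B, ← Finset.sum_inter_add_sum_sdiff B A,
          Finset.inter_comm B A]
        abel
      set s := (A \ B).card with hs
      have hs' : (B \ A).card ≤ s := by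
        have h1 := Finset.card_sdiff_add_card_inter A B
        have h2 := Finset.card_sdiff_add_card_inter B A
        rw [Finset.inter_comm] at h2
        omega
      have b1 : ∑ i ∈ A \ B, ⟪bb i, p x⟫ ^ 2 ≤ r ^ 2 := by
        have h1 := bessel (A \ B) (p y)
        have h2 : ∑ i ∈ A \ B, ⟪bb i, p y⟫ ^ 2 = ∑ i ∈ A \ B, ⟪bb i, p x⟫ ^ 2 := by
          refine Finset.sum_congr rfl fun i hi => ?_
          rw [py, inner_sub_right, inner_proj, if_neg (Finset.mem_sdiff.mp hi).2, sub_zero]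
        have h3 : ‖p y‖ ^ 2 ≤ r ^ 2 := by gcongr; exact n1 y
        linarith
      have b2 : (s : ℝ) * t ^ 2 ≤ r ^ 2 := by
        refine le_trans ?_ b1
        rw [hs, ← nsmul_eq_mul, ← Finset.sum_const]
        refine Finset.sum_le_sum fun i hi => ?_
        rw [← sq_abs ⟪bb i, p x⟫]
        gcongr
        exact hmin i (Finset.mem_sdiff.mp hi).1
      have b3 : ∑ i ∈ B \ A, ⟪bb i, p x⟫ ^ 2 ≤ r ^ 2 := by
        refine le_trans ?_ b2
        have : ∑ i ∈ B \ A, ⟪bb i, p x⟫ ^ 2 ≤ ∑ _i ∈ B \ A, t ^ 2 := by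
          refine Finset.sum_le_sum fun i hi => ?_
          rw [← sq_abs ⟪bb i, p x⟫]
          gcongr
          exact hout i (Finset.mem_sdiff.mp hi).2
        refine this.trans ?_
        rw [Finset.sum_const, nsmul_eq_mul]
        gcongr
      have b4 : √s * t ≤ r := by
        apply (abs_le_of_sq_le_sq' _ hr0).2
        rw [mul_pow, Real.sq_sqrt (Nat.cast_nonneg _)]; exact b2
      apply n3
      · have c1 : ‖∑ i ∈ A \ B, ⟪bb i, p x⟫ • bb i‖ ≤ r := by
          apply (abs_le_of_sq_le_sq' _ hr0).2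
          rw [norm_sum_sq]; exact b1
        have c2 : ‖∑ i ∈ B \ A, ⟪bb i, p x⟫ • bb i‖ ≤ r := by
          apply (abs_le_of_sq_le_sq' _ hr0).2
          rw [norm_sum_sq]; exact b3
        rw [pzy]
        have c3 := norm_add_le (p y - ∑ i ∈ A \ B, ⟪bb i, p x⟫ • bb i)
          (∑ i ∈ B \ A, ⟪bb i, p x⟫ • bb i)
        have c4 := norm_sub_le (p y) (∑ i ∈ A \ B, ⟪bb i, p x⟫ • bb i)
        linarith [n1 y]
      · intro g
        obtain ⟨g0, h0, h1⟩ := hT g s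
        have c0 : |⟪G g0, p z⟫| ≤ 4 * √s * t := by
          apply h0
          intro i
          rw [pz, inner_sub_right, inner_proj]
          split_ifs with hi
          · simpa using ht0
          · rw [sub_zero]; exact hout i hi
        have c1 := inner_small (A \ B) (fun i => ⟪bb i, p x⟫) (G g - G g0) s le_rfl r hr0 b1 h1
        have c2 := inner_small (B \ A) (fun i => ⟪bb i, p x⟫) (G g - G g0) s hs' r hr0 b3 h1
        have c3 := n2 y g
        have c4 := n2 y g0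
        have c5 : ⟪G g, p z⟫ = ⟪G g0, p z⟫ + ⟪G g - G g0, p z⟫ := by
          rw [inner_sub_left]; ring
        have c6 : ⟪G g - G g0, p z⟫ = ⟪G g, p y⟫ - ⟪G g0, p y⟫
            - ⟪G g - G g0, ∑ i ∈ A \ B, ⟪bb i, p x⟫ • bb i⟫
            + ⟪G g - G g0, ∑ i ∈ B \ A, ⟪bb i, p x⟫ • bb i⟫ := by
          rw [pzy, inner_add_right, inner_sub_right, inner_sub_left (G g) (G g0) (p y)]
        rw [c5, c6, abs_le]
        rw [abs_le] at c0 c1 c2 c3 c4
        constructor <;> nlinarith)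
  let S : ℕ → W →L[ℝ] W := fun n => ∑ k ∈ Finset.range n, (e' (π k)).smulRight (e (π k))
  have hS : ∀ n x, S n x = ∑ k ∈ Finset.range n, e' (π k) x • e (π k) := by
    intro n x; simp [S]
  obtain ⟨C, hC⟩ := banach_steinhaus (g := S) (fun x => by
    have := (hπ x).norm.bddAbove_range
    obtain ⟨C, hC⟩ := this
    exact ⟨C, fun n => by rw [hS]; exact hC ⟨n, rfl⟩⟩)
  obtain ⟨N, f, hf, hf1, hf2, g, hg⟩ := hN π (C + 1)
  obtain ⟨x, rfl⟩ : ∃ x : W, p x = f := by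
    refine Submodule.span_induction (p := fun y _ => ∃ x : W, p x = y) ?_ ?_ ?_ ?_ hf
    · rintro _ ⟨i, rfl⟩; exact ⟨e i, rfl⟩
    · exact ⟨0, map_zero _⟩
    · rintro _ _ _ _ ⟨a, rfl⟩ ⟨c, rfl⟩; exact ⟨a + c, map_add _ _ _⟩
    · rintro a _ _ ⟨c, rfl⟩; exact ⟨a • c, map_smul _ _ _⟩
  have h1 : ‖x‖ ≤ 1 := n3 x 1 hf1 hf2
  have h2 := n2 (S N x) g
  have h3 : p (S N x) = ∑ k ∈ Finset.range N, ⟪bb (π k), p x⟫ • bb (π k) := by
    rw [hS, map_sum]
    simp only [map_smul, hpe, he']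
  rw [h3] at h2
  have h4 := (S N).le_opNorm x
  have h5 := hC N
  have h6 := le_abs_self ⟪G g, ∑ k ∈ Finset.range N, ⟪bb (π k), p x⟫ • bb (π k)⟫
  have h7 : ‖S N‖ * ‖x‖ ≤ C * 1 := by gcongr; exact (norm_nonneg _).trans h5
  linarith

end Pool.Agent.H15.AGR
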