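import Mathlib

set_option autoImplicit false

namespace Pool.Agent.H15.AIM

theorem stab {α : Type} (mul : α → α → α) (e : α) (he : ∀ x, mul x e = x)
    (hc : ∀ x y, mul x y = mul y x) (hb : ∀ a b, ∃! x, mul a x = b) (φ : α → α → α → α)
    (h1 : ∀ x y z, mul (mul x y) (φ x y z) = mul x (mul y z))
    (h2 : ∀ x y u v z, φ x y (φ u v z) = φ u v (φ x y z)) :
    ∀ σ ∈ Subgroup.closure
        {π : Equiv.Perm α | ∃ a, (∀ x, π x = mul a x) ∨ (∀ x, π x = mul x a)},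
      ∀ τ ∈ Subgroup.closure
        {π : Equiv.Perm α | ∃ a, (∀ x, π x = mul a x) ∨ (∀ x, π x = mul x a)},
        σ e = e → τ e = e → σ * τ = τ * σ := by
  let L : α → Equiv.Perm α := fun a =>
    Equiv.ofBijective (mul a) ((Function.bijective_iff_existsUnique _).2 (hb a))
  have hL : ∀ a x, L a x = mul a x := fun _ _ => rfl
  let S : Set (Equiv.Perm α) := {π | ∃ x y, π = (L (mul x y))⁻¹ * (L x * L y)}
  have hS : ∀ x y z, ((L (mul x y))⁻¹ * (L x * L y)) z = φ x y z := fun x y z => by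
    rw [Equiv.Perm.mul_apply, Equiv.Perm.inv_eq_iff_eq, hL, h1]
    rfl
  have fix : ∀ π ∈ Subgroup.closure S, π e = e := fun π h => by
    refine (Subgroup.closure_le (K := MulAction.stabilizer (Equiv.Perm α) e)).2 ?_ h
    rintro _ ⟨x, y, rfl⟩
    show ((L (mul x y))⁻¹ * (L x * L y)) e = e
    rw [Equiv.Perm.mul_apply, Equiv.Perm.inv_eq_iff_eq, Equiv.Perm.mul_apply, hL, hL, hL, he, he]
  have one : L e = 1 := Equiv.ext fun x => by rw [hL, hc, he]; rfl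
  have key : ∀ σ ∈ Subgroup.closure
      {π : Equiv.Perm α | ∃ a, (∀ x, π x = mul a x) ∨ (∀ x, π x = mul x a)},
      ∃ a, (L a)⁻¹ * σ ∈ Subgroup.closure S := by
    have hg : ∀ π ∈ {π : Equiv.Perm α | ∃ a, (∀ x, π x = mul a x) ∨ (∀ x, π x = mul x a)},
        ∃ a, π = L a := by
      rintro π ⟨a, h | h⟩
      · exact ⟨a, Equiv.ext h⟩
      · exact ⟨a, Equiv.ext fun x => (h x).trans (hc _ _)⟩
    intro σ hσ
    induction hσ using Subgroup.closure_induction_left with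
    | one => exact ⟨e, by simp [one]⟩
    | mul_left x hx y _ ih =>
      obtain ⟨a, rfl⟩ := hg x hx
      obtain ⟨b, hb⟩ := ih
      refine ⟨mul a b, ?_⟩
      have := mul_mem (Subgroup.subset_closure (k := S) ⟨a, b, rfl⟩) hb
      simpa [mul_assoc] using this
    | inv_mul_cancel x hx y _ ih =>
      obtain ⟨a, rfl⟩ := hg x hx
      obtain ⟨b, h⟩ := ih
      obtain ⟨c, rfl, -⟩ := hb a b
      refine ⟨c, ?_⟩
      have := mul_mem (inv_mem (Subgroup.subset_closure (k := S) ⟨a, c, rfl⟩)) h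
      simpa [mul_assoc] using this
  have key2 : ∀ σ ∈ Subgroup.closure
      {π : Equiv.Perm α | ∃ a, (∀ x, π x = mul a x) ∨ (∀ x, π x = mul x a)},
      σ e = e → σ ∈ Subgroup.closure S := fun σ h h' => by
    obtain ⟨a, ha⟩ := key σ h
    have := fix _ ha
    rw [Equiv.Perm.mul_apply, h', Equiv.Perm.inv_eq_iff_eq, hL, he] at this
    simpa [← this, one] using ha
  intro σ hσ τ hτ e1 e2
  have hS' : ∀ p ∈ S, ∀ q ∈ S, p * q = q * p := by
    rintro _ ⟨x, y, rfl⟩ _ ⟨u, v, rfl⟩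
    ext z
    rw [Equiv.Perm.mul_apply (_ * _), Equiv.Perm.mul_apply (_ * _), hS, hS, hS, hS, h2]
  have := Subgroup.closure_le_centralizer_centralizer S
  have a1 : σ ∈ Subgroup.centralizer S :=
    (Subgroup.closure_le (Subgroup.centralizer S)).2 (fun p hp q hq => hS' q hq p hp)
      (key2 σ hσ e1)
  exact this (key2 τ hτ e2) σ a1

abbrev F := ZMod 3

@[ext] structure Q where
  (a1 a2 a3 a4 a5 b123 b124 b125 b134 b135 b145 b234 b235 b245 b345 c : F)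

def be (x1 x2 x3 y1 y2 y3 : F) : F := (x3 - y3) * (x1 * y2 - x2 * y1)

def dt (x1 x2 x3 y1 y2 y3 a1 a2 a3 : F) : F :=
  a3 * (x1 * y2 - x2 * y1) - a2 * (x1 * y3 - x3 * y1) + a1 * (x2 * y3 - x3 * y2)

def w (x y z : Q) : F := 0
  + (x.a4 * y.a5 - x.a5 * y.a4) * z.b123
  - (x.a3 * y.a5 - x.a5 * y.a3) * z.b124
  + (x.a3 * y.a4 - x.a4 * y.a3) * z.b125
  + (x.a2 * y.a5 - x.a5 * y.a2) * z.b134
  - (x.a2 * y.a4 - x.a4 * y.a2) * z.b135
  + (x.a2 * y.a3 - x.a3 * y.a2) * z.b145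
  - (x.a1 * y.a5 - x.a5 * y.a1) * z.b234
  + (x.a1 * y.a4 - x.a4 * y.a1) * z.b235
  - (x.a1 * y.a3 - x.a3 * y.a1) * z.b245
  + (x.a1 * y.a2 - x.a2 * y.a1) * z.b345

def mul (x y : Q) : Q where
  a1 := x.a1 + y.a1
  a2 := x.a2 + y.a2
  a3 := x.a3 + y.a3
  a4 := x.a4 + y.a4
  a5 := x.a5 + y.a5
  b123 := x.b123 + y.b123 + be x.a1 x.a2 x.a3 y.a1 y.a2 y.a3
  b124 := x.b124 + y.b124 + be x.a1 x.a2 x.a4 y.a1 y.a2 y.a4
  b125 := x.b125 + y.b125 + be x.a1 x.a2 x.a5 y.a1 y.a2 y.a5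
  b134 := x.b134 + y.b134 + be x.a1 x.a3 x.a4 y.a1 y.a3 y.a4
  b135 := x.b135 + y.b135 + be x.a1 x.a3 x.a5 y.a1 y.a3 y.a5
  b145 := x.b145 + y.b145 + be x.a1 x.a4 x.a5 y.a1 y.a4 y.a5
  b234 := x.b234 + y.b234 + be x.a2 x.a3 x.a4 y.a2 y.a3 y.a4
  b235 := x.b235 + y.b235 + be x.a2 x.a3 x.a5 y.a2 y.a3 y.a5
  b245 := x.b245 + y.b245 + be x.a2 x.a4 x.a5 y.a2 y.a4 y.a5
  b345 := x.b345 + y.b345 + be x.a3 x.a4 x.a5 y.a3 y.a4 y.a5
  c := x.c + y.c + w x y x + w y x y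

def p0 (x y z : Q) : Q := { z with
  b123 := z.b123 + dt y.a1 y.a2 y.a3 x.a1 x.a2 x.a3 z.a1 z.a2 z.a3
  b124 := z.b124 + dt y.a1 y.a2 y.a4 x.a1 x.a2 x.a4 z.a1 z.a2 z.a4
  b125 := z.b125 + dt y.a1 y.a2 y.a5 x.a1 x.a2 x.a5 z.a1 z.a2 z.a5
  b134 := z.b134 + dt y.a1 y.a3 y.a4 x.a1 x.a3 x.a4 z.a1 z.a3 z.a4
  b135 := z.b135 + dt y.a1 y.a3 y.a5 x.a1 x.a3 x.a5 z.a1 z.a3 z.a5
  b145 := z.b145 + dt y.a1 y.a4 y.a5 x.a1 x.a4 x.a5 z.a1 z.a4 z.a5
  b234 := z.b234 + dt y.a2 y.a3 y.a4 x.a2 x.a3 x.a4 z.a2 z.a3 z.a4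
  b235 := z.b235 + dt y.a2 y.a3 y.a5 x.a2 x.a3 x.a5 z.a2 z.a3 z.a5
  b245 := z.b245 + dt y.a2 y.a4 y.a5 x.a2 x.a4 x.a5 z.a2 z.a4 z.a5
  b345 := z.b345 + dt y.a3 y.a4 y.a5 x.a3 x.a4 x.a5 z.a3 z.a4 z.a5
  c := 0 }

def φ (x y z : Q) : Q := { p0 x y z with c := (mul x (mul y z)).c - (mul (mul x y) (p0 x y z)).c }

def o : Q := ⟨0, 0, 0, 0, 0, 0, 0, 0, 0, 0, 0, 0, 0, 0, 0, 0⟩

def r (z : Q) : Q := { o with a1 := z.a1, a2 := z.a2, a3 := z.a3, a4 := z.a4, a5 := z.a5 }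

lemma h3 : (3 : F) = 0 := rfl

lemma I3 (x1 x2 x3 y1 y2 y3 a1 a2 a3 : F) :
    be x1 x2 x3 y1 y2 y3 + dt y1 y2 y3 x1 x2 x3 a1 a2 a3 +
      be (x1 + y1) (x2 + y2) (x3 + y3) a1 a2 a3 =
    be y1 y2 y3 a1 a2 a3 + be x1 x2 x3 (y1 + a1) (y2 + a2) (y3 + a3) := by
  unfold be dt
  linear_combination (y3 * (x1 * a2 - x2 * a1)) * h3

lemma h1 (x y z : Q) : mul (mul x y) (φ x y z) = mul x (mul y z) := by
  ext
  all_goals simp only [mul, φ, p0, w]
  case b123 => linear_combination I3 x.a1 x.a2 x.a3 y.a1 y.a2 y.a3 z.a1 z.a2 z.a3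
  case b124 => linear_combination I3 x.a1 x.a2 x.a4 y.a1 y.a2 y.a4 z.a1 z.a2 z.a4
  case b125 => linear_combination I3 x.a1 x.a2 x.a5 y.a1 y.a2 y.a5 z.a1 z.a2 z.a5
  case b134 => linear_combination I3 x.a1 x.a3 x.a4 y.a1 y.a3 y.a4 z.a1 z.a3 z.a4
  case b135 => linear_combination I3 x.a1 x.a3 x.a5 y.a1 y.a3 y.a5 z.a1 z.a3 z.a5
  case b145 => linear_combination I3 x.a1 x.a4 x.a5 y.a1 y.a4 y.a5 z.a1 z.a4 z.a5
  case b234 => linear_combination I3 x.a2 x.a3 x.a4 y.a2 y.a3 y.a4 z.a2 z.a3 z.a4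
  case b235 => linear_combination I3 x.a2 x.a3 x.a5 y.a2 y.a3 y.a5 z.a2 z.a3 z.a5
  case b245 => linear_combination I3 x.a2 x.a4 x.a5 y.a2 y.a4 y.a5 z.a2 z.a4 z.a5
  case b345 => linear_combination I3 x.a3 x.a4 x.a5 y.a3 y.a4 y.a5 z.a3 z.a4 z.a5
  all_goals ring

lemma hφ (x y z : Q) : (φ x y z).c = z.c - w x y z + (φ x y (r z)).c := by
  simp only [mul, φ, p0, w, r, o]
  ring

lemma h2 (x y u v z : Q) : φ x y (φ u v z) = φ u v (φ x y z) := by
  ext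
  case c =>
    rw [hφ x y, hφ u v (φ x y z), hφ x y z, hφ u v z]
    have e1 : r (φ u v z) = r z := rfl
    have e2 : r (φ x y z) = r z := rfl
    rw [e1, e2]
    generalize (φ x y (r z)).c = s
    generalize (φ u v (r z)).c = t
    simp only [φ, p0, w, dt]
    ring
  all_goals simp only [φ, p0]
  all_goals ring

lemma comm (x y : Q) : mul x y = mul y x := by
  ext <;> simp only [mul, be] <;> ring

lemma one (x : Q) : mul x o = x := by
  ext <;> simp [mul, be, o, w]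

lemma inj (x : Q) : Function.Injective (mul x) := by
  intro y z h

  have ea : y.a1 = z.a1 ∧ y.a2 = z.a2 ∧ y.a3 = z.a3 ∧ y.a4 = z.a4 ∧ y.a5 = z.a5 :=
    ⟨add_left_cancel (congrArg Q.a1 h), add_left_cancel (congrArg Q.a2 h), add_left_cancel (congrArg Q.a3 h), add_left_cancel (congrArg Q.a4 h), add_left_cancel (congrArg Q.a5 h)⟩

  obtain ⟨e1, e2, e3, e4, e5⟩ := ea

  have b123 : y.b123 = z.b123 := by simpa [mul, *] using congrArg Q.b123 h

  have b124 : y.b124 = z.b124 := by simpa [mul, *] using congrArg Q.b124 h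

  have b125 : y.b125 = z.b125 := by simpa [mul, *] using congrArg Q.b125 h

  have b134 : y.b134 = z.b134 := by simpa [mul, *] using congrArg Q.b134 h

  have b135 : y.b135 = z.b135 := by simpa [mul, *] using congrArg Q.b135 h

  have b145 : y.b145 = z.b145 := by simpa [mul, *] using congrArg Q.b145 h

  have b234 : y.b234 = z.b234 := by simpa [mul, *] using congrArg Q.b234 h

  have b235 : y.b235 = z.b235 := by simpa [mul, *] using congrArg Q.b235 h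

  have b245 : y.b245 = z.b245 := by simpa [mul, *] using congrArg Q.b245 h

  have b345 : y.b345 = z.b345 := by simpa [mul, *] using congrArg Q.b345 h

  have c : y.c = z.c := by simpa [mul, w, *] using congrArg Q.c h
  ext <;> assumption

def eqv : Q ≃ (Fin 16 → F) where
  toFun := fun q => ![q.a1, q.a2, q.a3, q.a4, q.a5, q.b123, q.b124, q.b125, q.b134, q.b135, q.b145, q.b234, q.b235, q.b245, q.b345, q.c]
  invFun := fun f => ⟨f 0, f 1, f 2, f 3, f 4, f 5, f 6, f 7, f 8, f 9, f 10, f 11, f 12, f 13, f 14, f 15⟩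
  left_inv := fun q => rfl
  right_inv := fun f => by funext i; fin_cases i <;> rfl

noncomputable instance : Fintype Q := Fintype.ofEquiv _ eqv.symm

lemma bij (a b : Q) : ∃! x, mul a x = b :=
  (Function.bijective_iff_existsUnique _).1 (Finite.injective_iff_bijective.1 (inj a)) b

lemma odd : Odd (Fintype.card Q) := by
  rw [Fintype.card_congr eqv]
  simp only [Fintype.card_fun, ZMod.card]
  exact Odd.pow (by decide)

lemma nc (c : Q) (h : ∀ u v, mul (mul c u) v = mul c (mul u v)) :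
    mul (mul { o with a1 := 1 } { o with a2 := 1 }) { o with a3 := 1 } ≠
    mul (mul { o with a1 := 1 } (mul { o with a2 := 1 } { o with a3 := 1 })) c := by
  intro h'
  have e1 := congrArg Q.a1 h'
  have e2 := congrArg Q.a2 h'
  have e3 := congrArg Q.a3 h'
  have e4 := congrArg Q.a4 h'
  have e5 := congrArg Q.a5 h'
  have e6 := congrArg Q.b123 h'
  have e7 := congrArg Q.c (h { o with a4 := 1 } { o with a5 := 1 })
  simp [mul, o] at e1 e2 e3 e4 e5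
  replace e4 : c.a4 = 0 := by first | exact e4 | exact e4.symm
  replace e5 : c.a5 = 0 := by first | exact e5 | exact e5.symm
  simp [mul, o, be, w, e1, e2, e3, e4, e5] at e6 e7
  revert e6 e7
  generalize c.b123 = t
  revert t
  decide

end Pool.Agent.H15.AIM
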