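import Mathlib

set_option autoImplicit false

namespace Pool.Agent.H15.Bal

open Set
open scoped Classical

structure Id (α : Type*) where
  sm : Set α → Prop
  mono : ∀ {s t}, s ⊆ t → sm t → sm s
  un : ∀ {s t}, sm s → sm t → sm (s ∪ t)

lemma disc {I J : Type*} (A : Id I) (B : Id J) (F : I → J → ℝ)
    (PI : ∀ h : I → ℝ, ∃ S C, A.sm S ∧ ∀ i ∉ S, |h i| ≤ C)
    (PJ : ∀ h : J → ℝ, ∃ T C, B.sm T ∧ ∀ j ∉ T, |h j| ≤ C)
    (S1 : ∀ S, A.sm S → ∃ T C, B.sm T ∧ ∀ i ∈ S, ∀ j ∉ T, |F i j| ≤ C)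
    (S2 : ∀ T, B.sm T → ∃ S C, A.sm S ∧ ∀ i ∉ S, ∀ j ∈ T, |F i j| ≤ C) :
    ∃ S C, A.sm S ∧ ∀ i ∉ S, ∀ j, |F i j| ≤ C := by
  have z : ∀ m : ℕ, ∃ S, Maximal (fun S : Set I => (∀ i ∈ S, ∀ C, ∃ j, C < |F i j|) ∧
      ∀ i ∈ S, ∀ i' ∈ S, ∀ j, m < |F i j| → m < |F i' j| → i = i') S := fun m => by
    refine zorn_subset _ fun c hc ch => ⟨⋃₀ c, ⟨?_, ?_⟩, fun s hs => subset_sUnion_of_mem hs⟩
    · rintro i ⟨s, hs, hi⟩
      exact (hc hs).1 i hi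
    · rintro i ⟨s, hs, hi⟩ i' ⟨t, ht, hi'⟩
      rcases ch.total hs ht with h | h
      exacts [(hc ht).2 i (h hi) i' hi', (hc hs).2 i hi i' (h hi')]
  choose S hS using z
  have sm : ∀ m, A.sm (S m) := fun m => by
    obtain ⟨T, N, hT, hN⟩ := PJ fun j => if h : ∃ i ∈ S m, m < |F i j| then F h.choose j else 0
    obtain ⟨S', C, hS', hC⟩ := S2 T hT
    refine A.mono (fun i hi => by_contra fun n => ?_) hS'
    obtain ⟨j, hj⟩ := (hS m).1.1 i hi (max m (max N C))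
    simp only [max_lt_iff] at hj
    have h : ∃ i ∈ S m, m < |F i j| := ⟨i, hi, hj.1⟩
    have := hN j fun k => hj.2.2.not_ge (hC i n j k)
    rw [dif_pos h, (hS m).1.2 _ h.choose_spec.1 i hi j h.choose_spec.2 hj.1] at this
    exact hj.2.1.not_ge this
  have sU : A.sm (⋃ m, S m) := by
    obtain ⟨S', C, hS', hC⟩ := PI fun i => if h : ∃ m, i ∈ S m then (Nat.find h : ℝ) else 0
    obtain ⟨N, hN⟩ := exists_nat_gt C
    have : ∀ n, A.sm (S' ∪ {i | ∃ m < n, i ∈ S m}) := fun n => by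
      induction n with
      | zero => simpa using hS'
      | succ n ih =>
        refine A.mono ?_ (A.un ih (sm n))
        rintro i (h | ⟨m, hm, h⟩)
        · exact .inl (.inl h)
        · rcases Nat.lt_succ_iff_lt_or_eq.1 hm with k | rfl
          exacts [.inl (.inr ⟨m, k, h⟩), .inr h]
    refine A.mono (fun i hi => or_iff_not_imp_left.2 fun n => ?_) (this N)
    have h := mem_iUnion.1 hi
    have := hC i n
    rw [dif_pos h, Nat.abs_cast] at this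
    exact ⟨_, by exact_mod_cast this.trans_lt hN, Nat.find_spec h⟩
  obtain ⟨T, C, hT, hC⟩ := S1 _ sU
  obtain ⟨S', C', hS', hC'⟩ := S2 _ hT
  obtain ⟨m, hm⟩ := exists_nat_gt (max C C')
  rw [max_lt_iff] at hm
  have b : ∀ i ∉ S', ∃ C, ∀ j, |F i j| ≤ C := fun i hi => by
    by_contra! u
    have k : ∀ s ∈ S m, ∀ j, m < |F i j| → ¬ m < |F s j| := fun s hs j h1 h2 => by
      by_cases hj : j ∈ T
      · linarith [hC' i hi j hj, hm.2]
      · linarith [hC s (mem_iUnion.2 ⟨m, hs⟩) j hj, hm.1]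
    obtain ⟨j, hj⟩ := u m
    refine k i ((hS m).2 (y := insert i (S m)) ⟨forall_mem_insert.2 ⟨u, (hS m).1.1⟩, ?_⟩
      (subset_insert _ _) (mem_insert _ _)) j hj hj
    rintro a (rfl | ha) a' (rfl | ha') j h1 h2
    exacts [rfl, (k _ ha' j h1 h2).elim, (k _ ha j h2 h1).elim, (hS m).1.2 _ ha _ ha' j h1 h2]
  choose! c hc using b
  obtain ⟨S2, C2, h2, hC2⟩ := PI c
  exact ⟨S' ∪ S2, C2, A.un hS' h2, fun i hi j => (hc i (fun h => hi (.inl h)) j).trans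
    ((le_abs_self _).trans (hC2 i fun h => hi (.inr h)))⟩

/-- Finite sup-distance of rows. -/
def rows {X Y : Type*} (f : X → Y → ℝ) : Setoid X where
  r x x' := ∃ C, ∀ y, |f x y - f x' y| ≤ C
  iseqv := ⟨fun _ => ⟨0, by simp⟩, fun ⟨C, h⟩ => ⟨C, fun y => (abs_sub_comm _ _).trans_le (h y)⟩,
    fun ⟨C, h⟩ ⟨D, k⟩ => ⟨C + D, fun y => (abs_sub_le _ _ _).trans (add_le_add (h y) (k y))⟩⟩

/-- Pull back an ideal to a quotient. -/
def Id.quot {X : Type*} (A : Id X) (r : Setoid X) : Id (Quotient r) where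
  sm S := A.sm (Quotient.mk r ⁻¹' S)
  mono h := A.mono (preimage_mono h)
  un := A.un

lemma side {X Y : Type*} (A : Id X) (f : X → Y → ℝ)
    (H : ∀ h : X → ℝ, (∀ x x' c, (∀ y, |f x y - f x' y| ≤ c) → 0 ≤ c → |h x - h x'| ≤ c) →
      ∃ S C, A.sm S ∧ ∀ x ∉ S, |h x| ≤ C) :
    (∀ h : Quotient (rows f) → ℝ, ∃ S C, (A.quot _).sm S ∧ ∀ i ∉ S, |h i| ≤ C) ∧
    ∃ S D, A.sm S ∧ ∀ x ∉ S, ∀ y, |f x y - f (Quotient.mk (rows f) x).out y| ≤ D := by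
  refine ⟨fun h => ?_, ?_⟩
  · obtain ⟨S, C, hS, hC⟩ := H (fun x => h ⟦x⟧) fun x x' c k c0 => by
      rw [Quotient.sound (s := rows f) ⟨c, k⟩]; simpa using c0
    refine ⟨{i | ∀ x, ⟦x⟧ = i → x ∈ S}, C, A.mono (fun x hx => hx x rfl) hS, fun i hi => ?_⟩
    simp only [mem_setOf_eq, not_forall] at hi
    obtain ⟨x, rfl, hx⟩ := hi
    exact hC x hx
  · have b : ∀ x, BddAbove (range fun y => |f x y - f (Quotient.mk (rows f) x).out y|) :=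
      fun x => let ⟨C, h⟩ := (rows f).symm (Quotient.mk_out x); ⟨C, forall_mem_range.2 h⟩
    have l : ∀ x x' c, (∀ y, |f x y - f x' y| ≤ c) → 0 ≤ c →
        (⨆ y, |f x y - f (Quotient.mk (rows f) x).out y|) -
        ⨆ y, |f x' y - f (Quotient.mk (rows f) x').out y| ≤ c := fun x x' c k c0 => by
      refine sub_le_iff_le_add.2 (Real.iSup_le (fun y => ?_)
        (add_nonneg c0 (Real.iSup_nonneg fun _ => abs_nonneg _)))
      rw [Quotient.sound (s := rows f) ⟨c, k⟩]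
      exact (abs_sub_le _ _ _).trans (add_le_add (k y) (le_ciSup (b x') y))
    obtain ⟨S, C, hS, hC⟩ := H (fun x => ⨆ y, |f x y - f (Quotient.mk (rows f) x).out y|)
      fun x x' c k c0 => abs_sub_le_iff.2 ⟨l x x' c k c0,
        l x' x c (fun y => (abs_sub_comm _ _).trans_le (k y)) c0⟩
    exact ⟨S, C, hS, fun x hx y => (le_ciSup (b x) y).trans ((le_abs_self _).trans (hC x hx))⟩

lemma strip {X Y J : Type*} (A : Id X) (B : Id J) (f : X → Y → ℝ) (o : J → Y) {S0 : Set X} {D : ℝ}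
    (h0 : A.sm S0) (hD : ∀ x ∉ S0, ∀ y, |f x y - f (Quotient.mk (rows f) x).out y| ≤ D)
    {S : Set X} {T : Set J} {C : ℝ} (hS : A.sm S) (hC : ∀ x ∉ S, ∀ j ∈ T, |f x (o j)| ≤ C) :
    ∃ S C, (A.quot (rows f)).sm S ∧ ∀ i ∉ S, ∀ j ∈ T, |f i.out (o j)| ≤ C := by
  refine ⟨{i | ∀ x, ⟦x⟧ = i → x ∈ S ∪ S0}, C + D, A.mono (fun x hx => hx x rfl) (A.un hS h0),
    fun i hi j hj => ?_⟩
  simp only [mem_setOf_eq, not_forall, mem_union, not_or] at hi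
  obtain ⟨x, rfl, hx, hx0⟩ := hi
  linarith [hC x hx j hj, hD x hx0 (o j), abs_sub_abs_le_abs_sub (f (Quotient.mk (rows f) x).out (o j))
    (f x (o j)), abs_sub_comm (f (Quotient.mk (rows f) x).out (o j)) (f x (o j))]

theorem core {X Y : Type*} (A : Id X) (B : Id Y) (f : X → Y → ℝ)
    (HX : ∀ h : X → ℝ, (∀ x x' c, (∀ y, |f x y - f x' y| ≤ c) → 0 ≤ c → |h x - h x'| ≤ c) →
      ∃ S C, A.sm S ∧ ∀ x ∉ S, |h x| ≤ C)
    (HY : ∀ h : Y → ℝ, (∀ y y' c, (∀ x, |f x y - f x y'| ≤ c) → 0 ≤ c → |h y - h y'| ≤ c) →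
      ∃ S C, B.sm S ∧ ∀ y ∉ S, |h y| ≤ C)
    (S1 : ∀ S, A.sm S → ∃ T C, B.sm T ∧ ∀ i ∈ S, ∀ j ∉ T, |f i j| ≤ C)
    (S2 : ∀ T, B.sm T → ∃ S C, A.sm S ∧ ∀ i ∉ S, ∀ j ∈ T, |f i j| ≤ C) :
    ∃ S T C, A.sm S ∧ B.sm T ∧ ∀ x y, ¬ (x ∈ S ∧ y ∈ T) → |f x y| ≤ C := by
  obtain ⟨PI, S0, D, h0, hD⟩ := side A f HX
  obtain ⟨PJ, T0, D', h0', hD'⟩ := side B (fun y x => f x y) HY
  obtain ⟨S, C, hS, hC⟩ := disc (A.quot _) (B.quot _) (fun i j => f i.out j.out) PI PJ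
    (fun S hS => by
      obtain ⟨T, C, hT, hC⟩ := S1 _ hS
      obtain ⟨T, C, hT, hC⟩ := strip B (A.quot _) (fun y x => f x y) Quotient.out h0' hD' (T := S)
        hT fun y hy i hi => hC _ (by simpa using hi) y hy
      exact ⟨T, C, hT, fun i hi j hj => hC j hj i hi⟩)
    fun T hT => by
      obtain ⟨S, C, hS, hC⟩ := S2 _ hT
      exact strip A (B.quot _) f Quotient.out h0 hD hS fun x hx j hj => hC x hx _ (by simpa using hj)
  obtain ⟨T1, C1, hT1, hC1⟩ := S1 _ (A.un hS h0)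
  obtain ⟨S1, C2, hS1, hC2⟩ := S2 _ h0'
  refine ⟨_, _, max (C + D + D') (max C1 C2), A.un (A.un hS h0) hS1, B.un h0' hT1, fun x y n => ?_⟩
  simp only [le_max_iff]
  by_cases hx : x ∈ Quotient.mk (rows f) ⁻¹' S ∪ S0
  · exact .inr (.inl (hC1 x hx y fun h => n ⟨.inl hx, .inr h⟩))
  by_cases hy : y ∈ T0
  · exact .inr (.inr (hC2 x (fun h => n ⟨.inr h, .inl hy⟩) y hy))
  have a := abs_le.1 (hC ⟦x⟧ (fun h => hx (.inl h)) ⟦y⟧)
  have b := abs_le.1 (hD x (fun h => hx (.inr h)) y)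
  have c := abs_le.1 (hD' y hy (Quotient.mk (rows f) x).out)
  exact .inl (abs_le.2 ⟨by linarith [a.1, b.1, c.1], by linarith [a.2, b.2, c.2]⟩)

end Pool.Agent.H15.Bal
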