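import Mathlib

set_option autoImplicit false

namespace Pool.Agent.H15.Berg

open Set Equiv

lemma ext_perm {Ω : Type} [Countable Ω] (f : Ω → Ω) (A : Set Ω) (h : InjOn f A)
    (h1 : Aᶜ.Infinite) (h2 : (f '' A)ᶜ.Infinite) : ∃ g : Perm Ω, ∀ x ∈ A, g x = f x := by
  have := h1.to_subtype
  have := h2.to_subtype
  obtain ⟨g, hg⟩ := Cardinal.extend_function (s := A) ⟨A.restrict f, h.injective⟩ (by
    have e : range (A.restrict f) = f '' A := range_restrict f A
    show Nonempty (_ ≃ ↥(range (A.restrict f))ᶜ)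
    rw [e]
    exact nonempty_equiv_of_countable)
  exact ⟨g, fun x hx => hg ⟨x, hx⟩⟩

lemma fix_mem {Ω : Type} {g : Perm Ω} {S : Set Ω} (h : ∀ x ∉ S, g x = x) {x : Ω} (hx : x ∈ S) :
    g x ∈ S := by
  by_contra h'
  exact h' ((g.injective (h _ h')).symm ▸ hx)

lemma fix_inv {Ω : Type} {g : Perm Ω} {S : Set Ω} (h : ∀ x ∉ S, g x = x) :
    ∀ x ∉ S, g⁻¹ x = x := fun x hx => Perm.inv_eq_iff_eq.2 (h x hx).symm

abbrev O := ℕ × ℤ × ℕ

lemma lev (p : ℕ) : {x : O | x.1 = p}.Infinite :=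
  infinite_of_injective_forall_mem (f := fun n : ℕ => ((p, 0, n) : O))
    (fun a b h => by simpa using h) fun _ => rfl

section
variable (l : Perm O → ℕ) (hm : ∀ a b, l (a * b) ≤ l a + l b) (hi : ∀ a, l a⁻¹ = l a)
include hm hi

lemma step2 : ∃ i B, ∀ g : Perm O, (∀ x ∉ {x : O | x.1 = i ∧ x.2.1 = 0}, g x = x) → l g ≤ B := by
  obtain ⟨i, h⟩ : ∃ i, ∀ π : Perm (ℤ × ℕ), ∃ f : Perm O, l f ≤ i ∧ ∀ x, f (i, x) = (i, π x) := by
    by_contra! h
    choose π hπ using h
    obtain ⟨x, hx⟩ := hπ _ (prodCongrRight π) le_rfl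
    exact hx rfl
  let s : Perm O := prodCongrRight fun j =>
    if j = i then (Equiv.addRight (1 : ℤ)).prodCongr (Equiv.refl ℕ) else 1
  refine ⟨i, i + l s + i + l s, fun g hg => ?_⟩
  have e : ∀ g : Perm O, (∀ x ∉ {x : O | x.1 = i ∧ x.2.1 = 0}, g x = x) →
      ∀ n, (i, 0, (g (i, 0, n)).2.2) = g (i, 0, n) := fun g hg n => by
    have := fix_mem hg (x := (i, 0, n)) ⟨rfl, rfl⟩
    exact Prod.ext this.1.symm (Prod.ext this.2.symm rfl)
  let ρ : Perm ℕ := ⟨fun n => (g (i, 0, n)).2.2, fun n => (g⁻¹ (i, 0, n)).2.2,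
    fun n => by simp [e g hg], fun n => by
      show (g (i, 0, (g⁻¹ (i, 0, n)).2.2)).2.2 = n
      rw [e _ (fix_inv hg)]
      simp⟩
  obtain ⟨f, h1, h2⟩ := h (prodCongrRight fun z => if 0 ≤ z then ρ else 1)
  have : g * s * f = f * s := by
    ext1 ⟨j, z, n⟩
    by_cases hj : j = i
    · subst hj
      have hs : ∀ z n, s (j, z, n) = (j, z + 1, n) := fun z n => by simp [s]
      simp only [Perm.mul_apply, hs, h2, prodCongrRight_apply]
      by_cases hz : z + 1 = 0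
      · rw [hz, if_neg (by omega), if_pos le_rfl]
        exact (e g hg n).symm
      · rw [hg _ fun h => hz h.2]
        by_cases h0 : 0 ≤ z
        · rw [if_pos h0, if_pos (by omega)]
        · rw [if_neg h0, if_neg (by omega)]
    · have hs : ∀ x : O, x.1 ≠ i → s x = x := fun ⟨a, b⟩ h => by simp [s, show a ≠ i from h]
      have : (f (j, z, n)).1 ≠ i := fun h => by
        obtain ⟨y, hy⟩ := (prodCongrRight fun z : ℤ => if 0 ≤ z then ρ else 1).surjective
          (f (j, z, n)).2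
        have := f.injective ((h2 y).trans (Prod.ext h.symm hy))
        exact hj (congrArg Prod.fst this).symm
      simp only [Perm.mul_apply]
      rw [hs _ this, hs _ hj, hg _ fun h => this h.1]
  have e2 : g = f * s * f⁻¹ * s⁻¹ := by rw [← this]; group
  have a1 := hm (f * s * f⁻¹) s⁻¹
  have a2 := hm (f * s) f⁻¹
  have a3 := hm f s
  rw [hi] at a1 a2
  rw [e2]
  omega

lemma step3 (p : ℕ) : ∃ B, ∀ g : Perm O, (∀ x : O, x.1 = p → g x = x) → l g ≤ B := by
  obtain ⟨i, B, h⟩ := step2 l hm hi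
  have i1 := (lev p).to_subtype
  have i2 : Infinite {x : O // ¬ x.1 = p} :=
    ((lev (p + 1)).mono fun x (hx : x.1 = p + 1) (h : x.1 = p) => by omega).to_subtype
  have i3 : Infinite {x : O // ¬ (x.1 = i ∧ x.2.1 = 0)} :=
    ((lev (i + 1)).mono fun x (hx : x.1 = i + 1) (h : x.1 = i ∧ _) => by omega).to_subtype
  have i4 : Infinite {x : O // ¬ ¬ (x.1 = i ∧ x.2.1 = 0)} :=
    (infinite_of_injective_forall_mem (f := fun n : ℕ => ((i, 0, n) : O))
      (s := {x : O | ¬ ¬ (x.1 = i ∧ x.2.1 = 0)}) (fun a b h => by simpa using h)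
      fun _ => by simp).to_subtype
  obtain ⟨e1⟩ : Nonempty ({x : O // x.1 = p} ≃ {x : O // ¬ (x.1 = i ∧ x.2.1 = 0)}) :=
    @nonempty_equiv_of_countable _ _ _ i1 _ _
  obtain ⟨e2⟩ : Nonempty ({x : O // ¬ x.1 = p} ≃ {x : O // ¬ ¬ (x.1 = i ∧ x.2.1 = 0)}) :=
    nonempty_equiv_of_countable
  let w : Perm O := Equiv.subtypeCongr e1 e2
  have hw : ∀ x, ¬ (x.1 = i ∧ x.2.1 = 0) → (w⁻¹ x).1 = p := fun x hx => by
    have : w (e1.symm ⟨x, hx⟩) = x := by
      simp [w, Equiv.subtypeCongr, sumCompl_symm_apply_of_pos (p := fun x : O => x.1 = p)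
        (e1.symm ⟨x, hx⟩).2]
    rw [Perm.inv_eq_iff_eq.2 this.symm]
    exact (e1.symm ⟨x, hx⟩).2
  refine ⟨l w + B + l w, fun g hg => ?_⟩
  have := h (w * g * w⁻¹) fun x hx => by
    rw [Perm.mul_apply, Perm.mul_apply, hg _ (hw x hx)]
    simp
  have a1 := hm (w⁻¹ * (w * g * w⁻¹)) w
  have a2 := hm w⁻¹ (w * g * w⁻¹)
  rw [hi] at a2
  rw [show w⁻¹ * (w * g * w⁻¹) * w = g by group] at a1
  omega
end

lemma step4 (p q : ℕ) (hp : p < 2) (hq : q < 2) (hpq : p ≠ q) (g : Perm O)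
    (h : ({x : O | x.1 = p} ∪ g '' {x : O | x.1 = p})ᶜ.Infinite) :
    ∃ a b : Perm O, (∀ x : O, x.1 = p → a x = x) ∧ (∀ x : O, x.1 = q → b x = x) ∧
      ∀ x : O, x.1 = p → (b * a * g) x = x := by
  obtain ⟨e⟩ : Nonempty (O ≃ ℤ × ℕ) := nonempty_equiv_of_countable
  obtain ⟨a, ha⟩ := ext_perm (fun x : O => if x.1 = p then x else (2, e x)) _ (by
    intro x _ y _ h
    by_cases h1 : x.1 = p <;> by_cases h2 : y.1 = p <;> simp only [h1, h2, if_true, if_false] at h
    · exact h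
    · have := congrArg Prod.fst h; omega
    · have := congrArg Prod.fst h; omega
    · simpa using h) h ((lev 3).mono (by
      rintro x (hx : x.1 = 3) ⟨y, -, rfl⟩
      by_cases h1 : y.1 = p <;> simp only [h1, if_true, if_false] at hx <;> omega))
  have k : ∀ x : O, x.1 = p → (a (g x)).1 = p ∨ (a (g x)).1 = 2 := fun x hx => by
    rw [ha _ (Or.inr ⟨x, hx, rfl⟩)]
    by_cases h1 : (g x).1 = p <;> simp [h1]
  obtain ⟨b, hb⟩ := ext_perm (fun x : O => if x.1 = q then x else (a * g)⁻¹ x)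
    ({x : O | x.1 = q} ∪ (a * g) '' {x : O | x.1 = p}) (by
    have k2 : ∀ x ∈ {x : O | x.1 = q} ∪ (a * g) '' {x : O | x.1 = p}, x.1 ≠ q →
        ((a * g)⁻¹ x).1 = p := by
      rintro _ (h | ⟨y, hy, rfl⟩) h'
      · exact absurd h h'
      · simpa using hy
    intro x hx y hy h
    by_cases h1 : x.1 = q <;> by_cases h2 : y.1 = q <;> simp only [h1, h2, if_true, if_false] at h
    · exact h
    · have := k2 y hy h2; rw [← h] at this; omega
    · have := k2 x hx h1; rw [h] at this; omega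
    · exact (a * g)⁻¹.injective h) ((lev 3).mono (by
      rintro x (hx : x.1 = 3) (h | ⟨y, hy, rfl⟩)
      · have : x.1 = q := h; omega
      · have := k y hy; rw [Perm.mul_apply] at hx; omega)) ((lev 3).mono (by
      rintro x (hx : x.1 = 3) ⟨y, hy, rfl⟩
      by_cases h1 : y.1 = q <;> simp only [h1, if_true, if_false] at hx
      · omega
      · obtain ⟨z, hz, rfl⟩ := hy.resolve_left h1
        have : z.1 = p := hz
        simp at hx
        omega))
  refine ⟨a, b, fun x hx => by rw [ha x (Or.inl hx), if_pos hx],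
    fun x hx => by rw [hb x (Or.inl hx), if_pos hx], fun x hx => ?_⟩
  have := k x hx
  rw [mul_assoc, Perm.mul_apply, hb _ (Or.inr ⟨x, hx, rfl⟩),
    if_neg (by rw [Perm.mul_apply]; omega)]
  simp

theorem bergman {Ω : Type} [Countable Ω] [Infinite Ω] (l : Perm Ω → ℕ)
    (hm : ∀ a b, l (a * b) ≤ l a + l b) (hi : ∀ a, l a⁻¹ = l a) : ∃ B, ∀ g, l g ≤ B := by
  obtain ⟨e⟩ : Nonempty (O ≃ Ω) := nonempty_equiv_of_countable
  let l' : Perm O → ℕ := fun g => l (e.permCongrHom g)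
  have hm' : ∀ a b, l' (a * b) ≤ l' a + l' b := fun a b => by simp only [l', map_mul, hm]
  have hi' : ∀ a, l' a⁻¹ = l' a := fun a => by simp only [l', map_inv, hi]
  obtain ⟨B0, h0⟩ := step3 l' hm' hi' 0
  obtain ⟨B1, h1⟩ := step3 l' hm' hi' 1
  refine ⟨2 * (B0 + B1), fun g => ?_⟩
  obtain ⟨g, rfl⟩ := e.permCongrHom.surjective g
  show l' g ≤ _
  have k : ∀ a b : Perm O, l' g ≤ l' a + l' b + l' (b * a * g) := fun a b => by
    have a1 := hm' a⁻¹ (b⁻¹ * (b * a * g))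
    have a2 := hm' b⁻¹ (b * a * g)
    rw [hi'] at a1 a2
    rw [show a⁻¹ * (b⁻¹ * (b * a * g)) = g by group] at a1
    omega
  by_cases h : ({x : O | x.1 = 0} ∪ g '' {x : O | x.1 = 0})ᶜ.Infinite
  · obtain ⟨a, b, c1, c2, c3⟩ := step4 0 1 (by omega) (by omega) (by omega) g h
    have := k a b; have := h0 _ c1; have := h1 _ c2; have := h0 _ c3; omega
  · obtain ⟨a, b, c1, c2, c3⟩ := step4 1 0 (by omega) (by omega) (by omega) g
      (((lev 2).diff (not_infinite.1 h)).mono (by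
        rintro x ⟨(h1 : x.1 = 2), h2⟩ (h3 | ⟨y, hy, rfl⟩)
        · have : x.1 = 1 := h3; omega
        · rcases not_not.1 h2 with h4 | ⟨z, hz, h4⟩
          · have : (g y).1 = 0 := h4; omega
          · obtain rfl := g.injective h4
            have : z.1 = 0 := hz
            have : z.1 = 1 := hy
            omega))
    have := k a b; have := h1 _ c1; have := h0 _ c2; have := h1 _ c3; omega

end Pool.Agent.H15.Berg
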