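import Mathlib

set_option autoImplicit false

namespace Pool.Agent.H15.CI

/-- Chvatal functions in one variable -/
inductive Ch : (ℤ → ℤ) → Prop
  | lin (a : ℤ) : Ch fun x => a * x
  | add {f g : ℤ → ℤ} : Ch f → Ch g → Ch fun x => f x + g x
  | fl {f : ℤ → ℤ} (c : ℕ) : 0 < c → Ch f → Ch fun x => f x / c

lemma Ch.congr {f g : ℤ → ℤ} (h : Ch f) (e : ∀ x, f x = g x) : Ch g := (funext e : f = g) ▸ h

lemma Ch.zero {f : ℤ → ℤ} (h : Ch f) : f 0 = 0 := by
  induction h with
  | lin a => simp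
  | add _ _ h1 h2 => simp [h1, h2]
  | fl c _ _ h1 => simp [h1]

lemma Ch.nsmul {f : ℤ → ℤ} (h : Ch f) (k : ℕ) : Ch fun x => k * f x := by
  induction k with
  | zero => exact (Ch.lin 0).congr (by simp)
  | succ k ih => exact (ih.add h).congr (by intro x; push_cast; ring)

lemma Ch.lift {g p : ℤ → ℤ} (hg : Ch g) (hp : Ch p) (n : ℤ) :
    ∃ M0 : ℕ, ∀ M : ℕ, M0 ≤ M → Ch fun x => g (x - n * p x) + M * p x := by
  induction hg with
  | lin a =>
    refine ⟨(a * n).natAbs, fun M hM => ?_⟩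
    obtain ⟨k, hk⟩ : ∃ k : ℕ, (k : ℤ) = M - a * n := ⟨(M - a * n).toNat, by omega⟩
    exact ((Ch.lin a).add (hp.nsmul k)).congr (by intro x; rw [hk]; ring)
  | add _ _ h1 h2 =>
    obtain ⟨M1, h1⟩ := h1
    obtain ⟨M2, h2⟩ := h2
    refine ⟨M1 + M2, fun M hM => ?_⟩
    refine ((h1 M1 le_rfl).add (h2 (M - M1) (by omega))).congr fun x => ?_
    rw [Nat.cast_sub (by omega)]; ring
  | fl c hc _ h1 =>
    obtain ⟨M1, h1⟩ := h1
    refine ⟨M1, fun M hM => ?_⟩
    refine ((h1 (M * c) (by nlinarith)).fl c hc).congr fun x => ?_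
    push_cast
    rw [show (M : ℤ) * c * p x = M * p x * c by ring, Int.add_mul_ediv_right _ _ (by omega)]

lemma bound (f : ℤ → ℤ) (L : Finset ℤ) : ∃ Q : ℕ, ∀ x ∈ L, |f x| ≤ Q := by
  refine ⟨L.sup fun x => (f x).natAbs, fun x hx => ?_⟩
  have := Finset.le_sup (f := fun x => (f x).natAbs) hx
  rw [Int.abs_eq_natAbs]; exact_mod_cast this

lemma sep (L : Finset ℤ) (hL : ∀ n ∈ L, 0 < n) : ∀ F : ℤ, F ∉ AddSubmonoid.closure (L : Set ℤ) →
    ∃ g, Ch g ∧ (∀ n ∈ L, 0 ≤ g n) ∧ g F < 0 := by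
  induction L using Finset.induction_on with
  | empty =>
    intro F hF
    have : F ≠ 0 := by rintro rfl; exact hF (zero_mem _)
    exact ⟨_, Ch.lin (-F), by simp, by nlinarith [mul_self_pos.2 this]⟩
  | insert n L hn ih =>
    intro F hF
    have ih := ih fun m hm => hL m (Finset.mem_insert_of_mem hm)
    have key : ∀ U : ℕ, ∀ p, Ch p → 1 ≤ p n → (∀ m ∈ L, 0 ≤ p m) → p F < U →
        ∃ g, Ch g ∧ 1 ≤ g n ∧ (∀ m ∈ L, 0 ≤ g m) ∧ g F < 0 := by
      intro U
      induction U with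
      | zero => intro p h1 h2 h3 h4; exact ⟨p, h1, h2, h3, h4⟩
      | succ U ihU =>
        intro p h1 h2 h3 h4
        by_cases h5 : p F < U
        · exact ihU p h1 h2 h3 h5
        have h6 : p F = U := by push_cast at h4; omega
        have h7 : F - n * U ∉ AddSubmonoid.closure (L : Set ℤ) := by
          intro h
          apply hF
          have a1 : F - n * U ∈ AddSubmonoid.closure ((insert n L : Finset ℤ) : Set ℤ) :=
            AddSubmonoid.closure_mono (by simp) h
          have a2 : n ∈ AddSubmonoid.closure ((insert n L : Finset ℤ) : Set ℤ) :=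
            AddSubmonoid.subset_closure (by simp)
          have := add_mem a1 (nsmul_mem a2 U)
          simpa [mul_comm] using this
        obtain ⟨g, g1, g2, g3⟩ := ih _ h7
        obtain ⟨M0, hM0⟩ := g1.lift h1 n
        obtain ⟨Q, hQ⟩ := bound (fun x => g (x - n * p x)) (insert n L)
        have hM : (0 : ℤ) < ((M0 + Q + 1 : ℕ) : ℤ) := by positivity
        have hMQ : (Q : ℤ) ≤ ((M0 + Q + 1 : ℕ) : ℤ) := by omega
        refine ihU _ ((hM0 (M0 + Q + 1) (by omega)).fl (M0 + Q + 1) (by omega)) ?_ ?_ ?_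
        · rw [Int.le_ediv_iff_mul_le hM]
          rcases h2.eq_or_lt with e | e
          · rw [← e]; simp [g1.zero]
          · have := abs_le.1 (hQ n (by simp))
            nlinarith
        · intro m hm
          refine Int.ediv_nonneg ?_ hM.le
          rcases (h3 m hm).eq_or_lt with e | e
          · rw [← e]; simpa using g2 m hm
          · have := abs_le.1 (hQ m (by simp [hm]))
            nlinarith
        · rw [Int.ediv_lt_iff_lt_mul hM, h6]
          linarith
    obtain ⟨g, g1, g2, g3, g4⟩ := key (F.natAbs + 1) _ (Ch.lin 1)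
      (by have := hL n (by simp); omega)
      (fun m hm => by have := hL m (by simp [hm]); omega) (by omega)
    refine ⟨g, g1, fun m hm => ?_, g4⟩
    rcases Finset.mem_insert.1 hm with rfl | hm
    · omega
    · exact g3 m hm

lemma sep_all (L : Finset ℤ) (hL : ∀ n ∈ L, 0 < n) (G : Finset ℤ) :
    (∀ F ∈ G, F ∉ AddSubmonoid.closure (L : Set ℤ)) →
    ∃ g, Ch g ∧ (∀ n ∈ L, 0 ≤ g n) ∧ ∀ F ∈ G, g F < 0 := by
  induction G using Finset.induction_on with
  | empty => intro _; exact ⟨_, Ch.lin 0, by simp, by simp⟩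
  | insert F G hF ih =>
    intro h
    obtain ⟨g, g1, g2, g3⟩ := ih fun m hm => h m (Finset.mem_insert_of_mem hm)
    obtain ⟨f, f1, f2, f3⟩ := sep L hL F (h F (by simp))
    obtain ⟨Q, hQ⟩ := bound g {F}
    obtain ⟨R, hR⟩ := bound f G
    have hQ0 : (0 : ℤ) < ((Q + 1 : ℕ) : ℤ) := by positivity
    have hR0 : (0 : ℤ) < ((R + 1 : ℕ) : ℤ) := by positivity
    refine ⟨_, (g1.fl (Q + 1) (by omega)).add (f1.fl (R + 1) (by omega)), fun m hm => ?_,
      fun m hm => ?_⟩
    · exact add_nonneg (Int.ediv_nonneg (g2 m hm) hQ0.le) (Int.ediv_nonneg (f2 m hm) hR0.le)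
    · rcases Finset.mem_insert.1 hm with rfl | hm
      · have a1 : g m / ((Q + 1 : ℕ) : ℤ) < 1 := by
          rw [Int.ediv_lt_iff_lt_mul hQ0]
          have := abs_le.1 (hQ m (by simp)); omega
        have a2 : f m / ((R + 1 : ℕ) : ℤ) < 0 := Int.ediv_neg_of_neg_of_pos f3 hR0
        omega
      · have a1 : f m / ((R + 1 : ℕ) : ℤ) < 1 := by
          rw [Int.ediv_lt_iff_lt_mul hR0]
          have := abs_le.1 (hR m hm); omega
        have a2 : g m / ((Q + 1 : ℕ) : ℤ) < 0 := Int.ediv_neg_of_neg_of_pos (g3 m hm) hQ0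
        omega

end Pool.Agent.H15.CI
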