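import Mathlib

set_option autoImplicit false

namespace Pool.Agent.H15.CI

/-- The factorization map `a ↦ ∑ a_i n_i` from `ℕ^e` to `ℕ`. -/
def phi {e : ℕ} (n : Fin e → ℕ) : (Fin e → ℕ) →+ ℕ where
  toFun a := ∑ i, a i * n i
  map_zero' := by simp
  map_add' a b := by simp [add_mul, Finset.sum_add_distrib]

/-- `σ` generates the kernel congruence of the factorization map. -/
def IsPresentation {e : ℕ} (n : Fin e → ℕ) (σ : Finset ((Fin e → ℕ) × (Fin e → ℕ))) : Prop :=
  addConGen (fun a b => (a, b) ∈ σ) = AddCon.ker (phi n)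

/-- `n_1, …, n_e` is the minimal generating system of `S`. -/
def IsMinGen (S : AddSubmonoid ℕ) {e : ℕ} (n : Fin e → ℕ) : Prop :=
  AddSubmonoid.closure (Set.range n) = S ∧ ∀ i, n i ∉ AddSubmonoid.closure (n '' {i}ᶜ)

/-- A numerical semigroup: a submonoid of `ℕ` with finite complement. -/
def IsNumerical (S : AddSubmonoid ℕ) : Prop := (S : Set ℕ)ᶜ.Finite

/-- A presentation of least cardinality has exactly `e - 1` elements. -/
def IsCompleteIntersection (S : AddSubmonoid ℕ) : Prop :=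
  ∃ (e : ℕ) (n : Fin e → ℕ), IsMinGen S n ∧
    ∃ σ, IsPresentation n σ ∧ (∀ τ, IsPresentation n τ → σ.card ≤ τ.card) ∧ σ.card = e - 1

end Pool.Agent.H15.CI
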