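import Mathlib
import Pool.Agent.H15.CIDefs
import Pool.Agent.H15.CIChv

set_option autoImplicit false

namespace Pool.Agent.H15.CI

lemma phi_apply {e : ℕ} (n a : Fin e → ℕ) : phi n a = ∑ i, a i * n i := rfl

def glue {e : ℕ} (n : Fin e → ℕ) (l m : ℕ) : Fin (e + 1) → ℕ := Fin.cons l fun i => m * n i

lemma phi_glue {e : ℕ} (n : Fin e → ℕ) (l m t : ℕ) (a : Fin e → ℕ) :
    phi (glue n l m) (Fin.cons t a) = t * l + m * phi n a := by
  simp only [phi_apply, glue, Fin.sum_univ_succ, Fin.cons_zero, Fin.cons_succ, Finset.mul_sum]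
  congr 1
  exact Finset.sum_congr rfl fun i _ => by ring

def Mem {e : ℕ} (n : Fin e → ℕ) (m : ℤ) : Prop := ∃ a, (phi n a : ℤ) = m

structure Good {e : ℕ} (n : Fin (e + 1) → ℕ) : Prop where
  pos : ∀ i, 0 < n i
  atom : ∀ i a, phi n a = n i → a = Pi.single i 1
  pres : ∃ σ, IsPresentation n σ ∧ σ.card ≤ e
  cof : ∃ C : ℤ, ∀ m, C ≤ m → Mem n m

lemma mem_glue {e : ℕ} (n c : Fin e → ℕ) (m : ℕ) (hm : 0 < m) (hc : Nat.Coprime m (phi n c))
    (x u : ℤ) : Mem (glue n (phi n c) m) (m * x + phi n c * u) ↔ Mem n (x + phi n c * (u / m)) := by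
  have hm' : (0 : ℤ) < m := by exact_mod_cast hm
  constructor
  · rintro ⟨a, ha⟩
    rw [← Fin.cons_self_tail a, phi_glue] at ha
    push_cast at ha
    have h1 : (m : ℤ) ∣ phi n c * (u - a 0) := ⟨phi n (Fin.tail a) - x, by linarith⟩
    have h2 : (m : ℤ) ∣ u - a 0 :=
      (Nat.isCoprime_iff_coprime.2 hc).dvd_of_dvd_mul_left h1
    obtain ⟨k, hk⟩ := h2
    have h3 : u / m = k + ((a 0 / m : ℕ) : ℤ) := by
      rw [show u = a 0 + k * m by linarith, Int.add_mul_ediv_right _ _ hm'.ne']
      push_cast; ring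
    refine ⟨Fin.tail a + (a 0 / m) • c, ?_⟩
    rw [map_add, map_nsmul, h3, smul_eq_mul, Nat.cast_add, Nat.cast_mul]
    have h4 : (m : ℤ) * (phi n (Fin.tail a)) = m * (x + phi n c * k) := by
      linear_combination ha + (phi n c : ℤ) * hk
    rw [mul_left_cancel₀ hm'.ne' h4]; ring
  · rintro ⟨a, ha⟩
    refine ⟨Fin.cons (u % m).toNat a, ?_⟩
    rw [phi_glue]
    push_cast
    rw [Int.toNat_of_nonneg (Int.emod_nonneg _ hm'.ne'), ha, Int.emod_def]
    ring

def up {e : ℕ} : (Fin e → ℕ) →+ (Fin (e + 1) → ℕ) where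
  toFun a := Fin.cons 0 a
  map_zero' := by funext i; refine Fin.cases ?_ (fun i => ?_) i <;> simp
  map_add' a b := by funext i; refine Fin.cases ?_ (fun i => ?_) i <;> simp

lemma up_apply {e : ℕ} (a : Fin e → ℕ) : up a = Fin.cons 0 a := rfl

lemma cons_eq {e : ℕ} (t : ℕ) (a : Fin e → ℕ) :
    (Fin.cons t a : Fin (e + 1) → ℕ) = Fin.cons t 0 + up a := by
  funext i; refine Fin.cases ?_ (fun i => ?_) i <;> simp [up_apply]

lemma pres_glue {e : ℕ} (n c : Fin e → ℕ) (m : ℕ) (hm : 0 < m) (hc : Nat.Coprime m (phi n c))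
    (σ : Finset ((Fin e → ℕ) × (Fin e → ℕ))) (hσ : IsPresentation n σ) :
    IsPresentation (glue n (phi n c) m)
      (insert (Fin.cons m 0, up c) (σ.image fun p => (up p.1, up p.2))) := by
  classical
  set τ := insert ((Fin.cons m 0 : Fin (e + 1) → ℕ), up c) (σ.image fun p => (up p.1, up p.2))
    with hτ
  have hker : ∀ a b, (a, b) ∈ σ → phi n a = phi n b := by
    intro a b hab
    have : addConGen (fun a b => (a, b) ∈ σ) a b := AddConGen.Rel.of a b hab
    rw [hσ] at this
    exact this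
  refine le_antisymm (AddCon.addConGen_le.2 ?_) ?_
  · intro a b hab
    rw [AddCon.ker_rel]
    rcases Finset.mem_insert.1 hab with h | h
    · obtain ⟨rfl, rfl⟩ := Prod.mk.inj h
      rw [up_apply, phi_glue, phi_glue]; simp
    · obtain ⟨p, hp, h⟩ := Finset.mem_image.1 h
      obtain ⟨rfl, rfl⟩ := Prod.mk.inj h
      rw [up_apply, up_apply, phi_glue, phi_glue, hker p.1 p.2 hp]
  · set R := addConGen (fun a b => (a, b) ∈ τ) with hR
    have h1 : ∀ a b, phi n a = phi n b → R (up a) (up b) := by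
      intro a b hab
      have h2 : addConGen (fun a b => (a, b) ∈ σ) ≤ AddCon.comap up (map_add up) R := by
        refine AddCon.addConGen_le.2 fun a b hab => ?_
        exact AddConGen.Rel.of _ _
          (Finset.mem_insert_of_mem (Finset.mem_image.2 ⟨(a, b), hab, rfl⟩))
      rw [hσ] at h2
      exact h2 hab
    have h3 : R (Fin.cons m 0) (up c) := AddConGen.Rel.of _ _ (Finset.mem_insert_self _ _)
    have h4 : ∀ a : Fin (e + 1) → ℕ,
        R a (Fin.cons (a 0 % m) 0 + up (Fin.tail a + (a 0 / m) • c)) := by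
      intro a
      have e1 : a = (Fin.cons (a 0 % m) 0 + up (Fin.tail a)) + (a 0 / m) • Fin.cons m 0 := by
        funext i
        refine Fin.cases ?_ (fun i => ?_) i
        · simp [up_apply, Nat.mod_add_div']
        · simp [up_apply, Fin.tail]
      rw [map_add, map_nsmul, ← add_assoc]
      conv => lhs; rw [e1]
      exact R.add (R.refl _) (R.nsmul _ h3)
    intro a b hab
    have hab : phi (glue n (phi n c) m) a = phi (glue n (phi n c) m) b := hab
    rw [← Fin.cons_self_tail a, ← Fin.cons_self_tail b, phi_glue, phi_glue] at hab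
    have h5 : a 0 % m = b 0 % m := by
      have : a 0 * phi n c ≡ b 0 * phi n c [MOD m] := by
        unfold Nat.ModEq
        rw [← Nat.add_mul_mod_self_left _ m (phi n (Fin.tail a)), hab, Nat.add_mul_mod_self_left]
      exact Nat.ModEq.cancel_right_of_coprime hc this
    have h6 : phi n (Fin.tail a + (a 0 / m) • c) = phi n (Fin.tail b + (b 0 / m) • c) := by
      simp only [map_add, map_nsmul, smul_eq_mul]
      refine Nat.eq_of_mul_eq_mul_left hm ?_
      have ea := Nat.mod_add_div (a 0) m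
      have eb := Nat.mod_add_div (b 0) m
      rw [h5] at ea
      generalize b 0 % m = r at ea eb
      generalize a 0 / m = qa at ea ⊢
      generalize b 0 / m = qb at eb ⊢
      rw [← ea, ← eb] at hab
      nlinarith
    refine R.trans (h4 a) (R.trans ?_ (R.symm (h4 b)))
    rw [h5]
    exact R.add (R.refl _) (h1 _ _ h6)

lemma good_glue {e : ℕ} (n c : Fin (e + 1) → ℕ) (hn : Good n) (m : ℕ) (hm : 2 ≤ m)
    (hc : Nat.Coprime m (phi n c)) (h2 : 2 ≤ ∑ i, c i) : Good (glue n (phi n c) m) := by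
  classical
  have hl : 0 < phi n c := by
    refine lt_of_lt_of_le (by omega : 0 < ∑ i, c i) (Finset.sum_le_sum fun i _ => ?_)
    exact Nat.le_mul_of_pos_right _ (hn.pos i)
  refine ⟨?_, ?_, ?_, ?_⟩
  · intro i
    refine Fin.cases ?_ (fun i => ?_) i
    · simpa [glue] using hl
    · simp only [glue, Fin.cons_succ]; exact Nat.mul_pos (by omega) (hn.pos i)
  · intro i a
    rw [← Fin.cons_self_tail a, phi_glue]
    generalize a 0 = t
    generalize Fin.tail a = b
    refine Fin.cases ?_ (fun i => ?_) i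
    · intro h
      simp only [glue, Fin.cons_zero] at h
      have ht : t ≠ 0 := by
        rintro rfl
        have : m ∣ phi n c := ⟨phi n b, by omega⟩
        have := Nat.Coprime.eq_one_of_dvd hc this
        omega
      have ht1 : t = 1 := by
        by_contra h3
        have : 2 ≤ t := by omega
        nlinarith [Nat.zero_le (m * phi n b)]
      subst ht1
      have h4 : phi n b = 0 := by
        have : m * phi n b = 0 := by omega
        rcases Nat.mul_eq_zero.1 this with h | h <;> omega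
      have h5 : b = 0 := by
        funext j
        have := (Finset.sum_eq_zero_iff.1 ((phi_apply n b).symm.trans h4)) j (Finset.mem_univ j)
        have := hn.pos j
        rcases Nat.mul_eq_zero.1 ‹b j * n j = 0› with h | h
        · exact h
        · omega
      subst h5
      funext j
      refine Fin.cases ?_ (fun j => ?_) j <;> simp
    · intro h
      simp only [glue, Fin.cons_succ] at h
      have h3 : m ∣ t * phi n c := by
        have : m ∣ t * phi n c + m * phi n b := h ▸ Dvd.intro _ rfl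
        exact (Nat.dvd_add_left (Dvd.intro _ rfl)).1 this
      obtain ⟨k, rfl⟩ := hc.dvd_of_dvd_mul_right h3
      have h4 : phi n (k • c + b) = n i := by
        rw [map_add, map_nsmul, smul_eq_mul]
        refine Nat.eq_of_mul_eq_mul_left (by omega : 0 < m) ?_
        rw [← h]; ring
      have h5 := hn.atom i _ h4
      have h6 : ∑ j, (k • c + b) j = 1 := by rw [h5]; simp
      simp only [Pi.add_apply, Pi.smul_apply, smul_eq_mul, Finset.sum_add_distrib,
        ← Finset.mul_sum] at h6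
      have hk : k = 0 := by
        by_contra h7
        have : 1 ≤ k := by omega
        nlinarith [Nat.zero_le (∑ j, b j)]
      subst hk
      simp only [zero_smul, zero_add] at h5
      subst h5
      funext j
      refine Fin.cases ?_ (fun j => ?_) j
      · simp
      · simp [Pi.single_apply]
  · obtain ⟨σ, h1, h3⟩ := hn.pres
    refine ⟨_, pres_glue n c m (by omega) hc σ h1, ?_⟩
    exact (Finset.card_insert_le _ _).trans (Nat.succ_le_succ (Finset.card_image_le.trans h3))
  · obtain ⟨C, hC⟩ := hn.cof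
    have hm' : (0 : ℤ) < m := by exact_mod_cast (by omega : 0 < m)
    refine ⟨m * |C| + phi n c * m, fun y hy => ?_⟩
    obtain ⟨p, q, hpq⟩ := Nat.isCoprime_iff_coprime.2 hc
    have e1 : y = m * (p * y) + phi n c * (q * y) := by linear_combination (-y) * hpq
    rw [e1, mem_glue n c m (by omega) hc]
    refine hC _ ((le_abs_self C).trans ?_)
    refine le_of_mul_le_mul_left ?_ hm'
    have e2 := Int.emod_add_mul_ediv (q * y) m
    have e3 := Int.emod_lt_of_pos (q * y) hm'
    have e4 : (0 : ℤ) ≤ phi n c := by positivity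
    have e5 : (phi n c : ℤ) * (q * y % m) ≤ phi n c * m := by gcongr
    have e6 : (m : ℤ) * (p * y + phi n c * (q * y / m)) = y - phi n c * (q * y % m) := by
      linear_combination (-1 : ℤ) * e1 + (phi n c : ℤ) * e2
    linarith

lemma good_one : Good (e := 0) fun _ => 1 := by
  refine ⟨fun _ => one_pos, ?_, ⟨∅, ?_, le_rfl⟩, ⟨0, fun m hm => ⟨fun _ => m.toNat, ?_⟩⟩⟩
  · intro i a h
    funext j
    fin_cases i; fin_cases j
    simpa [phi_apply] using h
  · refine le_antisymm (AddCon.addConGen_le.2 fun a b h => absurd h (by simp)) ?_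
    intro a b hab
    have hab : phi (fun _ : Fin 1 => 1) a = phi (fun _ : Fin 1 => 1) b := hab
    have : a = b := by
      funext j; fin_cases j; simpa [phi_apply] using hab
    subst this
    exact AddCon.refl _ _
  · simp [phi_apply, Int.toNat_of_nonneg hm]

/-- lower bound for the size of presentations -/
lemma pres_card {e : ℕ} (n : Fin (e + 1) → ℕ) (h0 : 0 < n 0)
    (τ : Finset ((Fin (e + 1) → ℕ) × (Fin (e + 1) → ℕ))) (hτ : IsPresentation n τ) :
    e ≤ τ.card := by
  classical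
  let d : (Fin (e + 1) → ℕ) × (Fin (e + 1) → ℕ) → (Fin (e + 1) → ℚ) :=
    fun p i => (p.1 i : ℚ) - p.2 i
  let s : Finset (Fin (e + 1) → ℚ) := insert (Pi.single 0 1) (τ.image d)
  let V := Submodule.span ℚ (s : Set (Fin (e + 1) → ℚ))
  let R : AddCon (Fin (e + 1) → ℕ) :=
    { r := fun a b => d (a, b) ∈ V
      iseqv := ⟨fun a => by
          have : d (a, a) = 0 := by funext i; simp [d]
          rw [this]; exact V.zero_mem,
        fun {a b} h => by
          have : d (b, a) = -d (a, b) := by funext i; simp [d]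
          rw [this]; exact V.neg_mem h,
        fun {a b c} h1 h2 => by
          have : d (a, c) = d (a, b) + d (b, c) := by funext i; simp [d]
          rw [this]; exact V.add_mem h1 h2⟩
      add' := fun {a b c f} h1 h2 => by
        have : d (a + c, b + f) = d (a, b) + d (c, f) := by funext i; simp [d]; ring
        change d (a + c, b + f) ∈ V
        rw [this]; exact V.add_mem h1 h2 }
  have h1 : addConGen (fun a b => (a, b) ∈ τ) ≤ R := by
    refine AddCon.addConGen_le.2 fun a b hab => Submodule.subset_span ?_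
    exact Finset.mem_coe.2 (Finset.mem_insert_of_mem (Finset.mem_image_of_mem d hab))
  rw [hτ] at h1
  have h2 : (Pi.single 0 1 : Fin (e + 1) → ℚ) ∈ V :=
    Submodule.subset_span (Finset.mem_coe.2 (Finset.mem_insert_self _ _))
  have h3 : ∀ i, (Pi.single i 1 : Fin (e + 1) → ℚ) ∈ V := by
    intro i
    have h4 : d (Pi.single i (n 0), Pi.single 0 (n i)) ∈ V := by
      refine h1 (x := Pi.single i (n 0)) (y := Pi.single 0 (n i)) ?_
      rw [AddCon.ker_rel]
      simp [phi_apply, Pi.single_apply, mul_comm]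
    have h5 : (Pi.single i 1 : Fin (e + 1) → ℚ) =
        (n 0 : ℚ)⁻¹ • (d (Pi.single i (n 0), Pi.single 0 (n i)) + (n i : ℚ) • Pi.single 0 1) := by
      funext j
      have : (n 0 : ℚ) ≠ 0 := by positivity
      simp only [d, Pi.single_apply, Pi.smul_apply, Pi.add_apply, smul_eq_mul]
      split_ifs <;> simp [this]
    rw [h5]
    exact V.smul_mem _ (V.add_mem h4 (V.smul_mem _ h2))
  have h6 : V = ⊤ := by
    rw [eq_top_iff, ← (Pi.basisFun ℚ (Fin (e + 1))).span_eq, Submodule.span_le]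
    rintro _ ⟨i, rfl⟩
    simpa using h3 i
  have h7 : Module.finrank ℚ V ≤ s.card := finrank_span_finset_le_card s
  rw [h6, finrank_top, Module.finrank_fin_fun] at h7
  have h8 : s.card ≤ τ.card + 1 :=
    (Finset.card_insert_le _ _).trans (Nat.succ_le_succ Finset.card_image_le)
  omega

lemma mem_closure_iff {e : ℕ} (n : Fin e → ℕ) (x : ℕ) :
    x ∈ AddSubmonoid.closure (Set.range n) ↔ ∃ a, phi n a = x := by
  rw [AddSubmonoid.mem_closure_range_iff_of_fintype]
  simp only [phi_apply, smul_eq_mul]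
  exact ⟨fun ⟨a, h⟩ => ⟨a, h.symm⟩, fun ⟨a, h⟩ => ⟨a, h.symm⟩⟩

lemma Good.ci {e : ℕ} {n : Fin (e + 1) → ℕ} (hn : Good n) :
    IsNumerical (AddSubmonoid.closure (Set.range n)) ∧
      IsCompleteIntersection (AddSubmonoid.closure (Set.range n)) := by
  classical
  constructor
  · obtain ⟨C, hC⟩ := hn.cof
    refine (Set.finite_lt_nat C.toNat).subset fun x hx => ?_
    by_contra h
    obtain ⟨a, ha⟩ := hC x (by simp only [Set.mem_setOf_eq] at h; omega)
    exact hx ((mem_closure_iff n x).2 ⟨a, by exact_mod_cast ha⟩)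
  · obtain ⟨σ, h1, h2⟩ := hn.pres
    refine ⟨e + 1, n, ⟨rfl, fun i hi => ?_⟩, σ, h1,
      fun τ hτ => h2.trans (pres_card n (hn.pos 0) τ hτ),
      le_antisymm h2 (pres_card n (hn.pos 0) σ h1)⟩
    have : ∀ x ∈ AddSubmonoid.closure (n '' {i}ᶜ), ∃ a, a i = 0 ∧ phi n a = x := by
      intro x hx
      induction hx using AddSubmonoid.closure_induction with
      | mem x hx =>
        obtain ⟨j, hj, rfl⟩ := hx
        exact ⟨Pi.single j 1, Pi.single_eq_of_ne' hj _, by simp [phi_apply, Pi.single_apply]⟩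
      | zero => exact ⟨0, rfl, map_zero _⟩
      | add x y _ _ hx hy =>
        obtain ⟨a, a1, rfl⟩ := hx
        obtain ⟨b, b1, rfl⟩ := hy
        exact ⟨a + b, by simp [a1, b1], map_add _ _ _⟩
    obtain ⟨a, a1, a2⟩ := this _ hi
    rw [hn.atom i a a2] at a1
    simp at a1

lemma phi_nsmul_gen {e : ℕ} (n c : Fin e → ℕ) (l m : ℕ) :
    phi (glue n l m) (up c) = m * phi n c := by
  rw [up_apply, phi_glue]; simp

/-- a Chvatal function can be eliminated by extending the semigroup -/
def El (N : ℕ) (f : ℤ → ℤ) : Prop :=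
  ∀ (e : ℕ) (n c : Fin (e + 1) → ℕ), Good n → 2 ≤ ∑ i, c i →
    ∃ (e' : ℕ) (n' : Fin (e' + 1) → ℕ) (μ : ℕ) (d : ℤ), Good n' ∧
      (∀ a : Fin (e + 1) → ℕ, 2 ≤ ∑ i, a i →
        ∃ a' : Fin (e' + 1) → ℕ, 2 ≤ ∑ i, a' i ∧ phi n' a' = μ * phi n a) ∧
      ∀ w : ℤ, 1 ≤ w → w ≤ N → ∀ m : ℤ, Mem n (m + phi n c * f w) ↔ Mem n' (μ * m + d * w)

lemma Ch.el {f : ℤ → ℤ} (h : Ch f) (N : ℕ) : El N f := by
  induction h with
  | lin a =>
    intro e n c hn _
    refine ⟨e, n, 1, phi n c * a, hn, fun a ha => ⟨a, ha, by simp⟩, fun w _ _ m => ?_⟩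
    simp [mul_assoc]
  | @add f g _ _ h1 h2 =>
    intro e n c hn hc
    obtain ⟨e1, n1, μ1, d1, g1, t1, m1⟩ := h1 e n c hn hc
    obtain ⟨c1, hc1, pc1⟩ := t1 c hc
    obtain ⟨e2, n2, μ2, d2, g2, t2, m2⟩ := h2 e1 n1 c1 g1 hc1
    refine ⟨e2, n2, μ2 * μ1, μ2 * d1 + d2, g2, fun a ha => ?_, fun w w1 w2 m => ?_⟩
    · obtain ⟨a1, b1, p1⟩ := t1 a ha
      obtain ⟨a2, b2, p2⟩ := t2 a1 b1
      exact ⟨a2, b2, by rw [p2, p1]; ring⟩
    · have e3 : m + phi n c * (f w + g w) = (m + phi n c * g w) + phi n c * f w := by ring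
      have e4 : (μ1 : ℤ) * (m + phi n c * g w) + d1 * w = (μ1 * m + d1 * w) + phi n1 c1 * g w := by
        rw [pc1]; push_cast; ring
      rw [e3, m1 w w1 w2, e4, m2 w w1 w2]
      congr! 1
      push_cast; ring
  | @fl f k hk _ h1 =>
    intro e n c hn hc
    obtain ⟨Q, hQ⟩ := bound (fun x => f x / k) (Finset.Icc 1 N)
    have hl : 0 < phi n c := by
      refine lt_of_lt_of_le (by omega : 0 < ∑ i, c i) (Finset.sum_le_sum fun i _ => ?_)
      exact Nat.le_mul_of_pos_right _ (hn.pos i)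
    obtain ⟨A, hA⟩ : ∃ A, A = phi n c * (Q * N + Q + 2) := ⟨_, rfl⟩
    have hA2 : Q * N + Q + 2 ≤ A := hA ▸ Nat.le_mul_of_pos_left _ hl
    have hB : 2 ≤ A * k + 1 := by nlinarith
    have hcop : Nat.Coprime (A * k + 1) (phi n c) := by
      rw [hA, mul_assoc, add_comm, Nat.coprime_add_mul_left_left]
      exact Nat.coprime_one_left _
    have g1 := good_glue n c hn _ hB hcop hc
    obtain ⟨e2, n2, μ2, d2, g2, t2, m2⟩ := h1 (e + 1) _ (Fin.cons A 0) g1
      (by rw [Fin.sum_univ_succ]; simp; omega)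
    refine ⟨e2, n2, μ2 * (A * k + 1), μ2 * (phi n c * Q) + d2, g2, fun a ha => ?_,
      fun w w1 w2 m => ?_⟩
    · obtain ⟨a2, b2, p2⟩ := t2 (up a) (by rw [Fin.sum_univ_succ]; simpa [up_apply] using ha)
      exact ⟨a2, b2, by rw [p2, phi_nsmul_gen]; ring⟩
    · have hk' : (0 : ℤ) < k := by exact_mod_cast hk
      have q1 := abs_le.1 (hQ w (by simp [w1, w2]))
      have hA3 : (Q : ℤ) * N + Q + 2 ≤ A := by exact_mod_cast hA2
      have e1 : (A * f w + Q * w) / ((A * k + 1 : ℕ) : ℤ) = f w / k := by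
        have r1 := Int.emod_add_mul_ediv (f w) k
        have r2 := Int.emod_nonneg (f w) hk'.ne'
        have r3 := Int.emod_lt_of_pos (f w) hk'
        generalize f w % k = r at r1 r2 r3
        generalize f w / k = q at r1 q1 ⊢
        rw [← r1]
        have hQ0 : (0 : ℤ) ≤ Q := by positivity
        have hA0 : (0 : ℤ) ≤ A := by positivity
        have s1 : (Q : ℤ) * 1 ≤ Q * w := by gcongr
        have s2 : (Q : ℤ) * w ≤ Q * N := by gcongr
        have s3 : (A : ℤ) * r ≤ A * (k - 1) := by gcongr; omega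
        have s4 : (0 : ℤ) ≤ A * r := by positivity
        rw [Int.ediv_eq_iff_of_pos (by positivity)]
        push_cast
        constructor <;> nlinarith
      beta_reduce
      rw [← e1, ← mem_glue n c _ (by omega) hcop]
      have e2 : ((A * k + 1 : ℕ) : ℤ) * m + phi n c * (A * f w + Q * w) =
          (((A * k + 1 : ℕ) : ℤ) * m + phi n c * Q * w) +
            phi (glue n (phi n c) (A * k + 1)) (Fin.cons A 0) * f w := by
        rw [phi_glue]; simp; ring
      rw [e2, m2 w w1 w2]
      congr! 1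
      push_cast; ring

theorem main (T : AddSubmonoid ℕ) (hT : IsNumerical T) :
    ∃ (S : AddSubmonoid ℕ) (d : ℕ), IsNumerical S ∧ IsCompleteIntersection S ∧ 1 ≤ d ∧
      ∀ x, x ∈ T ↔ d * x ∈ S := by
  classical
  obtain ⟨L0, hL0⟩ := Nat.addSubmonoid_fg T
  let L1 : Finset ℕ := L0.erase 0
  have hL1 : AddSubmonoid.closure (L1 : Set ℕ) = T := by
    rw [← hL0]; simp [L1]
  let L : Finset ℤ := L1.image (Nat.cast : ℕ → ℤ)
  let G : Finset ℤ := hT.toFinset.image (Nat.cast : ℕ → ℤ)
  have hG : ∀ F ∈ G, F ∉ AddSubmonoid.closure (L : Set ℤ) := by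
    intro F hF hc
    obtain ⟨x, hx, rfl⟩ := Finset.mem_image.1 hF
    have h1 : AddSubmonoid.closure (L : Set ℤ) = T.map (Nat.castAddMonoidHom ℤ) := by
      rw [← hL1, AddMonoidHom.map_mclosure]; simp [L]
    rw [h1] at hc
    obtain ⟨y, hy, e⟩ := hc
    have : y = x := by simpa using e
    subst this
    exact (hT.mem_toFinset.1 hx) hy
  obtain ⟨g, g1, g2, g3⟩ := sep_all L (by
    intro n hn
    obtain ⟨x, hx, rfl⟩ := Finset.mem_image.1 hn
    have := Finset.ne_of_mem_erase hx
    omega) G hG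
  obtain ⟨N, hN⟩ := bound id (L ∪ G)
  obtain ⟨e, n, μ, d, hn, -, hm⟩ := g1.el N 0 (fun _ => 1) (fun _ => 2) good_one (by simp)
  have key : ∀ x : ℕ, 1 ≤ x → (x : ℤ) ∈ L ∪ G → (0 ≤ g x ↔ Mem n (d * x)) := by
    intro x h1 h2
    have h3 := hm x (by exact_mod_cast h1) ((le_abs_self _).trans (hN _ h2)) 0
    simp only [mul_zero, zero_add] at h3
    rw [← h3]
    simp only [Mem, phi_apply, Fin.sum_univ_succ, Finset.univ_eq_empty, Finset.sum_empty]
    constructor
    · intro h; exact ⟨fun _ => 2 * (g x).toNat, by push_cast; rw [Int.toNat_of_nonneg h]; ring⟩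
    · rintro ⟨a, ha⟩; push_cast at ha; omega
  have hin : ∀ x ∈ T, Mem n (d * x) := by
    intro x hx
    rw [← hL1] at hx
    induction hx using AddSubmonoid.closure_induction with
    | mem x hx =>
      have h1 : (x : ℤ) ∈ L := Finset.mem_image_of_mem _ hx
      have h2 := Finset.ne_of_mem_erase hx
      exact (key x (by omega) (Finset.mem_union_left _ h1)).1 (g2 _ h1)
    | zero => exact ⟨0, by simp⟩
    | add x y _ _ hx hy =>
      obtain ⟨a, ha⟩ := hx
      obtain ⟨b, hb⟩ := hy
      exact ⟨a + b, by rw [map_add]; push_cast; rw [ha, hb]; ring⟩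
  have hout : ∀ x ∉ T, ¬ Mem n (d * x) := by
    intro x hx hM
    have h1 : (x : ℤ) ∈ G := Finset.mem_image_of_mem _ (hT.mem_toFinset.2 hx)
    have h2 : x ≠ 0 := by rintro rfl; exact hx T.zero_mem
    have := (key x (by omega) (Finset.mem_union_right _ h1)).2 hM
    have := g3 _ h1
    omega
  by_cases hd : 1 ≤ d
  · obtain ⟨d, rfl⟩ := Int.eq_ofNat_of_zero_le (by omega : 0 ≤ d)
    refine ⟨_, d, hn.ci.1, hn.ci.2, by exact_mod_cast hd, fun x => ?_⟩
    rw [mem_closure_iff]
    constructor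
    · intro hx
      obtain ⟨a, ha⟩ := hin x hx
      exact ⟨a, by exact_mod_cast ha⟩
    · rintro ⟨a, ha⟩
      by_contra hx
      exact hout x hx ⟨a, by exact_mod_cast ha⟩
  · refine ⟨_, 1, good_one.ci.1, good_one.ci.2, le_rfl, fun x => ?_⟩
    rw [mem_closure_iff]
    refine ⟨fun _ => ⟨fun _ => x, by simp [phi_apply]⟩, fun _ => ?_⟩
    obtain ⟨y, hy1, hy2⟩ : ∃ y, y ∉ (T : Set ℕ)ᶜ ∧ 0 < y := by
      obtain ⟨y, hy⟩ := (Set.Finite.insert 0 hT).exists_notMem
      simp only [Set.mem_insert_iff, not_or] at hy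
      exact ⟨y, hy.2, Nat.pos_of_ne_zero hy.1⟩
    obtain ⟨a, ha⟩ := hin y (by simpa using hy1)
    have hd0 : d = 0 := by
      have : (0 : ℤ) ≤ phi n a := by positivity
      have : (0 : ℤ) < y := by exact_mod_cast hy2
      nlinarith
    by_contra hx
    exact hout x hx ⟨0, by simp [hd0]⟩

end Pool.Agent.H15.CI
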