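import Mathlib

set_option autoImplicit false

namespace Pool.Agent.H15.Circles

def R : ℕ → ℕ
  | 0 => 1
  | n + 1 => 4 * (8 * R n ^ 2 + n + 1) ^ 2

def m (n : ℕ) : ℕ := 8 * R n ^ 2 + n + 1

lemma R_succ (n : ℕ) : R (n + 1) = 4 * m n ^ 2 := rfl

lemma R_mono : StrictMono R := by
  refine strictMono_nat_of_lt_succ fun n => ?_
  have h1 : R n < m n := by unfold m; nlinarith [Nat.zero_le (R n), Nat.zero_le n]
  rw [R_succ]; nlinarith

lemma R_pos (n : ℕ) : 1 ≤ R n := R_mono.monotone (Nat.zero_le n)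

def S : Set ℂ := {z | ∃ j, ‖z‖ = R j}

lemma bdd (f : ℂ → ℂ) (hf : Differentiable ℂ f) (h : Bornology.IsBounded (f '' S)) :
    Bornology.IsBounded (Set.range f) := by
  obtain ⟨C, hC⟩ := h.exists_norm_le
  refine isBounded_iff_forall_norm_le.2 ⟨C, ?_⟩
  rintro _ ⟨z, rfl⟩
  obtain ⟨j, hj⟩ := exists_nat_gt ‖z‖
  have hj2 : (j : ℝ) ≤ R j := by exact_mod_cast R_mono.le_apply
  have hpos : (R j : ℝ) ≠ 0 := by have := R_pos j; positivity
  refine Complex.norm_le_of_forall_mem_frontier_norm_le (U := Metric.ball 0 (R j))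
    Metric.isBounded_ball hf.diffContOnCl ?_ (subset_closure (by simp; linarith))
  intro w hw
  rw [frontier_ball _ hpos] at hw
  exact hC _ ⟨w, ⟨j, by simpa using hw⟩, rfl⟩

lemma pow_le_exp (k : ℕ) (x : ℝ) (hk : 1 ≤ k) (hx : 4 * (k : ℝ) ^ 2 ≤ x) : x ^ k ≤ Real.exp x := by
  have hk' : (1 : ℝ) ≤ k := by exact_mod_cast hk
  have hx0 : 0 < x := by nlinarith
  have h1 := Real.pow_div_factorial_le_exp x hx0.le (2 * k)
  have h2 : (((2 * k).factorial : ℕ) : ℝ) ≤ x ^ k := by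
    calc (((2 * k).factorial : ℕ) : ℝ) ≤ (((2 * k) ^ (2 * k) : ℕ) : ℝ) := by
          exact_mod_cast Nat.factorial_le_pow _
      _ = (4 * (k : ℝ) ^ 2) ^ k := by push_cast; rw [pow_mul]; ring
      _ ≤ x ^ k := by gcongr
  have h3 : (0 : ℝ) < ((2 * k).factorial : ℕ) := by exact_mod_cast Nat.factorial_pos _
  refine le_trans ?_ h1
  rw [le_div_iff₀ h3, two_mul, pow_add, ← two_mul]
  gcongr

lemma lower (k : ℂ → ℝ) (hc : Continuous k) (hp : ∀ z, 0 < k z)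
    (ho : Asymptotics.IsLittleO (Filter.cocompact ℂ) (fun z : ℂ => Real.exp (1 * ‖z‖ ^ (1 : ℝ))) k) :
    ∃ c : ℝ, 0 < c ∧ ∀ z, c * Real.exp ‖z‖ ≤ k z := by
  have h1 := ho.eventuallyLE
  obtain ⟨K, hK, hK2⟩ := Filter.mem_cocompact.1 h1
  have hcont : Continuous fun z : ℂ => k z / Real.exp ‖z‖ :=
    hc.div (by fun_prop) fun z => (Real.exp_pos _).ne'
  obtain ⟨z0, -, hz0⟩ := (hK.insert 0).exists_isMinOn (Set.insert_nonempty _ _) hcont.continuousOn
  refine ⟨min 1 (k z0 / Real.exp ‖z0‖), lt_min one_pos (div_pos (hp _) (Real.exp_pos _)), ?_⟩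
  intro z
  by_cases hz : z ∈ K
  · have := hz0 (Set.mem_insert_of_mem _ hz)
    simp only [Set.mem_setOf_eq] at this
    rw [← le_div_iff₀ (Real.exp_pos _)]
    exact (min_le_right _ _).trans this
  · have := hK2 hz
    simp only [Set.mem_setOf_eq, one_mul, Real.rpow_one, Real.norm_eq_abs, abs_of_pos (hp z),
      abs_of_pos (Real.exp_pos _)] at this
    calc _ ≤ 1 * Real.exp ‖z‖ := by gcongr; exact min_le_left _ _
      _ ≤ k z := by linarith

lemma little (A : ℝ) : Asymptotics.IsLittleO (Filter.cocompact ℂ)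
    (fun z : ℂ => Real.exp (A * ‖z‖ ^ (1 : ℝ))) (fun z : ℂ => Real.exp (‖z‖ ^ 2)) := by
  rw [Real.isLittleO_exp_comp_exp_comp]
  have h1 : Filter.Tendsto (fun x : ℝ => x * (x - A)) Filter.atTop Filter.atTop :=
    Filter.Tendsto.atTop_mul_atTop₀ Filter.tendsto_id
      (Filter.tendsto_atTop_add_const_right _ (-A) Filter.tendsto_id)
  refine (h1.comp (tendsto_norm_cocompact_atTop (E := ℂ))).congr fun z => ?_
  simp only [Function.comp, Real.rpow_one]; ring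

noncomputable def ff (c : ℝ) (n : ℕ) (z : ℂ) : ℂ := c * (z / R n) ^ m n

lemma norm_ff (c : ℝ) (hc : 0 < c) (n : ℕ) (z : ℂ) : ‖ff c n z‖ = c * (‖z‖ / R n) ^ m n := by
  simp [ff, abs_of_pos hc]

lemma norm_ff_le (c : ℝ) (hc : 0 < c) (n : ℕ) (z : ℂ) : ‖ff c n z‖ ≤ c * ‖z‖ ^ m n := by
  rw [norm_ff c hc]
  have : (1 : ℝ) ≤ R n := by exact_mod_cast R_pos n
  gcongr
  exact div_le_self (norm_nonneg _) this

lemma ff_diff (c : ℝ) (n : ℕ) : Differentiable ℂ (ff c n) := by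
  unfold ff; fun_prop

lemma ff_type (c : ℝ) (hc : 0 < c) (n : ℕ) : ∃ A B : ℝ, 0 < A ∧ 0 < B ∧
    ∀ z : ℂ, ‖ff c n z‖ ≤ B * Real.exp (A * ‖z‖ ^ (1 : ℝ)) := by
  have h3 : (0 : ℝ) < ((m n).factorial : ℕ) := by exact_mod_cast Nat.factorial_pos _
  refine ⟨1, c * (m n).factorial, one_pos, by positivity, fun z => ?_⟩
  have h1 := Real.pow_div_factorial_le_exp ‖z‖ (norm_nonneg z) (m n)
  rw [div_le_iff₀ h3] at h1
  rw [one_mul, Real.rpow_one]
  refine (norm_ff_le c hc n z).trans ?_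
  rw [mul_assoc]; gcongr; linarith

lemma ff_on_S (c : ℝ) (hc : 0 < c) (n : ℕ) (z : ℂ) (hz : z ∈ S) :
    ‖ff c n z‖ ≤ c * Real.exp ‖z‖ := by
  obtain ⟨j, hj⟩ := hz
  rcases le_or_gt j n with h | h
  · rw [norm_ff c hc]
    have h1 : (R j : ℝ) ≤ R n := by exact_mod_cast R_mono.monotone h
    have h2 : (0 : ℝ) < R n := by exact_mod_cast R_pos n
    have h3 : (‖z‖ / R n) ^ m n ≤ 1 :=
      pow_le_one₀ (by positivity) (by rw [div_le_one h2]; linarith)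
    have h4 := Real.one_le_exp (norm_nonneg z)
    gcongr; linarith
  · refine (norm_ff_le c hc n z).trans ?_
    gcongr
    refine pow_le_exp _ _ (by unfold m; omega) ?_
    have h1 : R (n + 1) ≤ R j := R_mono.monotone h
    rw [R_succ] at h1
    rw [hj]; exact_mod_cast h1

lemma ff_big (c : ℝ) (hc : 0 < c) (n : ℕ) :
    c * n * Real.exp (‖((2 * R n : ℕ) : ℂ)‖ ^ 2) < ‖ff c n ((2 * R n : ℕ) : ℂ)‖ := by
  rw [norm_ff c hc, Complex.norm_natCast]
  have h2 : (0 : ℝ) < R n := by exact_mod_cast R_pos n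
  have e : ((2 * R n : ℕ) : ℝ) / R n = 2 := by push_cast; field_simp
  rw [e, mul_assoc]
  refine mul_lt_mul_of_pos_left ?_ hc
  have h4 : Real.exp (((2 * R n : ℕ) : ℝ) ^ 2) ≤ 2 ^ (8 * R n ^ 2) := by
    have e2 : ((2 * R n : ℕ) : ℝ) ^ 2 = ((4 * R n ^ 2 : ℕ) : ℝ) * 1 := by push_cast; ring
    rw [e2, Real.exp_nat_mul, show 8 * R n ^ 2 = 2 * (4 * R n ^ 2) by ring,
      pow_mul (2 : ℝ)]
    refine pow_le_pow_left₀ (Real.exp_pos _).le ?_ _
    have := Real.exp_one_lt_d9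
    norm_num at this ⊢; linarith
  have h5 : (n : ℝ) < 2 ^ (n + 1) := by
    have : n < 2 ^ (n + 1) := lt_trans (Nat.lt_succ_self n) Nat.lt_two_pow_self
    exact_mod_cast this
  rw [m, add_assoc, pow_add, mul_comm]
  have h6 := Real.exp_pos (((2 * R n : ℕ) : ℝ) ^ 2)
  calc _ ≤ (2 : ℝ) ^ (8 * R n ^ 2) * n := by gcongr
    _ < _ := by gcongr

end Pool.Agent.H15.Circles
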