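import Mathlib

set_option autoImplicit false

namespace Pool.Agent.H15.ConvCyc

open Polynomial Complex

/-- the smoothstep iteration -/
def it {A : Type*} [CommRing A] (a : A) : ℕ → A
  | 0 => a
  | j + 1 => it a j * it a j + it a j * it a j + it a j * it a j +
      -(it a j * it a j * it a j + it a j * it a j * it a j)

lemma it_one_sub {A : Type*} [CommRing A] (a : A) (j : ℕ) : it (1 - a) j = 1 - it a j := by
  induction j with
  | zero => rfl
  | succ j ih => simp only [it, ih]; ring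

lemma it_map {A B : Type*} [CommRing A] [CommRing B] (f : A →+* B) (a : A) (j : ℕ) :
    f (it a j) = it (f a) j := by
  induction j with
  | zero => rfl
  | succ j ih => simp only [it, map_add, map_mul, map_neg, ih]

lemma it_size {A : Type*} [CommRing A] (P : A → ℝ → Prop)
    (hm : ∀ a b s t, P a s → P b t → P (a * b) (s * t))
    (ha : ∀ a b s t, P a s → P b t → P (a + b) (s + t))
    (hn : ∀ a s, P a s → P (-a) s) (hle : ∀ a s t, P a s → s ≤ t → P a t)
    (a : A) (h : P a (1 / 4)) (j : ℕ) : P (it a j) (1 / 4 * (7 / 8) ^ j) := by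
  induction j with
  | zero => simpa [it] using h
  | succ j ih =>
    have h2 := hm _ _ _ _ ih ih
    have h3 := hm _ _ _ _ h2 ih
    refine hle _ _ _ (ha _ _ _ _ (ha _ _ _ _ (ha _ _ _ _ h2 h2) h2) (hn _ _ (ha _ _ _ _ h3 h3))) ?_
    have p0 : (0 : ℝ) ≤ (7 / 8) ^ j := by positivity
    have p1 : (7 / 8 : ℝ) ^ j ≤ 1 := pow_le_one₀ (by norm_num) (by norm_num)
    rw [pow_succ]
    generalize (7 / 8 : ℝ) ^ j = u at p0 p1
    nlinarith [mul_nonneg p0 p0, mul_nonneg p0 (sub_nonneg.2 p1),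
      mul_nonneg (mul_nonneg p0 p0) (sub_nonneg.2 p1)]

lemma it_norm {A : Type*} [NormedCommRing A] (a : A) (h : ‖a‖ ≤ 1 / 4) (j : ℕ) :
    ‖it a j‖ ≤ 1 / 4 * (7 / 8) ^ j := by
  refine it_size (fun a s => ‖a‖ ≤ s) ?_ ?_ ?_ ?_ a h j
  · intro a b s t h1 h2
    exact (norm_mul_le a b).trans (mul_le_mul h1 h2 (norm_nonneg _) ((norm_nonneg _).trans h1))
  · intro a b s t h1 h2
    exact (norm_add_le a b).trans (add_le_add h1 h2)
  · intro a s h1; simpa using h1
  · intro a s t h1 h2; exact h1.trans h2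

def K : Set ℂ := Metric.closedBall (10 * I) 1

instance : CompactSpace K := isCompact_iff_compactSpace.1 (isCompact_closedBall _ _)

noncomputable def XS : Subalgebra ℂ C(K, ℂ) := (polynomialFunctions K).topologicalClosure

def XA : Type := XS

noncomputable instance : NormedCommRing XA := inferInstanceAs (NormedCommRing XS)
noncomputable instance : NormedAlgebra ℂ XA := inferInstanceAs (NormedAlgebra ℂ XS)
instance : CompleteSpace XA :=
  (Subalgebra.isClosed_topologicalClosure (polynomialFunctions K)).completeSpace_coe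

noncomputable def io0 : ℂ[X] →ₐ[ℂ] XS :=
  (toContinuousMapOnAlgHom K).codRestrict XS fun p =>
    Subalgebra.le_topologicalClosure (polynomialFunctions K) ⟨p, trivial, rfl⟩

noncomputable def io : ℂ[X] →ₐ[ℂ] XA := io0

noncomputable def ev (f : XA) (w : K) : ℂ := (f : XS).1 w

lemma io_apply (p : ℂ[X]) (w : K) : ev (io p) w = p.eval (w : ℂ) := rfl
lemma ev_sub (f g : XA) (w : K) : ev (f - g) w = ev f w - ev g w := rfl
lemma ev_mul (f g : XA) (w : K) : ev (f * g) w = ev f w * ev g w := rfl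
lemma ev_one (w : K) : ev 1 w = 1 := rfl

lemma io0_dense : DenseRange io0 := by
  intro x
  rw [Topology.IsInducing.subtypeVal.closure_eq_preimage_closure_image]
  refine closure_mono (s := (polynomialFunctions K : Set C(K, ℂ))) ?_ x.2
  rintro f ⟨p, -, rfl⟩
  exact ⟨_, ⟨p, rfl⟩, rfl⟩

lemma io_dense : DenseRange io := io0_dense

lemma norm_io (p : ℂ[X]) (s : ℝ) (hs : 0 ≤ s)
    (h : ∀ u : ℂ, ‖u‖ ≤ 1 → ‖p.eval (10 * I + u)‖ ≤ s) : ‖io p‖ ≤ s := by
  change ‖(io0 p).1‖ ≤ s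
  rw [ContinuousMap.norm_le _ hs]
  intro w
  have := h (w - 10 * I) (by have h2 : dist (w : ℂ) (10 * I) ≤ 1 := w.2; rwa [dist_eq_norm] at h2)
  change ‖p.eval (w : ℂ)‖ ≤ s
  simpa using this

lemma apply_le (f : XA) (w : K) : ‖ev f w‖ ≤ ‖f‖ := ContinuousMap.norm_coe_le_norm (f : XS).1 w

noncomputable def q0 : ℂ[X] := C (-1 / 200) * (X * (X + C (10 * I)))

noncomputable abbrev cj : ℂ[X] →+* ℂ[X] := mapRingHom (starRingEnd ℂ)

lemma n1 : ‖io (1 - q0)‖ ≤ 1 / 4 := by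
  refine norm_io _ _ (by norm_num) fun u hu => ?_
  have : eval (10 * I + u) (1 - q0) = (1 / 200) * (u * (u + 30 * I)) := by
    simp only [q0, eval_sub, eval_one, eval_mul, eval_C, eval_X, eval_add]
    linear_combination (1 : ℂ) * I_mul_I
  rw [this, norm_mul, norm_mul]
  have h2 : ‖u + 30 * I‖ ≤ 31 := by
    refine (norm_add_le _ _).trans ?_
    simp; linarith
  have h3 : ‖u‖ * ‖u + 30 * I‖ ≤ 1 * 31 := mul_le_mul hu h2 (norm_nonneg _) (by norm_num)
  norm_num at h3 ⊢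
  linarith

lemma n2 : ‖io (cj q0)‖ ≤ 1 / 4 := by
  refine norm_io _ _ (by norm_num) fun u hu => ?_
  have : eval (10 * I + u) (cj q0) = (-1 / 200) * (u * (u + 10 * I)) := by
    simp [q0, map_ofNat]
    ring
  rw [this, norm_mul, norm_mul]
  have h2 : ‖u + 10 * I‖ ≤ 11 := by
    refine (norm_add_le _ _).trans ?_
    simp; linarith
  have h3 : ‖u‖ * ‖u + 10 * I‖ ≤ 1 * 11 := mul_le_mul hu h2 (norm_nonneg _) (by norm_num)
  norm_num at h3 ⊢
  linarith

lemma n3 : ‖io (X * (X ^ 2 + C 100))‖ ≤ 231 := by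
  refine norm_io _ _ (by norm_num) fun u hu => ?_
  have : eval (10 * I + u) (X * (X ^ 2 + C 100)) = (u + 10 * I) * (u * (u + 20 * I)) := by
    simp only [eval_mul, eval_C, eval_X, eval_add, eval_pow]
    linear_combination (100 * u + 1000 * I) * I_mul_I
  rw [this, norm_mul, norm_mul]
  have h1 : ‖u + 10 * I‖ ≤ 11 := by
    refine (norm_add_le _ _).trans ?_
    simp; linarith
  have h2 : ‖u + 20 * I‖ ≤ 21 := by
    refine (norm_add_le _ _).trans ?_
    simp; linarith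
  have h3 : ‖u‖ * ‖u + 20 * I‖ ≤ 1 * 21 := mul_le_mul hu h2 (norm_nonneg _) (by norm_num)
  have h4 := mul_le_mul h1 h3 (by positivity) (by norm_num)
  linarith

lemma norm_one_le : ‖(1 : XA)‖ ≤ 1 := by
  have := norm_io 1 1 (by norm_num) (by simp)
  simpa using this

lemma norm_pow_le'' (a : XA) (s : ℝ) (h : ‖a‖ ≤ s) (n : ℕ) : ‖a ^ n‖ ≤ s ^ n := by
  induction n with
  | zero => simpa using norm_one_le
  | succ n ih =>
    rw [pow_succ, pow_succ]
    exact (norm_mul_le _ _).trans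
      (mul_le_mul ih h (norm_nonneg _) (pow_nonneg ((norm_nonneg _).trans h) _))

section
variable (g : XA →L[ℂ] ℂ) (M : ℝ) (hM : ∀ n, (g (io X ^ n)).re ≤ M)
include hM

lemma growth (n : ℕ) : |(g (io X ^ n)).re| ≤ (2 * |M| + ‖g‖) * 3 ^ n := by
  have e1 : (io (X * (X ^ 2 + C 100))) ^ n =
      ∑ j ∈ Finset.range (n + 1), ((100 ^ (n - j) * n.choose j : ℝ) : ℂ) • io X ^ (n + 2 * j) := by
    rw [map_mul, mul_pow, map_add, add_pow, Finset.mul_sum]
    refine Finset.sum_congr rfl fun j _ => ?_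
    rw [map_pow, ← pow_mul, pow_add, Algebra.smul_def]
    have : io (C 100) = 100 := by
      rw [C_eq_algebraMap, AlgHom.commutes]; exact map_ofNat _ 100
    rw [this]
    push_cast
    simp only [map_mul, map_pow, map_natCast, map_ofNat]
    ring
  have e2 : (101 : ℝ) ^ n = ∑ j ∈ Finset.range (n + 1), (100 ^ (n - j) * n.choose j : ℝ) := by
    rw [show (101 : ℝ) = 1 + 100 by norm_num, add_pow]
    simp
  have e3 : ∑ j ∈ Finset.range (n + 1), (100 ^ (n - j) * n.choose j : ℝ) *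
      (M - (g (io X ^ (n + 2 * j))).re) =
      M * 101 ^ n - (g ((io (X * (X ^ 2 + C 100))) ^ n)).re := by
    rw [e1, e2, map_sum, re_sum, Finset.mul_sum, ← Finset.sum_sub_distrib]
    refine Finset.sum_congr rfl fun j _ => ?_
    rw [map_smul, smul_eq_mul, re_ofReal_mul]; ring
  have e4 := Finset.single_le_sum (f := fun j => (100 ^ (n - j) * n.choose j : ℝ) *
      (M - (g (io X ^ (n + 2 * j))).re)) (s := Finset.range (n + 1))
      (fun j _ => mul_nonneg (by positivity) (sub_nonneg.2 (hM _))) (a := 0) (by simp)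
  rw [e3] at e4
  simp only [Nat.sub_zero, Nat.choose_zero_right, Nat.cast_one, mul_one, mul_zero, add_zero] at e4
  have e5 : |(g ((io (X * (X ^ 2 + C 100))) ^ n)).re| ≤ ‖g‖ * 231 ^ n :=
    (abs_re_le_norm _).trans ((g.le_opNorm _).trans
      (mul_le_mul_of_nonneg_left (norm_pow_le'' _ _ n3 n) (norm_nonneg _)))
  have p1 : (101 : ℝ) ^ n ≤ 100 ^ n * 3 ^ n := by rw [← mul_pow]; gcongr; norm_num
  have p2 : (231 : ℝ) ^ n ≤ 100 ^ n * 3 ^ n := by rw [← mul_pow]; gcongr; norm_num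
  have p3 : (1 : ℝ) ≤ 3 ^ n := one_le_pow₀ (by norm_num)
  have p4 : (0 : ℝ) < 100 ^ n := by positivity
  have e6 : M - (g (io X ^ n)).re ≤ (|M| + ‖g‖) * 3 ^ n := by
    refine le_of_mul_le_mul_left ?_ p4
    have a1 : M * 101 ^ n ≤ |M| * (100 ^ n * 3 ^ n) :=
      mul_le_mul (le_abs_self M) p1 (by positivity) (abs_nonneg M)
    have a2 : ‖g‖ * 231 ^ n ≤ ‖g‖ * (100 ^ n * 3 ^ n) := by gcongr
    have a3 := neg_abs_le (g ((io (X * (X ^ 2 + C 100))) ^ n)).re
    nlinarith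
  have a4 := hM n
  have a5 := le_abs_self M
  have a6 := neg_abs_le M
  have a7 := abs_nonneg M
  have a8 := norm_nonneg g
  rw [abs_le]
  constructor <;> nlinarith [mul_le_mul_of_nonneg_left p3 a7, mul_nonneg a8 (zero_le_one.trans p3)]

end

noncomputable def CC (g : XA →L[ℂ] ℂ) (p : ℂ[X]) : ℂ := g (io p) + (starRingEnd ℂ) (g (io (cj p)))

lemma CC_add (g : XA →L[ℂ] ℂ) (p q : ℂ[X]) : CC g (p + q) = CC g p + CC g q := by
  simp only [CC, map_add]; ring

lemma CC_C (g : XA →L[ℂ] ℂ) (a : ℂ) (p : ℂ[X]) : CC g (C a * p) = a * CC g p := by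
  have h1 : ∀ (b : ℂ) (r : ℂ[X]), g (io (C b * r)) = b * g (io r) := by
    intro b r
    rw [← smul_eq_C_mul, map_smul, map_smul, smul_eq_mul]
  have h2 : cj (C a * p) = C ((starRingEnd ℂ) a) * cj p := by simp
  simp only [CC, h2, h1, map_mul (starRingEnd ℂ), conj_conj]; ring

def B (g : XA →L[ℂ] ℂ) (p : ℂ[X]) (t : ℝ) : Prop := ∀ k : ℕ, ‖CC g (X ^ k * p)‖ ≤ t * 3 ^ k

def Mu (g : XA →L[ℂ] ℂ) (q : ℂ[X]) (s : ℝ) : Prop := ∀ p t, 0 ≤ t → B g p t → 0 ≤ s ∧ B g (q * p) (s * t)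

lemma Mu_mul (g : XA →L[ℂ] ℂ) (a b : ℂ[X]) (s t : ℝ) (h1 : Mu g a s) (h2 : Mu g b t) :
    Mu g (a * b) (s * t) := by
  intro p r hr hp
  obtain ⟨h3, h4⟩ := h2 p r hr hp
  obtain ⟨h5, h6⟩ := h1 _ _ (mul_nonneg h3 hr) h4
  exact ⟨mul_nonneg h5 h3, by rwa [mul_assoc, mul_assoc]⟩

lemma Mu_add (g : XA →L[ℂ] ℂ) (a b : ℂ[X]) (s t : ℝ) (h1 : Mu g a s) (h2 : Mu g b t) :
    Mu g (a + b) (s + t) := by
  intro p r hr hp
  obtain ⟨h3, h4⟩ := h2 p r hr hp
  obtain ⟨h5, h6⟩ := h1 p r hr hp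
  refine ⟨add_nonneg h5 h3, fun k => ?_⟩
  rw [add_mul, mul_add, CC_add, add_mul, add_mul]
  exact (norm_add_le _ _).trans (add_le_add (h6 k) (h4 k))

lemma Mu_C (g : XA →L[ℂ] ℂ) (a : ℂ) : Mu g (C a) ‖a‖ := by
  intro p r _ hp
  refine ⟨norm_nonneg _, fun k => ?_⟩
  rw [mul_left_comm, CC_C, norm_mul, mul_assoc]
  exact mul_le_mul_of_nonneg_left (hp k) (norm_nonneg _)

lemma Mu_X (g : XA →L[ℂ] ℂ) : Mu g X 3 := by
  intro p r _ hp
  refine ⟨by norm_num, fun k => ?_⟩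
  have := hp (k + 1)
  rw [pow_succ, pow_succ, mul_assoc] at this
  linarith

lemma Mu_le (g : XA →L[ℂ] ℂ) (a : ℂ[X]) (s t : ℝ) (h1 : Mu g a s) (h : s ≤ t) : Mu g a t := by
  intro p r hr hp
  obtain ⟨h5, h6⟩ := h1 p r hr hp
  refine ⟨h5.trans h, fun k => (h6 k).trans ?_⟩
  gcongr

lemma Mu_neg (g : XA →L[ℂ] ℂ) (a : ℂ[X]) (s : ℝ) (h1 : Mu g a s) : Mu g (-a) s := by
  have := Mu_mul g _ _ _ _ (Mu_C g (-1)) h1
  simpa using this

lemma Mu_ex (g : XA →L[ℂ] ℂ) (p : ℂ[X]) : ∃ s, Mu g p s := by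
  induction p using Polynomial.induction_on with
  | C a => exact ⟨_, Mu_C g a⟩
  | add p q hp hq =>
    obtain ⟨s, hs⟩ := hp
    obtain ⟨t, ht⟩ := hq
    exact ⟨_, Mu_add g _ _ _ _ hs ht⟩
  | monomial n a h =>
    obtain ⟨s, hs⟩ := h
    refine ⟨s * 3, ?_⟩
    rw [pow_succ, ← mul_assoc]
    exact Mu_mul g _ _ _ _ hs (Mu_X g)

lemma Mu_q0 (g : XA →L[ℂ] ℂ) : Mu g q0 (1 / 4) := by
  refine Mu_le g _ _ _ (Mu_mul g _ _ _ _ (Mu_C g _)
    (Mu_mul g _ _ _ _ (Mu_X g) (Mu_add g _ _ _ _ (Mu_X g) (Mu_C g _)))) ?_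
  norm_num

lemma vanish (g : XA →L[ℂ] ℂ) (M : ℝ) (hM : ∀ n, (g (io X ^ n)).re ≤ M) : g = 0 := by
  have hB : B g 1 (2 * (2 * |M| + ‖g‖)) := by
    intro k
    have : CC g (X ^ k * 1) = ((2 * (g (io X ^ k)).re : ℝ) : ℂ) := by
      simp only [CC, mul_one, coe_mapRingHom, Polynomial.map_pow, map_X, map_pow, add_conj]
    rw [this, norm_real, Real.norm_eq_abs, abs_mul, mul_assoc]
    have := growth g M hM k
    norm_num
    linarith
  have hp : ∀ p, g (io p) = 0 := by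
    intro p
    obtain ⟨s, hs⟩ := Mu_ex g p
    set Kc := 2 * (2 * |M| + ‖g‖) with hKc
    have hK0 : 0 ≤ Kc := by positivity
    have hb : ∀ j : ℕ, ‖g (io p)‖ ≤
        (‖g‖ * ‖io p‖ + s * Kc + ‖g‖ * ‖io (cj p)‖) * (1 / 4 * (7 / 8) ^ j) := by
      intro j
      have e : g (io p) = g (it (io (1 - q0)) j * io p) + CC g (X ^ 0 * (it q0 j * p * 1)) -
          (starRingEnd ℂ) (g (it (io (cj q0)) j * io (cj p))) := by
        have a1 := it_map io.toRingHom (1 - q0) j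
        have a2 := it_map io.toRingHom (cj q0) j
        have a3 := it_map cj q0 j
        simp only [AlgHom.toRingHom_eq_coe, RingHom.coe_coe] at a1 a2
        rw [← a1, ← a2, ← a3, it_one_sub]
        simp only [CC, pow_zero, one_mul, mul_one, map_mul, map_sub, map_one, sub_mul]
        ring
      have b1 : ‖g (it (io (1 - q0)) j * io p)‖ ≤ ‖g‖ * ((1 / 4 * (7 / 8) ^ j) * ‖io p‖) :=
        (g.le_opNorm _).trans (mul_le_mul_of_nonneg_left ((norm_mul_le _ _).trans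
          (mul_le_mul_of_nonneg_right (it_norm _ n1 j) (norm_nonneg _))) (norm_nonneg _))
      have b2 : ‖g (it (io (cj q0)) j * io (cj p))‖ ≤
          ‖g‖ * ((1 / 4 * (7 / 8) ^ j) * ‖io (cj p)‖) :=
        (g.le_opNorm _).trans (mul_le_mul_of_nonneg_left ((norm_mul_le _ _).trans
          (mul_le_mul_of_nonneg_right (it_norm _ n2 j) (norm_nonneg _))) (norm_nonneg _))
      have b3 := (Mu_mul g _ _ _ _ (it_size (Mu g) (Mu_mul g) (Mu_add g) (Mu_neg g) (Mu_le g) q0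
        (Mu_q0 g) j) hs 1 Kc hK0 hB).2 0
      rw [e]
      refine (norm_sub_le _ _).trans ((add_le_add_left (norm_add_le _ _) _).trans ?_)
      rw [RCLike.norm_conj]
      simp only [pow_zero, mul_one] at b3 ⊢
      linarith
    have ht : Filter.Tendsto (fun j : ℕ =>
        (‖g‖ * ‖io p‖ + s * Kc + ‖g‖ * ‖io (cj p)‖) * (1 / 4 * (7 / 8 : ℝ) ^ j)) Filter.atTop
        (nhds 0) := by
      have := ((tendsto_pow_atTop_nhds_zero_of_lt_one (r := (7 / 8 : ℝ)) (by norm_num)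
        (by norm_num)).const_mul (1 / 4)).const_mul (‖g‖ * ‖io p‖ + s * Kc + ‖g‖ * ‖io (cj p)‖)
      simpa using this
    exact norm_le_zero_iff.1 (ge_of_tendsto' ht hb)
  ext x
  exact io_dense.induction_on x (isClosed_eq g.continuous continuous_const) hp

noncomputable def T : XA →L[ℂ] XA := ContinuousLinearMap.mul ℂ XA (io X)

lemma T_pow (n : ℕ) (x : XA) : (T ^ n) x = io X ^ n * x := by
  induction n with
  | zero => simp
  | succ n ih => rw [pow_succ', ContinuousLinearMap.mul_apply, ih, T]; simp; ring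

lemma cyc : Dense (convexHull ℝ (Set.range fun n : ℕ => (T ^ n) (1 : XA))) := by
  intro x
  by_contra hx
  obtain ⟨f, u, h1, h2⟩ := RCLike.geometric_hahn_banach_closed_point (𝕜 := ℂ)
    (convex_convexHull ℝ _).closure isClosed_closure hx
  have h3 : ∀ n, (f (io X ^ n)).re < u := fun n =>
    h1 _ (subset_closure (subset_convexHull ℝ _ ⟨n, (T_pow n 1).trans (mul_one _)⟩))
  have h4 := vanish f u fun n => (h3 n).le
  have h5 := h3 0
  rw [h4] at h5 h2
  simp at h5 h2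
  linarith

lemma unit_of (h : XA) (hd : Dense (convexHull ℝ (Set.range fun n : ℕ => (T ^ n) h))) :
    IsUnit h := by
  have hsub : convexHull ℝ (Set.range fun n : ℕ => (T ^ n) h) ⊆ Set.range fun a : XA => a * h := by
    refine convexHull_min ?_ ?_
    · rintro _ ⟨n, rfl⟩; exact ⟨_, (T_pow n h).symm⟩
    · rintro _ ⟨a, rfl⟩ _ ⟨b, rfl⟩ s t _ _ _
      exact ⟨s • a + t • b, by simp [add_mul]⟩
  obtain ⟨y, hy1, hy2⟩ := hd.exists_dist_lt 1 one_pos
  obtain ⟨a, rfl⟩ := hsub hy1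
  rw [dist_eq_norm] at hy2
  have := isUnit_one_sub_of_norm_lt_one hy2
  simp only [sub_sub_cancel] at this
  exact isUnit_of_mul_isUnit_right this

lemma not_dense : ¬ Dense {x : XA | Dense (convexHull ℝ (Set.range fun n : ℕ => (T ^ n) x))} := by
  intro H
  obtain ⟨h, hh, hd⟩ := H.exists_dist_lt (io (X - C (10 * I))) (show (0 : ℝ) < 1 / 4 by norm_num)
  obtain ⟨k, hk⟩ := (unit_of h hh).exists_right_inv
  obtain ⟨p, hp⟩ := io_dense.exists_dist_lt k (show (0 : ℝ) < 1 / 2 by norm_num)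
  rw [dist_eq_norm] at hd hp
  have a1 : ∀ w : K, ‖((w : ℂ) - 10 * I) - ev h w‖ < 1 / 4 := by
    intro w
    have := (apply_le _ w).trans_lt hd
    rwa [ev_sub, io_apply, eval_sub, eval_X, eval_C] at this
  have a2 : ∀ w : K, ‖ev k w - p.eval (w : ℂ)‖ < 1 / 2 := by
    intro w
    have := (apply_le _ w).trans_lt hp
    simpa [ev_sub, io_apply] using this
  have a3 : ∀ w : K, ‖ev h w‖ * ‖ev k w‖ = 1 := by
    intro w
    rw [← norm_mul, ← ev_mul, hk, ev_one, norm_one]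
  have hmax : ‖p.eval (10 * I)‖ ≤ 2 := by
    refine Complex.norm_le_of_forall_mem_frontier_norm_le (U := Metric.ball (10 * I) 1)
      (f := fun z => p.eval z) Metric.isBounded_ball p.differentiable.diffContOnCl ?_
      (subset_closure (Metric.mem_ball_self one_pos))
    intro w hw
    rw [frontier_ball _ one_ne_zero] at hw
    have b0 : ‖w - 10 * I‖ = 1 := by simpa [dist_eq_norm] using hw
    have b1 := a1 ⟨w, Metric.sphere_subset_closedBall hw⟩
    have b2 := a2 ⟨w, Metric.sphere_subset_closedBall hw⟩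
    have b3 := a3 ⟨w, Metric.sphere_subset_closedBall hw⟩
    have b4 := norm_sub_norm_le (w - 10 * I) (ev h ⟨w, Metric.sphere_subset_closedBall hw⟩)
    have b5 := norm_sub_norm_le (p.eval w) (ev k ⟨w, Metric.sphere_subset_closedBall hw⟩)
    rw [norm_sub_rev] at b5
    simp only at b1 b2
    have b6 := norm_nonneg (ev k ⟨w, Metric.sphere_subset_closedBall hw⟩)
    nlinarith
  have c0 : (10 * I) ∈ K := Metric.mem_closedBall_self zero_le_one
  have b1 := a1 ⟨_, c0⟩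
  have b2 := a2 ⟨_, c0⟩
  have b3 := a3 ⟨_, c0⟩
  have b5 := norm_sub_norm_le (ev k ⟨_, c0⟩) (p.eval (10 * I))
  simp only [sub_self, zero_sub, norm_neg] at b1 b2
  have b6 := norm_nonneg (ev k ⟨_, c0⟩)
  have b7 := norm_nonneg (ev h ⟨_, c0⟩)
  nlinarith

end Pool.Agent.H15.ConvCyc
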