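import Mathlib

set_option autoImplicit false

namespace Pool.Agent.H15.Sig

open Nat.Partrec (Code)
open Nat.Partrec.Code Primrec

variable {α β : Type} [Primcodable α] [Primcodable β]

def Sig (p : α → Prop) : Prop :=
  ∃ R : α → ℕ → Prop, PrimrecRel R ∧ (∀ a, Monotone (R a)) ∧ ∀ a, p a ↔ ∃ k, R a k

theorem Sig.re {p : α → Prop} (h : Sig p) : REPred p := by
  classical
  obtain ⟨R, hR, -, h⟩ := h
  have h1 : Partrec (fun x ↦ Nat.rfind fun n => Part.some (decide (R x n))) :=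
    Partrec.rfind hR.decide.to_comp.partrec
  refine h1.dom_re.of_eq fun a => ?_
  rw [h, Nat.rfind_dom]
  simp

theorem code_of_re {p : α → Prop} (h : REPred p) :
    ∃ c : Code, ∀ a, p a ↔ (eval c (Encodable.encode a)).Dom := by
  obtain ⟨c, hc⟩ := exists_code.1 h
  refine ⟨c, fun a => ?_⟩
  rw [hc]
  simp [Part.dom_iff_mem]

theorem of_re {p : α → Prop} (h : REPred p) : Sig p := by
  obtain ⟨c, hc⟩ := code_of_re h
  refine ⟨fun a k => (evaln k c (Encodable.encode a)).isSome = true, ?_, fun a k l hkl hk => ?_,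
    fun a => ?_⟩
  · exact Primrec.eq.comp (option_isSome.comp (primrec_evaln.comp
      ((snd.pair (const c)).pair (Primrec.encode.comp fst)))) (const true)
  · obtain ⟨x, hx⟩ := Option.isSome_iff_exists.1 hk
    exact Option.isSome_iff_exists.2 ⟨x, evaln_mono hkl hx⟩
  · rw [hc, Part.dom_iff_mem]
    simp only [evaln_complete, Option.isSome_iff_exists]
    exact exists_comm

theorem countable_re : {S : Set α | REPred (· ∈ S)}.Countable := by
  refine (Set.countable_range fun c : Code => {a : α | (eval c (Encodable.encode a)).Dom}).mono ?_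
  intro S hS
  obtain ⟨c, hc⟩ := code_of_re hS
  exact ⟨c, Set.ext fun a => (hc a).symm⟩

theorem Sig.of_eq {p q : α → Prop} (h : Sig p) (e : ∀ a, p a ↔ q a) : Sig q :=
  funext (fun a => propext (e a)) ▸ h

theorem prim {p : α → Prop} (h : PrimrecPred p) : Sig p :=
  ⟨fun a _ => p a, h.comp fst, fun _ _ _ _ h => h, fun _ => by simp⟩

theorem Sig.comp {p : β → Prop} (h : Sig p) {f : α → β} (hf : Primrec f) : Sig fun a => p (f a) := by
  obtain ⟨R, hR, hm, h⟩ := h
  exact ⟨fun a k => R (f a) k, hR.comp (hf.comp fst) snd, fun a => hm _, fun a => h _⟩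

theorem Sig.and {p q : α → Prop} (hp : Sig p) (hq : Sig q) : Sig fun a => p a ∧ q a := by
  obtain ⟨R, hR, hm, h⟩ := hp
  obtain ⟨R', hR', hm', h'⟩ := hq
  refine ⟨fun a k => R a k ∧ R' a k, PrimrecPred.and hR hR',
    fun a k l hkl x => ⟨hm a hkl x.1, hm' a hkl x.2⟩, fun a => ?_⟩
  beta_reduce
  rw [h, h']
  exact ⟨fun ⟨⟨k, hk⟩, l, hl⟩ => ⟨max k l, hm a (le_max_left _ _) hk, hm' a (le_max_right _ _) hl⟩,
    fun ⟨k, h1, h2⟩ => ⟨⟨k, h1⟩, k, h2⟩⟩

theorem Sig.or {p q : α → Prop} (hp : Sig p) (hq : Sig q) : Sig fun a => p a ∨ q a := by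
  obtain ⟨R, hR, hm, h⟩ := hp
  obtain ⟨R', hR', hm', h'⟩ := hq
  refine ⟨fun a k => R a k ∨ R' a k, PrimrecPred.or hR hR',
    fun a k l hkl x => x.imp (hm a hkl) (hm' a hkl), fun a => ?_⟩
  beta_reduce
  rw [h, h', exists_or]

theorem Sig.imp {p q : α → Prop} (hp : PrimrecPred p) (hq : Sig q) : Sig fun a => p a → q a :=
  ((prim hp.not).or hq).of_eq fun _ => imp_iff_not_or.symm

theorem pex {p : α → ℕ → Prop} (hp : PrimrecRel p) {f : α → ℕ} (hf : Primrec f) :
    PrimrecPred fun a => ∃ n < f a, p a n := by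
  have h1 : PrimrecRel fun (n : ℕ) (a : α) => p a n := hp.comp snd fst
  exact (h1.exists_mem_list.comp (list_range.comp hf) Primrec.id).of_eq (by simp)

theorem pall {p : α → ℕ → Prop} (hp : PrimrecRel p) {f : α → ℕ} (hf : Primrec f) :
    PrimrecPred fun a => ∀ n < f a, p a n := by
  have h1 : PrimrecRel fun (n : ℕ) (a : α) => p a n := hp.comp snd fst
  exact (h1.forall_mem_list.comp (list_range.comp hf) Primrec.id).of_eq (by simp)

theorem ex {p : α → ℕ → Prop} (hp : Sig fun x : α × ℕ => p x.1 x.2) : Sig fun a => ∃ n, p a n := by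
  obtain ⟨R, hR, hm, h⟩ := hp
  refine ⟨fun a k => ∃ n < k, R (a, n) k, ?_,
    fun a k l hkl ⟨n, h1, h2⟩ => ⟨n, h1.trans_le hkl, hm _ hkl h2⟩, fun a => ?_⟩
  · exact pex (p := fun (x : α × ℕ) n => R (x.1, n) x.2)
      (hR.comp ((fst.comp fst).pair snd) (snd.comp fst)) snd
  · constructor
    · rintro ⟨n, hn⟩
      obtain ⟨k, hk⟩ := (h (a, n)).1 hn
      exact ⟨max k (n + 1), n, lt_max_of_lt_right (Nat.lt_succ_self n), hm _ (le_max_left _ _) hk⟩
    · rintro ⟨k, n, -, hk⟩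
      exact ⟨n, (h (a, n)).2 ⟨k, hk⟩⟩

theorem ball {p : α → ℕ → Prop} (hp : Sig fun x : α × ℕ => p x.1 x.2) {f : α → ℕ}
    (hf : Primrec f) : Sig fun a => ∀ n < f a, p a n := by
  obtain ⟨R, hR, hm, h⟩ := hp
  refine ⟨fun a k => ∀ n < f a, R (a, n) k, ?_,
    fun a k l hkl x n hn => hm _ hkl (x n hn), fun a => ?_⟩
  · exact pall (p := fun (x : α × ℕ) n => R (x.1, n) x.2)
      (hR.comp ((fst.comp fst).pair snd) (snd.comp fst)) (hf.comp fst)
  · constructor
    · intro H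
      choose! k hk using fun n hn => (h (a, n)).1 (H n hn)
      exact ⟨(Finset.range (f a)).sup k, fun n hn =>
        hm _ (Finset.le_sup (f := k) (Finset.mem_range.2 hn)) (hk n hn)⟩
    · rintro ⟨k, hk⟩ n hn
      exact (h (a, n)).2 ⟨k, hk n hn⟩

theorem prim_pow2 : Primrec fun i : ℕ => 2 ^ i :=
  (Primrec₂.unpaired'.1 Nat.Primrec.pow).comp (const 2) Primrec.id

theorem prim_bit : PrimrecRel fun u i : ℕ => u.testBit i = true := by
  have : PrimrecRel fun u i : ℕ => u / 2 ^ i % 2 = 1 :=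
    Primrec.eq.comp (nat_mod.comp (nat_div.comp fst (prim_pow2.comp snd)) (const 2)) (const 1)
  exact this.of_eq fun u i => by simp [Nat.testBit_eq_decide_div_mod_eq]

end Pool.Agent.H15.Sig
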