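import Mathlib
import Pool.Agent.H15.Sig

set_option autoImplicit false

namespace Pool.Agent.H15.Cot

open Set Filter Topology Pool.Agent.H15.Sig Primrec

def d (c k : ℕ) : ℕ := (Denumerable.ofNat (List ℕ) c).getD k 0
def E (c c' n : ℕ) : Prop := ∀ k < n, d c k = d c' k
def s (i : ℕ) : ℕ := Nat.pair i 0
def f (i c n : ℕ) : ℕ := Nat.pair i (Nat.pair c n + 1)

abbrev Ix := ℕ × ℕ × ℕ × ℕ × ℕ × ℕ

def U0 (a : Ix) (l : List ℕ) : Prop :=
  (a.1 = 0 ∧ l = []) ∨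
  (a.1 = 1 ∧ ¬ a.2.2.1 = a.2.2.2.1 ∧ l = [f a.2.1 a.2.2.1 a.2.2.2.2.1, f a.2.1 a.2.2.2.1 a.2.2.2.2.2]) ∨
  (a.1 = 2 ∧ ¬ E a.2.2.1 a.2.2.2.1 a.2.2.2.2.1 ∧
    l = [f a.2.1 a.2.2.1 a.2.2.2.2.1, f a.2.1 a.2.2.2.1 a.2.2.2.2.1]) ∨
  (a.1 = 3 ∧ E a.2.2.1 a.2.2.2.1 a.2.2.2.2.1 ∧ l = [s a.2.1, f a.2.1 a.2.2.1 a.2.2.2.2.1]) ∨
  (a.1 = 4 ∧ l = [s a.2.1])

def V0 (a : Ix) (l : List ℕ) : Prop :=
  (a.1 = 0 ∧ ∃ e, l = [f a.2.1 e a.2.2.2.2.1]) ∨ (a.1 = 1 ∧ l = [s a.2.1]) ∨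
  (a.1 = 3 ∧ l = [f a.2.1 a.2.2.2.1 a.2.2.2.2.1]) ∨
  (a.1 = 4 ∧ ∃ e k, ¬ E a.2.2.1 e k ∧ l = [f a.2.1 e k])

def U (p : ℕ × List ℕ) : Prop := U0 (Denumerable.ofNat Ix p.1) p.2
def V (p : ℕ × List ℕ) : Prop := V0 (Denumerable.ofNat Ix p.1) p.2

section
variable {α : Type} [Primcodable α]

lemma pd : Primrec₂ d := (list_getD 0).comp ((Primrec.ofNat (List ℕ)).comp fst) snd
lemma pE {a b c : α → ℕ} (ha : Primrec a) (hb : Primrec b) (hc : Primrec c) :
    PrimrecPred fun x => E (a x) (b x) (c x) :=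
  pall (p := fun x k => d (a x) k = d (b x) k)
    (Primrec.eq.comp (pd.comp (ha.comp fst) snd) (pd.comp (hb.comp fst) snd)) hc
lemma ps {a : α → ℕ} (ha : Primrec a) : Primrec fun x => s (a x) :=
  Primrec₂.natPair.comp ha (const 0)
lemma pf {a b c : α → ℕ} (ha : Primrec a) (hb : Primrec b) (hc : Primrec c) :
    Primrec fun x => f (a x) (b x) (c x) :=
  Primrec₂.natPair.comp ha (succ.comp (Primrec₂.natPair.comp hb hc))
lemma p1 {a : α → ℕ} {l : α → List ℕ} (hl : Primrec l) (ha : Primrec a) :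
    PrimrecPred fun x => l x = [a x] := Primrec.eq.comp hl (list_cons.comp ha (const []))
lemma p2 {a b : α → ℕ} {l : α → List ℕ} (hl : Primrec l) (ha : Primrec a) (hb : Primrec b) :
    PrimrecPred fun x => l x = [a x, b x] :=
  Primrec.eq.comp hl (list_cons.comp ha (list_cons.comp hb (const [])))
end

lemma q0 : Primrec fun p : Ix × List ℕ => p.1.1 := fst.comp fst
lemma q1 : Primrec fun p : Ix × List ℕ => p.1.2.1 := fst.comp <| snd.comp fst
lemma q2 : Primrec fun p : Ix × List ℕ => p.1.2.2.1 := fst.comp <| snd.comp <| snd.comp fst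
lemma q3 : Primrec fun p : Ix × List ℕ => p.1.2.2.2.1 :=
  fst.comp <| snd.comp <| snd.comp <| snd.comp fst
lemma q4 : Primrec fun p : Ix × List ℕ => p.1.2.2.2.2.1 :=
  fst.comp <| snd.comp <| snd.comp <| snd.comp <| snd.comp fst
lemma q5 : Primrec fun p : Ix × List ℕ => p.1.2.2.2.2.2 :=
  snd.comp <| snd.comp <| snd.comp <| snd.comp <| snd.comp fst
lemma qt (t : ℕ) : PrimrecPred fun p : Ix × List ℕ => p.1.1 = t := Primrec.eq.comp q0 (const t)

lemma reU : REPred U := by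
  have : Sig fun p : Ix × List ℕ => U0 p.1 p.2 := prim <|
    ((qt 0).and (Primrec.eq.comp snd (const []))).or <|
    ((qt 1).and ((Primrec.eq.comp q2 q3).not.and (p2 snd (pf q1 q2 q4) (pf q1 q3 q5)))).or <|
    ((qt 2).and ((pE q2 q3 q4).not.and (p2 snd (pf q1 q2 q4) (pf q1 q3 q4)))).or <|
    ((qt 3).and ((pE q2 q3 q4).and (p2 snd (ps q1) (pf q1 q2 q4)))).or
    ((qt 4).and (p1 snd (ps q1)))
  exact (this.comp (((Primrec.ofNat Ix).comp fst).pair snd)).re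

lemma reV : REPred V := by
  have : Sig fun p : Ix × List ℕ => V0 p.1 p.2 :=
    ((prim (qt 0)).and (ex (prim (p1 (snd.comp fst) (pf (q1.comp fst) snd (q4.comp fst)))))).or <|
    (prim ((qt 1).and (p1 snd (ps q1)))).or <|
    (prim ((qt 3).and (p1 snd (pf q1 q3 q4)))).or
    ((prim (qt 4)).and (ex (ex (prim ((pE (q2.comp <| fst.comp fst) (snd.comp fst) snd).not.and
      (p1 (snd.comp <| fst.comp fst) (pf (q1.comp <| fst.comp fst) (snd.comp fst) snd)))))))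
  exact (this.comp (((Primrec.ofNat Ix).comp fst).pair snd)).re

def Sat (X : Set ℕ) : Prop := ∀ i : ℕ, (∃ l : List ℕ, U (i, l) ∧ ∀ k ∈ l, k ∈ X) →
  ∃ l : List ℕ, V (i, l) ∧ ∀ k ∈ l, k ∈ X

lemma sat_iff (X : Set ℕ) : Sat X ↔ (∀ i n, ∃ c, f i c n ∈ X) ∧
    (∀ i c n c' m, c ≠ c' → f i c n ∈ X → f i c' m ∈ X → s i ∈ X) ∧
    (∀ i c c' n, f i c n ∈ X → f i c' n ∈ X → E c c' n) ∧
    (∀ i c c' n, E c c' n → s i ∈ X → f i c n ∈ X → f i c' n ∈ X) ∧
    (∀ i c, s i ∈ X → ∃ e k, ¬ E c e k ∧ f i e k ∈ X) := by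
  have h0 : Sat X ↔ ∀ a : Ix, (∃ l : List ℕ, U0 a l ∧ ∀ k ∈ l, k ∈ X) →
      ∃ l : List ℕ, V0 a l ∧ ∀ k ∈ l, k ∈ X :=
    ⟨fun h a => by
      have := h (Encodable.encode a)
      unfold U V at this
      simp only [Denumerable.ofNat_encode] at this
      exact this, fun h i => by
      unfold U V
      exact h (Denumerable.ofNat Ix i)⟩
  rw [h0]
  constructor
  · intro h
    refine ⟨fun i n => ?_, fun i c n c' m hc h1 h2 => ?_, fun i c c' n h1 h2 => ?_,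
      fun i c c' n he h1 h2 => ?_, fun i c h1 => ?_⟩
    · obtain ⟨l, hl, h'⟩ := h (0, i, 0, 0, n, 0) ⟨[], by simp [U0]⟩
      simp only [V0] at hl
      obtain ⟨e, rfl⟩ : ∃ e, l = [f i e n] := by simpa using hl
      exact ⟨e, h' _ (by simp)⟩
    · obtain ⟨l, hl, h'⟩ := h (1, i, c, c', n, m) ⟨[f i c n, f i c' m], by simp [U0, *]⟩
      obtain rfl : l = [s i] := by simpa [V0] using hl
      exact h' _ (by simp)
    · by_contra he
      obtain ⟨l, hl, h'⟩ := h (2, i, c, c', n, 0) ⟨[f i c n, f i c' n], by simp [U0, *]⟩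
      simp [V0] at hl
    · obtain ⟨l, hl, h'⟩ := h (3, i, c, c', n, 0) ⟨[s i, f i c n], by simp [U0, *]⟩
      obtain rfl : l = [f i c' n] := by simpa [V0] using hl
      exact h' _ (by simp)
    · obtain ⟨l, hl, h'⟩ := h (4, i, c, 0, 0, 0) ⟨[s i], by simp [U0, *]⟩
      simp only [V0] at hl
      obtain ⟨e, k, he, rfl⟩ : ∃ e k, ¬ E c e k ∧ l = [f i e k] := by simpa using hl
      exact ⟨e, k, he, h' _ (by simp)⟩
  · rintro ⟨h1, h2, h3, h4, h5⟩ ⟨t, i, c, c', n, m⟩ ⟨l, hl, h⟩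
    simp only [U0] at hl
    rcases hl with ⟨rfl, rfl⟩ | ⟨rfl, a, rfl⟩ | ⟨rfl, a, rfl⟩ | ⟨rfl, a, rfl⟩ | ⟨rfl, rfl⟩
    · obtain ⟨e, he⟩ := h1 i n
      exact ⟨[f i e n], Or.inl ⟨rfl, e, rfl⟩, by simpa using he⟩
    · exact ⟨[s i], by simp [V0], by
        simpa using h2 i c n c' m a (h _ (by simp)) (h _ (by simp))⟩
    · exact absurd (h3 i c c' n (h _ (by simp)) (h _ (by simp))) a
    · exact ⟨[f i c' n], by simp [V0], by
        simpa using h4 i c c' n a (h _ (by simp)) (h _ (by simp))⟩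
    · obtain ⟨e, k, a, he⟩ := h5 i c (h _ (by simp))
      exact ⟨[f i e k], Or.inr (Or.inr (Or.inr ⟨rfl, e, k, a, rfl⟩)), by simpa using he⟩

lemma cases (x : ℕ) : (∃ i, x = s i) ∨ ∃ i c n, x = f i c n := by
  rcases h : x.unpair.2 with _ | j
  · exact Or.inl ⟨x.unpair.1, by rw [s, ← h, Nat.pair_unpair]⟩
  · exact Or.inr ⟨x.unpair.1, j.unpair.1, j.unpair.2, by
      rw [f, Nat.pair_unpair, ← h, Nat.pair_unpair]⟩

lemma anti {X Y : Set ℕ} (hX : Sat X) (hY : Sat Y) (h : X ⊆ Y) : X = Y := by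
  rw [sat_iff] at hX hY
  obtain ⟨a1, a2, -, a4, -⟩ := hX
  obtain ⟨-, b2, b3, -, b5⟩ := hY
  have k : ∀ i, s i ∈ Y → s i ∈ X := by
    intro i hi
    by_contra hn
    obtain ⟨c, hc⟩ := a1 i 0
    obtain ⟨e, k, h1, h2⟩ := b5 i c hi
    obtain ⟨c', hc'⟩ := a1 i k
    obtain rfl : c = c' := by by_contra h'; exact hn (a2 _ _ _ _ _ h' hc hc')
    exact h1 (b3 _ _ _ _ (h hc') h2)
  refine h.antisymm fun x hx => ?_
  rcases cases x with ⟨i, rfl⟩ | ⟨i, c, n, rfl⟩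
  · exact k i hx
  · obtain ⟨c', hc'⟩ := a1 i n
    by_cases e : c' = c
    · exact e ▸ hc'
    · exact a4 _ _ _ _ (b3 _ _ _ _ (h hc') hx) (k i (b2 _ _ _ _ _ e (h hc') hx)) hc'

def A (y : ℕ → ℕ) : Set ℕ := {x | (x.unpair.2 = 0 ∧ y (s x.unpair.1) = 0) ∨
  ∃ c n, x.unpair.2 = Nat.pair c n + 1 ∧ (y (s x.unpair.1) = c + 1 ∨
    (y (s x.unpair.1) = 0 ∧ ∀ k < n, y (Nat.pair x.unpair.1 (k + 1)) = d c k))}

lemma s_mem (y : ℕ → ℕ) (i : ℕ) : s i ∈ A y ↔ y (s i) = 0 := by simp [A, s]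
lemma f_mem (y : ℕ → ℕ) (i c n : ℕ) : f i c n ∈ A y ↔ y (s i) = c + 1 ∨
    (y (s i) = 0 ∧ ∀ k < n, y (Nat.pair i (k + 1)) = d c k) := by
  simp [A, f, Nat.pair_eq_pair, and_assoc]

lemma pre (z : ℕ → ℕ) (n : ℕ) : ∃ c, ∀ k < n, z k = d c k :=
  ⟨Encodable.encode ((List.range n).map z), fun k hk => by simp [d, hk]⟩

lemma sat_A (y : ℕ → ℕ) (hy : ∀ i c, ∃ k, y (Nat.pair i (k + 1)) ≠ d c k) : Sat (A y) := by
  simp only [sat_iff, s_mem, f_mem]
  refine ⟨fun i n => ?_, ?_, ?_, ?_, fun i c h => ?_⟩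
  · rcases h : y (s i) with _ | c
    · obtain ⟨c, hc⟩ := pre (fun k => y (Nat.pair i (k + 1))) n
      exact ⟨c, Or.inr ⟨rfl, hc⟩⟩
    · exact ⟨c, Or.inl rfl⟩
  · rintro i c n c' m hc (h | h) (h' | h') <;> omega
  · rintro i c c' n (h | h) (h' | h') k hk
    · obtain rfl : c = c' := by omega
      rfl
    · omega
    · omega
    · exact (h.2 k hk).symm.trans (h'.2 k hk)
  · rintro i c c' n he h (h' | h')
    · omega
    · exact Or.inr ⟨h, fun k hk => (h'.2 k hk).trans (he k hk)⟩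
  · obtain ⟨k, hk⟩ := hy i c
    obtain ⟨e, he⟩ := pre (fun k => y (Nat.pair i (k + 1))) (k + 1)
    exact ⟨e, k + 1, fun h' => hk ((he k (by simp)).trans (h' k (by simp)).symm),
      Or.inr ⟨h, he⟩⟩

lemma op_set (j : ℕ) (S : Set ℕ) : IsOpen {y : ℕ → ℕ | y j ∈ S} :=
  have h : Continuous fun y : ℕ → ℕ => y j := continuous_apply j
  h.isOpen_preimage S (isOpen_discrete _)

lemma op_eq (j v : ℕ) : IsOpen {y : ℕ → ℕ | y j = v} :=
  (op_set j {v} :)

lemma op_mem (x : ℕ) : IsOpen {y | x ∈ A y} := by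
  rcases cases x with ⟨i, rfl⟩ | ⟨i, c, n, rfl⟩
  · simpa only [s_mem] using op_eq _ _
  · simp only [f_mem]
    refine (op_eq _ _).union ((op_eq _ _).inter ?_)
    have e : {y : ℕ → ℕ | ∀ k < n, y (Nat.pair i (k + 1)) = d c k} =
        ⋂ k ∈ Finset.range n, {y : ℕ → ℕ | y (Nat.pair i (k + 1)) = d c k} := by
      ext y
      simp
    show IsOpen {y : ℕ → ℕ | ∀ k < n, y (Nat.pair i (k + 1)) = d c k}
    rw [e]
    exact isOpen_biInter_finset fun k _ => op_eq _ _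

lemma cyl {O : Set (ℕ → ℕ)} (hO : IsOpen O) {y : ℕ → ℕ} (hy : y ∈ O) :
    ∃ M, ∀ z : ℕ → ℕ, (∀ j < M, z j = y j) → z ∈ O := by
  obtain ⟨_, ⟨x, n, rfl⟩, h1, h2⟩ :=
    (PiNat.isTopologicalBasis_cylinders (fun _ : ℕ => ℕ)).exists_subset_of_mem_open hy hO
  exact ⟨n, fun z hz => h2 fun j hj => (hz j hj).trans (h1 j hj)⟩

theorem generic {ι : Type} [Countable ι] (F : ι → ℕ → List ℕ → Set (Set ℕ))
    (hm : ∀ e i L B B', B ⊆ B' → B' ∈ F e i L → B ∈ F e i L)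
    (hc : ∀ e i L, IsClosed {y | A y ∈ F e i L}) :
    ∃ y, Sat (A y) ∧ ∀ e, ∃ i, ¬ (s i ∈ A y ↔ ∃ L, A y ∈ F e i L) := by
  have h1 : ∀ i c, ∀ᶠ y in residual (ℕ → ℕ), ∃ k, y (Nat.pair i (k + 1)) ≠ d c k := by
    intro i c
    refine residual_of_dense_open ?_ (dense_iff_inter_open.2 fun O hO ⟨y, hy⟩ => ?_)
    · rw [setOf_exists]
      exact isOpen_iUnion fun k => (op_set (Nat.pair i (k + 1)) {d c k}ᶜ :)
    · obtain ⟨M, hM⟩ := cyl hO hy
      refine ⟨Function.update y (Nat.pair i (M + 1)) (d c M + 1), hM _ fun j hj => ?_, M, by simp⟩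
      have := Nat.right_le_pair i (M + 1)
      exact Function.update_of_ne (by omega) _ _
  have h2 : ∀ e i L, ∀ᶠ y in residual (ℕ → ℕ),
      y ∈ interior {y | A y ∈ F e i L} ∪ {y | A y ∈ F e i L}ᶜ := by
    intro e i L
    refine residual_of_dense_open (isOpen_interior.union (hc e i L).isOpen_compl)
      (dense_iff_inter_open.2 fun O hO ⟨y, hy⟩ => ?_)
    by_cases h : O ⊆ {y | A y ∈ F e i L}
    · exact ⟨y, hy, Or.inl (interior_maximal h hO hy)⟩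
    · obtain ⟨z, h1, h2⟩ := not_subset.1 h
      exact ⟨z, h1, Or.inr h2⟩
  have h3 : ∀ e, ∀ᶠ y in residual (ℕ → ℕ), y ∈ ⋃ i,
      (⋃ L, interior ({y | y (s i) ≠ 0} ∩ {y | A y ∈ F e i L})) ∪
        ({y | y (s i) = 0} ∩ (closure (⋃ L, interior {y | A y ∈ F e i L}))ᶜ) := by
    intro e
    refine residual_of_dense_open (isOpen_iUnion fun i => (isOpen_iUnion fun _ =>
      isOpen_interior).union ((op_eq _ _).inter isClosed_closure.isOpen_compl))
      (dense_iff_inter_open.2 fun O hO ⟨y, hy⟩ => ?_)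
    obtain ⟨M, hM⟩ := cyl hO hy
    have hle : ∀ j, M ≤ Nat.pair M j := Nat.left_le_pair M
    let y0 := Function.update y (s M) 0
    have hy0 : ∀ j < M, y0 j = y j := fun j hj =>
      Function.update_of_ne (by have := hle 0; rw [s]; omega) _ _
    by_cases h : y0 ∈ closure (⋃ L, interior {y | A y ∈ F e M L})
    swap
    · exact ⟨y0, hM _ hy0, mem_iUnion.2 ⟨M, Or.inr ⟨by simp [y0], h⟩⟩⟩
    have hop : IsOpen ((⋂ j ∈ Finset.range M, {z : ℕ → ℕ | z j = y j}) ∩ {z | z (s M) = 0}) :=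
      (isOpen_biInter_finset fun j _ => op_eq _ _).inter (op_eq _ _)
    obtain ⟨y1, ⟨a1, a2⟩, a3⟩ := mem_closure_iff.1 h _ hop ⟨by simpa using hy0, by simp [y0]⟩
    obtain ⟨L, a3⟩ := mem_iUnion.1 a3
    obtain ⟨N, hN⟩ := cyl isOpen_interior a3
    obtain ⟨c, hc⟩ := pre (fun k => y1 (Nat.pair M (k + 1))) N
    let y2 := Function.update y1 (s M) (c + 1)
    refine ⟨y2, hM _ fun j hj => ?_, mem_iUnion.2 ⟨M, Or.inl (mem_iUnion.2 ⟨L, ?_⟩)⟩⟩
    · rw [← (by simpa using a1 : ∀ j < M, y1 j = y j) j hj]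
      exact Function.update_of_ne (by have := hle 0; rw [s]; omega) _ _
    have hop2 : IsOpen ((⋂ j ∈ Finset.range N, {z : ℕ → ℕ | z j = y2 j}) ∩
        {z | z (s M) = c + 1}) := (isOpen_biInter_finset fun j _ => op_eq _ _).inter (op_eq _ _)
    refine interior_maximal ?_ hop2 ⟨by simp, by simp [y2]⟩
    rintro z ⟨b1, (b2 : z (s M) = c + 1)⟩
    refine ⟨by simp [b2], ?_⟩
    let w : ℕ → ℕ := fun j => if j.unpair.1 = M then
      (if j.unpair.2 = 0 then 0 else d c (j.unpair.2 - 1)) else z j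
    refine hm e M L _ (A w) (fun x hx => ?_) 
      (interior_subset (s := {y | A y ∈ F e M L}) (hN w fun j hj => ?_) :)
    · rcases cases x with ⟨i, rfl⟩ | ⟨i, c', n, rfl⟩
      · rw [s_mem] at hx ⊢
        by_cases hi : i = M <;> simp [w, s, hi]
        exact hx
      · rw [f_mem] at hx ⊢
        by_cases hi : i = M
        · subst hi
          obtain rfl : c = c' := by omega
          simp [w, s]
        · simpa [w, s, hi] using hx
    · by_cases hi : j.unpair.1 = M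
      · rcases h0 : j.unpair.2 with _ | k
        · have : j = s M := by rw [s, ← hi, ← h0, Nat.pair_unpair]
          simp only [w, hi, h0, if_true]
          exact this ▸ (a2 : y1 (s M) = 0).symm
        · have e1 : j = Nat.pair M (k + 1) := by rw [← hi, ← h0, Nat.pair_unpair]
          have := Nat.right_le_pair M (k + 1)
          simp only [w, hi, h0, if_true]
          rw [e1]
          simpa using (hc k (by omega)).symm
      · simp only [w, hi, if_false]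
        rw [(by simpa using b1 : ∀ j < N, z j = y2 j) j hj]
        exact Function.update_of_ne (fun h => hi (by simp [h, s])) _ _
  have h4 := ((eventually_countable_forall.2 fun i => eventually_countable_forall.2 (h1 i)).and
    ((eventually_countable_forall.2 fun e => eventually_countable_forall.2 fun i =>
      eventually_countable_forall.2 (h2 e i)).and (eventually_countable_forall.2 h3)))
  obtain ⟨y, a1, a2, a3⟩ := (dense_of_mem_residual h4).nonempty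
  refine ⟨y, sat_A y a1, fun e => ?_⟩
  obtain ⟨i, h | h⟩ := mem_iUnion.1 (a3 e)
  · obtain ⟨L, h⟩ := mem_iUnion.1 h
    have := interior_subset h
    exact ⟨i, fun hh => this.1 ((s_mem _ _).1 (hh.2 ⟨L, this.2⟩))⟩
  · refine ⟨i, fun hh => ?_⟩
    obtain ⟨L, hL⟩ := hh.1 ((s_mem _ _).2 h.1)
    exact h.2 (subset_closure (mem_iUnion.2 ⟨L, (a2 e i L).resolve_right fun h' => h' hL⟩))

end Pool.Agent.H15.Cot
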