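import Pool.Agent.Results.MP_8d2225_pr.NoCutoff

set_option autoImplicit false

namespace Pool.Agent.H15.Cut

open Finset Filter Topology Matrix Pool.Agent.Results.MP_8d2225_pr.NoCutoff

noncomputable section

section
variable {G : Type} [AddCommGroup G] [Fintype G] [DecidableEq G] {S : Finset G}

def cay (h0 : 0 ∉ S) (hn : ∀ s ∈ S, -s ∈ S) : SimpleGraph G where
  Adj x y := y - x ∈ S
  symm := ⟨fun x y h => by simpa using hn _ h⟩
  loopless := ⟨fun x h => h0 (by simpa using h)⟩

instance (h0 : 0 ∉ S) (hn : ∀ s ∈ S, -s ∈ S) : DecidableRel (cay h0 hn).Adj :=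
  fun x y => (inferInstance : Decidable (y - x ∈ S))

lemma cay_deg (h0 : 0 ∉ S) (hn : ∀ s ∈ S, -s ∈ S) (x : G) : (cay h0 hn).degree x = S.card := by
  rw [← SimpleGraph.card_neighborFinset_eq_degree]
  refine card_bij (fun y _ => y - x) (fun y hy => by simpa [cay] using hy)
    (fun a _ b _ h => sub_left_injective h) fun s hs => ⟨s + x, by simpa [cay] using hs, by simp⟩

lemma cay_trans (h0 : 0 ∉ S) (hn : ∀ s ∈ S, -s ∈ S) (x y : G) :
    ∃ φ : cay h0 hn ≃g cay h0 hn, φ x = y :=
  ⟨⟨Equiv.addRight (y - x), by simp [cay]⟩, by simp⟩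

lemma cay_conn (h0 : 0 ∉ S) (hn : ∀ s ∈ S, -s ∈ S) (hg : AddSubgroup.closure (S : Set G) = ⊤) :
    (cay h0 hn).Connected := by
  have : ∀ g ∈ AddSubgroup.closure (S : Set G), ∀ x, (cay h0 hn).Reachable x (x + g) := by
    intro g hg
    induction hg using AddSubgroup.closure_induction with
    | mem s hs => exact fun x => SimpleGraph.Adj.reachable (by simpa [cay] using hs)
    | zero => simp
    | add a b _ _ ha hb => exact fun x => add_assoc x a b ▸ (ha x).trans (hb _)
    | neg a _ ha => exact fun x => by simpa using (ha (x + -a)).symm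
  exact ⟨fun x y => by simpa using this (y - x) (hg ▸ trivial) x⟩

lemma P_shift (t : ℕ) (x y : G) : (P S ^ t) x y = (P S ^ t) 0 (y - x) := by
  induction t generalizing y with
  | zero => simp [one_apply, eq_comm (a := (0 : G)), sub_eq_zero, eq_comm (a := x)]
  | succ t ih =>
    rw [pow_succ, mul_apply, mul_apply, ← Equiv.sum_comp (Equiv.addRight x)]
    refine sum_congr rfl fun z _ => ?_
    simp [ih, P, eq_sub_iff_add_eq, sub_sub, add_comm]

lemma P_nonneg (t : ℕ) (x y : G) : 0 ≤ (P S ^ t) x y := by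
  induction t generalizing y with
  | zero => simp only [pow_zero, one_apply]; split_ifs <;> norm_num
  | succ t ih =>
    rw [pow_succ, mul_apply]
    exact sum_nonneg fun z _ => mul_nonneg (ih z) (by unfold P; split_ifs <;> positivity)

lemma P_sum (hn : ∀ s ∈ S, -s ∈ S) (h : S.Nonempty) (t : ℕ) (x : G) : ∑ y, (P S ^ t) x y = 1 := by
  have := congrArg (fun f : G → ℝ => ∑ y, f y) (row hn t x)
  beta_reduce at this
  rw [this]
  clear this
  induction t with
  | zero => simp
  | succ t ih => rw [Function.iterate_succ_apply', sum_K h, ih]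

lemma P_symm (hn : ∀ s ∈ S, -s ∈ S) (t : ℕ) (x y : G) : (P S ^ t) x y = (P S ^ t) y x := by
  have : (P S).IsSymm := by
    ext x y
    have : x - y ∈ S ↔ y - x ∈ S := ⟨fun h => by simpa using hn _ h, fun h => by simpa using hn _ h⟩
    simp only [transpose_apply, P, this, eq_comm (a := y)]
  exact ((this.pow t).apply x y).symm

lemma tv_ge {f : G → ℝ} (h : ∑ y, f y = 1) (A : Finset G) :
    ∑ y ∈ A, f y - A.card / (Fintype.card G : ℝ) ≤ 1 / 2 * ∑ y, |f y - 1 / (Fintype.card G : ℝ)| := by
  set c : ℝ := 1 / Fintype.card G with hc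
  have sc : ∑ _y : G, c = 1 := by
    simp only [c, sum_const, card_univ, nsmul_eq_mul]
    exact mul_one_div_cancel (by positivity)
  have e1 := sum_add_sum_compl A fun y => |f y - c|
  have e2 := sum_add_sum_compl A fun y => f y - c
  have e3 := sum_le_sum (s := A) fun y _ => le_abs_self (f y - c)
  have e4 := sum_le_sum (s := Aᶜ) fun y _ => neg_le_abs (f y - c)
  rw [sum_neg_distrib] at e4
  rw [sum_sub_distrib (s := univ), h, sc] at e2
  rw [sum_sub_distrib, sum_const, nsmul_eq_mul, hc, mul_one_div, ← hc] at e2 e3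
  linarith

end

variable {p k r : ℕ} [Fact p.Prime] [NeZero r]

lemma R_mono : Monotone (R p k) := monotone_nat_of_le_succ fun t v hv =>
  mem_image.2 ⟨(v, 0, 0), by simpa using hv, by ext; simp [w]⟩

lemma mass (t T : ℕ) (h : t ≤ T) :
    (1 - 1 / (2 * r) : ℝ) ^ t ≤ ∑ y ∈ R p k T ×ˢ univ, (P (SS p k r) ^ t) 0 y := by
  refine le_trans ?_ (sum_le_sum_of_subset_of_nonneg
    (product_subset_product_left (R_mono h)) fun _ _ _ => P_nonneg _ _ _)
  clear h
  have a4 : (1 : ℝ) ≤ r := by exact_mod_cast NeZero.pos r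
  have b0 : (0 : ℝ) ≤ 1 - 1 / (2 * r) := by rw [sub_nonneg, div_le_one (by positivity)]; linarith
  induction t with
  | zero => simp [R, one_apply]
  | succ t ih =>
    have e := row (S := SS p k r) SS_neg (t + 1) 0
    rw [Function.iterate_succ_apply', ← row (S := SS p k r) SS_neg t 0] at e
    simp only [congrFun e]
    refine le_trans ?_ (step t fun y => P_nonneg _ _ _)
    rw [pow_succ']
    exact mul_le_mul_of_nonneg_left ih b0

lemma small (T : ℕ) (h : 2 * T ≤ k) : ((R p k T ×ˢ (univ : Finset (H p k r))).card : ℝ) /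
    (Fintype.card (GG p k r) : ℝ) ≤ 1 / (p : ℝ) ^ 2 := by
  have pp : (0 : ℝ) < p := by exact_mod_cast (Fact.out : p.Prime).pos
  have : ((R p k T).card : ℝ) ≤ p ^ k := by
    exact_mod_cast (R_card T).trans (Nat.pow_le_pow_right (Fact.out : p.Prime).pos h)
  have e : (Fintype.card (GG p k r) : ℝ) = p ^ (k + 2) * Fintype.card (H p k r) := by
    rw [Fintype.card_prod]; simp
  have : (0 : ℝ) < Fintype.card (H p k r) := by positivity
  rw [card_product, e, card_univ, div_le_div_iff₀ (by positivity) (by positivity)]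
  push_cast
  calc _ = ((R p k T).card : ℝ) * (p ^ 2 * Fintype.card (H p k r)) := by ring
    _ ≤ p ^ k * (p ^ 2 * Fintype.card (H p k r)) := by gcongr
    _ = _ := by ring

lemma card_ge : r ≤ Fintype.card (GG p k r) :=
  le_trans (Nat.le_mul_of_pos_right _ ppos) (SS_ge.trans (card_le_univ _))

end

end Pool.Agent.H15.Cut
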