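import Mathlib

namespace Pool.Agent.H15.CvxA
open Finset

def frc (n : ℕ) (f : ℕ → ℕ) : ℕ := match n with | 0 => f 0 | m+1 => f (m+1)

lemma frc_eq (n : ℕ) (f : ℕ → ℕ) : frc n f = f n := by cases n <;> rfl

def upd (b j : ℕ) : ℕ := if b = 0 then j + 1 else if b = j + 1 then b else 100

/-- plain search -/
def go (k : ℕ) : List (List (ℕ × ℕ × ℕ)) → ℕ → ℕ → ℕ → ℕ
  | [], _, nc, b => if nc = k ∧ b = 100 then 1 else 0
  | row :: rest, O, nc, b =>
      (row.map fun t => if t.2.1 &&& O = 0 then go k rest (O ||| t.2.2) nc (upd b t.1) else 0).sum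
        + go k rest O (nc + 1) b

def tr (t : ℕ × ℕ × ℕ) : ℕ × ℕ × ℕ × ℕ :=
  (t.1, t.2.1 <<< 64, t.2.2 <<< 64, (t.2.2 * 11400714819323198485) % 18446744073709551557)

/-- pruned, strict search -/
def go2 (k : ℕ) : List (List (ℕ × ℕ × ℕ × ℕ)) → ℕ → ℕ → ℕ → ℕ → ℕ
  | [], _, _, nc, b => bif Nat.beq nc k && Nat.beq b 100 then 1 else 0
  | row :: rest, f, O, nc, b =>
      bif Nat.blt k nc || Nat.blt (nc + f) k then 0 else
      bif Nat.beq (nc + f) k then (bif Nat.beq b 100 then 1 else 0) else
      frc (f - 1) fun f' =>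
      row.foldr (fun t acc => bif Nat.beq (Nat.land t.2.1 O) 0 then
          (frc (Nat.xor (Nat.lor O t.2.2.1) t.2.2.2) fun O' => frc (upd b t.1) fun b' =>
            go2 k rest f' O' nc b') + acc
          else acc) (frc (nc + 1) fun nc' => go2 k rest f' O nc' b)

lemma sh1 (R O : ℕ) : (R <<< 64) &&& O = 0 ↔ R &&& (O >>> 64) = 0 := by
  constructor
  · intro h
    apply Nat.zero_of_testBit_eq_false
    intro p
    have := congrArg (fun z => z.testBit (64 + p)) h
    simpa [Nat.testBit_and, Nat.testBit_shiftLeft, Nat.testBit_shiftRight] using this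
  · intro h
    apply Nat.zero_of_testBit_eq_false
    intro p
    rw [Nat.testBit_and, Nat.testBit_shiftLeft]
    by_cases hp : p ≥ 64
    · have := congrArg (fun z => z.testBit (p - 64)) h
      simp only [Nat.testBit_and, Nat.testBit_shiftRight, Nat.zero_testBit] at this
      rw [show 64 + (p - 64) = p by omega] at this
      simp [hp, this]
    · simp [hp]

lemma sh2 (O U h : ℕ) (hh : h < 2 ^ 64) : ((O ||| U <<< 64) ^^^ h) >>> 64 = (O >>> 64) ||| U := by
  rw [Nat.shiftRight_xor_distrib, Nat.shiftRight_or_distrib, Nat.shiftLeft_shiftRight,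
    Nat.shiftRight_eq_div_pow h, Nat.div_eq_of_lt hh, Nat.xor_zero]

def goH (k : ℕ) : List (List (ℕ × ℕ × ℕ × ℕ)) → ℕ → ℕ → ℕ → ℕ
  | [], _, nc, b => if nc = k ∧ b = 100 then 1 else 0
  | row :: rest, O, nc, b =>
      (row.map fun t => if t.2.1 &&& O = 0 then
        goH k rest ((O ||| t.2.2.1) ^^^ t.2.2.2) nc (upd b t.1) else 0).sum
        + goH k rest O (nc + 1) b

lemma goH_eq (k : ℕ) (tab : List (List (ℕ × ℕ × ℕ))) : ∀ O nc b,
    goH k (tab.map (List.map tr)) O nc b = go k tab (O >>> 64) nc b := by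
  induction tab with
  | nil => intro O nc b; rfl
  | cons row rest ih =>
    intro O nc b
    simp only [goH, go, List.map_cons, List.map_map, ih]
    refine congrArg (fun l : List ℕ => l.sum + go k rest (O >>> 64) (nc + 1) b) ?_
    apply List.map_congr_left
    intro t _
    have e2 : ((O ||| (tr t).2.2.1) ^^^ (tr t).2.2.2) >>> 64 = (O >>> 64) ||| t.2.2 :=
      sh2 O t.2.2 _ (lt_trans (Nat.mod_lt _ (by norm_num)) (by norm_num))
    simp only [Function.comp, e2]
    exact if_congr (sh1 _ _) rfl rfl

lemma go_zero (k : ℕ) (tab : List (List (ℕ × ℕ × ℕ × ℕ))) : ∀ O nc b,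
    (k < nc ∨ nc + tab.length < k) → goH k tab O nc b = 0 := by
  induction tab with
  | nil => intro O nc b h; simp only [goH]; rw [if_neg]; simp at h; omega
  | cons row rest ih =>
    intro O nc b h
    simp only [List.length_cons] at h
    simp only [goH]
    rw [ih O (nc+1) b (by omega), add_zero]
    apply List.sum_eq_zero
    intro x hx
    obtain ⟨t, -, rfl⟩ := List.mem_map.1 hx
    split_ifs
    · exact ih _ _ _ (by omega)
    · rfl

lemma go_one (k : ℕ) (tab : List (List (ℕ × ℕ × ℕ × ℕ))) : ∀ O nc b,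
    nc + tab.length = k → goH k tab O nc b = if b = 100 then 1 else 0 := by
  induction tab with
  | nil => intro O nc b h; simp only [goH]; simp at h; simp [h]
  | cons row rest ih =>
    intro O nc b h
    simp only [List.length_cons] at h
    simp only [goH]
    rw [ih O (nc+1) b (by omega), List.sum_eq_zero, zero_add]
    intro x hx
    obtain ⟨t, -, rfl⟩ := List.mem_map.1 hx
    split_ifs
    · exact go_zero _ _ _ _ _ (by omega)
    · rfl

lemma go2_eq (k : ℕ) (tab : List (List (ℕ × ℕ × ℕ × ℕ))) : ∀ O nc b,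
    go2 k tab tab.length O nc b = goH k tab O nc b := by
  induction tab with
  | nil =>
    intro O nc b
    simp only [goH, go2]
    split_ifs with h
    · obtain ⟨rfl, rfl⟩ := h
      simp
    · have : (Nat.beq nc k && Nat.beq b 100) = false := by
        rw [Bool.eq_false_iff]; intro h'; apply h; simpa [Nat.beq_eq] using h'
      rw [this]; rfl
  | cons row rest ih =>
    intro O nc b
    simp only [go2]
    by_cases h : k < nc ∨ nc + (row :: rest).length < k
    · rw [go_zero k _ _ nc b h]
      have : (Nat.blt k nc || Nat.blt (nc + (row :: rest).length) k) = true := by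
        simpa [Nat.blt_eq] using h
      rw [this]; rfl
    · have : (Nat.blt k nc || Nat.blt (nc + (row :: rest).length) k) = false := by
        rw [Bool.eq_false_iff]; intro h'; apply h; simpa [Nat.blt_eq] using h'
      rw [this, cond_false]
      by_cases h1 : nc + (row :: rest).length = k
      · rw [go_one k _ _ nc b h1, (Nat.beq_eq ▸ h1 : Nat.beq (nc + (row :: rest).length) k = true), cond_true]
        split_ifs with hb
        · rw [(Nat.beq_eq ▸ hb : Nat.beq b 100 = true)]; rfl
        · rw [Bool.eq_false_iff.2 (fun h' => hb (Nat.eq_of_beq_eq_true h'))]; rfl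
      rw [Bool.eq_false_iff.2 (fun h' => h1 (Nat.eq_of_beq_eq_true h'))]
      simp only [cond_false, frc_eq, List.length_cons, Nat.add_sub_cancel, goH, ih]
      generalize goH k rest O (nc + 1) b = z
      clear h this h1
      induction row with
      | nil => simp
      | cons t row ih2 =>
        simp only [List.foldr_cons, List.map_cons, List.sum_cons]
        rw [ih2]
        by_cases ht : t.2.1 &&& O = 0
        · have h3 : Nat.beq (Nat.land t.2.1 O) 0 = true := Nat.beq_eq ▸ ht
          rw [h3, if_pos ht]; simp only [cond_true]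
          show goH k rest ((O ||| t.2.2.1) ^^^ t.2.2.2) nc (upd b t.1) + _ = _
          omega
        · have h3 : Nat.beq (Nat.land t.2.1 O) 0 = false := by
            rw [Bool.eq_false_iff]; intro h'; exact ht (Nat.eq_of_beq_eq_true h')
          rw [h3, if_neg ht]; simp

def fr : List (List (ℕ × ℕ × ℕ × ℕ)) → ℕ → ℕ → ℕ → List (ℕ × ℕ × ℕ)
  | [], O, nc, b => [(O, nc, b)]
  | row :: rest, O, nc, b =>
      (row.flatMap fun t => if t.2.1 &&& O = 0 then
        fr rest ((O ||| t.2.2.1) ^^^ t.2.2.2) nc (upd b t.1) else []) ++ fr rest O (nc + 1) b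

def chunk (k : ℕ) (rest : List (List (ℕ × ℕ × ℕ × ℕ))) (f : ℕ) (l : List (ℕ × ℕ × ℕ)) : ℕ :=
  (l.map fun s => go2 k rest f s.1 s.2.1 s.2.2).sum

lemma chunk_append (k rest f l l') : chunk k rest f (l ++ l') = chunk k rest f l + chunk k rest f l' := by
  simp [chunk]

lemma front (k : ℕ) (rest pre : List (List (ℕ × ℕ × ℕ × ℕ))) : ∀ O nc b,
    goH k (pre ++ rest) O nc b = chunk k rest rest.length (fr pre O nc b) := by
  induction pre with
  | nil => intro O nc b; simp [fr, chunk, go2_eq]
  | cons row pre ih =>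
    intro O nc b
    simp only [List.cons_append, goH, fr, chunk_append, ih]
    congr 1
    induction row with
    | nil => simp [chunk]
    | cons t row ih2 =>
      simp only [List.map_cons, List.sum_cons, List.flatMap_cons, chunk_append, ih2]
      congr 1
      split_ifs
      · rfl
      · simp [chunk]

/-- representative functions -/
def W (N k : ℕ) (X : ℕ → ℕ → ℕ → ℕ → Prop) (r : ℕ → ℕ) : Prop :=
  (∀ x, N ≤ x → r x = x) ∧ (∀ x, x < N → r x ≤ x) ∧
  (∀ i, i < N → ∀ x, x < i → r i ≠ i → r x ≠ x → ¬ (r i = x ∨ (r i ≠ r x ∧ X i (r i) x (r x)))) ∧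
  ((range N).filter (fun x => r x = x)).card = k ∧
  (∃ x, x < N ∧ ∃ z, z < N ∧ r x ≠ x ∧ r z ≠ z ∧ r x ≠ r z)

def Binv (i : ℕ) (r : ℕ → ℕ) (b : ℕ) : Prop :=
  (b = 0 ∧ ∀ x, x < i → r x = x) ∨
  (∃ j, j < 99 ∧ b = j + 1 ∧ (∃ x, x < i ∧ r x ≠ x ∧ r x = j) ∧ ∀ x, x < i → r x ≠ x → r x = j) ∨
  (b = 100 ∧ ∃ x, x < i ∧ ∃ z, z < i ∧ r x ≠ x ∧ r z ≠ z ∧ r x ≠ r z)

def tab (N : ℕ) (R : ℕ → ℕ → ℕ) (i f : ℕ) : List (List (ℕ × ℕ × ℕ)) :=
  (List.range' i f).map fun i => (List.range i).map fun j => (j, R i j, 2 ^ (N * i + j))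

lemma main (N k : ℕ) (hN : N < 99) (X : ℕ → ℕ → ℕ → ℕ → Prop) (R : ℕ → ℕ → ℕ)
    (hR : ∀ i, i < N → ∀ j, j < i → ∀ x, x < i → ∀ y, y < x →
      ((R i j).testBit (N * x + y) = true ↔ (j = x ∨ (j ≠ y ∧ X i j x y)))) :
    ∀ f i (r0 : ℕ → ℕ) (O nc b : ℕ) (A : Finset (ℕ → ℕ)), i + f = N →
      (∀ x, i ≤ x → r0 x = x) → (∀ x, x < i → r0 x ≤ x) →
      (∀ i', i' < i → ∀ x, x < i' → r0 i' ≠ i' → r0 x ≠ x →
        ¬ (r0 i' = x ∨ (r0 i' ≠ r0 x ∧ X i' (r0 i') x (r0 x)))) →
      (∀ p, O.testBit p = true ↔ ∃ x, x < i ∧ r0 x ≠ x ∧ p = N * x + r0 x) →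
      nc = ((range i).filter (fun x => r0 x = x)).card → Binv i r0 b →
      (∀ r, r ∈ A ↔ W N k X r ∧ ∀ x, x < i → r x = r0 x) →
      A.card = go k (tab N R i f) O nc b := by
  intro f
  induction f with
  | zero =>
    intro i r0 O nc b A hi h1 h2 h3 hO hnc hb hA
    have hiN : i = N := by omega
    subst hiN
    simp only [tab, List.range'_zero, List.map_nil, go]
    have key : ∀ r, r ∈ A → r = r0 := by
      intro r hr
      obtain ⟨hw, he⟩ := (hA r).1 hr
      funext x
      by_cases hx : x < i
      · exact he x hx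
      · rw [hw.1 x (by omega), h1 x (by omega)]
    split_ifs with hc
    · rw [card_eq_one]
      refine ⟨r0, ?_⟩
      ext r
      rw [mem_singleton]
      refine ⟨key r, ?_⟩
      rintro rfl
      refine (hA _).2 ⟨⟨h1, h2, h3, by omega, ?_⟩, fun _ _ => rfl⟩
      rcases hb with ⟨h, -⟩ | ⟨j, hj, h, -⟩ | ⟨-, h⟩
      · omega
      · omega
      · exact h
    · rw [card_eq_zero, eq_empty_iff_forall_notMem]
      intro r hr
      have := key r hr
      subst this
      obtain ⟨hw, -⟩ := (hA r).1 hr
      apply hc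
      refine ⟨by rw [hnc]; exact hw.2.2.2.1, ?_⟩
      obtain ⟨x, hx, z, hz, a1, a2, a3⟩ := hw.2.2.2.2
      rcases hb with ⟨-, h⟩ | ⟨j, -, -, -, h⟩ | ⟨h, -⟩
      · exact absurd (h x hx) a1
      · exact absurd ((h x hx a1).trans (h z hz a2).symm) a3
      · exact h
  | succ f ih =>
    intro i r0 O nc b A hi h1 h2 h3 hO hnc hb hA
    have hiN : i < N := by omega
    have ht : tab N R i (f+1) = ((List.range i).map fun j => (j, R i j, 2 ^ (N * i + j))) ::
        tab N R (i+1) f := by
      simp [tab, List.range'_succ]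
    rw [ht]
    simp only [go, List.map_map]
    rw [card_eq_sum_card_fiberwise (f := fun r => r i) (s := A) (t := range (i+1))
      (fun r hr => by
        have := ((hA r).1 hr).1.2.1 i hiN
        simp only [coe_range, Set.mem_Iio]; omega), sum_range_succ]
    congr 1
    · rw [← List.sum_toFinset _ List.nodup_range, List.toFinset_range]
      apply sum_congr rfl
      intro j hj
      have hj' : j < i := mem_range.1 hj
      simp only [Function.comp]
      have hcond : R i j &&& O = 0 ↔ ∀ x, x < i → r0 x ≠ x → ¬ (j = x ∨ (j ≠ r0 x ∧ X i j x (r0 x))) := by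
        constructor
        · intro h x hx hr hc
          have a1 := (hR i hiN j hj' x hx (r0 x) (lt_of_le_of_ne (h2 x hx) hr)).2 hc
          have a2 := (hO (N * x + r0 x)).2 ⟨x, hx, hr, rfl⟩
          have a3 : (R i j &&& O).testBit (N * x + r0 x) = true := by
            rw [Nat.testBit_and, a1, a2]; rfl
          rw [h] at a3; simp at a3
        · intro h
          apply Nat.zero_of_testBit_eq_false
          intro p
          rw [Nat.testBit_and, Bool.and_eq_false_iff]
          by_contra hc
          rw [not_or] at hc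
          obtain ⟨x, hx, hr, rfl⟩ := (hO p).1 (by simpa using hc.2)
          exact h x hx hr ((hR i hiN j hj' x hx (r0 x) (lt_of_le_of_ne (h2 x hx) hr)).1
            (by simpa using hc.1))
      have u1 : ∀ x, x < i → Function.update r0 i j x = r0 x :=
        fun x hx => Function.update_of_ne (by omega) _ _
      have u2 : Function.update r0 i j i = j := Function.update_self _ _ _
      split_ifs with hc
      · apply ih (i+1) (Function.update r0 i j) _ _ _ _ (by omega)
        · intro x hx; rw [Function.update_of_ne (by omega)]; exact h1 x (by omega)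
        · intro x hx
          rcases Nat.lt_succ_iff_lt_or_eq.1 hx with hx | rfl
          · rw [u1 x hx]; exact h2 x hx
          · rw [u2]; omega
        · intro i' hi' x hx
          rcases Nat.lt_succ_iff_lt_or_eq.1 hi' with hi' | rfl
          · rw [u1 i' hi', u1 x (by omega)]; exact h3 i' hi' x hx
          · rw [u2, u1 x hx]; intro _ hr; exact hcond.1 hc x hx hr
        · intro p
          rw [Nat.testBit_or, Bool.or_eq_true, hO, Nat.testBit_two_pow, decide_eq_true_iff]
          constructor
          · rintro (⟨x, hx, hr, rfl⟩ | rfl)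
            · exact ⟨x, by omega, by rw [u1 x hx]; exact hr, by rw [u1 x hx]⟩
            · exact ⟨i, by omega, by rw [u2]; omega, by rw [u2]⟩
          · rintro ⟨x, hx, hr, rfl⟩
            rcases Nat.lt_succ_iff_lt_or_eq.1 hx with hx | rfl
            · rw [u1 x hx] at hr ⊢; exact Or.inl ⟨x, hx, hr, rfl⟩
            · rw [u2]; exact Or.inr rfl
        · rw [hnc, range_add_one, filter_insert, if_neg (by rw [u2]; omega)]
          congr 1
          apply filter_congr
          intro x hx
          rw [u1 x (mem_range.1 hx)]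
        · unfold upd
          rcases hb with ⟨h, h'⟩ | ⟨j', hj9, h, ⟨x, hx, a1, a2⟩, h'⟩ | ⟨h, x, hx, z, hz, a1, a2, a3⟩
          · rw [if_pos h]
            refine Or.inr (Or.inl ⟨j, by omega, rfl, ⟨i, by omega, by rw [u2]; omega, u2⟩, ?_⟩)
            intro x hx
            rcases Nat.lt_succ_iff_lt_or_eq.1 hx with hx | rfl
            · rw [u1 x hx]; intro hh; exact absurd (h' x hx) hh
            · intro _; exact u2
          · rw [if_neg (by omega)]
            split_ifs with hb2
            · refine Or.inr (Or.inl ⟨j', hj9, h, ⟨x, by omega, by rw [u1 x hx]; exact a1,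
                by rw [u1 x hx]; exact a2⟩, ?_⟩)
              intro x hx
              rcases Nat.lt_succ_iff_lt_or_eq.1 hx with hx | rfl
              · rw [u1 x hx]; exact h' x hx
              · intro _; rw [u2]; omega
            · refine Or.inr (Or.inr ⟨rfl, x, by omega, i, by omega, by rw [u1 x hx]; exact a1,
                by rw [u2]; omega, by rw [u1 x hx, u2]; omega⟩)
          · rw [if_neg (by omega), if_neg (by omega)]
            exact Or.inr (Or.inr ⟨rfl, x, by omega, z, by omega, by rw [u1 x hx]; exact a1,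
              by rw [u1 z hz]; exact a2, by rw [u1 x hx, u1 z hz]; exact a3⟩)
        · intro r
          rw [mem_filter, hA]
          constructor
          · rintro ⟨⟨hw, he⟩, hri⟩
            refine ⟨hw, fun x hx => ?_⟩
            rcases Nat.lt_succ_iff_lt_or_eq.1 hx with hx | rfl
            · rw [u1 x hx]; exact he x hx
            · rw [u2]; exact hri
          · rintro ⟨hw, he⟩
            exact ⟨⟨hw, fun x hx => by rw [he x (by omega), u1 x hx]⟩, by rw [he i (by omega), u2]⟩
      · rw [card_eq_zero, eq_empty_iff_forall_notMem]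
        intro r hr
        rw [mem_filter, hA] at hr
        obtain ⟨⟨hw, he⟩, hri⟩ := hr
        apply hc
        rw [hcond]
        intro x hx hrx
        have := hw.2.2.1 i hiN x hx (by omega) (by rw [he x hx]; exact hrx)
        rwa [hri, he x hx] at this
    · have hri : r0 i = i := h1 i le_rfl
      apply ih (i+1) r0 _ _ _ _ (by omega)
      · intro x hx; exact h1 x (by omega)
      · intro x hx
        rcases Nat.lt_succ_iff_lt_or_eq.1 hx with hx | rfl
        · exact h2 x hx
        · omega
      · intro i' hi' x hx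
        rcases Nat.lt_succ_iff_lt_or_eq.1 hi' with hi' | rfl
        · exact h3 i' hi' x hx
        · intro h; exact absurd hri h
      · intro p
        rw [hO]
        constructor
        · rintro ⟨x, hx, h⟩; exact ⟨x, by omega, h⟩
        · rintro ⟨x, hx, h⟩
          rcases Nat.lt_succ_iff_lt_or_eq.1 hx with hx | rfl
          · exact ⟨x, hx, h⟩
          · exact absurd hri h.1
      · rw [hnc, range_add_one, filter_insert, if_pos hri, card_insert_of_notMem (by simp)]
      · rcases hb with ⟨h, h'⟩ | ⟨j', hj9, h, ⟨x, hx, a1, a2⟩, h'⟩ | ⟨h, x, hx, z, hz, a⟩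
        · refine Or.inl ⟨h, fun x hx => ?_⟩
          rcases Nat.lt_succ_iff_lt_or_eq.1 hx with hx | rfl
          · exact h' x hx
          · exact hri
        · refine Or.inr (Or.inl ⟨j', hj9, h, ⟨x, by omega, a1, a2⟩, fun x hx => ?_⟩)
          rcases Nat.lt_succ_iff_lt_or_eq.1 hx with hx | rfl
          · exact h' x hx
          · intro hh; exact absurd hri hh
        · exact Or.inr (Or.inr ⟨h, x, by omega, z, by omega, a⟩)
      · intro r
        rw [mem_filter, hA]
        constructor
        · rintro ⟨⟨hw, he⟩, hr⟩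
          refine ⟨hw, fun x hx => ?_⟩
          rcases Nat.lt_succ_iff_lt_or_eq.1 hx with hx | rfl
          · exact he x hx
          · rw [hri]; exact hr
        · rintro ⟨hw, he⟩
          exact ⟨⟨hw, fun x hx => he x (by omega)⟩, by rw [he i (by omega), hri]⟩

theorem count (N k : ℕ) (hN : N < 99) (X : ℕ → ℕ → ℕ → ℕ → Prop) (R : ℕ → ℕ → ℕ)
    (hR : ∀ i, i < N → ∀ j, j < i → ∀ x, x < i → ∀ y, y < x →
      ((R i j).testBit (N * x + y) = true ↔ (j = x ∨ (j ≠ y ∧ X i j x y))))
    (hfin : {r | W N k X r}.Finite) :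
    {r | W N k X r}.ncard = goH k ((tab N R 0 N).map (List.map tr)) 0 0 0 := by
  have h := goH_eq k (tab N R 0 N) 0 0 0
  rw [Nat.zero_shiftRight] at h
  rw [h, Set.ncard_eq_toFinset_card _ hfin]
  apply main N k hN X R hR N 0 id 0 0 0 _ (by omega) (fun _ _ => rfl) (by simp) (by simp) (by simp)
    (by simp) (Or.inl ⟨rfl, by simp⟩)
  intro r; simp

end Pool.Agent.H15.CvxA
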