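import Pool.Agent.H15.CvxA

namespace Pool.Agent.H15.CvxB
open Finset Pool.Agent.H15.CvxA

variable {N : ℕ}

open Classical in
noncomputable def rep (s : Setoid (Fin N)) (x : Fin N) : Fin N :=
  (univ.filter (fun y => s y x)).min' ⟨x, by simp [s.refl']⟩

lemma rep_rel (s : Setoid (Fin N)) (x : Fin N) : s (rep s x) x := by
  classical
  have := min'_mem (univ.filter (fun y => s y x)) ⟨x, by simp [s.refl']⟩
  rw [mem_filter] at this
  exact this.2

lemma rep_le' (s : Setoid (Fin N)) {x y : Fin N} (h : s y x) : rep s x ≤ y := by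
  unfold rep
  apply min'_le
  simp [h]

lemma rep_eq_iff (s : Setoid (Fin N)) (x y : Fin N) : rep s x = rep s y ↔ s x y := by
  constructor
  · intro h
    exact s.trans' (s.symm' (rep_rel s x)) (h ▸ rep_rel s y)
  · intro h
    exact le_antisymm (rep_le' s (s.trans' (rep_rel s y) (s.symm' h)))
      (rep_le' s (s.trans' (rep_rel s x) h))

noncomputable def rho (s : Setoid (Fin N)) (x : ℕ) : ℕ :=
  if h : x < N then (rep s ⟨x, h⟩).val else x

lemma rho_fin (s : Setoid (Fin N)) (x : Fin N) : rho s x = (rep s x).val := by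
  simp [rho, x.2]

lemma rho_inj : Function.Injective (rho (N := N)) := by
  intro s t h
  ext x y
  rw [← rep_eq_iff, ← rep_eq_iff, Fin.ext_iff, Fin.ext_iff, ← rho_fin, ← rho_fin, ← rho_fin,
    ← rho_fin, h]

lemma card_quot (s : Setoid (Fin N)) :
    Nat.card (Quotient s) = ((range N).filter (fun x => rho s x = x)).card := by
  have e : Quotient s ≃ {x // x ∈ (range N).filter (fun x => rho s x = x)} :=
    { toFun := Quotient.lift (fun x => ⟨(rep s x).val, by
          rw [mem_filter, mem_range, rho_fin, (rep_eq_iff s _ _).2 (rep_rel s x)]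
          exact ⟨(rep s x).2, rfl⟩⟩)
        (fun a b h => Subtype.ext (congrArg Fin.val ((rep_eq_iff s a b).2 h)))
      invFun := fun x => Quotient.mk s ⟨x.1, mem_range.1 (mem_filter.1 x.2).1⟩
      left_inv := by
        rintro ⟨x⟩
        exact Quotient.sound (rep_rel s x)
      right_inv := by
        rintro ⟨x, hx⟩
        apply Subtype.ext
        have h := mem_filter.1 hx
        exact (rho_fin s ⟨x, mem_range.1 h.1⟩).symm.trans h.2 }
  rw [Nat.card_congr e, Nat.card_eq_fintype_card, Fintype.card_coe]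

def Good (X : ℕ → ℕ → ℕ → ℕ → Prop) (s : Setoid (Fin N)) : Prop :=
  ∀ x y z w : Fin N, s x y → s z w → X x y z w → s x z

def Nontriv (s : Setoid (Fin N)) : Prop :=
  ∃ a b c d, a ≠ b ∧ c ≠ d ∧ s a b ∧ s c d ∧ ¬ s a c

theorem image_eq (k : ℕ) (X : ℕ → ℕ → ℕ → ℕ → Prop)
    (h1 : ∀ x y z w, X x y z w → X z w x y)
    (h2 : ∀ x y z w m, X x y z w → X x m z w ∨ X y m z w)
    (h3 : ∀ x z w, ¬ X x x z w) :
    rho '' {s : Setoid (Fin N) | Good X s ∧ Nat.card (Quotient s) = k ∧ Nontriv s} =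
      {r | W N k X r} := by
  ext r
  constructor
  · rintro ⟨s, ⟨hg, hk, a, b, c, d, hab, hcd, sab, scd, nac⟩, rfl⟩
    refine ⟨fun x hx => by simp [rho, not_lt.2 hx], fun x hx => ?_, ?_, by rw [← card_quot, hk], ?_⟩
    · rw [rho_fin s ⟨x, hx⟩]; exact rep_le' s (s.refl' _)
    · intro i hi x hx a1 a2
      have e1 := rho_fin s ⟨i, hi⟩
      have e2 := rho_fin s ⟨x, hx.trans hi⟩
      simp only at e1 e2
      rintro (h | ⟨h, hX⟩)
      · apply a2
        have : (⟨x, hx.trans hi⟩ : Fin N) = rep s ⟨i, hi⟩ := Fin.ext (by rw [← e1, h])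
        rw [e2, this, (rep_eq_iff s _ _).2 (rep_rel s _), ← this]
      · apply h
        rw [e1, e2] at hX ⊢
        exact congrArg Fin.val ((rep_eq_iff s _ _).2 (hg ⟨i, hi⟩ _ ⟨x, hx.trans hi⟩ _
          (s.symm' (rep_rel s _)) (s.symm' (rep_rel s _)) hX))
    · have key : ∀ a b : Fin N, a ≠ b → s a b → ∃ x : Fin N, s x a ∧ rho s x ≠ x := by
        intro a b hab sab
        by_cases h : rep s a = a
        · refine ⟨b, s.symm' sab, ?_⟩
          rw [rho_fin, ← (rep_eq_iff s _ _).2 sab, h]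
          exact fun h' => hab (Fin.ext h')
        · exact ⟨a, s.refl' a, by rw [rho_fin]; exact fun h' => h (Fin.ext h')⟩
      obtain ⟨x, hx, hx'⟩ := key a b hab sab
      obtain ⟨z, hz, hz'⟩ := key c d hcd scd
      refine ⟨x, x.2, z, z.2, hx', hz', ?_⟩
      rw [rho_fin, rho_fin]
      intro h
      exact nac (s.trans' (s.symm' hx) (s.trans' ((rep_eq_iff s _ _).1 (Fin.ext h)) hz))
  · rintro ⟨w1, w2, w3, w4, x0, hx0, z0, hz0, a1, a2, a3⟩
    have idem : ∀ x, x < N → r (r x) = r x := by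
      intro x hx
      by_contra h
      have hne : r x ≠ x := fun h' => h (by rw [h', h'])
      exact w3 x hx (r x) (lt_of_le_of_ne (w2 x hx) hne) hne h (Or.inl rfl)
    let s : Setoid (Fin N) := Setoid.ker (fun x : Fin N => r x)
    have hs : ∀ x y : Fin N, s x y ↔ r x = r y := fun _ _ => Iff.rfl
    have hr : rho s = r := by
      funext x
      by_cases hx : x < N
      · rw [rho_fin s ⟨x, hx⟩]
        apply le_antisymm
        · have := rep_le' s (x := ⟨x, hx⟩) (y := ⟨r x, (w2 x hx).trans_lt hx⟩) ((hs _ _).2 (idem x hx))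
          exact this
        · have := (hs _ _).1 (rep_rel s ⟨x, hx⟩)
          simp only at this
          rw [← this]; exact w2 _ (rep s ⟨x, hx⟩).2
      · rw [w1 x (by omega)]; simp [rho, hx]
    have core : ∀ x, x < N → ∀ z, z < N → X x (r x) z (r z) → r x = r z := by
      intro x hx z hz hX
      by_contra hne
      have b1 : r x ≠ x := fun h => h3 x z (r z) (by rwa [h] at hX)
      have b2 : r z ≠ z := fun h => h3 z x (r x) (by have := h1 _ _ _ _ hX; rwa [h] at this)
      rcases lt_trichotomy x z with h | h | h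
      · exact w3 z hz x h b2 b1 (Or.inr ⟨Ne.symm hne, h1 _ _ _ _ hX⟩)
      · exact hne (by rw [h])
      · exact w3 x hx z h b1 b2 (Or.inr ⟨hne, hX⟩)
    refine ⟨s, ⟨?_, by rw [card_quot, hr, w4], ⟨x0, hx0⟩, ⟨r x0, (w2 _ hx0).trans_lt hx0⟩,
      ⟨z0, hz0⟩, ⟨r z0, (w2 _ hz0).trans_lt hz0⟩, fun h => a1 (Fin.ext_iff.1 h).symm,
      fun h => a2 (Fin.ext_iff.1 h).symm, (idem _ hx0).symm, (idem _ hz0).symm, a3⟩, hr⟩
    intro x y z w sxy szw hX
    rw [hs] at sxy szw ⊢
    have step : ∀ u : Fin N, r u = r x → X u (r x) z w → r x = r z := by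
      intro u hu hX
      rcases h2 _ _ _ _ (r z) (h1 _ _ _ _ hX) with h | h
      · have := core z z.2 u u.2 (by rw [hu]; exact h)
        rw [this, hu]
      · have := core w w.2 u u.2 (by rw [hu, ← szw]; exact h)
        rw [szw, this, hu]
    rcases h2 _ _ _ _ (r x) hX with h | h
    · exact step x rfl h
    · exact step y sxy.symm h

theorem count' (k : ℕ) (hN : N < 99) (X : ℕ → ℕ → ℕ → ℕ → Prop) (R : ℕ → ℕ → ℕ)
    (h1 : ∀ x y z w, X x y z w → X z w x y)
    (h2 : ∀ x y z w m, X x y z w → X x m z w ∨ X y m z w)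
    (h3 : ∀ x z w, ¬ X x x z w)
    (hR : ∀ i, i < N → ∀ j, j < i → ∀ x, x < i → ∀ y, y < x →
      ((R i j).testBit (N * x + y) = true ↔ (j = x ∨ (j ≠ y ∧ X i j x y)))) :
    {s : Setoid (Fin N) | Good X s ∧ Nat.card (Quotient s) = k ∧ Nontriv s}.ncard =
      goH k ((tab N R 0 N).map (List.map tr)) 0 0 0 := by
  haveI : Finite (Setoid (Fin N)) :=
    Finite.of_injective (fun s : Setoid (Fin N) => rep s) (by
      intro s t h
      ext x y
      rw [← rep_eq_iff, ← rep_eq_iff]
      simp only at h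
      rw [h])
  rw [← Set.ncard_image_of_injective _ rho_inj, image_eq k X h1 h2 h3]
  apply count N k hN X R hR
  rw [← image_eq k X h1 h2 h3]
  exact (Set.toFinite _).image _

end Pool.Agent.H15.CvxB
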