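import Pool.Agent.H15.CvxB

namespace Pool.Agent.H15.CvxC
open Finset SimpleGraph

variable {m : ℕ} {par anc : ℕ → ℕ}

def gr (m : ℕ) (par : ℕ → ℕ) (h1 : ∀ u, u < m → u ≠ 0 → par u < u) : SimpleGraph (Fin m) where
  Adj u v := (u.val ≠ 0 ∧ par u = v) ∨ (v.val ≠ 0 ∧ par v = u)
  symm := ⟨fun _ _ h => h.symm⟩
  loopless := ⟨fun u h => by
    have := h1 u u.2
    rcases h with h | h <;> exact absurd h.2 (this h.1).ne⟩

def mx : Sym2 (Fin m) → ℕ := Sym2.lift ⟨fun a b => max a.val b.val, fun _ _ => max_comm _ _⟩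

lemma mx_mk (a b : Fin m) : mx s(a, b) = max a.val b.val := rfl

def Inc (par : ℕ → ℕ) (e v : ℕ) : Prop := e ≠ 0 ∧ (e = v ∨ par e = v)

instance : ∀ e v, Decidable (Inc par e v) := fun _ _ => by unfold Inc; infer_instance

variable (h1 : ∀ u, u < m → u ≠ 0 → par u < u)
  (h2 : ∀ u, u < m → u ≠ 0 → anc u ^^^ anc (par u) = 2 ^ u)

include h1 h2 in
lemma adj_bit {u v : Fin m} (h : (gr m par h1).Adj u v) (e : ℕ) :
    (anc u).testBit e ≠ (anc v).testBit e ↔ e = mx s(u, v) := by
  have key : ∀ u v : Fin m, u.val ≠ 0 → par u = v →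
      ((anc u).testBit e ≠ (anc v).testBit e ↔ e = max u.val v.val) := by
    intro u v hu hp
    have a := congrArg (fun z => z.testBit e) (h2 u u.2 hu)
    have b := h1 u u.2 hu
    simp only [Nat.testBit_xor, Nat.testBit_two_pow, hp] at a b
    rw [max_eq_left b.le, eq_comm (a := e), ← decide_eq_true_iff (p := u.val = e), ← a]
    simp
  rw [mx_mk]
  rcases h with h | h
  · exact key u v h.1 h.2
  · rw [max_comm, ne_comm]; exact key v u h.1 h.2

lemma adj_inc {u v : Fin m} (h : (gr m par h1).Adj u v) :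
    mx s(u, v) < m ∧ Inc par (mx s(u, v)) u ∧ Inc par (mx s(u, v)) v := by
  rw [mx_mk]
  rcases h with h | h
  · have := h1 u u.2 h.1
    rw [max_eq_left (by omega)]
    exact ⟨u.2, ⟨h.1, Or.inl rfl⟩, h.1, Or.inr h.2⟩
  · have := h1 v v.2 h.1
    rw [max_eq_right (by omega)]
    exact ⟨v.2, ⟨h.1, Or.inr h.2⟩, h.1, Or.inl rfl⟩

lemma mx_inj {d d' : Sym2 (Fin m)} (h : d ∈ (gr m par h1).edgeSet) (h' : d' ∈ (gr m par h1).edgeSet)
    (e : mx d = mx d') : d = d' := by
  induction d using Sym2.ind with | _ u v => ?_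
  induction d' using Sym2.ind with | _ u' v' => ?_
  rw [mx_mk, mx_mk] at e
  rw [Sym2.eq_iff, Fin.ext_iff, Fin.ext_iff, Fin.ext_iff, Fin.ext_iff]
  replace h : (u.val ≠ 0 ∧ par u = v) ∨ (v.val ≠ 0 ∧ par v = u) := h
  replace h' : (u'.val ≠ 0 ∧ par u' = v') ∨ (v'.val ≠ 0 ∧ par v' = u') := h'
  rcases h with h | h <;> rcases h' with h' | h' <;>
    have a := h1 _ (Fin.is_lt _) h.1 <;> have b := h1 _ (Fin.is_lt _) h'.1
  · have : u.val = u'.val := by omega
    left; exact ⟨this, by rw [← h.2, ← h'.2, this]⟩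
  · have : u.val = v'.val := by omega
    right; exact ⟨this, by rw [← h.2, ← h'.2, this]⟩
  · have : v.val = u'.val := by omega
    right; exact ⟨by rw [← h.2, ← h'.2, this], this⟩
  · have : v.val = v'.val := by omega
    left; exact ⟨by rw [← h.2, ← h'.2, this], this⟩

include h2 in
lemma walk_same {u w : Fin m} (p : (gr m par h1).Walk u w) (e : ℕ) (h : ∀ d ∈ p.edges, mx d ≠ e) :
    (anc u).testBit e = (anc w).testBit e := by
  induction p with
  | nil => rfl
  | cons a p ih =>
    rw [← ih (fun d hd => h d (by simp [hd]))]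
    by_contra hc
    exact h _ (by simp) ((adj_bit h1 h2 a e).1 hc).symm

include h2 in
lemma trail_diff {u w : Fin m} (p : (gr m par h1).Walk u w) (hp : p.edges.Nodup) :
    ∀ d ∈ p.edges, (anc u).testBit (mx d) ≠ (anc w).testBit (mx d) := by
  induction p with
  | nil => simp
  | @cons a b c h p ih =>
    rw [Walk.edges_cons, List.nodup_cons] at hp
    intro d hd
    rw [Walk.edges_cons, List.mem_cons] at hd
    rcases hd with rfl | hd
    · rw [← walk_same h1 h2 p _ (fun d hd he => hp.1 (by
        rwa [← mx_inj h1 (p.edges_subset_edgeSet hd) (show s(a, b) ∈ (gr m par h1).edgeSet from h) he]))]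
      exact (adj_bit h1 h2 h _).2 rfl
    · have : (anc a).testBit (mx d) = (anc b).testBit (mx d) := by
        by_contra hc
        exact hp.1 (by rwa [← mx_inj h1 (p.edges_subset_edgeSet hd)
          (show s(a, b) ∈ (gr m par h1).edgeSet from h) ((adj_bit h1 h2 h _).1 hc)])
      rw [this]; exact ih hp.2 d hd

include h2 in
theorem isTree (hm : 0 < m) : (gr m par h1).IsTree := by
  refine ⟨?_, ?_⟩
  · haveI : Nonempty (Fin m) := ⟨⟨0, hm⟩⟩
    have key : ∀ n (h : n < m), (gr m par h1).Reachable ⟨n, h⟩ ⟨0, hm⟩ := by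
      intro n
      induction n using Nat.strong_induction_on with
      | _ n ih =>
        intro h
        by_cases hn : n = 0
        · subst hn; rfl
        · have hl := h1 n h hn
          exact (Adj.reachable (show (gr m par h1).Adj ⟨n, h⟩ ⟨par n, hl.trans h⟩ from
            Or.inl ⟨hn, rfl⟩)).trans (ih _ hl _)
    exact ⟨fun u v => (key u u.2).trans (key v v.2).symm⟩
  · rw [isAcyclic_iff_forall_adj_isBridge]
    intro v w h
    rw [isBridge_iff_forall_walk_mem_edges]
    intro p
    by_contra hc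
    exact (adj_bit h1 h2 h _).2 rfl (walk_same h1 h2 p _ (fun d hd he => hc (by
      rwa [← mx_inj h1 (p.edges_subset_edgeSet hd) (show s(v, w) ∈ (gr m par h1).edgeSet from h) he])))

/-- paths between labels x,y and z,w share an edge -/
def XT (c : ℕ → ℕ) (x y z w : ℕ) : Prop :=
  ∃ e, (c x).testBit e ≠ (c y).testBit e ∧ (c z).testBit e ≠ (c w).testBit e

lemma XT_iff (c : ℕ → ℕ) (x y z w : ℕ) : XT c x y z w ↔ (c x ^^^ c y) &&& (c z ^^^ c w) ≠ 0 := by
  constructor
  · rintro ⟨e, a, b⟩ h
    have := congrArg (fun z => z.testBit e) h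
    simp only [Nat.testBit_and, Nat.testBit_xor, Nat.zero_testBit] at this
    revert a b this
    cases (c x).testBit e <;> cases (c y).testBit e <;> cases (c z).testBit e <;>
      cases (c w).testBit e <;> simp
  · intro h
    obtain ⟨e, he⟩ := Nat.exists_testBit_of_ne_zero h
    refine ⟨e, ?_⟩
    simp only [Nat.testBit_and, Nat.testBit_xor] at he
    revert he
    cases (c x).testBit e <;> cases (c y).testBit e <;> cases (c z).testBit e <;>
      cases (c w).testBit e <;> simp

include h2 in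
theorem conv_iff {n : ℕ} (hm : 0 < m) (lb : ℕ → ℕ) (hl : ∀ x, x < n → lb x < m)
    (hinj : ∀ x, x < n → ∀ y, y < n → lb x = lb y → x = y)
    (h4 : ∀ v, v < m → ∀ e, e < m → Inc par e v → ∀ e', e' < m → Inc par e' v → e = e' ∨
      ∃ e'', e'' < m ∧ ∀ x, x < n → (((anc (lb x)).testBit e ^^ (anc (lb x)).testBit e') ^^
        (anc (lb x)).testBit e'') = (((anc (lb 0)).testBit e ^^ (anc (lb 0)).testBit e') ^^
        (anc (lb 0)).testBit e''))
    (h5 : ∀ y, y < n → ∀ e, e < m → Inc par e (lb y) → ∀ z, z < n → ∀ w, w < n → z ≠ y → w ≠ y →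
      (anc (lb z)).testBit e = (anc (lb w)).testBit e)
    (s : Setoid (Fin n)) :
    (∃ D : Set (Sym2 (Fin m)), D ⊆ (gr m par h1).edgeSet ∧ ∀ i j : Fin n, s i j ↔
      ((gr m par h1).deleteEdges D).Reachable ⟨lb i, hl i i.2⟩ ⟨lb j, hl j j.2⟩) ↔
    CvxB.Good (XT fun x => anc (lb x)) s := by
  constructor
  · rintro ⟨D, -, hD⟩ x y z w sxy szw ⟨e, a, b⟩
    have key : ∀ (u v : Fin m) (p : ((gr m par h1).deleteEdges D).Walk u v),
        (anc u).testBit e ≠ (anc v).testBit e →
        ∃ t : Fin m, t.val = e ∧ ((gr m par h1).deleteEdges D).Reachable u t := by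
      intro u v p
      induction p with
      | nil => intro h; exact absurd rfl h
      | @cons a b c h p ih =>
        intro hne
        by_cases hab : (anc a).testBit e = (anc b).testBit e
        · obtain ⟨t, ht, hr⟩ := ih (by rwa [← hab])
          exact ⟨t, ht, h.reachable.trans hr⟩
        · have := (adj_bit h1 h2 (deleteEdges_adj.1 h).1 e).1 hab
          rw [mx_mk] at this
          rcases max_choice a.val b.val with h' | h'
          · exact ⟨a, by omega, Reachable.refl _⟩
          · exact ⟨b, by omega, h.reachable⟩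
    obtain ⟨p⟩ := (hD x y).1 sxy
    obtain ⟨q⟩ := (hD z w).1 szw
    obtain ⟨t, ht, hr⟩ := key _ _ p a
    obtain ⟨t', ht', hr'⟩ := key _ _ q b
    have : t = t' := Fin.ext (by omega)
    subst this
    exact (hD x z).2 (hr.trans hr'.symm)
  · intro hg
    refine ⟨{d | d ∈ (gr m par h1).edgeSet ∧ ¬ ∃ z w : Fin n, s z w ∧
      (anc (lb z)).testBit (mx d) ≠ (anc (lb w)).testBit (mx d)}, fun d hd => hd.1, fun i j => ⟨?_, ?_⟩⟩
    · intro sij
      obtain ⟨p, hp⟩ := (isTree h1 h2 hm).connected.exists_isPath ⟨lb i, hl i i.2⟩ ⟨lb j, hl j j.2⟩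
      refine ⟨p.toDeleteEdges _ ?_⟩
      intro d hd hc
      exact hc.2 ⟨i, j, sij, trail_diff h1 h2 p hp.isTrail.edges_nodup d hd⟩
    · rintro ⟨p⟩
      have pend : ∀ (y : Fin n) (e : ℕ), e < m → Inc par e (lb y) → ∀ z w : Fin n, s z w →
          (anc (lb z)).testBit e ≠ (anc (lb w)).testBit e → s z y := by
        intro y e he hi z w szw hne
        by_cases a : z = y
        · rw [a]
        by_cases b : w = y
        · rw [← b]; exact szw
        exact absurd (h5 y y.2 e he hi z z.2 w w.2 (fun h => a (Fin.ext h)) (fun h => b (Fin.ext h))) hne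
      have key : ∀ (u v : Fin m) (p : ((gr m par h1).deleteEdges {d | d ∈ (gr m par h1).edgeSet ∧
          ¬ ∃ z w : Fin n, s z w ∧ (anc (lb z)).testBit (mx d) ≠ (anc (lb w)).testBit (mx d)}).Walk u v),
          (u.val = lb i ∨ ∃ e, e < m ∧ Inc par e u ∧ ∃ z w : Fin n, s z i ∧ s z w ∧
            (anc (lb z)).testBit e ≠ (anc (lb w)).testBit e) →
          (v.val = lb i ∨ ∃ e, e < m ∧ Inc par e v ∧ ∃ z w : Fin n, s z i ∧ s z w ∧
            (anc (lb z)).testBit e ≠ (anc (lb w)).testBit e) := by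
        intro u v p
        induction p with
        | nil => exact id
        | @cons a b c h p ih =>
          intro hu
          apply ih
          obtain ⟨hadj, hD⟩ := deleteEdges_adj.1 h
          obtain ⟨i1, i2, i3⟩ := adj_inc h1 hadj
          have : ∃ z w : Fin n, s z w ∧
              (anc (lb z)).testBit (mx s(a, b)) ≠ (anc (lb w)).testBit (mx s(a, b)) := by
            by_contra hc; exact hD ⟨hadj, hc⟩
          obtain ⟨z, w, szw, hne⟩ := this
          refine Or.inr ⟨_, i1, i3, z, w, ?_, szw, hne⟩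
          rcases hu with hu | ⟨e, he, hi, z', w', s1, s2, hne'⟩
          · exact pend i _ i1 (hu ▸ i2) z w szw hne
          · refine s.trans' (hg z w z' w' szw s2 ?_) s1
            rcases h4 a a.2 e he hi _ i1 i2 with h' | ⟨e'', -, h'⟩
            · exact ⟨e, h' ▸ hne, hne'⟩
            · have q1 := (h' z z.2).trans (h' w w.2).symm
              have q2 := (h' z' z'.2).trans (h' w' w'.2).symm
              by_cases c1 : (anc (lb z)).testBit e = (anc (lb w)).testBit e
              · by_cases c2 : (anc (lb z')).testBit (mx s(a, b)) = (anc (lb w')).testBit (mx s(a, b))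
                · refine ⟨e'', ?_, ?_⟩
                  · intro c3; simp only at c3; rw [c1, c3] at q1; apply hne; simpa using q1
                  · intro c3; simp only at c3; rw [c2, c3] at q2; apply hne'; simpa using q2
                · exact ⟨_, hne, c2⟩
              · exact ⟨e, c1, hne'⟩
      rcases key _ _ p (Or.inl rfl) with h | ⟨e, he, hi, z, w, s1, s2, hne⟩
      · have : j = i := Fin.ext (hinj _ j.2 _ i.2 h)
        rw [this]
      · exact s.trans' (s.symm' s1) (pend j e he hi z w s2 hne)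

end Pool.Agent.H15.CvxC
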