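import Pool.Agent.H15.CvxD

namespace Pool.Agent.H15.CvxD
open Pool.Agent.H15.CvxA

lemma k10_0 : chunk 10 REST 8 C0 = 0 := by decide +kernel
lemma k10_1 : chunk 10 REST 8 C1 = 12 := by decide +kernel
lemma k10_2 : chunk 10 REST 8 C2 = 132 := by decide +kernel
lemma k10_3 : chunk 10 REST 8 C3 = 210 := by decide +kernel
lemma k10_4 : chunk 10 REST 8 C4 = 0 := by decide +kernel
lemma k10_5 : chunk 10 REST 8 C5 = 90 := by decide +kernel
lemma k10_6 : chunk 10 REST 8 C6 = 126 := by decide +kernel
lemma k10_7 : chunk 10 REST 8 C7 = 109 := by decide +kernel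
lemma k10_8 : chunk 10 REST 8 C8 = 232 := by decide +kernel
lemma k10_9 : chunk 10 REST 8 C9 = 60 := by decide +kernel
lemma k10_10 : chunk 10 REST 8 C10 = 194 := by decide +kernel
lemma k10_11 : chunk 10 REST 8 C11 = 41 := by decide +kernel
lemma k10_12 : chunk 10 REST 8 C12 = 18 := by decide +kernel
lemma k10_13 : chunk 10 REST 8 C13 = 219 := by decide +kernel
lemma k10_14 : chunk 10 REST 8 C14 = 178 := by decide +kernel
lemma k10_15 : chunk 10 REST 8 C15 = 70 := by decide +kernel
lemma k10_16 : chunk 10 REST 8 C16 = 141 := by decide +kernel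
theorem k10 : goH 10 TAB 0 0 0 = 1832 := by
  have h : TAB = PRE ++ REST := (List.take_append_drop 8 TAB).symm
  have hl : REST.length = 8 := by decide +kernel
  rw [h, front, hl, fr_eq]
  simp only [chunk_append, k10_0, k10_1, k10_2, k10_3, k10_4, k10_5, k10_6, k10_7, k10_8, k10_9, k10_10, k10_11, k10_12, k10_13, k10_14, k10_15, k10_16]

end Pool.Agent.H15.CvxD
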