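import Pool.Agent.H15.CvxD

namespace Pool.Agent.H15.CvxD
open Pool.Agent.H15.CvxA

lemma k11_0 : chunk 11 REST 8 C0 = 0 := by decide +kernel
lemma k11_1 : chunk 11 REST 8 C1 = 29 := by decide +kernel
lemma k11_2 : chunk 11 REST 8 C2 = 108 := by decide +kernel
lemma k11_3 : chunk 11 REST 8 C3 = 120 := by decide +kernel
lemma k11_4 : chunk 11 REST 8 C4 = 0 := by decide +kernel
lemma k11_5 : chunk 11 REST 8 C5 = 49 := by decide +kernel
lemma k11_6 : chunk 11 REST 8 C6 = 85 := by decide +kernel
lemma k11_7 : chunk 11 REST 8 C7 = 63 := by decide +kernel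
lemma k11_8 : chunk 11 REST 8 C8 = 166 := by decide +kernel
lemma k11_9 : chunk 11 REST 8 C9 = 52 := by decide +kernel
lemma k11_10 : chunk 11 REST 8 C10 = 199 := by decide +kernel
lemma k11_11 : chunk 11 REST 8 C11 = 81 := by decide +kernel
lemma k11_12 : chunk 11 REST 8 C12 = 91 := by decide +kernel
lemma k11_13 : chunk 11 REST 8 C13 = 207 := by decide +kernel
lemma k11_14 : chunk 11 REST 8 C14 = 192 := by decide +kernel
lemma k11_15 : chunk 11 REST 8 C15 = 82 := by decide +kernel
lemma k11_16 : chunk 11 REST 8 C16 = 293 := by decide +kernel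
theorem k11 : goH 11 TAB 0 0 0 = 1817 := by
  have h : TAB = PRE ++ REST := (List.take_append_drop 8 TAB).symm
  have hl : REST.length = 8 := by decide +kernel
  rw [h, front, hl, fr_eq]
  simp only [chunk_append, k11_0, k11_1, k11_2, k11_3, k11_4, k11_5, k11_6, k11_7, k11_8, k11_9, k11_10, k11_11, k11_12, k11_13, k11_14, k11_15, k11_16]

end Pool.Agent.H15.CvxD
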