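import Pool.Agent.H15.CvxD

namespace Pool.Agent.H15.CvxD
open Pool.Agent.H15.CvxA

lemma k12_0 : chunk 12 REST 8 C0 = 0 := by decide +kernel
lemma k12_1 : chunk 12 REST 8 C1 = 31 := by decide +kernel
lemma k12_2 : chunk 12 REST 8 C2 = 136 := by decide +kernel
lemma k12_3 : chunk 12 REST 8 C3 = 45 := by decide +kernel
lemma k12_4 : chunk 12 REST 8 C4 = 0 := by decide +kernel
lemma k12_5 : chunk 12 REST 8 C5 = 22 := by decide +kernel
lemma k12_6 : chunk 12 REST 8 C6 = 39 := by decide +kernel
lemma k12_7 : chunk 12 REST 8 C7 = 34 := by decide +kernel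
lemma k12_8 : chunk 12 REST 8 C8 = 88 := by decide +kernel
lemma k12_9 : chunk 12 REST 8 C9 = 46 := by decide +kernel
lemma k12_10 : chunk 12 REST 8 C10 = 165 := by decide +kernel
lemma k12_11 : chunk 12 REST 8 C11 = 129 := by decide +kernel
lemma k12_12 : chunk 12 REST 8 C12 = 192 := by decide +kernel
lemma k12_13 : chunk 12 REST 8 C13 = 164 := by decide +kernel
lemma k12_14 : chunk 12 REST 8 C14 = 183 := by decide +kernel
lemma k12_15 : chunk 12 REST 8 C15 = 89 := by decide +kernel
lemma k12_16 : chunk 12 REST 8 C16 = 466 := by decide +kernel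
theorem k12 : goH 12 TAB 0 0 0 = 1829 := by
  have h : TAB = PRE ++ REST := (List.take_append_drop 8 TAB).symm
  have hl : REST.length = 8 := by decide +kernel
  rw [h, front, hl, fr_eq]
  simp only [chunk_append, k12_0, k12_1, k12_2, k12_3, k12_4, k12_5, k12_6, k12_7, k12_8, k12_9, k12_10, k12_11, k12_12, k12_13, k12_14, k12_15, k12_16]

end Pool.Agent.H15.CvxD
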