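import Mathlib

set_option autoImplicit false

namespace Pool.Agent.H15.Det

open Matrix Finset
open scoped MatrixOrder

variable {V : Type} [Fintype V] [DecidableEq V]

lemma one_of {A : Matrix V V ℝ} (hA : A.PosDef) (t : A.trace = Fintype.card V) (d : 1 ≤ A.det) :
    A = 1 := by
  have h := hA.isHermitian
  have p := hA.eigenvalues_pos
  rw [h.trace_eq_sum_eigenvalues] at t
  rw [h.det_eq_prod_eigenvalues] at d
  simp only [RCLike.ofReal_real_eq_id, id] at t d
  have l := Real.log_nonneg d
  rw [Real.log_prod fun i _ => (p i).ne'] at l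
  have z : ∑ i, (h.eigenvalues i - 1 - Real.log (h.eigenvalues i)) ≤ 0 := by
    simp only [sum_sub_distrib, t, sum_const, card_univ, nsmul_eq_mul]
    linarith
  have e : ∀ i, h.eigenvalues i = 1 := fun i => by_contra fun n => by
    have := single_le_sum (f := fun i => h.eigenvalues i - 1 - Real.log (h.eigenvalues i))
      (fun j _ => by linarith [Real.log_le_sub_one_of_pos (p j)]) (mem_univ i)
    linarith [Real.log_lt_sub_one_of_pos (p i) n]
  rw [h.spectral_theorem, funext e]
  have : diagonal (RCLike.ofReal ∘ fun _ : V => (1 : ℝ)) = (1 : Matrix V V ℝ) := by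
    ext i j; simp [diagonal, one_apply]
  rw [this, map_one]

lemma mx {M N K : Matrix V V ℝ} (hM : M.PosDef) (hN : N.PosDef) (k : K * M = 1)
    (t : (K * N).trace = Fintype.card V) (d : M.det ≤ N.det) : N = M := by
  have e : K = M⁻¹ := (inv_eq_left_inv k).symm
  have hK : K.PosDef := e ▸ hM.inv
  obtain ⟨B, b⟩ := CStarAlgebra.nonneg_iff_eq_star_mul_self.1 hK.posSemidef.nonneg
  have dk : K.det = (star B).det * B.det := by rw [b, det_mul]
  have u : IsUnit B := (isUnit_iff_isUnit_det B).2 (.mk0 _ fun z => hK.det_pos.ne' (by simp [dk, z]))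
  have p : (B * N * Bᴴ).PosDef := hN.mul_mul_conjTranspose_same (vecMul_injective_of_isUnit u)
  have o := one_of p (by rw [trace_mul_comm, ← Matrix.mul_assoc, ← t, b]; rfl) (by
    have := congrArg det k
    rw [det_mul, det_one] at this
    rw [det_mul, det_mul, mul_right_comm, mul_comm B.det, ← star_eq_conjTranspose, ← dk, ← this]
    exact mul_le_mul_of_nonneg_left d hK.det_pos.le)
  have : N * K = 1 := by
    rw [Matrix.mul_assoc, mul_eq_one_comm] at o
    rw [b, ← Matrix.mul_assoc]; exact o
  rw [← Matrix.mul_one N, ← k, ← Matrix.mul_assoc, this, Matrix.one_mul]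

end Pool.Agent.H15.Det
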