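import Mathlib

set_option autoImplicit false
open Filter Topology

namespace Pool.Agent.H15.DiffEq

noncomputable def h (y : ℝ) : ℝ := max ((3 - y) / 2) (1 / (2 * y ^ 2))

lemma h_pos (y : ℝ) (hy : 0 < y) : 0 < h y := lt_max_of_lt_right (by positivity)

lemma h_anti (a b : ℝ) (ha : 0 < a) (hab : a < b) : h b < h a := by
  refine max_lt_max (by linarith) ?_
  apply one_div_lt_one_div_of_lt (by positivity)
  nlinarith

lemma h_near (y : ℝ) (hy : |y - 1| ≤ 1 / 5) : h y = (3 - y) / 2 := by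
  obtain ⟨h1, h2⟩ := abs_le.1 hy
  refine max_eq_left ?_
  rw [div_le_iff₀ (by nlinarith)]
  nlinarith

lemma h_one : h 1 = 1 := by rw [h_near 1 (by norm_num)]; norm_num
lemma h_two : h 2 = 1 / 2 := by unfold h; norm_num
lemma h_half : h (1 / 2) = 2 := by unfold h; norm_num

lemma h_cont : ContinuousOn h (Set.Ioi 0) := by
  unfold h
  refine ContinuousOn.sup (f := fun y : ℝ => (3 - y) / 2) (g := fun y : ℝ => 1 / (2 * y ^ 2))
    (by fun_prop) ?_
  refine ContinuousOn.div (by fun_prop) (by fun_prop) fun y hy => ?_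
  have : (0 : ℝ) < y := hy
  positivity

lemma pos_sol (x : ℕ → ℝ) (h0 : 0 < x 0) (h1 : 0 < x 1)
    (hr : ∀ n, x (n + 2) = x (n + 1) * (h (x n) / x (n + 1))) (n : ℕ) : 0 < x n ∧ 0 < x (n + 1) := by
  induction n with
  | zero => exact ⟨h0, h1⟩
  | succ n ih =>
    refine ⟨ih.2, ?_⟩
    rw [hr n]
    have := h_pos _ ih.1
    have := ih.2
    positivity

lemma bound (x : ℕ → ℝ) (h0 : 0 < x 0) (h1 : 0 < x 1)
    (hr : ∀ n, x (n + 2) = x (n + 1) * (h (x n) / x (n + 1))) (d : ℝ) (hd : d ≤ 3 / 20)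
    (hx : |x 0 - 1| + |x 1 - 1| ≤ d) (n : ℕ) :
    |x n - 1| ≤ 4 / 3 * d * (3 / 4) ^ n ∧ |x (n + 1) - 1| ≤ 4 / 3 * d * (3 / 4) ^ (n + 1) := by
  have a0 := abs_nonneg (x 0 - 1)
  have a1 := abs_nonneg (x 1 - 1)
  induction n with
  | zero => constructor <;> norm_num <;> linarith
  | succ n ih =>
    refine ⟨ih.2, ?_⟩
    have hp := (pos_sol x h0 h1 hr n).2
    have p1 : (3 / 4 : ℝ) ^ n ≤ 1 := pow_le_one₀ (by norm_num) (by norm_num)
    have p0 : (0 : ℝ) < (3 / 4 : ℝ) ^ n := by positivity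
    have e : x (n + 1 + 1) - 1 = -(x n - 1) / 2 := by
      rw [hr n, mul_div_cancel₀ _ hp.ne', h_near _ (by nlinarith [ih.1])]; ring
    rw [e, abs_div, abs_neg, pow_succ, pow_succ]
    have := ih.1
    have hd0 : 0 ≤ d := by linarith
    norm_num
    nlinarith [mul_nonneg hd0 p0.le]

noncomputable def sol (n : ℕ) : ℝ := if n % 4 = 0 then 2 else if n % 4 = 2 then 1 / 2 else 1

lemma sol_pos (n : ℕ) : 0 < sol n := by unfold sol; split_ifs <;> norm_num

lemma sol_rec (n : ℕ) : sol (n + 2) = h (sol n) := by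
  have : n % 4 = 0 ∨ n % 4 = 1 ∨ n % 4 = 2 ∨ n % 4 = 3 := by omega
  rcases this with e | e | e | e
  · have e2 : (n + 2) % 4 = 2 := by omega
    simp only [sol, e, e2]; norm_num [h_two]
  · have e2 : (n + 2) % 4 = 3 := by omega
    simp only [sol, e, e2]; norm_num [h_one]
  · have e2 : (n + 2) % 4 = 0 := by omega
    simp only [sol, e, e2]; norm_num [h_half]
  · have e2 : (n + 2) % 4 = 1 := by omega
    simp only [sol, e, e2]; norm_num [h_one]

lemma not_tends : ¬ Tendsto sol atTop (𝓝 1) := by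
  intro ht
  have h4 : Tendsto (fun k : ℕ => 4 * k) atTop atTop :=
    tendsto_id.const_mul_atTop' (by norm_num)
  have h5 := ht.comp h4
  have : (sol ∘ fun k : ℕ => 4 * k) = fun _ => 2 := by
    funext k; simp [sol]
  rw [this] at h5
  have := tendsto_nhds_unique h5 tendsto_const_nhds
  norm_num at this

end Pool.Agent.H15.DiffEq
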