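import Mathlib
import Pool.Agent.H18.Choquet

set_option autoImplicit false

namespace Pool.Agent.H15.Dim

open Set Topology TopologicalSpace Filter Metric

/-- base of clopen sets -/
def Z0 (α : Type) [TopologicalSpace α] : Prop :=
  ∀ x : α, ∀ U ∈ 𝓝 x, ∃ V : Set α, IsClopen V ∧ x ∈ V ∧ V ⊆ U

theorem rst {α β : Type} [TopologicalSpace α] [TopologicalSpace β] {g : α → β}
    (hg : IsInducing g) {s : Set α} {t : Set β} (H : MapsTo g s t) :
    IsInducing (H.restrict g s t) :=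
  IsInducing.of_comp (hg.continuous.restrict H) continuous_subtype_val
    (hg.comp IsInducing.subtypeVal)

theorem Z0.of_basis {W β : Type} [TopologicalSpace W] [TopologicalSpace β] {g : W → β}
    (hg : IsInducing g) {s : Set (Set β)} (hs : IsTopologicalBasis s)
    (h : ∀ V ∈ s, ∀ x, g x ∉ frontier V) : Z0 W := by
  intro x U hU
  rw [hg.nhds_eq_comap, mem_comap] at hU
  obtain ⟨t, ht, htU⟩ := hU
  obtain ⟨V, hV, hx, hVt⟩ := hs.mem_nhds_iff.1 ht
  refine ⟨g ⁻¹' V, ⟨?_, (hs.isOpen hV).preimage hg.continuous⟩, hx, (preimage_mono hVt).trans htU⟩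
  have : g ⁻¹' V = g ⁻¹' closure V := by
    ext y
    refine ⟨fun hy => subset_closure hy, fun hy => ?_⟩
    by_contra hn
    exact h V hV y ⟨hy, fun h' => hn (interior_subset (s := V) h')⟩
  rw [this]
  exact isClosed_closure.preimage hg.continuous

theorem Z0.ind {W β : Type} [TopologicalSpace W] [TopologicalSpace β] {g : W → β}
    (hg : IsInducing g) (h : Z0 β) : Z0 W := by
  intro x U hU
  rw [hg.nhds_eq_comap, mem_comap] at hU
  obtain ⟨t, ht, htU⟩ := hU
  obtain ⟨V, hV, hx, hVt⟩ := h _ t ht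
  exact ⟨g ⁻¹' V, hV.preimage hg.continuous, hx, (preimage_mono hVt).trans htU⟩

theorem Z0.sep {α : Type} [TopologicalSpace α] [SecondCountableTopology α] (h : Z0 α)
    {P Q : Set α} (hP : IsClosed P) (hQ : IsClosed Q) (hd : Disjoint P Q) :
    ∃ C, IsClopen C ∧ P ⊆ C ∧ Disjoint C Q := by
  classical
  rcases isEmpty_or_nonempty α with he | hne
  · exact ⟨univ, isClopen_univ, subset_univ _, by simp [eq_empty_of_isEmpty Q]⟩
  have : ∀ x : α, ∃ V : Set α, IsClopen V ∧ x ∈ V ∧ (Disjoint V P ∨ Disjoint V Q) := by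
    intro x
    by_cases hx : x ∈ P
    · obtain ⟨V, h1, h2, h3⟩ := h x Qᶜ (hQ.isOpen_compl.mem_nhds (disjoint_left.1 hd hx))
      exact ⟨V, h1, h2, Or.inr (subset_compl_iff_disjoint_right.1 h3)⟩
    · obtain ⟨V, h1, h2, h3⟩ := h x Pᶜ (hP.isOpen_compl.mem_nhds hx)
      exact ⟨V, h1, h2, Or.inl (subset_compl_iff_disjoint_right.1 h3)⟩
  choose V hV using this
  obtain ⟨s, hs, hcov⟩ := TopologicalSpace.countable_cover_nhds
    (f := V) fun x => (hV x).1.isOpen.mem_nhds (hV x).2.1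
  have hsne : s.Nonempty := by
    obtain ⟨x⟩ := hne
    obtain ⟨y, hy, -⟩ := mem_iUnion₂.1 (hcov ▸ mem_univ x)
    exact ⟨y, hy⟩
  obtain ⟨u, rfl⟩ := hs.exists_eq_range hsne
  have hex : ∀ x, ∃ n, x ∈ V (u n) := fun x => by
    obtain ⟨_, ⟨n, rfl⟩, h⟩ := mem_iUnion₂.1 (hcov ▸ mem_univ x)
    exact ⟨n, h⟩
  let N : α → ℕ := fun x => Nat.find (hex x)
  have hN : IsLocallyConstant N := by
    refine IsLocallyConstant.iff_isOpen_fiber.2 ?_
    intro k
    have : N ⁻¹' {k} = V (u k) ∩ ⋂ m ∈ Finset.range k, (V (u m))ᶜ := by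
      ext x
      simp [N, Nat.find_eq_iff]
    rw [this]
    exact (hV _).1.isOpen.inter (isOpen_biInter_finset fun m _ => (hV _).1.compl.isOpen)
  refine ⟨N ⁻¹' {k | Disjoint (V (u k)) Q}, ⟨⟨hN {k | Disjoint (V (u k)) Q}ᶜ⟩, hN _⟩,
    fun x hx => ?_, disjoint_left.2 fun x hx hq => ?_⟩
  · exact (hV (u (N x))).2.2.resolve_left fun h => disjoint_left.1 h (Nat.find_spec (hex x)) hx
  · exact disjoint_left.1 hx (Nat.find_spec (hex x)) hq

theorem L1 {Y : Type} [TopologicalSpace Y] [MetrizableSpace Y] [SecondCountableTopology Y]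
    {Z A B : Set Y} (hZ : Z0 Z) (hA : IsClosed A) (hB : IsClosed B) (hd : Disjoint A B) :
    ∃ V, IsOpen V ∧ A ⊆ V ∧ Disjoint (closure V) B ∧ Disjoint (frontier V) Z := by
  letI := metrizableSpaceMetric Y
  obtain ⟨U, hU, hAU, hUB⟩ := normal_exists_closure_subset hA hB.isOpen_compl
    (subset_compl_iff_disjoint_right.2 hd)
  obtain ⟨U', hU', hBU, hUU⟩ := normal_exists_closure_subset hB isClosed_closure.isOpen_compl
    (subset_compl_comm.1 hUB)
  obtain ⟨C, hC, h1, h2⟩ := hZ.sep (P := Subtype.val ⁻¹' closure U)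
    (Q := Subtype.val ⁻¹' closure U') (isClosed_closure.preimage continuous_subtype_val)
    (isClosed_closure.preimage continuous_subtype_val)
    (disjoint_left.2 fun x hx hx' => hUU hx' hx)
  have k : ∀ D : Set Z, IsClosed D → ∀ z : Z, z.1 ∈ closure (Subtype.val '' D) → z ∈ D :=
    fun D hD z hz => hD.closure_subset (closure_subtype.2 hz)
  have k2 : ∀ (D : Set Z) (O : Set Y), IsOpen O → (∀ z ∈ D, z.1 ∉ O) →
      ∀ y ∈ closure (Subtype.val '' D), y ∉ O := by
    intro D O hO h y hy hyO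
    obtain ⟨_, h1, z, hz, rfl⟩ := mem_closure_iff.1 hy O hO hyO
    exact h z hz h1
  have hs := CompletelyNormalSpace.completely_normal (s := A ∪ Subtype.val '' C)
    (t := B ∪ Subtype.val '' Cᶜ) (by
      rw [closure_union, hA.closure_eq, disjoint_left]
      rintro x (hx | hx) (hx' | ⟨z, hz, rfl⟩)
      · exact disjoint_left.1 hd hx hx'
      · exact hz (h1 (subset_closure (hAU hx)))
      · exact k2 C U' hU' (fun z hz h => disjoint_left.1 h2 hz (subset_closure h)) x hx (hBU hx')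
      · exact hz (k C hC.isClosed z hx)) (by
      rw [closure_union, hB.closure_eq, disjoint_left]
      rintro x (hx | ⟨z, hz, rfl⟩) (hx' | hx')
      · exact disjoint_left.1 hd hx hx'
      · exact k2 Cᶜ U hU (fun z hz h => hz (h1 (subset_closure h))) x hx' (hAU hx)
      · exact disjoint_left.1 h2 hz (subset_closure (hBU hx'))
      · exact k Cᶜ hC.compl.isClosed z hx' hz)
  obtain ⟨V, W, hV, hW, h3, h4, h5⟩ := separatedNhds_iff_disjoint.2 hs
  have h6 : Disjoint (closure V) W := h5.closure_left hW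
  refine ⟨V, hV, subset_union_left.trans h3, h6.mono_right (subset_union_left.trans h4),
    disjoint_left.2 fun x hx hxZ => ?_⟩
  rw [hV.frontier_eq] at hx
  by_cases hc : (⟨x, hxZ⟩ : Z) ∈ C
  · exact hx.2 (h3 (Or.inr ⟨_, hc, rfl⟩))
  · exact disjoint_left.1 h6 hx.1 (h4 (Or.inr ⟨_, hc, rfl⟩))

theorem L2 {α : Type} [TopologicalSpace α] [MetrizableSpace α] [SecondCountableTopology α]
    {ι : Type} [Countable ι] (Zs : ι → Set α) (hc : ∀ i, IsClosed (Zs i))
    (hcov : ∀ x, ∃ i, x ∈ Zs i) (hz : ∀ i, Z0 (Zs i)) : Z0 α := by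
  letI := metrizableSpaceMetric α
  intro x U hU
  obtain ⟨i0, -⟩ := hcov x
  haveI : Nonempty ι := ⟨i0⟩
  obtain ⟨u, hu⟩ := exists_surjective_nat ι
  let S := {p : Set α × Set α // IsClosed p.1 ∧ IsClosed p.2 ∧ Disjoint p.1 p.2}
  have step : ∀ (n : ℕ) (p : S), ∃ q : S, p.1.1 ⊆ interior q.1.1 ∧ p.1.2 ⊆ interior q.1.2 ∧
      Zs (u n) ⊆ q.1.1 ∪ q.1.2 := by
    rintro n ⟨⟨A, B⟩, hA, hB, hd⟩
    obtain ⟨V, hV, h1, h2, h3⟩ := L1 (hz (u n)) hA hB hd
    have hA' : IsClosed (A ∪ Zs (u n) ∩ closure V) := hA.union ((hc _).inter isClosed_closure)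
    have hB' : IsClosed (B ∪ Zs (u n) ∩ Vᶜ) := hB.union ((hc _).inter hV.isClosed_compl)
    obtain ⟨t, ht, h4, h5⟩ := normal_exists_closure_subset hA' hB'.isOpen_compl (by
      rintro y (hy | hy) (hy' | hy')
      · exact disjoint_left.1 hd hy hy'
      · exact hy'.2 (h1 hy)
      · exact disjoint_left.1 h2 hy.2 hy'
      · exact disjoint_left.1 h3 (by rw [hV.frontier_eq]; exact ⟨hy.2, hy'.2⟩) hy.1)
    obtain ⟨s, hs, h6, h7⟩ := normal_exists_closure_subset hB' isClosed_closure.isOpen_compl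
      (subset_compl_comm.1 h5)
    refine ⟨⟨(closure t, closure s), isClosed_closure, isClosed_closure,
      disjoint_left.2 fun y h h' => h7 h' h⟩, ?_, ?_, fun y hy => ?_⟩
    · exact (subset_union_left.trans h4).trans (interior_maximal subset_closure ht)
    · exact (subset_union_left.trans h6).trans (interior_maximal subset_closure hs)
    · by_cases h : y ∈ V
      · exact Or.inl (subset_closure (h4 (Or.inr ⟨hy, subset_closure h⟩)))
      · exact Or.inr (subset_closure (h6 (Or.inr ⟨hy, h⟩)))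
  choose nx hnx using step
  let q : ℕ → S := fun n => Nat.rec ⟨({x}, (interior U)ᶜ), isClosed_singleton,
    isOpen_interior.isClosed_compl, by simpa using mem_interior_iff_mem_nhds.2 hU⟩ nx n
  have m1 : Monotone fun n => (q n).1.1 :=
    monotone_nat_of_le_succ fun n => (hnx n (q n)).1.trans interior_subset
  have m2 : Monotone fun n => (q n).1.2 :=
    monotone_nat_of_le_succ fun n => (hnx n (q n)).2.1.trans interior_subset
  have o1 : IsOpen (⋃ n, (q n).1.1) := isOpen_iff_mem_nhds.2 fun y hy => by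
    obtain ⟨n, hn⟩ := mem_iUnion.1 hy
    exact mem_of_superset (mem_interior_iff_mem_nhds.1 ((hnx n (q n)).1 hn))
      (subset_iUnion (fun n => (q n).1.1) (n + 1))
  have o2 : IsOpen (⋃ n, (q n).1.2) := isOpen_iff_mem_nhds.2 fun y hy => by
    obtain ⟨n, hn⟩ := mem_iUnion.1 hy
    exact mem_of_superset (mem_interior_iff_mem_nhds.1 ((hnx n (q n)).2.1 hn))
      (subset_iUnion (fun n => (q n).1.2) (n + 1))
  have dj : ∀ y, y ∈ ⋃ n, (q n).1.1 → y ∉ ⋃ n, (q n).1.2 := by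
    intro y h h'
    obtain ⟨n, hn⟩ := mem_iUnion.1 h
    obtain ⟨m, hm⟩ := mem_iUnion.1 h'
    exact disjoint_left.1 (q (max n m)).2.2.2 (m1 (le_max_left _ _) hn) (m2 (le_max_right _ _) hm)
  refine ⟨⋃ n, (q n).1.1, ⟨⟨?_⟩, o1⟩, mem_iUnion.2 ⟨0, rfl⟩, fun y hy => ?_⟩
  · have : (⋃ n, (q n).1.1)ᶜ = ⋃ n, (q n).1.2 := by
      ext y
      refine ⟨fun h => ?_, fun h h' => dj y h' h⟩
      obtain ⟨i, hi⟩ := hcov y
      obtain ⟨n, rfl⟩ := hu i
      rcases (hnx n (q n)).2.2 hi with h' | h'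
      · exact absurd (mem_iUnion.2 ⟨n + 1, h'⟩) h
      · exact mem_iUnion.2 ⟨n + 1, h'⟩
    rw [this]; exact o2
  · by_contra hn
    exact dj y hy (mem_iUnion.2 ⟨0, fun h => hn (interior_subset h)⟩)

section
variable (ind : ℕ → (α : Type) → [TopologicalSpace α] → Prop)
  (h : ∀ (α : Type) [TopologicalSpace α], (ind 0 α ↔ IsEmpty α) ∧
    ∀ k : ℕ, (ind (k + 1) α ↔ ∀ x : α, ∀ U ∈ nhds x, ∃ V : Set α,
      IsOpen V ∧ x ∈ V ∧ V ⊆ U ∧ ind k ↥(frontier V)))
include h

theorem L0 (k : ℕ) : ∀ {α β : Type} [TopologicalSpace α] [TopologicalSpace β] {g : α → β},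
    IsInducing g → ind k β → ind k α := by
  induction k with
  | zero =>
    intro α β _ _ g _ hb
    haveI := (h β).1.1 hb
    exact (h α).1.2 (Function.isEmpty g)
  | succ k ih =>
    intro α β _ _ g hg hb
    rw [(h α).2]
    intro x U hU
    rw [hg.nhds_eq_comap, mem_comap] at hU
    obtain ⟨t, ht, htU⟩ := hU
    obtain ⟨V, hV, hx, hVt, hi⟩ := ((h β).2 k).1 hb _ t ht
    refine ⟨g ⁻¹' V, hV.preimage hg.continuous, hx, (preimage_mono hVt).trans htU, ?_⟩
    exact ih (rst hg (hg.continuous.frontier_preimage_subset V)) hi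

theorem ind1 (α : Type) [TopologicalSpace α] : ind 1 α ↔ Z0 α := by
  rw [(h α).2 0]
  refine forall₃_congr fun x U _ => exists_congr fun V => ?_
  rw [(h _).1, isEmpty_coe_sort, ← isClopen_iff_frontier_eq_empty]
  exact ⟨fun a => ⟨a.2.2.2, a.2.1, a.2.2.1⟩, fun a => ⟨a.1.isOpen, a.2.1, a.2.2, a.1⟩⟩

theorem dec (n : ℕ) : ∀ (α : Type) [TopologicalSpace α] [MetrizableSpace α]
    [SecondCountableTopology α] (ι : Type) [Countable ι] (Zs : ι → Set α),
    (∀ i, IsClosed (Zs i)) → (∀ x, ∃ i, x ∈ Zs i) → (∀ i, ind n (Zs i)) →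
    ∃ T : Fin n → Set α, (∀ x, ∃ j, x ∈ T j) ∧ ∀ j, Z0 (T j) := by
  induction n with
  | zero =>
    intro α _ _ _ ι _ Zs _ hcov hi
    refine ⟨Fin.elim0, fun x => ?_, fun j => j.elim0⟩
    obtain ⟨i, hx⟩ := hcov x
    exact ((h _).1.1 (hi i)).elim ⟨x, hx⟩
  | succ n ih =>
    intro α _ _ _ ι _ Zs hc hcov hi
    have : ∀ i, ∃ s ⊆ {V : Set (Zs i) | IsOpen V ∧ ind n (frontier V)},
        s.Countable ∧ IsTopologicalBasis s := fun i => by
      refine IsTopologicalBasis.exists_countable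
        (isTopologicalBasis_of_isOpen_of_nhds (fun _ a => a.1) fun x U hx hU => ?_)
      obtain ⟨V, h1, h2, h3, h4⟩ := ((h _).2 n).1 (hi i) x U (hU.mem_nhds hx)
      exact ⟨V, ⟨h1, h4⟩, h2, h3⟩
    choose s hs hsc hsb using this
    haveI := fun i => (hsc i).to_subtype
    let Bs : (Σ i, s i) → Set α := fun k => Subtype.val '' frontier k.2.1
    let B := ⋃ k, Bs k
    obtain ⟨T, hT, hT'⟩ := ih B (Σ i, s i) (fun k => Subtype.val ⁻¹' Bs k)
      (fun k => ((hc k.1).isClosedMap_subtype_val _ isClosed_frontier).preimage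
        continuous_subtype_val) (fun x => (mem_iUnion (s := Bs)).1 x.2) fun k =>
        L0 ind h n (rst IsInducing.subtypeVal (mapsTo_preimage _ _))
          (L0 ind h n (IsEmbedding.subtypeVal.homeomorphImage _).symm.isInducing (hs k.1 k.2.2).2)
    refine ⟨Fin.cons Bᶜ fun j => Subtype.val '' T j, fun x => ?_, fun j => ?_⟩
    · by_cases hx : x ∈ B
      · obtain ⟨j, hj⟩ := hT ⟨x, hx⟩
        exact ⟨j.succ, ⟨_, hj, rfl⟩⟩
      · exact ⟨0, hx⟩
    · refine Fin.cases ?_ (fun j => ?_) j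
      · refine L2 (α := ↥Bᶜ) (fun i => Subtype.val ⁻¹' Zs i)
          (fun i => (hc i).preimage continuous_subtype_val) (fun x => hcov x.1) fun i => ?_
        refine Z0.of_basis (rst IsInducing.subtypeVal (mapsTo_preimage _ _)) (hsb i) ?_
        intro V hV x hx
        exact x.1.2 (mem_iUnion.2 ⟨⟨i, V, hV⟩, _, hx, rfl⟩)
      · exact Z0.ind (IsEmbedding.subtypeVal.homeomorphImage _).symm.isInducing (hT' j)

theorem L3 (n : ℕ) : ∀ (α : Type) [TopologicalSpace α] [MetrizableSpace α]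
    [SecondCountableTopology α] (T : Fin n → Set α), (∀ x, ∃ j, x ∈ T j) → (∀ j, Z0 (T j)) →
    ind n α := by
  induction n with
  | zero =>
    intro α _ _ _ T hT _
    exact (h α).1.2 ⟨fun x => (hT x).elim fun j _ => j.elim0⟩
  | succ n ih =>
    intro α _ _ _ T hT hz
    rw [(h α).2]
    intro x U hU
    obtain ⟨V, hV, h1, h2, h3⟩ := L1 (hz 0) (isClosed_singleton (x := x))
      (isOpen_interior (s := U)).isClosed_compl (by simpa using mem_interior_iff_mem_nhds.2 hU)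
    refine ⟨V, hV, h1 rfl, fun y hy => ?_, ih _ (fun j => Subtype.val ⁻¹' T j.succ)
      (fun y => ?_) fun j => Z0.ind (rst IsInducing.subtypeVal (mapsTo_preimage _ _)) (hz _)⟩
    · by_contra hn
      exact disjoint_left.1 h2 (subset_closure hy) fun h' => hn (interior_subset h')
    · obtain ⟨j, hj⟩ := hT y.1
      revert hj
      refine Fin.cases (fun hj => ?_) (fun j hj => ⟨j, hj⟩) j
      exact absurd hj (disjoint_left.1 h3 y.2)

end

theorem polish_gd {Y : Type} [TopologicalSpace Y] [PolishSpace Y] {S : Set Y} (h : IsGδ S) :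
    PolishSpace S := by
  letI := upgradeIsCompletelyMetrizable Y
  haveI : IsCompletelyMetrizableSpace S :=
    Pool.Agent.H18.Choquet.cm_of_gd IsEmbedding.subtypeVal (by simpa using h)
  infer_instance

theorem cover {Y : Type} [TopologicalSpace Y] [MetrizableSpace Y] [SecondCountableTopology Y]
    {n : ℕ} (Z : Fin (n + 1) → Set Y) (hZ : ∀ j, Z0 (Z j)) :
    ∃ G : Fin (n + 1) → Set Y, (∀ y, ∃ i, y ∈ G i) ∧
      ∀ i, IsGδ (G i) ∧ Z0 ↥(G i ∩ ⋃ j, Z j) := by
  letI := metrizableSpaceMetric Y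
  have : ∀ j, ∃ V : ℕ → Set Y, IsTopologicalBasis (range V) ∧
      ∀ k, Disjoint (frontier (V k)) (Z j) := fun j => by
    obtain ⟨s, hs, hc, hb⟩ := IsTopologicalBasis.exists_countable
      (isTopologicalBasis_of_isOpen_of_nhds
        (s := {V : Set Y | IsOpen V ∧ Disjoint (frontier V) (Z j)})
        (fun _ a => a.1) fun x U hx hU => by
        obtain ⟨V, hV, h1, h2, h3⟩ := L1 (hZ j) (isClosed_singleton (x := x)) hU.isClosed_compl
          (by simpa using hx)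
        refine ⟨V, ⟨hV, h3⟩, h1 rfl, fun y hy => ?_⟩
        by_contra hn
        exact disjoint_left.1 h2 (subset_closure hy) hn)
    obtain ⟨V, hV⟩ := (hc.insert ∅).exists_eq_range (insert_nonempty _ _)
    refine ⟨V, hV ▸ hb.insert_empty, fun k => ?_⟩
    rcases (hV ▸ mem_range_self k : V k ∈ insert ∅ s) with h | h
    · simp [h]
    · exact (hs h).2
  choose V hb hd using this
  let M : Fin (n + 1) → ℕ → Set Y := fun i k =>
    ⋂ j ∈ ({i}ᶜ : Set (Fin (n + 1))), ⋃ m ∈ Iic k, frontier (V j m)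
  refine ⟨fun i => ⋂ k, (frontier (V i k))ᶜ ∪ M i k, fun y => ?_, fun i => ⟨?_, ?_⟩⟩
  · by_contra hy
    simp only [mem_iInter, not_exists, not_forall, mem_union, not_or, mem_compl_iff, not_not] at hy
    choose k hk using hy
    obtain ⟨i, hi⟩ := Finite.exists_max k
    exact (hk i).2 (mem_iInter₂.2 fun j _ => mem_iUnion₂.2 ⟨k j, hi j, (hk j).1⟩)
  · refine IsGδ.iInter fun k => isClosed_frontier.isOpen_compl.isGδ.union (IsClosed.isGδ ?_)
    exact isClosed_biInter fun j _ => (finite_Iic k).isClosed_biUnion fun _ _ => isClosed_frontier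
  · refine Z0.of_basis IsInducing.subtypeVal (hb i) ?_
    rintro _ ⟨k, rfl⟩ ⟨y, h1, h2⟩ hy
    obtain ⟨j, hj⟩ := mem_iUnion.1 h2
    rcases mem_iInter.1 h1 k with h | h
    · exact h hy
    · by_cases e : j = i
      · exact disjoint_left.1 (hd i k) hy (e ▸ hj)
      · obtain ⟨m, -, hm⟩ := mem_iUnion₂.1 (mem_iInter₂.1 h j e)
        exact disjoint_left.1 (hd j m) hm hj

theorem lavr {T Y : Type} [MetricSpace T] [MetricSpace Y] [CompleteSpace Y] (A : Set T)
    (f : A → Y) (hf : IsEmbedding f) : ∃ G : Set T, IsGδ G ∧ A ⊆ G ∧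
      ∃ F : ↥(G \ A) → ↥(range f)ᶜ, IsInducing F := by
  classical
  rcases A.eq_empty_or_nonempty with rfl | ⟨a0, ha0⟩
  · refine ⟨∅, IsGδ.empty, Subset.rfl, fun x => x.2.1.elim, ?_⟩
    haveI : IsEmpty ↥((∅ : Set T) \ ∅) := ⟨fun x => x.2.1⟩
    exact ⟨Subsingleton.elim _ _⟩
  let φ : T → Y := fun x => if h : x ∈ A then f ⟨x, h⟩ else f ⟨a0, ha0⟩
  have hφ : ∀ a : A, φ a = f a := fun a => dif_pos a.2
  let C : ℕ → Set T := fun m => ⋃ O ∈ {O : Set T | IsOpen O ∧ ∃ y r, 0 < r ∧ r ≤ 1 / (m + 1 : ℝ) ∧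
    (∀ a : A, a.1 ∈ O → dist (f a) y < r) ∧
    ∀ a b : A, dist (f a) y < 2 * r → dist (f b) y < 2 * r → dist a.1 b.1 ≤ 1 / (m + 1 : ℝ)}, O
  let G := closure A ∩ ⋂ m, C m
  have hlim : ∀ x ∈ G, ∃ y, Tendsto φ (𝓝[A] x) (𝓝 y) := by
    intro x hx
    haveI := mem_closure_iff_nhdsWithin_neBot.1 hx.1
    refine CompleteSpace.complete (Metric.cauchy_iff.2 ⟨inferInstance, fun ε hε => ?_⟩)
    obtain ⟨m, hm⟩ := exists_nat_one_div_lt (half_pos hε)
    obtain ⟨O, ⟨hO, y, r, -, hr, h1, -⟩, hxO⟩ := mem_iUnion₂.1 (mem_iInter.1 hx.2 m)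
    refine ⟨ball y r, mem_map.2 ?_, fun u hu v hv => ?_⟩
    · filter_upwards [self_mem_nhdsWithin, mem_nhdsWithin_of_mem_nhds (hO.mem_nhds hxO)]
        with a ha haO
      show dist (φ a) y < r
      exact (hφ ⟨a, ha⟩).symm ▸ h1 ⟨a, ha⟩ haO
    · have := dist_triangle_right u v y
      rw [mem_ball] at hu hv
      linarith
  have hcont : ContinuousOn (extendFrom A φ) G := continuousOn_extendFrom inter_subset_left hlim
  have ht : ∀ x ∈ G, Tendsto φ (𝓝[A] x) (𝓝 (extendFrom A φ x)) :=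
    fun x hx => tendsto_extendFrom (hlim x hx)
  have hAG : A ⊆ G := by
    intro a ha
    refine ⟨subset_closure ha, mem_iInter.2 fun m => ?_⟩
    have hm : (0 : ℝ) < 1 / (m + 1 : ℝ) := Nat.one_div_pos_of_nat
    have h1 : ball (⟨a, ha⟩ : A) (1 / (m + 1 : ℝ) / 2) ∈ 𝓝 (⟨a, ha⟩ : A) :=
      ball_mem_nhds _ (half_pos hm)
    rw [hf.nhds_eq_comap, mem_comap] at h1
    obtain ⟨t, ht, h2⟩ := h1
    obtain ⟨δ, hδ, h3⟩ := Metric.mem_nhds_iff.1 ht
    let r := min (δ / 2) (1 / (m + 1 : ℝ))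
    have hr : 0 < r := lt_min (half_pos hδ) hm
    obtain ⟨O, hO, h4⟩ := isOpen_induced_iff.1
      ((isOpen_ball (x := f ⟨a, ha⟩) (ε := r)).preimage hf.continuous)
    refine mem_iUnion₂.2 ⟨O, ⟨hO, f ⟨a, ha⟩, r, hr, min_le_right _ _, fun b hb => ?_,
      fun b c hb hc => ?_⟩, ?_⟩
    · exact (h4.subset hb : b ∈ f ⁻¹' ball _ r)
    · have h5 : 2 * r ≤ δ := by have := min_le_left (δ / 2) (1 / (m + 1 : ℝ)); linarith
      have hb' : dist b.1 a < _ := h2 (h3 (hb.trans_le h5))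
      have hc' : dist c.1 a < _ := h2 (h3 (hc.trans_le h5))
      have := dist_triangle_right b.1 c.1 a
      linarith
    · exact (h4.symm.subset (mem_ball_self hr : (⟨a, ha⟩ : A) ∈ f ⁻¹' ball _ r) :)
  have key : ∀ x ∈ G, ∀ ε > 0, ∃ P ∈ 𝓝 (extendFrom A φ x), ∀ z ∈ G, extendFrom A φ z ∈ P →
      dist z x ≤ ε := by
    intro x hx ε hε
    obtain ⟨m, hm⟩ := exists_nat_one_div_lt hε
    obtain ⟨O, ⟨hO, y, r, hr0, -, h1, h2⟩, hxO⟩ := mem_iUnion₂.1 (mem_iInter.1 hx.2 m)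
    haveI := mem_closure_iff_nhdsWithin_neBot.1 hx.1
    have e1 : ∀ᶠ a in 𝓝[A] x, a ∈ A ∧ dist (φ a) y < r := by
      filter_upwards [self_mem_nhdsWithin, mem_nhdsWithin_of_mem_nhds (hO.mem_nhds hxO)]
        with a ha haO
      exact ⟨ha, (hφ ⟨a, ha⟩).symm ▸ h1 ⟨a, ha⟩ haO⟩
    have e2 : dist (extendFrom A φ x) y ≤ r :=
      le_of_tendsto ((ht x hx).dist tendsto_const_nhds) (e1.mono fun a h => h.2.le)
    refine ⟨ball y (2 * r), isOpen_ball.mem_nhds (by rw [mem_ball]; linarith), fun z hz hP => ?_⟩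
    haveI := mem_closure_iff_nhdsWithin_neBot.1 hz.1
    have e3 : ∀ᶠ b in 𝓝[A] z, b ∈ A ∧ φ b ∈ ball y (2 * r) :=
      eventually_mem_nhdsWithin.and (ht z hz (isOpen_ball.mem_nhds hP))
    refine le_trans ?_ hm.le
    refine le_of_tendsto (((tendsto_nhdsWithin_of_tendsto_nhds tendsto_id :
      Tendsto id (𝓝[A] z) (𝓝 z)).comp tendsto_fst).dist
      ((tendsto_nhdsWithin_of_tendsto_nhds tendsto_id :
      Tendsto id (𝓝[A] x) (𝓝 x)).comp tendsto_snd)) ((e3.prod_mk e1).mono fun p hp => ?_)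
    refine h2 ⟨p.1, hp.1.1⟩ ⟨p.2, hp.2.1⟩ (hφ ⟨p.1, hp.1.1⟩ ▸ hp.1.2) ?_
    have := hp.2.2
    rw [show φ p.2 = _ from hφ ⟨p.2, hp.2.1⟩] at this
    linarith
  have hext : ∀ a : A, extendFrom A φ a = f a := by
    intro a
    refine extendFrom_eq (subset_closure a.2) ?_
    rw [nhdsWithin_eq_map_subtype_coe a.2, tendsto_map'_iff]
    have : φ ∘ Subtype.val = f := funext hφ
    rw [this]
    exact hf.continuous.tendsto a
  refine ⟨G, isClosed_closure.isGδ.inter (IsGδ.iInter_of_isOpen fun m =>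
    isOpen_biUnion fun O hO => hO.1), hAG, fun x => ⟨extendFrom A φ x, ?_⟩, ?_⟩
  · rintro ⟨a, ha⟩
    refine x.2.2 ?_
    have : a.1 = x.1 := eq_of_forall_dist_le fun ε hε => by
      obtain ⟨P, hP, h⟩ := key x x.2.1 ε hε
      exact h a (hAG a.2) (by rw [hext, ha]; exact mem_of_mem_nhds hP)
    exact this ▸ a.2
  · rw [isInducing_iff_nhds]
    intro x
    apply le_antisymm
    · refine tendsto_iff_comap.1 (Continuous.tendsto ?_ x)
      exact ((hcont.mono diff_subset).restrict).subtype_mk _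
    · rw [Metric.nhds_basis_closedBall.ge_iff]
      intro ε hε
      obtain ⟨P, hP, h⟩ := key x x.2.1 ε hε
      exact mem_comap.2 ⟨Subtype.val ⁻¹' P, continuous_subtype_val.continuousAt hP,
        fun z hz => h z z.2.1 hz⟩

end Pool.Agent.H15.Dim
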