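import Mathlib

set_option autoImplicit false

namespace Pool.Agent.H15.ECL

section
variable {A H : Type} [Group H] (f : A → H) (l : H → ℕ) (r : A → A → Prop)

def SL : List A → Prop
  | [] => l 1 = 0
  | x :: w => SL w ∧ l (f x * (w.map f).prod) = w.length + 1 ∧
      ∀ y, l ((f y)⁻¹ * (f x * (w.map f).prod)) ≤ w.length → x = y ∨ r x y

variable {f l r}

lemma SL.len {w : List A} (h : SL f l r w) : l (w.map f).prod = w.length := by
  cases w with
  | nil => exact h
  | cons x w => simpa using h.2.1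

lemma SL.least (hl : ∀ w : List A, l (w.map f).prod ≤ w.length) {w : List A} (h : SL f l r w) :
    ∀ w' : List A, (w'.map f).prod = (w.map f).prod →
      w.length < w'.length ∨ (w.length = w'.length ∧ (w = w' ∨ List.Lex r w w')) := by
  induction w with
  | nil => intro w' _; cases w' <;> simp
  | cons x w ih =>
    intro w' e
    have a := hl w'
    rw [e, h.len] at a
    rcases a.lt_or_eq with a | a
    · exact Or.inl a
    refine Or.inr ⟨a, ?_⟩
    obtain _ | ⟨y, w'⟩ := w'
    · simp at a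
    simp only [List.map_cons, List.prod_cons, List.length_cons, add_left_inj] at e a
    rcases h.2.2 y (by rw [← e, inv_mul_cancel_left, a]; exact hl w') with rfl | h'
    · rcases ih h.1 w' (mul_left_cancel e) with b | ⟨-, rfl | b⟩
      · omega
      · exact Or.inl rfl
      · exact Or.inr (List.Lex.cons b)
    · exact Or.inr (List.Lex.rel h')
end

@[ext] structure G where
  u : ℤ
  v : ℤ
  s : Bool
  deriving DecidableEq

instance : Mul G := ⟨fun a b => ⟨a.u + b.u, if a.s then a.v - b.v else a.v + b.v, xor a.s b.s⟩⟩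
instance : One G := ⟨⟨0, 0, false⟩⟩
instance : Inv G := ⟨fun a => ⟨-a.u, if a.s then a.v else -a.v, a.s⟩⟩
@[simp] lemma mul_def (a b c d : ℤ) (s t : Bool) : (⟨a, b, s⟩ * ⟨c, d, t⟩ : G) =
  ⟨a + c, if s then b - d else b + d, xor s t⟩ := rfl
@[simp] lemma inv_def (a b : ℤ) (s : Bool) : (⟨a, b, s⟩ : G)⁻¹ = ⟨-a, if s then b else -b, s⟩ := rfl
lemma one_def : (1 : G) = ⟨0, 0, false⟩ := rfl

instance : Group G := Group.ofLeftAxioms
  (by rintro ⟨a, b, _ | _⟩ ⟨c, d, _ | _⟩ ⟨e, f, _ | _⟩ <;> simp <;> omega)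
  (by rintro ⟨a, b, _ | _⟩ <;> simp [one_def]) (by rintro ⟨a, b, _ | _⟩ <;> simp [one_def])

def X : Finset G := {⟨1, 0, false⟩, ⟨0, 1, false⟩, ⟨1, 1, false⟩, ⟨-1, 0, false⟩, ⟨0, -1, false⟩,
  ⟨-1, -1, false⟩, ⟨0, 0, true⟩}

abbrev A := {x // x ∈ X}

lemma memX {x : G} (h : x ∈ X) : x = ⟨1, 0, false⟩ ∨ x = ⟨0, 1, false⟩ ∨ x = ⟨1, 1, false⟩ ∨
    x = ⟨-1, 0, false⟩ ∨ x = ⟨0, -1, false⟩ ∨ x = ⟨-1, -1, false⟩ ∨ x = ⟨0, 0, true⟩ := by
  simpa [X] using h

def rk (x : G) : ℤ := if x.s then 6 else if 0 < x.u + x.v then x.u + 2 * x.v - 1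
  else 2 - x.u - 2 * x.v

def r (a b : A) : Prop := rk a.1 < rk b.1

def l : G → ℕ
  | ⟨u, v, true⟩ => 1 + max u.natAbs v.natAbs
  | ⟨u, v, false⟩ => min (max (max u.natAbs v.natAbs) (u - v).natAbs) (2 + max u.natAbs v.natAbs)

def B : G → ℤ → Prop
  | ⟨u, v, true⟩, n => u < n ∧ -u < n ∧ v < n ∧ -v < n
  | ⟨u, v, false⟩, n => u ≤ n ∧ -u ≤ n ∧ v ≤ n ∧ -v ≤ n ∧
      ((u - v ≤ n ∧ v - u ≤ n) ∨ (u + 2 ≤ n ∧ 2 - u ≤ n ∧ v + 2 ≤ n ∧ 2 - v ≤ n))

lemma lB (g : G) (n : ℤ) : (l g : ℤ) ≤ n ↔ B g n := by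
  obtain ⟨u, v, _ | _⟩ := g <;> simp only [l, B] <;> omega

lemma lB' (g : G) : B g (l g) ∧ ¬ B g (l g - 1) := by
  rw [← lB, ← lB]; omega

lemma l_step {x : G} (h : x ∈ X) (g : G) : l (x * g) ≤ l g + 1 := by
  have a := (lB' g).1
  zify
  rw [lB]
  generalize (l g : ℤ) = n at a ⊢
  obtain ⟨u, v, _ | _⟩ := g <;> rcases memX h with rfl | rfl | rfl | rfl | rfl | rfl | rfl <;>
    simp only [mul_def, B, Bool.xor_false, Bool.xor_true, Bool.not_true, Bool.not_false, if_true,
      Bool.false_eq_true, if_false] at a ⊢ <;> omega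

lemma l_le (w : List A) : l (w.map Subtype.val).prod ≤ w.length := by
  induction w with
  | nil => exact le_rfl
  | cons x w ih => exact (l_step x.2 _).trans (Nat.succ_le_succ ih)

lemma exX (P : G → Prop) (h : P ⟨1, 0, false⟩ ∨ P ⟨0, 1, false⟩ ∨ P ⟨1, 1, false⟩ ∨
    P ⟨-1, 0, false⟩ ∨ P ⟨0, -1, false⟩ ∨ P ⟨-1, -1, false⟩ ∨ P ⟨0, 0, true⟩) : ∃ x ∈ X, P x := by
  simpa [X] using h

lemma l0 {g : G} (h : l g = 0) : g = 1 := by
  obtain ⟨u, v, _ | _⟩ := g <;> simp only [l] at h
  · simp [one_def]; omega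
  · omega

lemma ex_word (g : G) : ∃ w : List A, (w.map Subtype.val).prod = g ∧ w.length = l g := by
  induction h : l g generalizing g with
  | zero => exact ⟨[], (l0 h).symm, rfl⟩
  | succ n ih =>
    obtain ⟨x, hx, h'⟩ : ∃ x ∈ X, B (x⁻¹ * g) n := exX _ (by
      have a := (lB' g).1
      have b : g ≠ 1 := fun e => by rw [e] at h; exact absurd h (Nat.succ_ne_zero n).symm
      rw [h] at a
      obtain ⟨u, v, _ | _⟩ := g <;>
      simp only [mul_def, inv_def, B, Bool.xor_false, Bool.xor_true, Bool.not_true, Bool.not_false,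
        if_true, Bool.false_eq_true, if_false, one_def, ne_eq, G.mk.injEq, and_true] at a b ⊢
      · obtain ⟨a1, a2, a3, a4, a | a⟩ := a
        · rcases lt_trichotomy u 0 with h1 | h1 | h1 <;> rcases lt_trichotomy v 0 with h2 | h2 | h2 <;>
          first | exact Or.inl (by omega) | exact Or.inr (Or.inl (by omega)) |
            exact Or.inr (Or.inr (Or.inl (by omega))) |
            exact Or.inr (Or.inr (Or.inr (Or.inl (by omega)))) |
            exact Or.inr (Or.inr (Or.inr (Or.inr (Or.inl (by omega))))) |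
            exact Or.inr (Or.inr (Or.inr (Or.inr (Or.inr (Or.inl (by omega))))))
        · exact Or.inr (Or.inr (Or.inr (Or.inr (Or.inr (Or.inr (by omega))))))
      · rcases lt_trichotomy u 0 with h1 | h1 | h1 <;> rcases lt_trichotomy v 0 with h2 | h2 | h2 <;>
          first | exact Or.inr (Or.inr (Or.inl (by omega))) |
            exact Or.inr (Or.inr (Or.inr (Or.inr (Or.inr (Or.inl (by omega)))))) |
            exact Or.inr (Or.inr (Or.inr (Or.inr (Or.inr (Or.inr (by omega)))))))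
    rw [← lB] at h'
    have := l_step hx (x⁻¹ * g)
    rw [mul_inv_cancel_left] at this
    obtain ⟨w, h1, h2⟩ := ih (x⁻¹ * g) (by omega)
    exact ⟨⟨x, hx⟩ :: w, by rw [List.map_cons, List.prod_cons, h1, mul_inv_cancel_left],
      by simp [h2]⟩

def st (q : Fin 14) (x : G) : Fin 14 :=
  ([[1, 3, 2, 6, 8, 7, 11], [1, 13, 2, 13, 13, 13, 5], [13, 13, 2, 13, 13, 13, 12],
    [13, 4, 5, 13, 13, 13, 12], [13, 4, 5, 13, 13, 13, 13], [13, 13, 5, 13, 13, 13, 13],
    [13, 13, 13, 6, 13, 7, 10], [13, 13, 13, 13, 13, 7, 12], [13, 13, 13, 13, 9, 10, 12],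
    [13, 13, 13, 13, 9, 10, 13], [13, 13, 13, 13, 13, 10, 13],
    [13, 13, 5, 13, 13, 10, 13]].getD q []).getD (rk x).toNat 13

def I (q : Fin 14) : G → Prop
  | ⟨u, v, false⟩ => [0 ≤ u ∧ 0 ≤ v ∨ u ≤ 0 ∧ v ≤ 0, 0 ≤ v ∧ v ≤ u, 0 ≤ u ∧ u = v,
      0 ≤ u ∧ u ≤ v, 0 ≤ u ∧ u ≤ v, 0 ≤ u ∧ u = v, v ≤ 0 ∧ u ≤ v, u ≤ 0 ∧ u = v,
      u ≤ 0 ∧ v ≤ u, u ≤ 0 ∧ v ≤ u, u ≤ 0 ∧ u = v, u = v, u = 0 ∧ v = 0].getD q False
  | ⟨u, v, true⟩ => [-u ≤ v ∧ v ≤ u ∨ u ≤ v ∧ v ≤ -u ∨ u = 0 ∧ (v = 1 ∨ v = -1), -u ≤ v ∧ v ≤ u,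
      0 ≤ u ∧ u = v, u = 0 ∧ v = 0, False, False, u ≤ v ∧ v ≤ -u, u ≤ 0 ∧ u = v,
      u = 0 ∧ v = 0].getD q False

def M : DFA A (Fin 14) := ⟨fun q x => st q x.1, 0, {q | q ≠ 13}⟩

lemma allX (P : G → Prop) (h : P ⟨1, 0, false⟩ ∧ P ⟨0, 1, false⟩ ∧ P ⟨1, 1, false⟩ ∧
    P ⟨-1, 0, false⟩ ∧ P ⟨0, -1, false⟩ ∧ P ⟨-1, -1, false⟩ ∧ P ⟨0, 0, true⟩) : ∀ x ∈ X, P x := by
  simpa [X] using h

lemma stepA1 (q : Fin 14) {x : G} (hx : x ∈ X) (g : G) (h : I (st q x) g) : I q (x * g) := by
  obtain ⟨u, v, _ | _⟩ := g <;> rcases memX hx with rfl | rfl | rfl | rfl | rfl | rfl | rfl <;>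
    fin_cases q <;> (conv at h => whnf) <;> first | exact False.elim h |
    (simp only [mul_def, Bool.xor_false, Bool.xor_true, Bool.not_true,
      Bool.not_false, if_true, Bool.false_eq_true, if_false]
     conv => whnf
     omega)

def m : G → ℤ
  | ⟨u, v, true⟩ => max (max u (-u)) (max v (-v)) + 1
  | ⟨u, v, false⟩ => max (max u (-u)) (max v (-v))

lemma lI {q : Fin 14} {g : G} (h : I q g) : (l g : ℤ) = m g := by
  obtain ⟨u, v, _ | _⟩ := g <;> simp only [l, m]
  · have : 0 ≤ u ∧ 0 ≤ v ∨ u ≤ 0 ∧ v ≤ 0 := by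
      fin_cases q <;> (conv at h => whnf) <;> first | exact False.elim h | omega
    omega
  · omega

lemma stepA2 (q : Fin 14) {x : G} (hx : x ∈ X) (g : G) (h : I (st q x) g) :
    m (x * g) = m g + 1 := by
  obtain ⟨u, v, _ | _⟩ := g <;> rcases memX hx with rfl | rfl | rfl | rfl | rfl | rfl | rfl <;>
    fin_cases q <;> (conv at h => whnf) <;> first | exact False.elim h |
    (simp only [mul_def, m, Bool.xor_false, Bool.xor_true, Bool.not_true,
      Bool.not_false, if_true, Bool.false_eq_true, if_false]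
     omega)

lemma stepA3 (q : Fin 14) {x : G} (hx : x ∈ X) (g : G) (h : I (st q x) g) :
    ∀ y ∈ X, B (y⁻¹ * (x * g)) (m g) → rk x ≤ rk y := by
  obtain ⟨u, v, _ | _⟩ := g <;> rcases memX hx with rfl | rfl | rfl | rfl | rfl | rfl | rfl <;>
    fin_cases q <;> (conv at h => whnf) <;> first | exact False.elim h |
    (refine allX _ ⟨?_, ?_, ?_, ?_, ?_, ?_, ?_⟩ <;> first | exact fun _ => by decide |
     (simp only [mul_def, inv_def, B, m, Bool.xor_false, Bool.xor_true, Bool.not_true,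
      Bool.not_false, if_true, Bool.false_eq_true, if_false]
      intro h
      exfalso
      omega))

lemma stepB (q : Fin 14) (g : G) (h : I q g) (b : g ≠ 1) : ∃ x ∈ X, I (st q x) (x⁻¹ * g) := by
  refine exX _ ?_
  obtain ⟨u, v, _ | _⟩ := g <;> fin_cases q <;> (conv at h => whnf) <;> first | exact h.elim |
    (simp only [mul_def, inv_def, Bool.xor_false, Bool.xor_true, Bool.not_true, one_def, ne_eq,
      Bool.not_false, if_true, Bool.false_eq_true, if_false, G.mk.injEq, and_true] at b ⊢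
     conv => enter [1]; whnf
     conv => enter [2, 1]; whnf
     conv => enter [2, 2, 1]; whnf
     conv => enter [2, 2, 2, 1]; whnf
     conv => enter [2, 2, 2, 2, 1]; whnf
     conv => enter [2, 2, 2, 2, 2, 1]; whnf
     conv => enter [2, 2, 2, 2, 2, 2]; whnf
     try simp only [false_or, or_false]
     omega)

lemma rk_inj {x y : A} (h : rk x.1 = rk y.1) : x = y := by
  obtain ⟨x, hx⟩ := x
  obtain ⟨y, hy⟩ := y
  rcases memX hx with rfl | rfl | rfl | rfl | rfl | rfl | rfl <;>
    rcases memX hy with rfl | rfl | rfl | rfl | rfl | rfl | rfl <;>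
    first | rfl | exact absurd h (by simp [rk])

lemma sto : IsStrictTotalOrder A r where
  trichotomous a b h1 h2 := rk_inj (le_antisymm (not_lt.1 h2) (not_lt.1 h1))
  irrefl a := lt_irrefl _
  trans a b c := lt_trans

lemma lemA (w : List A) : ∀ q, M.evalFrom q w ≠ 13 →
    SL Subtype.val l r w ∧ I q (w.map Subtype.val).prod := by
  induction w with
  | nil =>
    intro q h
    refine ⟨rfl, ?_⟩
    fin_cases q <;> first | exact absurd rfl h | (conv => whnf) <;> simp
  | cons x w ih =>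
    intro q h
    obtain ⟨h1, h2⟩ := ih (st q x.1) h
    have a := stepA1 q x.2 _ h2
    have b := stepA2 q x.2 _ h2
    have c := h1.len
    have d := lI h2
    have e := lI a
    refine ⟨⟨h1, by omega, fun y hy => ?_⟩, a⟩
    exact (stepA3 q x.2 _ h2 y y.2 ((lB _ _).1 (by omega))).eq_or_lt.imp rk_inj id

lemma lemB (g : G) : ∀ q, I q g → ∃ w : List A, M.evalFrom q w ≠ 13 ∧
    (w.map Subtype.val).prod = g := by
  induction h : l g generalizing g with
  | zero => exact fun q hq => ⟨[], fun e => by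
      obtain rfl : q = 13 := e
      rw [l0 h] at hq
      exact hq, (l0 h).symm⟩
  | succ n ih =>
    intro q hq
    obtain ⟨x, hx, h'⟩ := stepB q g hq fun e => by
      rw [e] at h; exact absurd h (Nat.succ_ne_zero n).symm
    have a := stepA2 q hx _ h'
    have b := lI hq
    have c := lI h'
    rw [mul_inv_cancel_left] at a
    obtain ⟨w, h1, h2⟩ := ih (x⁻¹ * g) (by omega) _ h'
    exact ⟨⟨x, hx⟩ :: w, h1, by rw [List.map_cons, List.prod_cons, h2, mul_inv_cancel_left]⟩

lemma lemC (g : G) : I 0 g ↔ ∀ h, IsConj g h → l g ≤ l h := by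
  constructor
  · intro h k hk
    obtain ⟨⟨a, b, s⟩, rfl⟩ := isConj_iff.1 hk
    obtain ⟨u, v, _ | _⟩ := g <;> cases s <;> (conv at h => whnf) <;>
      simp only [mul_def, inv_def, l, Bool.xor_false, Bool.xor_true, Bool.not_true,
        Bool.not_false, if_true, Bool.false_eq_true, if_false] <;> omega
  · intro h
    obtain ⟨u, v, _ | _⟩ := g
    · have := h _ (isConj_iff.2 ⟨⟨0, 0, true⟩, rfl⟩)
      conv => whnf
      simp only [mul_def, inv_def, l, Bool.xor_false, Bool.xor_true, Bool.not_true,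
        Bool.not_false, if_true, Bool.false_eq_true, if_false] at this
      omega
    · have := h _ (isConj_iff.2 ⟨⟨0, -(v / 2), false⟩, rfl⟩)
      conv => whnf
      simp only [mul_def, inv_def, l, Bool.xor_false, Bool.xor_true, Bool.not_true,
        Bool.not_false, if_true, Bool.false_eq_true, if_false] at this
      omega

theorem reg (w : List A) : w ∈ M.accepts ↔
    ((∀ w' : List A, (w'.map Subtype.val).prod = (w.map Subtype.val).prod →
      w.length < w'.length ∨ (w.length = w'.length ∧ (w = w' ∨ List.Lex r w w'))) ∧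
    ∀ w' : List A, IsConj (w.map Subtype.val).prod (w'.map Subtype.val).prod →
      w.length ≤ w'.length) := by
  constructor
  · intro h
    obtain ⟨h1, h2⟩ := lemA w 0 h
    exact ⟨h1.least l_le, fun w' e => h1.len ▸ ((lemC _).1 h2 _ e).trans (l_le w')⟩
  · rintro ⟨h1, h2⟩
    obtain ⟨w0, a, b⟩ := lemB (w.map Subtype.val).prod 0 ((lemC _).2 fun k hk => by
      obtain ⟨w', rfl, e⟩ := ex_word k
      exact (l_le w).trans (e ▸ h2 w' hk))
    have := sto
    rcases h1 w0 b with c | ⟨c, rfl | c'⟩ <;>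
      [skip; exact a; skip] <;>
      rcases (lemA w0 0 a).1.least l_le w b.symm with d | ⟨d, rfl | d'⟩ <;>
      first | omega | exact a | exact absurd d' (asymm c')

def sg : List G → List G
  | [] => []
  | [h] => if h = 1 then [h] else [1, h]
  | h :: k :: L => if h = 1 then (if k = 1 then h :: k :: L else k :: L) else 1 :: h :: k :: L

lemma sg_push {h : G} (e : h ≠ 1) (L : List G) : sg (h :: L) = 1 :: h :: L := by
  cases L <;> simp [sg, e]
lemma sg_pop {h : G} (e : h ≠ 1) (L : List G) : sg (1 :: h :: L) = h :: L := by simp [sg, e]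

lemma sg_inv : Function.Involutive sg := by
  rintro (_ | ⟨h, L⟩)
  · rfl
  by_cases e : h = 1
  · subst e
    obtain _ | ⟨k, L⟩ := L
    · simp [sg]
    by_cases e : k = 1
    · simp [sg, e]
    · rw [sg_pop e, sg_push e]
  · rw [sg_push e, sg_pop e]

def hd (g : G) : List G → List G
  | [] => []
  | h :: L => (g * h) :: L

def a0 : G →* Equiv.Perm (List G) where
  toFun g := ⟨hd g, hd g⁻¹, fun L => by cases L <;> simp [hd], fun L => by cases L <;> simp [hd]⟩
  map_one' := Equiv.ext fun L => by cases L <;> simp [hd]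
  map_mul' a b := Equiv.ext fun L => by cases L <;> simp [hd, mul_assoc]

def a1 : G →* Equiv.Perm (List G) where
  toFun g := if g.s then sg_inv.toPerm else 1
  map_one' := rfl
  map_mul' := by
    rintro ⟨a, b, _ | _⟩ ⟨c, d, _ | _⟩ <;> simp
    exact Equiv.ext fun L => (sg_inv L).symm

abbrev H := Monoid.CoprodI fun _ : Fin 2 => G
abbrev AA := Σ _ : Fin 2, A

def ρ : H →* Equiv.Perm (List G) := Monoid.CoprodI.lift fun i => if i = 0 then a0 else a1
def f (s : AA) : H := Monoid.CoprodI.of (M := fun _ : Fin 2 => G) (i := s.1) s.2.1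
def o0 (g : G) : H := Monoid.CoprodI.of (M := fun _ : Fin 2 => G) (i := 0) g
def o1 (g : G) : H := Monoid.CoprodI.of (M := fun _ : Fin 2 => G) (i := 1) g
lemma r0 (g h : G) (L : List G) : ρ (o0 g) (h :: L) = (g * h) :: L := by
  simp [ρ, o0, a0, hd]
lemma r0' (g h : G) (L : List G) : ρ (o0 g)⁻¹ (h :: L) = (g⁻¹ * h) :: L := by
  rw [show (o0 g)⁻¹ = o0 g⁻¹ from
    (map_inv (Monoid.CoprodI.of (M := fun _ : Fin 2 => G) (i := 0)) g).symm, r0]
lemma r1 (g : G) (L : List G) : ρ (o1 g) L = if g.s then sg L else L := by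
  cases h : g.s <;> simp [ρ, o1, a1, h]
lemma r1' (g : G) (L : List G) : ρ (o1 g)⁻¹ L = if g.s then sg L else L := by
  rw [o1, ← map_inv]
  exact r1 _ _

def N (L : List G) : ℕ := (L.map l).sum + L.length

lemma N_step (s : AA) (L : List G) : N (ρ (f s) L) ≤ N L + 1 := by
  obtain ⟨i, x, hx⟩ := s
  fin_cases i
  · obtain _ | ⟨h, L⟩ := L
    · simp [ρ, f, a0, hd]
    · have := l_step hx h
      show N (ρ (o0 x) _) ≤ _
      simp only [r0, N, List.map_cons, List.sum_cons, List.length_cons]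
      omega
  · show N (ρ (o1 x) _) ≤ _
    rw [r1]
    have l1 : l 1 = 0 := rfl
    split_ifs
    · obtain _ | ⟨h, _ | ⟨k, L⟩⟩ := L <;> simp only [sg] <;> (try split_ifs) <;>
        simp [N, l1, *] <;> omega
    · omega

lemma N_le (w : List AA) (L : List G) : N (ρ (w.map f).prod L) ≤ N L + w.length := by
  induction w with
  | nil => simp
  | cons x w ih =>
    have := N_step x (ρ (w.map f).prod L)
    simp only [List.map_cons, List.prod_cons, map_mul, Equiv.Perm.mul_apply, List.length_cons]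
    omega

def lam (h : H) : ℕ := N (ρ h [1]) - 1

lemma lam_le (w : List AA) : lam (w.map f).prod ≤ w.length := by
  have := N_le w [1]
  have : N [1] = 1 := rfl
  unfold lam
  omega

def c : AA := ⟨0, ⟨1, 1, false⟩, by decide⟩
def t : AA := ⟨0, ⟨0, 0, true⟩, by decide⟩
def s : AA := ⟨1, ⟨0, 0, true⟩, by decide⟩

lemma SL0 {x : A} {w : List AA} {g : G} {L : List G} (h : SL f lam (fun _ _ => False) w)
    (e : ρ (w.map f).prod [1] = g :: L) (h1 : l (x.1 * g) = l g + 1)
    (h2 : ∀ y ∈ X, l (y⁻¹ * (x.1 * g)) ≤ l g → x.1 = y) :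
    SL f lam (fun _ _ => False) (⟨0, x⟩ :: w) ∧
      ρ ((⟨0, x⟩ :: w).map f).prod [1] = (x.1 * g) :: L := by
  have e' : ρ (f ⟨0, x⟩ * (w.map f).prod) [1] = (x.1 * g) :: L := by
    rw [map_mul, Equiv.Perm.mul_apply, e]
    exact r0 _ _ _
  have hl := h.len
  have l1 : l 1 = 0 := rfl
  simp only [lam, e, N, List.map_cons, List.sum_cons, List.length_cons] at hl
  refine ⟨⟨h, ?_, ?_⟩, e'⟩
  · simp only [lam, e', N, List.map_cons, List.sum_cons, List.length_cons]
    omega
  · rintro ⟨i, y⟩ hy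
    rw [lam, map_mul, Equiv.Perm.mul_apply, e'] at hy
    fin_cases i
    · rw [show f ⟨(fun i => i) ⟨0, by decide⟩, y⟩ = o0 y.1 from rfl, r0'] at hy
      simp only [N, List.map_cons, List.sum_cons, List.length_cons] at hy
      exact Or.inl (congrArg _ (Subtype.ext (h2 _ y.2 (by omega))))
    · rw [show f ⟨(fun i => i) ⟨1, by decide⟩, y⟩ = o1 y.1 from rfl, r1',
        sg_push fun h => by rw [h] at h1; omega] at hy
      split_ifs at hy <;> simp only [N, List.map_cons, List.sum_cons, List.length_cons] at hy <;>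
        omega

lemma SLc (k : ℕ) {w : List AA} {b : Bool} {L : List G} (h : SL f lam (fun _ _ => False) w)
    (e : ρ (w.map f).prod [1] = ⟨0, 0, b⟩ :: L) :
    SL f lam (fun _ _ => False) (List.replicate k c ++ w) ∧
      ρ ((List.replicate k c ++ w).map f).prod [1] = ⟨k, k, b⟩ :: L := by
  induction k with
  | zero => exact ⟨h, e⟩
  | succ k ih =>
    have := SL0 (x := c.2) ih.1 ih.2 (by cases b <;> simp only [c, mul_def, l, Bool.false_xor,
      Bool.false_eq_true, if_false] <;> omega) (allX _ (by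
        cases b <;> simp only [c, mul_def, inv_def, l, Bool.xor_false, Bool.xor_true, Bool.not_true,
          Bool.not_false, if_true, Bool.false_eq_true, if_false, G.mk.injEq] <;>
        refine ⟨?_, ?_, ?_, ?_, ?_, ?_, ?_⟩ <;> intro h <;> first | omega | simp))
    refine ⟨this.1, this.2.trans ?_⟩
    simp [c, add_comm]

def W (m n : ℕ) : List AA := List.replicate m c ++ s :: t :: (List.replicate n c ++ [t])

lemma SLW (m n : ℕ) (hn : 3 ≤ n) : SL f lam (fun _ _ => False) (W m n) := by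
  have a := SL0 (x := t.2) (w := []) (g := 1) (L := []) rfl rfl rfl (by decide)
  have b := SLc n (b := true) a.1 a.2
  have d := SL0 (x := t.2) b.1 b.2 (by
    simp only [t, mul_def, l, Bool.xor_true, Bool.not_true, if_true]; omega) (allX _ (by
      simp only [t, mul_def, inv_def, l, Bool.xor_false, Bool.xor_true, Bool.not_true,
        Bool.not_false, if_true, Bool.false_eq_true, if_false, G.mk.injEq]
      refine ⟨?_, ?_, ?_, ?_, ?_, ?_, ?_⟩ <;> intro h <;> first | omega | simp))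
  obtain ⟨g, hg, d2⟩ : ∃ g, g ≠ 1 ∧
      ρ ((t :: (List.replicate n c ++ [t])).map f).prod [1] = [g] :=
    ⟨_, by simp [t, one_def]; omega, d.2⟩
  have e' : ρ (f s * ((t :: (List.replicate n c ++ [t])).map f).prod) [1] = [1, g] := by
    rw [map_mul, Equiv.Perm.mul_apply, d2]
    exact (r1 _ _).trans (sg_push hg [])
  have hl : l g = (t :: (List.replicate n c ++ [t])).length := by
    have hl : lam ((t :: (List.replicate n c ++ [t])).map f).prod =
      (t :: (List.replicate n c ++ [t])).length := d.1.len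
    rw [lam, d2] at hl
    simpa only [N, List.map_cons, List.sum_cons, List.map_nil, List.sum_nil, add_zero,
      List.length_singleton, Nat.add_sub_cancel] using hl
  have l1 : l 1 = 0 := rfl
  refine (SLc m (w := s :: t :: (List.replicate n c ++ [t])) (b := false) (L := [g])
    ⟨d.1, ?_, ?_⟩ e').1
  · rw [lam, e', ← hl]
    simp only [N, List.map_cons, List.sum_cons, List.length_cons, List.map_nil,
      List.sum_nil, List.length_nil]
    omega
  · rintro ⟨i, y, hy⟩ h
    rw [lam, map_mul, Equiv.Perm.mul_apply, e', ← hl] at h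
    fin_cases i
    · rw [show f ⟨(fun i => i) ⟨0, by decide⟩, y, hy⟩ = o0 y from rfl, r0'] at h
      simp only [N, List.map_cons, List.sum_cons, List.length_cons, List.map_nil,
        List.sum_nil, List.length_nil] at h
      omega
    · rw [show f ⟨(fun i => i) ⟨1, by decide⟩, y, hy⟩ = o1 y from rfl, r1'] at h
      rcases memX hy with rfl | rfl | rfl | rfl | rfl | rfl | rfl
      any_goals exact Or.inl rfl
      all_goals
        simp only [N, List.map_cons, List.sum_cons, List.length_cons, List.map_nil,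
          List.sum_nil, List.length_nil, Bool.false_eq_true, if_false] at h
        omega

lemma cpow (k : ℕ) : ((List.replicate k c).map f).prod = o0 ⟨k, k, false⟩ := by
  induction k with
  | zero => exact (map_one _).symm
  | succ k ih =>
    rw [List.replicate_succ, List.map_cons, List.prod_cons, ih]
    refine (map_mul _ _ _).symm.trans (congrArg o0 ?_)
    simp [c, add_comm]

lemma conjW (m n : ℕ) : IsConj ((W m n).map f).prod (o0 ⟨n + m, m - n, false⟩ * f s) := by
  refine isConj_iff.2 ⟨o0 ⟨n, -n, false⟩, ?_⟩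
  have e : f t * (o0 ⟨n, n, false⟩ * f t) = o0 ⟨n, -n, false⟩ := by
    refine ((map_mul _ _ _).trans (congrArg _ (map_mul _ _ _))).symm.trans (congrArg o0 ?_)
    simp [t]
  have e2 : o0 ⟨n + m, m - n, false⟩ = o0 ⟨n, -n, false⟩ * o0 ⟨m, m, false⟩ := by
    refine (congrArg o0 ?_).trans (map_mul _ _ _)
    simp
    ring
  simp only [W, List.map_append, List.prod_append, cpow, List.map_cons, List.prod_cons,
    List.map_nil, List.prod_nil, mul_one, e, e2]
  group

lemma exw (h : H) : ∃ w : List AA, (w.map f).prod = h := by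
  induction h using Monoid.CoprodI.induction_on with
  | one => exact ⟨[], rfl⟩
  | of i g =>
    obtain ⟨w, rfl, -⟩ := ex_word g
    exact ⟨w.map fun x => ⟨i, x⟩, by simp [map_list_prod, f, Function.comp_def]⟩
  | mul a b ha hb =>
    obtain ⟨w, rfl⟩ := ha
    obtain ⟨w', rfl⟩ := hb
    exact ⟨w ++ w', by simp⟩

lemma conj_lb {g : G} (hg : g ≠ 1) (w : List AA) (h : IsConj (o0 g * f s) (w.map f).prod) :
    l g + 1 ≤ w.length := by
  obtain ⟨x, hx⟩ := isConj_iff.1 h
  obtain ⟨v, hv⟩ := exw x⁻¹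
  have a : ∀ k : ℕ, ∃ L, ρ ((o0 g * f s) ^ k) [g] = g :: L ∧
      N (g :: L) = l g + 1 + k * (l g + 1) := by
    intro k
    induction k with
    | zero => exact ⟨[], rfl, by simp [N]⟩
    | succ k ih =>
      obtain ⟨L, h1, h2⟩ := ih
      refine ⟨g :: L, ?_, ?_⟩
      · rw [pow_succ', map_mul, map_mul, Equiv.Perm.mul_apply, Equiv.Perm.mul_apply, h1,
          show ρ (f s) (g :: L) = _ from (r1 _ _).trans (sg_push hg _), r0, mul_one]
      · simp only [N, List.map_cons, List.sum_cons, List.length_cons] at h2 ⊢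
        linarith
  have b : ∀ (k : ℕ) L, N (ρ ((w.map f).prod ^ k) L) ≤ N L + k * w.length := by
    intro k L
    induction k with
    | zero => simp
    | succ k ih =>
      rw [pow_succ', map_mul, Equiv.Perm.mul_apply]
      exact (N_le _ _).trans (by linarith)
  by_contra! hl
  obtain ⟨k, hk⟩ : ∃ k, k = N (ρ x [g]) + v.length := ⟨_, rfl⟩
  obtain ⟨L, h1, h2⟩ := a k
  have c1 := b k (ρ x [g])
  have c2 := N_le v (ρ ((w.map f).prod ^ k) (ρ x [g]))
  rw [hv, ← hx, conj_pow, ← Equiv.Perm.mul_apply, ← Equiv.Perm.mul_apply, ← map_mul, ← map_mul,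
    show x⁻¹ * (x * (o0 g * f s) ^ k * x⁻¹) * x = (o0 g * f s) ^ k by group, h1, h2, ← conj_pow,
    hx] at c2
  have : k * w.length ≤ k * l g := Nat.mul_le_mul_left _ (by omega)
  nlinarith

lemma lenW (m n : ℕ) : (W m n).length = m + n + 3 := by simp [W]; omega

lemma good (m : ℕ) (w : List AA) (h : IsConj ((W (m + 1) (m + 3)).map f).prod (w.map f).prod) :
    (W (m + 1) (m + 3)).length ≤ w.length := by
  have := conj_lb (by simp only [one_def, ne_eq, G.mk.injEq]; omega) w ((conjW _ _).symm.trans h)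
  simp only [l] at this
  rw [lenW]
  omega

lemma bad (m n : ℕ) (h : n ≤ m + 1) : ∃ w : List AA, IsConj ((W m n).map f).prod (w.map f).prod ∧
    w.length < (W m n).length := by
  obtain ⟨w, h1, h2⟩ := ex_word ⟨n + m, m - n, false⟩
  refine ⟨w.map (fun x => ⟨0, x⟩) ++ [s], ?_, ?_⟩
  · have := conjW m n
    rw [← h1] at this
    simpa [map_list_prod, f, o0, Function.comp_def] using this
  · simp only [l] at h2
    simp only [lenW, List.length_append, List.length_map, List.length_singleton]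
    omega

end Pool.Agent.H15.ECL
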