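import Mathlib

set_option autoImplicit false

namespace Pool.Agent.H15.FHC

open Filter Topology ZeroAtInfty

noncomputable section

abbrev X := C₀(ℕ, ℝ)

lemma co : cocompact ℕ = atTop := by rw [cocompact_eq_cofinite, Nat.cofinite_eq_atTop]

def mk (f : ℕ → ℝ) (h : Tendsto f atTop (𝓝 0)) : X :=
  ⟨⟨f, continuous_of_discreteTopology⟩, by rw [co]; exact h⟩

lemma tend (f : X) : Tendsto f atTop (𝓝 0) := by rw [← co]; exact f.zero_at_infty'

lemma nle (f : X) {C : ℝ} (h : ∀ i, |f i| ≤ C) : ‖f‖ ≤ C := by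
  rw [← ZeroAtInftyContinuousMap.norm_toBCF_eq_norm]
  exact (BoundedContinuousFunction.norm_le ((abs_nonneg _).trans (h 0))).2 h

lemma len (f : X) (i : ℕ) : |f i| ≤ ‖f‖ := f.toBCF.norm_coe_le_norm i

def T : X →L[ℝ] X := LinearMap.mkContinuous
  { toFun := fun f => mk (fun i => 2 * f (i + 1))
      (by simpa using ((tend f).comp (tendsto_add_atTop_nat 1)).const_mul 2)
    map_add' := fun f g => by ext i; exact mul_add _ _ _
    map_smul' := fun c f => by ext i; exact mul_left_comm _ _ _ } 2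
  (fun f => nle _ fun i => by
    change |2 * f (i + 1)| ≤ _
    rw [abs_mul, abs_two]
    linarith [len f (i + 1)])

lemma T_it (n : ℕ) (f : X) (i : ℕ) : (T^[n] f) i = 2 ^ n * f (n + i) := by
  induction n generalizing i with
  | zero => simp
  | succ n ih =>
    rw [Function.iterate_succ_apply']
    change 2 * (T^[n] f) (i + 1) = _
    rw [ih, pow_succ, show n + (i + 1) = n + 1 + i by ring]; ring

def q (p i : ℕ) : ℝ := ((((Encodable.decode (α := List ℚ) p.unpair.1).getD []).getD i 0 : ℚ) : ℝ)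

def h (p i : ℕ) : ℝ := if |q p i| ≤ p then q p i else 0

lemma h_le (p i : ℕ) : |h p i| ≤ p := by
  unfold h; split_ifs with a
  exacts [a, by simp]

def P (j : ℕ) : ℕ := padicValNat 2 j

lemma P_le (j : ℕ) : P j ≤ j := padicValNat_le_nat_log j |>.trans (Nat.log_le_self _ _)

def g (m : ℕ) : ℝ :=
  if m < 2 * 4 ^ Nat.log 4 m then h (P (Nat.log 4 m)) (m % 4 ^ P (Nat.log 4 m)) else 0

lemma g_le (m : ℕ) : |g m| ≤ P (Nat.log 4 m) := by
  unfold g; split_ifs
  exacts [h_le _ _, by simp]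

lemma small {p a i : ℕ} {v : ℝ} (h1 : p ≤ a) (h2 : 2 * a ≤ i) (h3 : |v| ≤ a) :
    |(2 ^ i)⁻¹ * v| ≤ (2 ^ p)⁻¹ := by
  have a1 : (a : ℝ) ≤ 2 ^ a := by exact_mod_cast Nat.lt_two_pow_self.le
  have a2 : (2 : ℝ) ^ p * 2 ^ a ≤ 2 ^ i := by
    rw [← pow_add]; exact pow_le_pow_right₀ one_le_two (by omega)
  rw [abs_mul, abs_of_pos (by positivity), inv_mul_le_iff₀ (by positivity), le_mul_inv_iff₀ (by positivity)]
  nlinarith [mul_le_mul_of_nonneg_left (h3.trans a1) (by positivity : (0:ℝ) ≤ 2 ^ p)]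

def x : X := mk (fun m => (2 ^ m)⁻¹ * g m) (by
  refine squeeze_zero_norm (a := fun m : ℕ => (m : ℝ) ^ 1 / 2 ^ m) (fun m => ?_)
    (tendsto_pow_const_div_const_pow_of_one_lt 1 one_lt_two)
  rw [Real.norm_eq_abs, abs_mul, abs_of_pos (by positivity), pow_one, div_eq_inv_mul]
  gcongr
  exact (g_le m).trans (by exact_mod_cast (P_le _).trans (Nat.log_le_self _ _)))

lemma orb (n i : ℕ) : (T^[n] x) i = (2 ^ i)⁻¹ * g (n + i) := by
  rw [T_it]
  change _ * ((2 ^ (n + i))⁻¹ * g (n + i)) = _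
  rw [pow_add]; field_simp

lemma two_le (a : ℕ) : 2 * a ≤ 4 ^ a := by
  induction a with
  | zero => simp
  | succ a ih => have := Nat.one_le_pow a 4 (by norm_num); rw [pow_succ]; omega

lemma logeq {j m : ℕ} (h1 : 4 ^ j ≤ m) (h2 : m < 4 * 4 ^ j) : Nat.log 4 m = j :=
  Nat.log_eq_of_pow_le_of_lt_pow h1 (by rw [pow_succ]; omega)

lemma block (j k i : ℕ) (h1 : 4 ^ (j - P j) ≤ k) (h2 : k < 2 * 4 ^ (j - P j)) :
    (i < 4 ^ P j → g (4 ^ P j * k + i) = h (P j) i) ∧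
    (4 ^ P j ≤ i → |(2 ^ i)⁻¹ * g (4 ^ P j * k + i)| ≤ (2 ^ P j)⁻¹) := by
  have e : 4 ^ j = 4 ^ P j * 4 ^ (j - P j) := by rw [← pow_add, Nat.add_sub_cancel' (P_le j)]
  have l1 : 4 ^ j ≤ 4 ^ P j * k := by rw [e]; exact Nat.mul_le_mul_left _ h1
  have l2 : 4 ^ P j * k + 4 ^ P j ≤ 2 * 4 ^ j := by
    have := Nat.mul_le_mul_left (4 ^ P j) (Nat.succ_le_of_lt h2)
    rw [e]; nlinarith
  constructor
  · intro hi
    have := logeq (j := j) (m := 4 ^ P j * k + i) (by omega) (by omega)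
    rw [g, this, if_pos (by omega), Nat.mul_add_mod, Nat.mod_eq_of_lt hi]
  · intro hi
    clear e h1 h2
    generalize 4 ^ P j * k = u at *
    have b := g_le (u + i)
    have := Nat.one_le_pow j 4 (by norm_num)
    by_cases c : u + i < 4 * 4 ^ j
    · rw [logeq (j := j) (by omega) c] at b
      exact small le_rfl ((two_le _).trans hi) b
    · have c1 : j + 1 ≤ Nat.log 4 (u + i) :=
        Nat.le_log_of_pow_le (by norm_num) (by rw [pow_succ]; omega)
      have c2 := Nat.pow_log_le_self 4 (x := u + i) (by omega)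
      obtain ⟨a, ha⟩ : ∃ a, Nat.log 4 (u + i) = a + 1 := ⟨_, (Nat.sub_add_cancel (le_trans (Nat.le_add_left 1 j) c1)).symm⟩
      rw [ha] at b c1 c2
      have c3 : 4 ^ j ≤ 4 ^ a := Nat.pow_le_pow_right (by norm_num) (by omega)
      have c4 := two_le a
      have c5 := Nat.one_le_pow a 4 (by norm_num)
      have c6 : a + 1 ≤ 4 ^ a := Nat.lt_pow_self (by norm_num)
      rw [pow_succ] at c2
      have c7 : 2 * (a + 1) ≤ i := by
        have := le_trans (Nat.le_add_right _ _) l2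
        omega
      exact small (a := a + 1) (by have := P_le j; omega) c7
        (b.trans (by exact_mod_cast P_le _))

lemma approx (y : X) (ε : ℝ) (hε : 0 < ε) : ∃ p : ℕ, ∀ j k, P j = p → 4 ^ (j - p) ≤ k →
    k < 2 * 4 ^ (j - p) → ‖T^[4 ^ p * k] x - y‖ ≤ 2 * ε := by
  obtain ⟨L, hL⟩ := eventually_atTop.1 ((tend y).abs.eventually (ge_mem_nhds (by simpa using hε)))
  have : ∀ i : ℕ, ∃ r : ℚ, |(2 ^ i)⁻¹ * (r : ℝ) - y i| ≤ ε := fun i => by
    obtain ⟨r, hr⟩ := exists_rat_near (2 ^ i * y i) hε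
    refine ⟨r, ?_⟩
    have e : (2 ^ i)⁻¹ * (r : ℝ) - y i = (2 ^ i)⁻¹ * -(2 ^ i * y i - r) := by field_simp; ring
    rw [e, abs_mul, abs_neg, abs_of_pos (by positivity)]
    exact (mul_le_of_le_one_left (abs_nonneg _)
      (inv_le_one_of_one_le₀ (one_le_pow₀ one_le_two))).trans hr.le
  choose r hr using this
  obtain ⟨b1, hb1⟩ := exists_nat_ge (∑ i ∈ Finset.range L, |(r i : ℝ)|)
  obtain ⟨b2, hb2⟩ := exists_nat_ge ε⁻¹
  let l := (List.range L).map r
  let p := Nat.pair (Encodable.encode l) (b1 + b2 + L)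
  have hp : b1 + b2 + L ≤ p := Nat.right_le_pair _ _
  have hq : ∀ i, q p i = if i < L then (r i : ℝ) else 0 := fun i => by
    simp only [q, p, Nat.unpair_pair, Encodable.encodek, Option.getD_some, l]
    split_ifs with a <;> simp [a, List.getD_eq_getElem?_getD]
  have hh : ∀ i, h p i = q p i := fun i => if_pos (by
    rw [hq]; split_ifs with a
    · refine (Finset.single_le_sum (f := fun i => |(r i : ℝ)|) (fun _ _ => abs_nonneg _)
        (Finset.mem_range.2 a)).trans (hb1.trans (by exact_mod_cast (by omega)))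
    · simp)
  have he : ((2 : ℝ) ^ p)⁻¹ ≤ ε := by
    refine inv_le_of_inv_le₀ hε (hb2.trans ?_)
    exact_mod_cast (by omega : b2 ≤ p).trans Nat.lt_two_pow_self.le
  refine ⟨p, fun j k e h1 h2 => nle _ fun i => ?_⟩
  obtain ⟨c1, c2⟩ := block j k i (e ▸ h1) (e ▸ h2)
  rw [e] at c1 c2
  change |(T^[4 ^ p * k] x) i - y i| ≤ _
  rw [orb]
  by_cases hi : i < 4 ^ p
  · rw [c1 hi, hh, hq]
    split_ifs with a
    · linarith [hr i]
    · have := hL i (by omega)
      simp only [mul_zero, zero_sub, abs_neg]; linarith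
  · have := hL i (by have := two_le p; omega)
    have := c2 (by omega)
    linarith [abs_sub ((2 ^ i)⁻¹ * g (4 ^ p * k + i)) (y i)]

lemma P_odd (p t : ℕ) : P (2 ^ p * (2 * t + 1)) = p := by
  rw [P, padicValNat.mul (by positivity) (by omega), padicValNat.prime_pow,
    padicValNat.eq_zero_of_not_dvd (by omega), add_zero]

lemma fhc (U : Set X) (hU : IsOpen U) (hne : U.Nonempty) :
    ∃ δ : ℝ, 0 < δ ∧ ∀ᶠ n : ℕ in Filter.atTop,
      δ * (n : ℝ) ≤ (({k : ℕ | k < n ∧ (⇑T)^[k] x ∈ U}.ncard : ℕ) : ℝ) := by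
  obtain ⟨y, hy⟩ := hne
  obtain ⟨ε, hε, hb⟩ := Metric.isOpen_iff.1 hU y hy
  obtain ⟨p, hp⟩ := approx y (ε / 3) (by positivity)
  refine ⟨(4 ^ (2 ^ (p + 1) + p + 2))⁻¹, by positivity,
    eventually_atTop.2 ⟨4 ^ (2 ^ p + 1), fun n hn => ?_⟩⟩
  have h1 : 2 ^ p + 1 ≤ Nat.log 4 n := Nat.le_log_of_pow_le (by norm_num) hn
  have h0 : 0 < 4 ^ (2 ^ p + 1) := by positivity
  have h2 := Nat.pow_log_le_self 4 (x := n) (by omega)
  have h3 := Nat.lt_pow_succ_log_self (b := 4) (by norm_num) n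
  obtain ⟨a, ha⟩ : ∃ a, Nat.log 4 n = 2 ^ p + 1 + a := ⟨_, (Nat.add_sub_cancel' h1).symm⟩
  rw [ha] at h2 h3
  set t := a / 2 ^ (p + 1)
  have h4 : 2 ^ (p + 1) * t ≤ a := Nat.mul_div_le _ _
  have h5 : a < 2 ^ (p + 1) * (t + 1) := Nat.lt_mul_div_succ _ (by positivity)
  obtain ⟨j, hj⟩ : ∃ j, j = 2 ^ p * (2 * t + 1) := ⟨_, rfl⟩
  have h6 : j = 2 ^ p + 2 ^ (p + 1) * t := by rw [hj]; ring
  have h7 : P j = p := hj ▸ P_odd p t
  have h8 : p ≤ j := h7 ▸ P_le j
  have e : 4 ^ j = 4 ^ p * 4 ^ (j - p) := by rw [← pow_add, Nat.add_sub_cancel' h8]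
  have h9 : 4 ^ (j + 1) ≤ n := le_trans (Nat.pow_le_pow_right (by norm_num) (by omega)) h2
  have h10 : n ≤ 4 ^ (2 ^ (p + 1) + p + 2) * 4 ^ (j - p) := by
    rw [← pow_add]
    refine h3.le.trans (Nat.pow_le_pow_right (by norm_num) ?_)
    rw [mul_add] at h5; omega
  have h11 : 4 ^ (j - p) ≤ {k : ℕ | k < n ∧ (⇑T)^[k] x ∈ U}.ncard := by
    have := Set.ncard_le_ncard_of_injOn (s := ↑(Finset.Ico (4 ^ (j - p)) (2 * 4 ^ (j - p))))
      (t := {k : ℕ | k < n ∧ (⇑T)^[k] x ∈ U}) (fun k => 4 ^ p * k) (fun k hk => by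
        obtain ⟨k1, k2⟩ := Finset.mem_Ico.1 hk
        refine ⟨?_, hb ?_⟩
        · have := Nat.mul_lt_mul_of_pos_left k2 (by positivity : 0 < 4 ^ p)
          rw [pow_succ, e] at h9
          nlinarith
        · rw [mem_ball_iff_norm]; linarith [hp j k h7 k1 k2])
      (fun a _ b _ hab => Nat.eq_of_mul_eq_mul_left (by positivity) hab)
      ((Set.finite_Iio n).subset fun k hk => hk.1)
    rw [Set.ncard_coe_finset, Nat.card_Ico] at this
    omega
  rw [inv_mul_le_iff₀ (by positivity)]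
  exact_mod_cast h10.trans (Nat.mul_le_mul_left _ h11)

lemma nodens (A : Set ℕ) (hA : A ⊆ {k : ℕ | (⇑T)^[k] x ∈ {y : X | y 0 ≠ 0}}) :
    ¬ ∃ d : ℝ, 0 < d ∧ Tendsto
      (fun n : ℕ => (({k : ℕ | k < n ∧ k ∈ A}.ncard : ℕ) : ℝ) / (n : ℝ)) atTop (nhds d) := by
  rintro ⟨d, hd, h⟩
  have t1 : Tendsto (fun j : ℕ => 4 ^ j) atTop atTop := tendsto_pow_atTop_atTop_of_one_lt (by norm_num)
  have a1 := h.comp (t1.const_mul_atTop' (by norm_num : 0 < 2))
  have a2 := (h.comp (t1.const_mul_atTop' (by norm_num : 0 < 4))).const_mul 2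
  have := tendsto_nhds_unique a1 (a2.congr fun j => by
    have : {k : ℕ | k < 4 * 4 ^ j ∧ k ∈ A} = {k : ℕ | k < 2 * 4 ^ j ∧ k ∈ A} := by
      ext k
      refine ⟨fun a => ⟨by_contra fun b => hA a.2 ?_, a.2⟩, fun a => ⟨by have := a.1; omega, a.2⟩⟩
      rw [orb, add_zero, g, logeq (j := j) (by omega) a.1, if_neg b, mul_zero]
    simp only [Function.comp, this]
    push_cast; field_simp; ring)
  linarith

lemma isopen : IsOpen {y : X | y 0 ≠ 0} :=
  isOpen_ne_fun (LipschitzWith.of_dist_le_mul (K := 1) fun a b => by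
    simpa [dist_eq_norm] using len (a - b) 0).continuous continuous_const

lemma ne : {y : X | y 0 ≠ 0}.Nonempty :=
  ⟨mk (fun i => (1 / 2) ^ i) (tendsto_pow_atTop_nhds_zero_of_lt_one (by norm_num) (by norm_num)),
    by change (1 / 2 : ℝ) ^ 0 ≠ 0; norm_num⟩

end

end Pool.Agent.H15.FHC
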