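import Mathlib

set_option autoImplicit false

namespace Pool.Agent.H15.GD

open SimpleGraph

variable {V : Type*} {G : SimpleGraph V}

/-- A verified distance table. -/
lemma table [Nonempty V] (d : V → V → ℕ) (h0 : ∀ a, d a a = 0)
    (h1 : ∀ a u v, G.Adj u v → d a v ≤ d a u + 1)
    (h2 : ∀ a v, v ≠ a → ∃ u, G.Adj u v ∧ d a u + 1 = d a v) :
    G.Connected ∧ ∀ a b, G.dist a b = d a b := by
  have k : ∀ a n b, d a b = n → ∃ p : G.Walk a b, p.length = n := fun a n => by
    induction n with
    | zero =>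
      intro b h
      obtain rfl : b = a := by_contra fun m => let ⟨u, _, e⟩ := h2 a b m; by omega
      exact ⟨.nil, rfl⟩
    | succ n ih =>
      intro b h
      obtain ⟨u, e, f⟩ := h2 a b (by rintro rfl; rw [h0] at h; omega)
      obtain ⟨p, hp⟩ := ih u (by omega)
      exact ⟨p.concat e, by simp [hp]⟩
  have l : ∀ a u v (p : G.Walk u v), d a v ≤ d a u + p.length := fun a u v p => by
    induction p with
    | nil => simp
    | cons e p ih => have := h1 a _ _ e; simp only [Walk.length_cons]; omega
  have c : G.Connected := ⟨fun a b => let ⟨p, _⟩ := k a _ b rfl; ⟨p⟩⟩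
  refine ⟨c, fun a b => le_antisymm ?_ ?_⟩
  · obtain ⟨p, hp⟩ := k a _ b rfl
    exact hp ▸ dist_le p
  · obtain ⟨p, hp⟩ := c.exists_walk_length_eq_dist a b
    simpa [h0, hp] using l a a b p

/-- A vertex lies on a geodesic iff the triangle inequality is tight. -/
lemma geo (c : G.Connected) (a b z : V) :
    (∃ p : G.Walk a b, p.length = G.dist a b ∧ z ∈ p.support) ↔
      G.dist a z + G.dist z b = G.dist a b := by
  classical
  refine ⟨fun ⟨p, hp, hz⟩ => le_antisymm ?_ c.dist_triangle, fun h => ?_⟩
  · rw [← hp, ← p.take_spec hz, Walk.length_append]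
    exact add_le_add (dist_le _) (dist_le _)
  · obtain ⟨p, hp⟩ := c.exists_walk_length_eq_dist a z
    obtain ⟨q, hq⟩ := c.exists_walk_length_eq_dist z b
    exact ⟨p.append q, by simp [hp, hq, h], by simp⟩

end Pool.Agent.H15.GD
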