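import Mathlib

set_option autoImplicit false

namespace Pool.Agent.H15.GLc

open Set Submodule Cardinal

variable {D V L : Type} [DivisionRing D] [AddCommGroup V] [Module D V] [AddCommGroup L] [Module D L]

lemma fixpt {K X : Type} [LinearOrder K] [WellFoundedLT K] [Inhabited X] (F : K → (K → X) → X)
    (hF : ∀ k f f', (∀ j < k, f j = f' j) → F k f = F k f') : ∃ f : K → X, ∀ k, f k = F k f := by
  classical
  let f : K → X := (wellFounded_lt (α := K)).fix fun k g =>
    F k fun j => if h : j < k then g j h else default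
  refine ⟨f, fun k => ?_⟩
  have : f k = F k fun j => if j < k then f j else default := by
    simp only [f]
    rw [WellFounded.fix_eq]
    rfl
  rw [this]
  exact hF _ _ _ fun j hj => if_pos hj

lemma indep {K : Type} [LinearOrder K] (z : K → V) (s : Set K)
    (h : ∀ k ∈ s, z k ∉ span D (z '' Iio k)) : LinearIndepOn D z s := by
  classical
  rw [linearIndepOn_iff_linearIndepOn_finset]
  intro t
  induction t using Finset.induction_on_max with
  | empty => simp
  | insert a t h1 ih =>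
    intro ht
    rw [Finset.coe_insert] at ht ⊢
    refine (ih fun x hx => ht (Or.inr hx)).insert fun h2 => h a (ht (Or.inl rfl)) ?_
    exact span_mono (image_mono fun x hx => h1 x hx) h2

lemma span_new {K : Type} [LinearOrder K] [WellFoundedLT K] (z : K → V) (k : K) :
    z k ∈ span D (z '' ({k | z k ∉ span D (z '' Iio k)} ∩ Iic k)) := by
  induction k using WellFoundedLT.induction with
  | ind k ih =>
    by_cases h : z k ∈ span D (z '' Iio k)
    · refine span_le.2 ?_ h
      rintro _ ⟨j, hj, rfl⟩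
      exact span_mono (image_mono (inter_subset_inter_right _ (Iic_subset_Iic.2 hj.le))) (ih j hj)
    · exact subset_span ⟨k, ⟨h, le_rfl⟩, rfl⟩

lemma rec_lin {K : Type} [LinearOrder K] [WellFoundedLT K] (z : K → V)
    (F : K → (V →ₗ[D] L) → L)
    (hF : ∀ k φ ψ, (∀ v ∈ span D (z '' Iio k), φ v = ψ v) → F k φ = F k ψ) :
    ∃ φ : V →ₗ[D] L, ∀ k, z k ∉ span D (z '' Iio k) → φ (z k) = F k φ := by
  have hi := indep (D := D) z {k | z k ∉ span D (z '' Iio k)} fun k hk => hk
  have : ∀ f : K → L, ∃ φ : V →ₗ[D] L, ∀ k, z k ∉ span D (z '' Iio k) → φ (z k) = f k := by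
    intro f
    obtain ⟨φ, hφ⟩ := LinearMap.exists_extend
      ((Module.Basis.span hi).constr ℕ fun k => f k.1)
    refine ⟨φ, fun k hk => ?_⟩
    have := LinearMap.congr_fun hφ (Module.Basis.span hi ⟨k, hk⟩)
    rw [Module.Basis.constr_basis] at this
    simpa using this
  choose Φ hΦ using this
  have : Inhabited L := ⟨0⟩
  obtain ⟨f, hf⟩ := fixpt (fun k f => F k (Φ f)) fun k f f' h => hF _ _ _ fun v hv => by
    refine LinearMap.eqOn_span' ?_ hv
    rintro _ ⟨j, hj, rfl⟩
    refine LinearMap.eqOn_span' ?_ (span_new (D := D) z j)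
    rintro _ ⟨i, ⟨h1, h2⟩, rfl⟩
    rw [hΦ _ _ h1, hΦ _ _ h1, h i (lt_of_le_of_lt h2 hj)]
  exact ⟨Φ f, fun k hk => (hΦ f k hk).trans (hf k)⟩

def X {J : Type} [LinearOrder J] (u w : J → V) (j : J) : Set V := u '' Iio j ∪ w '' Iio j

def G (D : Type) [DivisionRing D] [Module D V] {J : Type} [LinearOrder J] (u w : J → V) (j : J) :
    Prop := u j ∉ span D (X u w j) ∧ w j ∉ span D (insert (u j) (X u w j))

lemma zp (a : V ≃ₗ[D] V) (n : ℤ) (v : V) : (a ^ (n + 1)) v = a ((a ^ n) v) := by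
  rw [add_comm, zpow_one_add]
  rfl

theorem free {J : Type} [LinearOrder J] [WellFoundedLT J] (u w : J → V) (a : V ≃ₗ[D] V)
    (ha : ∀ j, a (u j) = w j) (hu : ⊤ ≤ span D (range u))
    (H : ∀ j, w j ∉ span D (insert (u j) (X u w j)) ∨ u j ∉ span D (insert (w j) (X u w j))) :
    ∃ b : Module.Basis ({j // G D u w j} × ℤ) D V, ∀ j n, a (b (j, n)) = b (j, n + 1) := by
  classical
  let T : (J × ℤ →₀ D) ≃ₗ[D] (J × ℤ →₀ D) :=
    Finsupp.domLCongr ((Equiv.refl J).prodCongr (Equiv.addRight 1))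
  have hT : ∀ j n, T (Finsupp.single (j, n) 1) = Finsupp.single (j, n + 1) 1 := by
    intro j n
    simp [T]
  let z : J ×ₗ Bool → V := fun k => if (ofLex k).2 then w (ofLex k).1 else u (ofLex k).1
  have z0 : ∀ j, z '' Iio (toLex (j, false)) = X u w j := by
    intro j
    ext v
    simp only [X, mem_image, mem_union, mem_Iio]
    constructor
    · rintro ⟨k, hk, rfl⟩
      obtain ⟨⟨i, b⟩, rfl⟩ := toLex.surjective k
      rw [Prod.Lex.toLex_lt_toLex] at hk
      replace hk : i < j := hk.resolve_right fun h => absurd h.2 (by simp)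
      cases b
      · exact Or.inl ⟨i, hk, rfl⟩
      · exact Or.inr ⟨i, hk, rfl⟩
    · rintro (⟨i, hi, rfl⟩ | ⟨i, hi, rfl⟩)
      · exact ⟨toLex (i, false), Prod.Lex.toLex_lt_toLex.2 (Or.inl hi), rfl⟩
      · exact ⟨toLex (i, true), Prod.Lex.toLex_lt_toLex.2 (Or.inl hi), rfl⟩
  have z1 : ∀ j, z '' Iio (toLex (j, true)) = insert (u j) (X u w j) := by
    intro j
    rw [← z0, show u j = z (toLex (j, false)) from rfl, ← image_insert_eq]
    congr 1
    ext k
    obtain ⟨⟨i, b⟩, rfl⟩ := toLex.surjective k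
    simp only [mem_Iio, mem_insert_iff, Prod.Lex.toLex_lt_toLex, toLex_inj, Prod.mk.injEq]
    cases b <;> simp [or_comm]
  obtain ⟨φ, hφ⟩ := rec_lin (D := D) z (fun k φ => if (ofLex k).2 then T (φ (u (ofLex k).1)) else
      if w (ofLex k).1 ∈ span D (X u w (ofLex k).1) then T.symm (φ (w (ofLex k).1))
      else Finsupp.single ((ofLex k).1, 0) 1) (by
    intro k φ ψ h
    obtain ⟨⟨j, b⟩, rfl⟩ := toLex.surjective k
    cases b
    · rw [z0] at h
      by_cases hw : w j ∈ span D (X u w j) <;> simp [hw, h]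
    · rw [z1] at h
      simp [h _ (subset_span (mem_insert _ _))])
  have p0 : ∀ j, u j ∉ span D (X u w j) → φ (u j) =
      if w j ∈ span D (X u w j) then T.symm (φ (w j)) else Finsupp.single (j, 0) 1 :=
    fun j hj => hφ (toLex (j, false)) (by rwa [z0])
  have p1 : ∀ j, w j ∉ span D (insert (u j) (X u w j)) → φ (w j) = T (φ (u j)) :=
    fun j hj => hφ (toLex (j, true)) (by rwa [z1])
  have sub : ∀ v j, span D (X u w j) ≤ span D (insert v (X u w j)) :=
    fun v j => span_mono (subset_insert _ _)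
  have ex : ∀ j, w j ∈ span D (insert (u j) (X u w j)) →
      u j ∉ span D (X u w j) ∧ w j ∈ span D (X u w j) := fun j hj => by
    have := (H j).resolve_left fun h => h hj
    exact ⟨fun h => this (sub _ _ h), by_contra fun h => this (mem_span_insert_exchange hj h)⟩
  have key : ∀ v, φ (a v) = T (φ v) := by
    intro v
    refine LinearMap.eqOn_span' (f := φ ∘ₗ a.toLinearMap) (g := T.toLinearMap ∘ₗ φ) ?_ (hu trivial)
    rintro _ ⟨j, rfl⟩
    show φ (a (u j)) = T (φ (u j))
    rw [ha]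
    by_cases h : w j ∈ span D (insert (u j) (X u w j))
    · rw [p0 j (ex j h).1, if_pos (ex j h).2, T.apply_symm_apply]
    · exact p1 j h
  let x : {j // G D u w j} × ℤ → V := fun p => (a ^ p.2) (u p.1)
  have hx : ∀ j n, φ (x (j, n)) = Finsupp.single (j.1, n) 1 := by
    intro j n
    induction n using Int.induction_on with
    | zero =>
      have := p0 j j.2.1
      rw [if_neg fun h => j.2.2 (sub _ _ h)] at this
      simpa [x] using this
    | succ n ih => rw [← hT, ← ih, ← key, ← zp]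
    | pred n ih =>
      apply T.injective
      rw [hT, ← key, ← zp]
      simpa [x] using ih
  have li : LinearIndependent D x := by
    refine LinearIndependent.of_comp φ ?_
    have := (Finsupp.basisSingleOne (ι := J × ℤ) (R := D)).linearIndependent.comp
      (fun p : {j // G D u w j} × ℤ => (p.1.1, p.2)) (by
        rintro ⟨i, m⟩ ⟨j, n⟩ h
        simpa [Subtype.ext_iff] using h)
    have e : ⇑φ ∘ x = ⇑(Finsupp.basisSingleOne (ι := J × ℤ) (R := D)) ∘
        fun p : {j // G D u w j} × ℤ => (p.1.1, p.2) := by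
      funext ⟨j, n⟩
      simp [hx]
    rwa [e]
  have i1 : ∀ v ∈ span D (range x), a v ∈ span D (range x) := by
    intro v hv
    refine (span_le (p := (span D (range x)).comap a.toLinearMap)).2 ?_ hv
    rintro _ ⟨⟨j, n⟩, rfl⟩
    exact subset_span ⟨(j, n + 1), zp _ _ _⟩
  have i2 : ∀ v ∈ span D (range x), a.symm v ∈ span D (range x) := by
    intro v hv
    refine (span_le (p := (span D (range x)).comap a.symm.toLinearMap)).2 ?_ hv
    rintro _ ⟨⟨j, n⟩, rfl⟩
    refine subset_span ⟨(j, n - 1), a.eq_symm_apply.2 ?_⟩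
    simp only [x]
    rw [← zp, sub_add_cancel]
  have sp : ∀ j, u j ∈ span D (range x) := by
    intro j
    induction j using WellFoundedLT.induction with
    | ind j ih =>
      have hX : span D (X u w j) ≤ span D (range x) := span_le.2 (by
        rintro _ (⟨i, hi, rfl⟩ | ⟨i, hi, rfl⟩)
        · exact ih i hi
        · exact ha i ▸ i1 _ (ih i hi))
      by_cases h1 : u j ∈ span D (X u w j)
      · exact hX h1
      by_cases h2 : w j ∈ span D (insert (u j) (X u w j))
      · simpa [← ha] using i2 _ (hX (ex j h2).2)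
      · exact subset_span ⟨(⟨j, h1, h2⟩, 0), by simp [x]⟩
  refine ⟨Module.Basis.mk li (hu.trans (span_le.2 (range_subset_iff.2 sp))), fun j n => ?_⟩
  simp only [Module.Basis.coe_mk, x, zp]

lemma build {J Y : Type} [LinearOrder J] [WellFoundedLT J] [Inhabited Y] (Q : J → Set Y → Y → Prop)
    (h : ∀ j (f : J → Y), ∃ y, Q j (f '' Iio j) y) : ∃ f : J → Y, ∀ j, Q j (f '' Iio j) (f j) := by
  have : ∀ j (A : Set Y), ∃ y, (∃ f : J → Y, A = f '' Iio j) → Q j A y := by
    intro j A
    by_cases hA : ∃ f : J → Y, A = f '' Iio j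
    · obtain ⟨f, rfl⟩ := hA
      exact (h j f).imp fun _ h _ => h
    · exact ⟨default, fun h => absurd h hA⟩
  choose c hc using this
  obtain ⟨f, hf⟩ := fixpt (fun j f => c j (f '' Iio j)) fun j f f' h => by
    rw [image_congr (s := Iio j) h]
  exact ⟨f, fun j => hf j ▸ hc j _ ⟨f, rfl⟩⟩

lemma fresh (S : Set V) (h : #S < Module.rank D V) : ∃ v, v ∉ span D S := by
  by_contra! h'
  have := rank_span_le (R := D) S
  rw [eq_top_iff'.2 h', rank_top] at this
  exact h.not_ge this

theorem main (hV : ℵ₀ ≤ Module.rank D V) (g : V ≃ₗ[D] V) :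
    ∃ a b : V ≃ₗ[D] V, ∀ v, b (a v) = a (g (b v)) := by
  classical
  set κ := Module.rank D V with hκ
  let e := Module.Basis.ofVectorSpace D V
  set ι := Module.Basis.ofVectorSpaceIndex D V
  have hι : #ι = κ := e.mk_eq_rank''
  let J := κ.ord.ToType
  have hJ : #J = κ := by simp [J]
  obtain ⟨τ⟩ : Nonempty (J ≃ ι × Fin 3) := Cardinal.eq.1 (by
    simp only [hJ, mk_prod, hι, lift_id, mk_fin, lift_natCast]
    exact (mul_eq_left hV ((natCast_lt_aleph0).le.trans hV) (by simp)).symm)
  have hu : ∀ S T : Set V, #S < κ → #T < κ → #(S ∪ T : Set V) < κ := fun S T h1 h2 =>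
    (mk_union_le _ _).trans_lt (add_lt_of_lt hV h1 h2)
  have hi : ∀ v (S : Set V), #S < κ → #(insert v S : Set V) < κ := fun v S h =>
    mk_insert_le.trans_lt (add_lt_of_lt hV h (one_lt_aleph0.trans_le hV))
  have m1 : ∀ {S T : Set V} {v}, S ⊆ T → v ∉ span D T → v ∉ span D S :=
    fun h h' h'' => h' (span_mono h h'')
  have : Inhabited (V × V) := ⟨0⟩
  obtain ⟨f, hf⟩ := build (J := J) (fun j (A : Set (V × V)) p =>
      p.1 ∉ span D (Prod.fst '' A) ∧ p.2 ∉ span D (Prod.snd '' A) ∧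
      (p.2 ∉ span D (insert p.1 (Prod.fst '' A ∪ Prod.snd '' A)) ∨
        p.1 ∉ span D (insert p.2 (Prod.fst '' A ∪ Prod.snd '' A))) ∧
      (p.2 ∉ span D (insert (g.symm p.1) (g.symm '' (Prod.fst '' A) ∪ Prod.snd '' A)) ∨
        g.symm p.1 ∉ span D (insert p.2 (g.symm '' (Prod.fst '' A) ∪ Prod.snd '' A))) ∧
      ((τ j).2 = 0 → e (τ j).1 ∈ span D (insert p.1 (Prod.fst '' A))) ∧
      ((τ j).2 = 1 → e (τ j).1 ∈ span D (insert p.2 (Prod.snd '' A))) ∧
      ((τ j).2 = 2 → (p.1 ∉ span D (Prod.fst '' A ∪ Prod.snd '' A) ∧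
        p.2 ∉ span D (insert p.1 (Prod.fst '' A ∪ Prod.snd '' A))) ∧
        g.symm p.1 ∉ span D (g.symm '' (Prod.fst '' A) ∪ Prod.snd '' A) ∧
        p.2 ∉ span D (insert (g.symm p.1) (g.symm '' (Prod.fst '' A) ∪ Prod.snd '' A)))) (by
    intro j f
    have hA : #(f '' Iio j) < κ := mk_image_le.trans_lt (mk_Iio_ord_toType j)
    have hU : #(Prod.fst '' (f '' Iio j)) < κ := mk_image_le.trans_lt hA
    have hW : #(Prod.snd '' (f '' Iio j)) < κ := mk_image_le.trans_lt hA
    generalize Prod.fst '' (f '' Iio j) = U at hU ⊢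
    generalize Prod.snd '' (f '' Iio j) = W at hW ⊢
    have hU' : #(g.symm '' U) < κ := mk_image_le.trans_lt hU
    have fw : ∀ u, ∃ w, w ∉ span D (insert u (U ∪ W)) ∧
        w ∉ span D (insert (g.symm u) (g.symm '' U ∪ W)) := fun u => by
      obtain ⟨w, hw⟩ := fresh (D := D) _ (hu _ _ (hi u _ (hu _ _ hU hW))
        (hi (g.symm u) _ (hu _ _ hU' hW)))
      exact ⟨w, m1 subset_union_left hw, m1 subset_union_right hw⟩
    have bw : ∀ w, ∃ u, u ∉ span D (insert w (U ∪ W)) ∧
        g.symm u ∉ span D (insert w (g.symm '' U ∪ W)) := fun w => by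
      obtain ⟨u, h⟩ := fresh (D := D) _ (hu _ (g '' _) (hi w _ (hu _ _ hU hW))
        (mk_image_le.trans_lt (hi w _ (hu _ _ hU' hW))))
      refine ⟨u, m1 subset_union_left h, fun h' => m1 subset_union_right h ?_⟩
      simpa using apply_mem_span_image_of_mem_span g.toLinearMap h'
    have s1 : ∀ (v : V) (S T : Set V), S ⊆ insert v (S ∪ T) := fun v S T x hx => Or.inr (Or.inl hx)
    have s2 : ∀ (v : V) (S T : Set V), T ⊆ insert v (S ∪ T) := fun v S T x hx => Or.inr (Or.inr hx)
    by_cases c0 : (τ j).2 = 0 ∧ e (τ j).1 ∉ span D U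
    · obtain ⟨w, h1, h2⟩ := fw (e (τ j).1)
      exact ⟨(_, w), c0.2, m1 (s2 _ _ _) h1, Or.inl h1, Or.inl h2,
        fun _ => subset_span (mem_insert _ _), by simp [c0.1], by simp [c0.1]⟩
    by_cases c1 : (τ j).2 = 1 ∧ e (τ j).1 ∉ span D W
    · obtain ⟨u, h1, h2⟩ := bw (e (τ j).1)
      exact ⟨(u, _), m1 (s1 _ _ _) h1, c1.2, Or.inr h1, Or.inr h2, by simp [c1.1],
        fun _ => subset_span (mem_insert _ _), by simp [c1.1]⟩
    obtain ⟨u, h1, h2⟩ := bw 0
    obtain ⟨w, h3, h4⟩ := fw u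
    push Not at c0 c1
    exact ⟨(u, w), m1 (s1 _ _ _) h1, m1 (s2 _ _ _) h3, Or.inl h3, Or.inl h4,
      fun h => span_mono (subset_insert _ _) (c0 h), fun h => span_mono (subset_insert _ _) (c1 h),
      fun _ => ⟨⟨m1 (subset_insert _ _) h1, h3⟩, m1 (subset_insert _ _) h2, h4⟩⟩)
  simp only [image_image] at hf
  let u : J → V := fun j => (f j).1
  let w : J → V := fun j => (f j).2
  have sp : ∀ (z : J → V) (t : Fin 3), (∀ j, (τ j).2 = t →
      e (τ j).1 ∈ span D (insert (z j) (z '' Iio j))) → ⊤ ≤ span D (range z) := by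
    intro z t h
    rw [← e.span_eq, span_le]
    rintro _ ⟨i, rfl⟩
    have := h (τ.symm (i, t)) (by simp)
    rw [τ.apply_symm_apply] at this
    exact span_mono (insert_subset (mem_range_self _) (image_subset_range _ _)) this
  have su := sp u 0 fun j => (hf j).2.2.2.2.1
  have sw := sp w 1 fun j => (hf j).2.2.2.2.2.1
  let bu := Module.Basis.mk (linearIndepOn_univ_iff.1 (indep u univ fun j _ => (hf j).1)) su
  let bw := Module.Basis.mk (linearIndepOn_univ_iff.1 (indep w univ fun j _ => (hf j).2.1)) sw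
  let a := bu.equiv bw (Equiv.refl J)
  have ha : ∀ j, a (u j) = w j := fun j => by
    simpa [bu, bw] using bu.equiv_apply j bw (Equiv.refl J)
  obtain ⟨x, hx⟩ := free u w a ha su fun j => (hf j).2.2.1
  obtain ⟨y, hy⟩ := free (fun j => g.symm (u j)) w (g.trans a) (fun j => by simp [ha])
    (fun v _ => by
      have := apply_mem_span_image_of_mem_span g.symm.toLinearMap (su (mem_top (x := g v)))
      rw [← range_comp] at this
      simpa [Function.comp_def] using this) fun j => (hf j).2.2.2.1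
  have cd : ∀ P : J → Prop, (∀ j, (τ j).2 = 2 → P j) → #{j // P j} = κ := fun P h =>
    le_antisymm (hJ ▸ mk_subtype_le _) (hι ▸ mk_le_of_injective
      (f := fun i : ι => (⟨τ.symm (i, 2), h _ (by simp)⟩ : {j // P j})) fun i i' h => by
        simpa using h)
  obtain ⟨σ⟩ : Nonempty ({j // G D u w j} ≃ {j // G D (fun j => g.symm (u j)) w j}) :=
    Cardinal.eq.1 ((cd _ fun j h => ((hf j).2.2.2.2.2.2 h).1).trans
      (cd _ fun j h => ((hf j).2.2.2.2.2.2 h).2).symm)
  let b := x.equiv y (σ.prodCongr (Equiv.refl ℤ))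
  have hb : ∀ j n, b (x (j, n)) = y (σ j, n) := fun j n => x.equiv_apply _ _ _
  have : b.toLinearMap ∘ₗ a.toLinearMap = (g.trans a).toLinearMap ∘ₗ b.toLinearMap :=
    x.ext fun ⟨j, n⟩ => by
      show b (a (x (j, n))) = (g.trans a) (b (x (j, n)))
      rw [hx, hb, hb, hy]
  exact ⟨a, b, fun v => LinearMap.congr_fun this v⟩

end Pool.Agent.H15.GLc
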