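import Pool.Agent.H15.Kne

set_option autoImplicit false

namespace Pool.Agent.H15.Kne

open Set Pointwise

variable {G : Type*} [AddCommGroup G] [Finite G]

/-- Numerical form of Kneser's theorem. -/
lemma num (A B : Set G) (hA : A.Nonempty) (hB : B.Nonempty) : ∃ h d k l : ℕ, 0 < h ∧
    Nat.card G = h * d ∧ A.ncard ≤ h * k ∧ B.ncard ≤ h * l ∧ h * k + h * l ≤ (A + B).ncard + h ∧
    (A + st (A + B)).ncard = h * k ∧ (B + st (A + B)).ncard = h * l := by
  obtain ⟨k, hk⟩ := dvd A (st (A + B))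
  obtain ⟨l, hl⟩ := dvd B (st (A + B))
  obtain ⟨d, hd⟩ := (st (A + B)).card_addSubgroup_dvd_card
  exact ⟨_, d, k, l, (ncard_pos (toFinite _)).2 ⟨0, zero_mem _⟩, hd,
    hk ▸ ncard_le_ncard (sub_add _ _), hl ▸ ncard_le_ncard (sub_add _ _),
    hk ▸ hl ▸ kneser A B hA hB, hk, hl⟩

lemma pf {m : ℕ} (hm : 2 < m) (h : ∀ a b, a * b % m = m - 1 → a % m = m - 1 ∨ b % m = m - 1)
    (d : ℕ) (hd : d % m = m - 1) : ∃ p, p.Prime ∧ p ∣ d ∧ p % m = m - 1 := by
  induction d using Nat.recOnMul with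
  | zero => simp at hd; omega
  | one => rw [Nat.mod_eq_of_lt (by omega)] at hd; omega
  | prime p hp => exact ⟨p, hp, dvd_rfl, hd⟩
  | mul a b x y =>
    rcases h a b hd with k | k
    exacts [let ⟨p, q, r, s⟩ := x k; ⟨p, q, r.mul_right _, s⟩,
      let ⟨p, q, r, s⟩ := y k; ⟨p, q, r.mul_left _, s⟩]

lemma pf4 (d : ℕ) (hd : d % 4 = 3) : ∃ p, p.Prime ∧ p ∣ d ∧ p % 4 = 3 :=
  pf (m := 4) (by norm_num) (fun a b => by
    rw [Nat.mul_mod]
    have := Nat.mod_lt a (show 0 < 4 by norm_num)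
    have := Nat.mod_lt b (show 0 < 4 by norm_num)
    generalize a % 4 = x at *
    generalize b % 4 = y at *
    interval_cases x <;> interval_cases y <;> simp) d hd

lemma pf3 (d : ℕ) (hd : d % 3 = 2) : ∃ p, p.Prime ∧ p ∣ d ∧ p % 3 = 2 :=
  pf (m := 3) (by norm_num) (fun a b => by
    rw [Nat.mul_mod]
    have := Nat.mod_lt a (show 0 < 3 by norm_num)
    have := Nat.mod_lt b (show 0 < 3 by norm_num)
    generalize a % 3 = x at *
    generalize b % 3 = y at *
    interval_cases x <;> interval_cases y <;> simp) d hd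

omit [Finite G] in
lemma pre {Q : Type*} [AddCommGroup Q] (φ : G →+ Q) (h : Function.Surjective φ) (S : Set Q) :
    (φ ⁻¹' S).ncard = S.ncard * Nat.card φ.ker ∧ Nat.card G = Nat.card Q * Nat.card φ.ker := by
  obtain ⟨σ, hσ⟩ := h.hasRightInverse
  have k : ∀ S : Set Q, Nat.card (φ ⁻¹' S) = Nat.card S * Nat.card φ.ker := fun S => by
    rw [← Nat.card_prod]
    exact Nat.card_congr ⟨fun x => (⟨φ x, x.2⟩, ⟨x - σ (φ x), by simp [hσ _]⟩),
      fun y => ⟨y.2 + σ y.1, by simpa [hσ _, show φ y.2 = 0 from y.2.2] using y.1.2⟩,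
      fun x => by simp, fun y => by simp [hσ _, show φ y.2 = 0 from y.2.2]⟩
  exact ⟨k S, by simpa using k univ⟩

lemma surj {q j : ℕ} (hq : q.Prime) (h : q ^ j ∣ AddMonoid.exponent G) (hj : j ≠ 0) :
    ∃ φ : G →+ ZMod (q ^ j), Function.Surjective φ := by
  classical
  obtain ⟨ι, _, n, hn, ⟨e⟩⟩ := AddCommGroup.equiv_directSum_zmod_of_finite' G
  have k : ∀ s : Finset ι, q ^ j ∣ s.lcm n → ∃ i, q ^ j ∣ n i := fun s => by
    induction s using Finset.induction with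
    | empty => intro k; simp [hj, hq.ne_one] at k
    | insert i s _ ih =>
      have a : n i ≠ 0 := by have := hn i; omega
      have b : s.lcm n ≠ 0 := by
        rw [Ne, Finset.lcm_eq_zero_iff]; rintro ⟨i, -, k⟩; have := hn i; omega
      rw [Finset.lcm_insert, lcm_eq_nat_lcm, hq.pow_dvd_iff_le_factorization (Nat.lcm_ne_zero a b),
        Nat.factorization_lcm a b, Finsupp.sup_apply, le_sup_iff,
        ← hq.pow_dvd_iff_le_factorization a, ← hq.pow_dvd_iff_le_factorization b]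
      exact fun k => k.elim (fun k => ⟨i, k⟩) ih
  obtain ⟨i, hi⟩ := k Finset.univ (h.trans (AddMonoid.exponent_dvd_of_forall_nsmul_eq_zero fun g =>
    e.injective (by
      ext i
      rw [map_nsmul, map_zero, DirectSum.smul_apply, nsmul_eq_mul,
        (ZMod.natCast_eq_zero_iff _ _).2 (Finset.dvd_lcm (Finset.mem_univ i)), zero_mul]
      rfl)))
  refine ⟨((ZMod.castHom hi _).toAddMonoidHom.comp
    (DirectSum.component ℤ ι _ i).toAddMonoidHom).comp e.toAddMonoidHom, ?_⟩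
  exact ((ZMod.castHom_surjective hi).comp fun x => ⟨DirectSum.lof ℤ ι _ i x, by simp⟩).comp
    e.surjective

lemma surjp {p : ℕ} (hp : p.Prime) (h : p ∣ Nat.card G) :
    ∃ φ : G →+ ZMod p, Function.Surjective φ := by
  have := Fact.mk hp
  obtain ⟨g, hg⟩ := exists_prime_addOrderOf_dvd_card' p h
  have := surj (G := G) (j := 1) hp (by rw [pow_one, ← hg]; exact AddMonoid.addOrder_dvd_exponent g)
    one_ne_zero
  rwa [pow_one] at this

lemma ival {d : ℕ} [NeZero d] {a b : ℕ} (h : b ≤ d) :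
    {x : ZMod d | a ≤ x.val ∧ x.val < b}.ncard = b - a := by
  rw [← ncard_image_of_injective _ (ZMod.val_injective d), ← Nat.card_Ico, ← ncard_coe_finset]
  congr 1
  ext y
  simp only [mem_image, mem_setOf, Finset.coe_Ico, mem_Ico]
  exact ⟨by rintro ⟨x, h, rfl⟩; exact h, fun k =>
    ⟨y, by rwa [ZMod.val_cast_of_lt (by omega)], ZMod.val_cast_of_lt (by omega)⟩⟩

/-- `[0,2]`-sum-free sets. -/
def SF (A : Set G) : Prop := 0 ∉ A ∧ ∀ a ∈ A, ∀ b ∈ A, a + b ≠ 0 ∧ a + b ∉ A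

lemma up4 {A : Set G} (h : SF A) : 4 * A.ncard ≤ Nat.card G ∨
    ∃ q, q.Prime ∧ q ∣ Nat.card G ∧ q % 4 = 3 ∧ 4 * q * A.ncard ≤ (q + 1) * Nat.card G := by
  rcases A.eq_empty_or_nonempty with rfl | ne
  · simp
  obtain ⟨c, d, k, l, c0, e, a1, -, a2, a3, a4⟩ := num A (-A) ne ne.neg
  have : (-A + st (A + -A)).ncard = (A + st (A + -A)).ncard := by
    rw [← ncard_neg, neg_add, neg_neg, neg_coe_set]
  have d1 : Disjoint A (-A) := disjoint_left.2 fun x a b => (h.2 x a _ b).1 (by simp)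
  have d2 : Disjoint (A ∪ -A) (A + -A) := disjoint_left.2 (by
    rintro _ (m | m) ⟨x, a, y, b, rfl⟩
    · exact (h.2 _ m _ b).2 (by simpa)
    · exact (h.2 _ m _ a).2 (by simpa))
  have u := ncard_le_ncard (subset_univ (A ∪ -A ∪ (A + -A)))
  rw [ncard_union_eq d2, ncard_union_eq d1, ncard_neg, ncard_univ] at u
  refine or_iff_not_imp_left.2 fun n => ?_
  have f1 : d < 4 * k := lt_of_mul_lt_mul_left (a := c) (by nlinarith) c0.le
  have f2 : 4 * k < d + 2 := lt_of_mul_lt_mul_left (a := c) (by nlinarith) c0.le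
  obtain ⟨q, q1, q2, q3⟩ := pf4 d (by omega)
  have := Nat.mul_le_mul_left c (Nat.le_of_dvd (by omega) q2)
  exact ⟨q, q1, e ▸ q2.mul_left _, q3, by nlinarith⟩

omit [Finite G] in
lemma low4 {d k : ℕ} [NeZero d] (φ : G →+ ZMod d) (h : Function.Surjective φ) (hk : 4 * k ≤ d + 1) :
    ∃ A : Set G, SF A ∧ d * A.ncard = k * Nat.card G := by
  obtain ⟨p1, p2⟩ := pre φ h {x | k ≤ x.val ∧ x.val < 2 * k}
  refine ⟨_, ⟨fun n => ?_, fun a ha b hb => ?_⟩, by
    rw [p1, p2, ival (by omega), Nat.card_zmod, show 2 * k - k = k by omega]; ring⟩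
  · simp at n; omega
  · have e : (φ (a + b)).val = (φ a).val + (φ b).val := by
      rw [map_add, ZMod.val_add_of_lt (by have := ha.2; have := hb.2; omega)]
    have := ha.1; have := hb.1; have := ha.2
    refine ⟨fun n => ?_, fun n => ?_⟩
    · rw [n, map_zero, ZMod.val_zero] at e; omega
    · have := n.2; omega

lemma low2 (h : Nat.card G % 4 = 2) : ∃ A : Set G, SF A ∧ Nat.card G ≤ 4 * A.ncard + 2 := by
  obtain ⟨φ, hφ⟩ := surjp (G := G) Nat.prime_two (by omega)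
  obtain ⟨p1, p2⟩ := pre φ hφ {1}
  rw [ncard_singleton] at p1
  rw [Nat.card_zmod] at p2
  obtain ⟨f, hf⟩ := exists_injective_nat G
  let A := {x | φ x = 1 ∧ f x < f (-x)}
  have F : {x | φ x = 1 ∧ x = -x}.ncard ≤ 1 := (ncard_le_one (toFinite _)).2 fun x a y b =>
    by_contra fun n => by
      have := φ.ker.addOrderOf_dvd_natCard (x := x - y) (by simp [a.1, b.1])
      rw [addOrderOf_eq_prime (p := 2) (by
        rw [two_nsmul, sub_add_sub_comm, add_eq_zero_iff_eq_neg.2 a.2, add_eq_zero_iff_eq_neg.2 b.2,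
          sub_self]) (sub_ne_zero.2 n)] at this
      omega
  have u := ncard_le_ncard (s := φ ⁻¹' {1}) (t := A ∪ -A ∪ {x | φ x = 1 ∧ x = -x}) fun x hx => by
    rcases lt_trichotomy (f x) (f (-x)) with k | k | k
    · exact .inl (.inl ⟨hx, k⟩)
    · exact .inr ⟨hx, hf k⟩
    · exact .inl (.inr ⟨by rw [map_neg, show φ x = 1 from hx]; decide, by simpa⟩)
  have v := ncard_union_le (A ∪ -A) {x | φ x = 1 ∧ x = -x}
  have w := ncard_union_le A (-A)
  rw [ncard_neg] at w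
  refine ⟨A, ⟨fun n => by simpa using n.1, fun a ha b hb => ⟨fun n => ?_, fun n => ?_⟩⟩, by omega⟩
  · obtain rfl := eq_neg_of_add_eq_zero_right n
    exact lt_asymm ha.2 (by simpa using hb.2)
  · exact absurd n.1 (by rw [map_add, ha.1, hb.1]; decide)

/-- The maximal size of a `[0,2]`-sum-free set. -/
theorem mu4 (G : Type*) [AddCommGroup G] [Finite G] (m : ℕ)
    (hm : m = sSup {k | ∃ A : Set G, SF A ∧ A.ncard = k}) :
    (∀ p, IsLeast {p | p.Prime ∧ p ∣ Nat.card G ∧ p % 4 = 3} p →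
      (m : ℚ) = (1 + 1 / p) * Nat.card G / 4) ∧
    ((∀ p, p.Prime → p ∣ Nat.card G → p % 4 ≠ 3) → m ≤ Nat.card G / 4 ∧
      ∀ A : Set G, SF A → Nat.card G ≤ 4 * A.ncard + 3 → m = Nat.card G / 4) := by
  have b : BddAbove {k | ∃ A : Set G, SF A ∧ A.ncard = k} :=
    ⟨Nat.card G, by rintro _ ⟨A, -, rfl⟩; exact ncard_le_card A⟩
  obtain ⟨A, hA, e⟩ := Nat.sSup_mem (s := {k | ∃ A : Set G, SF A ∧ A.ncard = k})
    ⟨0, ∅, ⟨by simp, by simp⟩, by simp⟩ b
  have l : ∀ B : Set G, SF B → B.ncard ≤ m := fun B h => hm ▸ le_csSup b ⟨B, h, rfl⟩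
  rw [← hm] at e
  have u := up4 hA
  rw [e] at u
  refine ⟨fun p ⟨⟨p1, p2, p3⟩, p4⟩ => ?_, fun h => ?_⟩
  · obtain ⟨φ, hφ⟩ := surjp p1 p2
    have := NeZero.mk p1.ne_zero
    obtain ⟨B, b1, b2⟩ := low4 φ hφ (k := (p + 1) / 4) (by omega)
    have b3 := l B b1
    have b4 : 4 * ((p + 1) / 4) = p + 1 := by omega
    have : 4 * p * m = (p + 1) * Nat.card G := le_antisymm (by
      rcases u with u | ⟨q, q1, q2, q3, u⟩
      · nlinarith
      · obtain ⟨r, rfl⟩ := Nat.exists_eq_add_of_le (p4 ⟨q1, q2, q3⟩)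
        refine le_of_mul_le_mul_left ?_ q1.pos
        nlinarith [Nat.zero_le (r * Nat.card G)]) (by rw [← b4]; nlinarith)
    have p0 : (p : ℚ) ≠ 0 := by exact_mod_cast p1.ne_zero
    field_simp
    exact_mod_cast (by linarith : m * p * 4 = (p + 1) * Nat.card G)
  · have u := u.resolve_right fun ⟨q, q1, q2, q3, _⟩ => h q q1 q2 q3
    exact ⟨by omega, fun B b1 b2 => by have := l B b1; omega⟩

end Pool.Agent.H15.Kne
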