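import Mathlib

set_option autoImplicit false

namespace Pool.Agent.H15.Lev

open Set Cardinal

universe u

variable {G : Type u} [Group G]

lemma clo (h : ℵ₀ < #G) {S : Set G} (hS : #S < #G) : #(Subgroup.closure S) < #G := by
  have : (Subgroup.closure S : Set G) ⊆
      range (FreeGroup.lift (Subtype.val : ↥(insert 1 S) → G)) := fun g n => by
    have := Subgroup.closure_mono (subset_insert 1 S) n
    rwa [← Subtype.range_coe (s := insert 1 S), ← FreeGroup.range_lift_eq_closure] at this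
  refine ((mk_le_mk_of_subset this).trans mk_range_le).trans_lt ?_
  rw [mk_freeGroup]
  exact max_lt (mk_insert_le.trans_lt (add_lt_of_lt h.le hS (one_lt_aleph0.trans h))) h

lemma rec' (h : ℵ₀ < #G) (c : (#G).ord.ToType → Set G) (hc : ∀ t, #(c t) < #G) :
    ∃ x : (#G).ord.ToType → G, ∀ t, x t ∉ Subgroup.closure (c t ∪ x '' Iio t) := by
  have ex : ∀ S : Set G, #S < #G → ∃ g, g ∉ Subgroup.closure S := fun S hS => by
    by_contra! n
    exact (clo h hS).ne (mk_congr (Equiv.subtypeUnivEquiv n))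
  choose! s hs using ex
  let x : (#G).ord.ToType → G := WellFoundedLT.fix fun t p => s (c t ∪ range fun r : Iio t => p r r.2)
  refine ⟨x, fun t => ?_⟩
  rw [show x t = s (c t ∪ x '' Iio t) by rw [image_eq_range]; exact WellFoundedLT.fix_eq _ t]
  exact hs _ ((mk_union_le _ _).trans_lt (add_lt_of_lt h.le (hc t)
    (mk_image_le.trans_lt (mk_Iio_toType_ord_lt t))))

lemma iic (h : ℵ₀ < #G) (t : (#G).ord.ToType) : #(Iic t) < #G := by
  rw [← Iio_insert]
  exact mk_insert_le.trans_lt (add_lt_of_lt h.le (mk_Iio_toType_ord_lt t) (one_lt_aleph0.trans h))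

/-- A surjective ultrametric level function with small sublevel sets. -/
lemma exists_lev (h : ℵ₀ < #G) : ∃ l : G → (#G).ord.ToType, Function.Surjective l ∧
    (∀ g, l 1 ≤ l g) ∧ (∀ g, l g⁻¹ = l g) ∧ (∀ g k, l (g * k) ≤ max (l g) (l k)) ∧
    ∀ t, #{g | l g ≤ t} < #G := by
  obtain ⟨e⟩ : Nonempty ((#G).ord.ToType ≃ G) := Cardinal.eq.1 (by simp)
  obtain ⟨x, hx⟩ := rec' h (fun t => e '' Iio t) fun t =>
    mk_image_le.trans_lt (mk_Iio_toType_ord_lt t)
  let H := fun t => Subgroup.closure (e '' Iic t ∪ x '' Iic t)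
  have m : Monotone H := fun s t k => Subgroup.closure_mono
    (union_subset_union (image_mono (Iic_subset_Iic.2 k)) (image_mono (Iic_subset_Iic.2 k)))
  have ne : ∀ g, {t | g ∈ H t}.Nonempty := fun g =>
    ⟨e.symm g, Subgroup.subset_closure (.inl ⟨e.symm g, self_mem_Iic, by simp⟩)⟩
  let l := fun g => wellFounded_lt.min _ (ne g)
  have hl : ∀ g t, l g ≤ t ↔ g ∈ H t := fun g t =>
    ⟨fun k => m k (wellFounded_lt.min_mem _ (ne g)), fun k => wellFounded_lt.min_le (s := {t | g ∈ H t}) k⟩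
  refine ⟨l, fun t => ⟨x t, le_antisymm ((hl _ _).2 (Subgroup.subset_closure (.inr ⟨t, self_mem_Iic, rfl⟩)))
    (not_lt.1 fun k => hx t (Subgroup.closure_mono (union_subset_union (image_mono
      (Iic_subset_Iio.2 k)) (image_mono (Iic_subset_Iio.2 k))) ((hl _ _).1 le_rfl)))⟩,
    fun g => (hl _ _).2 (one_mem _), fun g => eq_of_forall_ge_iff fun t => by simp [hl],
    fun g k => (hl _ _).2 (mul_mem ((hl _ _).1 (le_max_left _ _)) ((hl _ _).1 (le_max_right _ _))),
    fun t => ?_⟩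
  simp only [hl]
  exact clo h ((mk_union_le _ _).trans_lt (add_lt_of_lt h.le (mk_image_le.trans_lt (iic h t))
    (mk_image_le.trans_lt (iic h t))))

section
variable {K : Type u} [LinearOrder K] {l : G → K} (h1 : ∀ g, l 1 ≤ l g) (hi : ∀ g, l g⁻¹ = l g)
  (hm : ∀ g k, l (g * k) ≤ max (l g) (l k))
include hi hm

lemma lmul {g k : G} (h : l k < l g) : l (g * k) = l g := by
  refine ((hm g k).trans (max_le le_rfl h.le)).antisymm ?_
  have := hm (g * k) k⁻¹
  rw [mul_inv_cancel_right, hi] at this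
  exact (le_max_iff.1 this).resolve_right h.not_ge

lemma lmul' {g k : G} (h : l g < l k) : l (g * k) = l k := by
  rw [← hi, mul_inv_rev, lmul hi hm (by rwa [hi, hi]), hi]

include h1 in
/-- The remainder map of the left coset normal form and the length of the normal form. -/
lemma exists_len [WellFoundedLT K] : ∃ (r : G → G) (s : G → ℕ),
    (∀ g k, l k < l g → l (r g) < l g) ∧
    ∀ g k, l k < l g → s (g * k) = s (r g * k) + 1 := by
  classical
  let H : K → Subgroup G := fun t =>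
    { carrier := {g | l g < t ∨ g = 1}
      one_mem' := .inr rfl
      inv_mem' := fun {g} h => h.imp (fun k => by rwa [hi]) fun k => by simp [k]
      mul_mem' := by
        rintro a b (ha | rfl) (hb | rfl)
        exacts [.inl ((hm a b).trans_lt (max_lt ha hb)), .inl (by simpa using ha),
          .inl (by simpa using hb), .inr (mul_one 1)] }
  let r : G → G := fun g => (g : G ⧸ H (l g)).out⁻¹ * g
  have a : ∀ g k, l k < l g → l (r g) < l g := fun g k h =>
    (QuotientGroup.eq.1 (QuotientGroup.out_eq' (g : G ⧸ H (l g)))).elim id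
      fun e => (show r g = 1 from e) ▸ (h1 k).trans_lt h
  let s : G → ℕ := (InvImage.wf l wellFounded_lt).fix fun g p =>
    if h : l (r g) < l g then p (r g) h + 1 else 0
  refine ⟨r, s, a, fun g k h => ?_⟩
  have e : r (g * k) = r g * k := by
    simp only [r]
    rw [lmul hi hm h, QuotientGroup.mk_mul_of_mem g (show k ∈ H (l g) from .inl h), mul_assoc]
  rw [show s (g * k) = _ from WellFounded.fix_eq _ _ _, dif_pos (a _ k (by rwa [lmul hi hm h]))]
  exact congrArg (s · + 1) e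
end

/-- Left smallness of all colour classes, in a convenient form. -/
def LS (f : G → ℕ) : Prop :=
  ∀ n, ∀ F : Set G, #F < #G → ∃ T : Set G, #T < #G ∧ ∀ x, ∃ t ∈ T, ∀ a ∈ F, f (a * (t * x)) ≠ n

lemma ctble [Infinite G] (h : #G = ℵ₀) : ∃ f : G → ℕ, LS f := by
  have := mk_le_aleph0_iff.1 h.le
  obtain ⟨f, hf⟩ := exists_injective_nat G
  refine ⟨f, fun n F hF => ?_⟩
  rw [h] at hF ⊢
  obtain ⟨T, hT⟩ := le_mk_iff_exists_set.1 (show #F + 1 ≤ #G from
    h ▸ (add_lt_aleph0 hF one_lt_aleph0).le)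
  refine ⟨T, hT ▸ add_lt_aleph0 hF one_lt_aleph0, fun x => ?_⟩
  by_contra! k
  choose a ha k using fun t : T => k t t.2
  have := mk_le_of_injective (f := fun t => (⟨a t, ha t⟩ : F)) fun s t e => Subtype.ext (by
    simpa [show a s = a t from Subtype.ext_iff.1 e] using hf ((k s).trans (k t).symm))
  obtain ⟨m, hm⟩ := lt_aleph0.1 hF
  rw [hT, hm] at this
  norm_cast at this
  omega

lemma reg (h : ℵ₀ < #G) (hr : (#G).IsRegular) : ∃ f : G → ℕ, LS f := by
  obtain ⟨l, su, h1, hi, hm, sm⟩ := exists_lev h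
  obtain ⟨r, s, hr1, hs⟩ := exists_len h1 hi hm
  have := Cardinal.noMaxOrder h.le
  refine ⟨fun g => s g⁻¹, fun n F hF => ?_⟩
  obtain ⟨d, hd⟩ := not_isCofinal_iff.1 fun k : IsCofinal (l '' F) => hF.not_ge (by
    simpa [hr.cof_ord] using (Order.cof_le k).trans mk_image_le)
  have ex : ∀ m, ∃ g, ∀ a ∈ F, m ≤ s (g * a⁻¹) := fun m => by
    induction m with
    | zero => exact ⟨1, fun _ _ => Nat.zero_le _⟩
    | succ m ih =>
      obtain ⟨g, hg⟩ := ih
      obtain ⟨t, ht⟩ := exists_gt (max d (l g))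
      obtain ⟨y, rfl⟩ := su t
      rw [max_lt_iff] at ht
      refine ⟨y * ((r y)⁻¹ * g), fun a ha => ?_⟩
      rw [mul_assoc, hs, mul_assoc, mul_inv_cancel_left]
      · exact Nat.succ_le_succ (hg a ha)
      · refine (hm _ _).trans_lt (max_lt ((hm _ _).trans_lt (max_lt ?_ ht.2)) ?_) <;> rw [hi]
        exacts [hr1 _ _ ht.2, (hd _ ⟨a, ha, rfl⟩).trans ht.1]
  obtain ⟨g, hg⟩ := ex (n + 1)
  refine ⟨_, sm (max d (l g)), fun x => ?_⟩
  have : ∀ x, ∃ t, l t ≤ max d (l g) ∧ ∀ a ∈ F, n + 1 ≤ s (x * (t * a⁻¹)) := fun x => by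
    induction x using (InvImage.wf l wellFounded_lt).induction with | _ x ih
    rcases le_or_gt (l x) (max d (l g)) with k | k
    · exact ⟨x⁻¹ * g, (hm _ _).trans (max_le (by rwa [hi]) (le_max_right _ _)),
        fun a ha => by simpa [mul_assoc] using hg a ha⟩
    · obtain ⟨t, ht, e⟩ := ih (r x) (hr1 x g ((le_max_right _ _).trans_lt k))
      refine ⟨t, ht, fun a ha => ?_⟩
      rw [hs _ _ ((hm _ _).trans_lt (max_lt (ht.trans_lt k) (by
        rw [hi]; exact (hd _ ⟨a, ha, rfl⟩).trans ((le_max_left _ _).trans_lt k))))]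
      exact Nat.le_succ_of_le (e a ha)
  obtain ⟨t, ht, e⟩ := this x⁻¹
  exact ⟨t⁻¹, (hi t).trans_le ht, fun a ha => Nat.ne_of_gt (by simpa [mul_assoc] using e a ha)⟩

lemma bigI {c ν : Cardinal.{u}} (h : ν < c) : ∃ d : c.ord.ToType, #(Iio d) = ν :=
  ⟨Ordinal.enum (α := c.ord.ToType) (· < ·) ⟨ν.ord, by rw [Ordinal.type_toType]; exact ord_lt_ord.2 h⟩,
    (Ordinal.card_typein (α := c.ord.ToType) (r := (· < ·)) _).symm.trans (by rw [Ordinal.typein_enum, card_ord])⟩

lemma sing (h : ℵ₀ < #G) (sg : (#G).IsSingular) : ∃ f : G → ℕ, LS f := by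
  obtain ⟨l, su, h1, hi, hm, sm⟩ := exists_lev h
  obtain ⟨r, s, hr1, hs⟩ := exists_len h1 hi hm
  have := Cardinal.noMaxOrder h.le
  refine ⟨s, fun n F hF => ?_⟩
  obtain ⟨μ, m0, m1, m2⟩ : ∃ μ, ℵ₀ ≤ μ ∧ μ < #G ∧ #F ≤ μ :=
    ⟨max ℵ₀ #F, le_max_left _ _, max_lt h hF, le_max_right _ _⟩
  have lim := sg.isSuccLimit.succ_lt m1
  have n0 := m0.trans (Order.le_succ μ)
  have big : ∀ c : (#G).ord.ToType, ∃ d, ∃ U ⊆ Ioo c d, #U = Order.succ μ := fun c => by
    have k := sg.isSuccLimit.succ_lt (max_lt lim (iic h c))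
    obtain ⟨d, e⟩ := bigI k
    refine ⟨d, le_mk_iff_exists_subset.1 (not_lt.1 fun n => ?_)⟩
    refine (Order.lt_succ _).not_ge (e.symm.trans_le ((mk_le_mk_of_subset (t := Iic c ∪ Ioo c _)
      fun a ha => (le_or_gt a c).imp id fun b => ⟨b, ha⟩).trans ((mk_union_le _ _).trans ?_)))
    exact add_le_of_le (n0.trans (le_max_left _ _)) (le_max_right _ _) (n.le.trans (le_max_left _ _))
  have Q : ∀ b m, ∃ c, b ≤ c ∧ ∃ T : Set G, #T ≤ Order.succ μ ∧ (∀ t ∈ T, l t ≤ c) ∧
      ∀ F : Set G, #F ≤ μ → ∀ x, l x ≤ b → ∃ t ∈ T, ∀ a ∈ F, m ≤ s (a * (t * x)) := fun b m => by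
    induction m with
    | zero => exact ⟨max b (l 1), le_max_left _ _, {1}, by simpa using one_le_aleph0.trans n0,
        by simp, fun _ _ _ _ => ⟨1, rfl, fun _ _ => Nat.zero_le _⟩⟩
    | succ m ih =>
      obtain ⟨c, bc, T, hT, lT, H⟩ := ih
      obtain ⟨d, U, hU, cU⟩ := big c
      choose y hy using su
      have cd : c < d := let ⟨u⟩ := mk_ne_zero_iff.1 (cU ▸ (aleph0_pos.trans_le n0).ne')
        (hU u.2).1.trans (hU u.2).2
      refine ⟨d, bc.trans cd.le, image2 (fun u t => y u * t) U T, mk_image2_le.trans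
        ((mul_le_mul' cU.le hT).trans_eq (mul_eq_self n0)), ?_, fun F hF x hx => ?_⟩
      · rintro _ ⟨u, hu, t, ht, rfl⟩
        exact (hm _ _).trans (max_le ((hy u).trans_le (hU hu).2.le) ((lT t ht).trans cd.le))
      let F' := ⋃ j : ULift.{u} ℕ, r^[j.1] '' F
      have c1 : #F' ≤ μ := (mk_iUnion_le _).trans ((mul_le_mul' (by simpa using m0)
        (ciSup_le' fun _ => mk_image_le.trans hF)).trans_eq (mul_eq_self m0))
      obtain ⟨u, hu, nu⟩ := not_subset.1 fun k : U ⊆ l '' F' => (Order.lt_succ μ).not_ge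
        (cU ▸ (mk_le_mk_of_subset k).trans (mk_image_le.trans c1))
      obtain ⟨t, ht, e⟩ := H ((fun a => r (a * y u)) '' F') (mk_image_le.trans c1) x hx
      have lo : l (t * x) < u :=
        (hm _ _).trans_lt (max_lt ((lT t ht).trans_lt (hU hu).1) ((hx.trans bc).trans_lt (hU hu).1))
      have : ∀ a ∈ F', m + 1 ≤ s (a * (y u * (t * x))) := fun a => by
        induction a using (InvImage.wf l wellFounded_lt).induction with | _ a ih
        intro ha
        rcases lt_or_gt_of_ne (fun k => nu ⟨a, ha, k⟩) with k | k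
        · rw [← mul_assoc, hs _ _ (by rwa [lmul' (g := a) hi hm (by rwa [hy]), hy])]
          exact Nat.succ_le_succ (e _ ⟨a, ha, rfl⟩)
        · rw [hs _ _ (by rwa [lmul (g := y u) hi hm (by rwa [hy]), hy])]
          obtain ⟨j, a', ha', rfl⟩ := mem_iUnion.1 ha
          exact Nat.le_succ_of_le (ih _ (hr1 _ _ (lo.trans k)) (mem_iUnion.2
            ⟨⟨j.1 + 1⟩, a', ha', Function.iterate_succ_apply' _ _ _⟩))
      exact ⟨_, ⟨u, hu, t, ht, rfl⟩, fun a ha => by
        rw [mul_assoc]; exact this a (mem_iUnion.2 ⟨⟨0⟩, a, ha, rfl⟩)⟩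
  choose c _ T hT _ H using fun b => Q b (n + 1)
  obtain ⟨C, hC, cC⟩ := Order.exists_cof_eq (#G).ord.ToType
  refine ⟨⋃ b : C, T b, (mk_iUnion_le _).trans_lt (mul_lt_of_lt h.le
    (by simpa [cC] using sg.cof_ord_lt) ((ciSup_le' fun b : C => hT b).trans_lt lim)), fun x => ?_⟩
  obtain ⟨b, hb, k⟩ := hC (l x)
  obtain ⟨t, ht, e⟩ := H b F m2 x k
  exact ⟨t, mem_iUnion.2 ⟨⟨b, hb⟩, ht⟩, fun a ha => Nat.ne_of_gt (e a ha)⟩

theorem exists_LS (G : Type u) [Group G] [Infinite G] : ∃ f : G → ℕ, LS f :=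
  (aleph0_le_mk G).eq_or_lt.elim (fun h => ctble h.symm) fun h =>
    (isRegular_or_isSingular h.le).elim (reg h) (sing h)

end Pool.Agent.H15.Lev
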