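import Mathlib

set_option autoImplicit false

namespace Pool.Agent.H15.Loeb

open Filter Topology MeasureTheory ProbabilityTheory Set

noncomputable section

abbrev U : Filter ℕ := (hyperfilter ℕ : Ultrafilter ℕ)

def lm (f : ℕ → ℝ) : ℝ := limUnder U f

lemma tl {f : ℕ → ℝ} {a b : ℝ} (h : ∀ n, f n ∈ Icc a b) : Tendsto f U (𝓝 (lm f)) := by
  obtain ⟨x, -, hx⟩ := (isCompact_Icc (a := a) (b := b)).ultrafilter_le_nhds
    ((hyperfilter ℕ).map f) (le_principal_iff.2 (mem_map.2 (Eventually.of_forall h)))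
  exact tendsto_nhds_limUnder ⟨x, hx⟩

lemma lm_eq {f : ℕ → ℝ} {a : ℝ} (h : Tendsto f U (𝓝 a)) : lm f = a := h.limUnder_eq

lemma lm_mem {f : ℕ → ℝ} {a b : ℝ} (h : ∀ n, f n ∈ Icc a b) : lm f ∈ Icc a b :=
  isClosed_Icc.mem_of_tendsto (tl h) (Eventually.of_forall h)

variable {S : ℕ → Type}

def E (S : ℕ → Type) : Type := ∀ n, S n

def I (A : ∀ n, Set (S n)) : Set (E S) := {x | ∀ᶠ n in U, x n ∈ A n}

instance : MeasurableSpace (E S) := MeasurableSpace.generateFrom (range I)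

lemma I_meas (A : ∀ n, Set (S n)) : MeasurableSet (I A) :=
  MeasurableSpace.measurableSet_generateFrom ⟨A, rfl⟩

lemma I_empty : I (fun n => (∅ : Set (S n))) = ∅ := by
  simp [I, (Ultrafilter.neBot _).ne]
lemma I_univ : I (fun n => (univ : Set (S n))) = univ := by simp [I]
lemma I_union (A B : ∀ n, Set (S n)) : I (fun n => A n ∪ B n) = I A ∪ I B :=
  Set.ext fun _ => Ultrafilter.eventually_or
lemma I_inter (A B : ∀ n, Set (S n)) : I (fun n => A n ∩ B n) = I A ∩ I B :=
  Set.ext fun _ => eventually_and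
lemma I_diff (A B : ∀ n, Set (S n)) : I (fun n => A n \ B n) = I A \ I B :=
  Set.ext fun _ => eventually_and.trans (and_congr Iff.rfl Ultrafilter.eventually_not)

lemma ring : IsSetRing (range (I (S := S))) :=
  ⟨⟨_, I_empty⟩, by rintro _ _ ⟨A, rfl⟩ ⟨B, rfl⟩; exact ⟨_, I_union A B⟩,
    by rintro _ _ ⟨A, rfl⟩ ⟨B, rfl⟩; exact ⟨_, I_diff A B⟩⟩

lemma pis : IsPiSystem (range (I (S := S))) := by
  rintro _ ⟨A, rfl⟩ _ ⟨B, rfl⟩ _; exact ⟨_, I_inter A B⟩

variable [∀ n, Nonempty (S n)]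

lemma sel (A : ∀ n, Set (S n)) : ∃ x : E S, ∀ n, (A n).Nonempty → x n ∈ A n := by
  have : ∀ n, ∃ y : S n, (A n).Nonempty → y ∈ A n := fun n => by
    by_cases h : (A n).Nonempty
    · exact ⟨h.some, fun _ => h.some_mem⟩
    · exact ⟨Classical.arbitrary _, fun h' => absurd h' h⟩
  choose x hx using this
  exact ⟨x, hx⟩

lemma I_eq_empty {A : ∀ n, Set (S n)} (h : I A = ∅) : ∀ᶠ n in U, A n = ∅ := by
  by_contra h'
  obtain ⟨x, hx⟩ := sel A
  exact (h ▸ (Ultrafilter.eventually_not.2 h').mono fun n hn => hx n (nonempty_iff_ne_empty.2 hn) :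
    x ∈ (∅ : Set (E S)))

lemma I_inj {A B : ∀ n, Set (S n)} (h : I A = I B) : ∀ᶠ n in U, A n = B n := by
  filter_upwards [I_eq_empty (A := fun n => A n \ B n) (by rw [I_diff, h, diff_self]),
    I_eq_empty (A := fun n => B n \ A n) (by rw [I_diff, h, diff_self])] with n a b
  exact (diff_eq_empty.1 a).antisymm (diff_eq_empty.1 b)

lemma sat {s : ℕ → Set (E S)} (h : ∀ k, s k ∈ range I) (ha : Antitone s) (he : ⋂ k, s k = ∅) :
    ∃ k, s k = ∅ := by
  classical
  by_contra! hn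
  choose A hA using h
  let B : ℕ → ∀ n, Set (S n) := fun k n => ⋂ j ∈ Finset.range (k + 1), A j n
  obtain ⟨x, hx⟩ := sel fun n => B (Nat.findGreatest (fun k => (B k n).Nonempty) n) n
  refine (he ▸ mem_iInter.2 fun j => hA j ▸ ?_ : x ∈ (∅ : Set (E S)))
  obtain ⟨y, hy⟩ := hn j
  have a : ∀ᶠ n in U, ∀ i ∈ Finset.range (j + 1), y n ∈ A i n :=
    (eventually_all_finset _).2 fun i hi =>
      (hA i ▸ ha (Nat.lt_succ_iff.1 (Finset.mem_range.1 hi)) hy : y ∈ I (A i))
  filter_upwards [a, Nat.hyperfilter_le_atTop (eventually_ge_atTop j)] with n h1 h2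
  have b : (B j n).Nonempty := ⟨y n, mem_iInter₂.2 h1⟩
  exact mem_iInter₂.1 (hx n (Nat.findGreatest_spec (P := fun k => (B k n).Nonempty) h2 b)) j
    (Finset.mem_range.2 (Nat.lt_succ_of_le (Nat.le_findGreatest h2 b)))

variable [∀ n, Fintype (S n)]

def Pv {X : Type} [Fintype X] (μ : X → ℝ) : Prop := (∀ y, 0 ≤ μ y) ∧ ∑ y, μ y = 1

lemma Pv.mem {X : Type} [Fintype X] {μ f : X → ℝ} (h : Pv μ) {a b : ℝ} (hf : ∀ y, f y ∈ Icc a b) :
    ∑ y, μ y * f y ∈ Icc a b := by
  constructor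
  · calc a = ∑ y, μ y * a := by rw [← Finset.sum_mul, h.2, one_mul]
      _ ≤ _ := Finset.sum_le_sum fun y _ => mul_le_mul_of_nonneg_left (hf y).1 (h.1 y)
  · calc _ ≤ ∑ y, μ y * b := Finset.sum_le_sum fun y _ => mul_le_mul_of_nonneg_left (hf y).2 (h.1 y)
      _ = b := by rw [← Finset.sum_mul, h.2, one_mul]

def ms {X : Type} [Fintype X] (μ : X → ℝ) (A : Set X) : ℝ := ∑ y, μ y * A.indicator 1 y

lemma ind_mem {X : Type} (A : Set X) (y : X) : A.indicator (1 : X → ℝ) y ∈ Icc (0 : ℝ) 1 := by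
  by_cases h : y ∈ A <;> simp [h]

lemma ms_mem {X : Type} [Fintype X] {μ : X → ℝ} (h : Pv μ) (A : Set X) : ms μ A ∈ Icc (0 : ℝ) 1 :=
  h.mem (ind_mem A)

lemma ex_loeb (μ : ∀ n, S n → ℝ) : ∃ L : Measure (E S), IsProbabilityMeasure L ∧
    ((∀ n, Pv (μ n)) → ∀ A, L (I A) = ENNReal.ofReal (lm fun n => ms (μ n) (A n))) := by
  classical
  by_cases h : ∀ n, Pv (μ n)
  swap
  · exact ⟨Measure.dirac fun n => Classical.arbitrary _, inferInstance, fun h' => absurd h' h⟩
  let m : Set (E S) → ENNReal := fun s =>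
    ENNReal.ofReal (lm fun n => ms (μ n) (Function.invFun I s n))
  have hm : ∀ A, m (I A) = ENNReal.ofReal (lm fun n => ms (μ n) (A n)) := fun A => by
    refine congrArg ENNReal.ofReal (lm_eq ((tl fun n => ms_mem (h n) (A n)).congr' ?_))
    filter_upwards [I_inj (Function.invFun_eq (f := I) ⟨A, rfl⟩)] with n hn
    rw [hn]
  have m0 : m ∅ = 0 := by
    rw [← I_empty, hm, lm_eq (a := 0) (by simp [ms])]; simp
  let c := ring.addContent_of_union m m0 (by
    rintro _ _ ⟨A, rfl⟩ ⟨B, rfl⟩ hd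
    rw [← I_union, hm, hm, hm, ← ENNReal.ofReal_add (lm_mem fun n => ms_mem (h n) _).1
      (lm_mem fun n => ms_mem (h n) _).1]
    refine congrArg ENNReal.ofReal (lm_eq (((tl fun n => ms_mem (h n) (A n)).add
      (tl fun n => ms_mem (h n) (B n))).congr' ?_))
    filter_upwards [I_eq_empty ((I_inter A B).trans hd.inter_eq)] with n hn
    simp only [ms, indicator_union_of_disjoint (disjoint_iff_inter_eq_empty.2 hn), mul_add,
      Finset.sum_add_distrib])
  have hs : c.IsSigmaSubadditive := isSigmaSubadditive_of_addContent_iUnion_eq_tsum ring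
    fun f a b d => addContent_iUnion_eq_sum_of_tendsto_zero ring c
      (fun s _ => ENNReal.ofReal_ne_top) (fun s a b d => by
        obtain ⟨k, hk⟩ := sat a b d
        refine tendsto_const_nhds.congr' ?_
        filter_upwards [eventually_ge_atTop k] with n hn
        rw [show s n = ∅ from subset_empty_iff.1 (hk ▸ b hn)]
        exact m0.symm) a b d
  have e : ∀ A, c.measure ring.isSetSemiring le_rfl hs (I A) =
      ENNReal.ofReal (lm fun n => ms (μ n) (A n)) := fun A =>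
    (c.measure_eq ring.isSetSemiring rfl hs ⟨A, rfl⟩).trans (hm A)
  refine ⟨_, ⟨?_⟩, fun _ => e⟩
  rw [← I_univ, e, lm_eq (a := 1) (by simp [ms, (h _).2])]
  simp

def L (μ : ∀ n, S n → ℝ) : Measure (E S) := (ex_loeb μ).choose
instance (μ : ∀ n, S n → ℝ) : IsProbabilityMeasure (L μ) := (ex_loeb μ).choose_spec.1
lemma L_I {μ : ∀ n, S n → ℝ} (h : ∀ n, Pv (μ n)) (A : ∀ n, Set (S n)) :
    L μ (I A) = ENNReal.ofReal (lm fun n => ms (μ n) (A n)) := (ex_loeb μ).choose_spec.2 h A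
lemma L_real {μ : ∀ n, S n → ℝ} (h : ∀ n, Pv (μ n)) (A : ∀ n, Set (S n)) :
    (L μ).real (I A) = lm fun n => ms (μ n) (A n) := by
  rw [Measure.real, L_I h, ENNReal.toReal_ofReal (lm_mem fun n => ms_mem (h n) _).1]

def g (f : ∀ n, S n → ℝ) (x : E S) : ℝ := lm fun n => f n (x n)

omit [∀ n, Nonempty (S n)] [∀ n, Fintype (S n)] in
lemma g_meas {f : ∀ n, S n → ℝ} {a b : ℝ} (hf : ∀ n y, f n y ∈ Icc a b) : Measurable (g f) := by
  refine measurable_of_Ioi fun c => ?_
  have : g f ⁻¹' Ioi c = ⋃ q : ℚ, ⋃ _ : c < q, I fun n => {y | (q : ℝ) ≤ f n y} := by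
    ext x
    have t := tl fun n => hf n (x n)
    simp only [mem_preimage, mem_Ioi, mem_iUnion]
    refine ⟨fun h => ?_, fun ⟨q, h1, h2⟩ => h1.trans_le (ge_of_tendsto t h2)⟩
    obtain ⟨q, h1, h2⟩ := exists_rat_btwn h
    exact ⟨q, h1, t.eventually (le_mem_nhds h2)⟩
  rw [this]
  exact MeasurableSet.iUnion fun q => MeasurableSet.iUnion fun _ => I_meas _

omit [∀ n, Nonempty (S n)] [∀ n, Fintype (S n)] in
lemma t_ind (A : ∀ n, Set (S n)) (x : E S) :
    Tendsto (fun n => (A n).indicator (1 : S n → ℝ) (x n)) U (𝓝 ((I A).indicator 1 x)) := by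
  by_cases h : x ∈ I A
  · refine tendsto_const_nhds.congr' (h.mono fun n hn => ?_)
    simp [h, hn]
  · refine tendsto_const_nhds.congr' ((Ultrafilter.eventually_not.2 h).mono fun n hn => ?_)
    simp [h, hn]

lemma g_int {f : ∀ n, S n → ℝ} {a b : ℝ} (hf : ∀ n y, f n y ∈ Icc a b) (μ : ∀ n, S n → ℝ) :
    Integrable (g f) (L μ) :=
  Integrable.of_mem_Icc a b (g_meas hf).aemeasurable
    (Eventually.of_forall fun x => lm_mem fun n => hf n (x n))

lemma int_step {μ : ∀ n, S n → ℝ} (h : ∀ n, Pv (μ n)) {δ : ℝ} (hδ : 0 < δ) (a : ℝ) (k : ℕ) :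
    ∀ f : ∀ n, S n → ℝ, (∀ n y, f n y ∈ Icc a (a + (k + 1) * δ)) →
      |∫ x, g f x ∂L μ - lm fun n => ∑ y, μ n y * f n y| ≤ δ := by
  induction k with
  | zero =>
    intro f hf
    have a1 := lm_mem fun n => (h n).mem (hf n)
    have a2 : a ≤ ∫ x, g f x ∂L μ := by
      simpa using integral_mono (integrable_const a) (g_int hf μ)
        fun x => (lm_mem fun n => hf n (x n)).1
    have a3 : ∫ x, g f x ∂L μ ≤ a + δ := by
      simpa using integral_mono (g_int hf μ) (integrable_const _)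
        fun x => (lm_mem fun n => hf n (x n)).2
    simp only [Nat.cast_zero, zero_add, one_mul] at a1
    exact abs_le.2 ⟨by linarith [a1.2], by linarith [a1.1]⟩
  | succ k ih =>
    intro f hf
    let A : ∀ n, Set (S n) := fun n => {y | a + δ ≤ f n y}
    let f' : ∀ n, S n → ℝ := fun n y => f n y - δ * (A n).indicator 1 y
    have hf' : ∀ n y, f' n y ∈ Icc a (a + (k + 1) * δ) := fun n y => by
      have := hf n y
      have k0 : (0 : ℝ) ≤ k * δ := by positivity
      push_cast at this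
      by_cases e : y ∈ A n
      · simp only [f', indicator_of_mem e, Pi.one_apply]
        exact ⟨by linarith [show a + δ ≤ f n y from e], by linarith [this.2]⟩
      · simp only [f', indicator_of_notMem e]
        exact ⟨by linarith [this.1], by linarith [not_le.1 (show ¬ a + δ ≤ f n y from e)]⟩
    have e1 : g f = fun x => g f' x + δ * (I A).indicator 1 x := funext fun x =>
      lm_eq (((tl fun n => hf' n (x n)).add ((t_ind A x).const_mul δ)).congr fun n => by simp [f'])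
    have e2 : (lm fun n => ∑ y, μ n y * f n y) =
        (lm fun n => ∑ y, μ n y * f' n y) + δ * lm fun n => ms (μ n) (A n) := lm_eq (by
      refine ((tl fun n => (h n).mem (hf' n)).add ((tl fun n => ms_mem (h n) (A n)).const_mul δ)).congr
        fun n => ?_
      simp only [ms, f', Finset.mul_sum, ← Finset.sum_add_distrib]
      exact Finset.sum_congr rfl fun y _ => by ring)
    have i1 : Integrable (fun x => δ * (I A).indicator (1 : E S → ℝ) x) (L μ) :=
      ((integrable_const 1).indicator (I_meas A)).const_mul δ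
    rw [e1, e2, integral_add (g_int hf' μ) i1,
      integral_const_mul, integral_indicator_one (I_meas A), L_real h, add_sub_add_right_eq_sub]
    exact ih f' hf'

lemma int_g {μ : ∀ n, S n → ℝ} (h : ∀ n, Pv (μ n)) {f : ∀ n, S n → ℝ} {a b : ℝ}
    (hf : ∀ n y, f n y ∈ Icc a b) : ∫ x, g f x ∂L μ = lm fun n => ∑ y, μ n y * f n y := by
  refine sub_eq_zero.1 (abs_nonpos_iff.1 (le_of_forall_pos_le_add fun δ hδ => ?_))
  obtain ⟨k, hk⟩ := exists_nat_ge ((b - a) / δ)
  rw [div_le_iff₀ hδ] at hk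
  rw [zero_add]
  exact int_step h hδ a k f fun n y => ⟨(hf n y).1, by nlinarith [(hf n y).2]⟩

lemma L_ext {μ : ∀ n, S n → ℝ} (h : ∀ n, Pv (μ n)) {ν : Measure (E S)}
    (e : ∀ A, ν (I A) = ENNReal.ofReal (lm fun n => ms (μ n) (A n))) : L μ = ν :=
  ext_of_generate_finite _ rfl pis (by rintro _ ⟨A, rfl⟩; rw [L_I h, e])
    (by rw [← I_univ, L_I h, e])

def ker {K : ∀ n, S n → S n → ℝ} (h : ∀ n x, Pv (K n x)) : Kernel (E S) (E S) where
  toFun x := L fun n => K n (x n)
  measurable' := Measurable.measure_of_isPiSystem_of_isProbabilityMeasure rfl pis (by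
    rintro _ ⟨A, rfl⟩
    simp only [fun x : E S => L_I (μ := fun n => K n (x n)) (fun n => h n _) A]
    exact (g_meas (f := fun n y => ms (K n y) (A n)) fun n y => ms_mem (h n y) _).ennreal_ofReal)

lemma L_bind {μ : ∀ n, S n → ℝ} (hμ : ∀ n, Pv (μ n)) {K : ∀ n, S n → S n → ℝ}
    (h : ∀ n x, Pv (K n x)) {ν : ∀ n, S n → ℝ} (hν : ∀ n, Pv (ν n))
    (e : ∀ n z, ν n z = ∑ y, μ n y * K n y z) : (L μ).bind (ker h) = L ν := by
  refine (L_ext hν fun A => ?_).symm
  have hf := fun n y => ms_mem (h n y) (A n)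
  rw [Measure.bind_apply (I_meas A) (ker h).aemeasurable]
  have : ∀ x, ker h x (I A) = ENNReal.ofReal (g (fun n y => ms (K n y) (A n)) x) :=
    fun x => L_I (μ := fun n => K n (x n)) (fun n => h n _) A
  simp only [this]
  rw [← ofReal_integral_eq_lintegral_ofReal (g_int hf μ)
    (Eventually.of_forall fun x => (lm_mem fun n => hf n (x n)).1), int_g hμ hf]
  congr 2
  ext n
  simp only [ms, e, Finset.sum_mul, Finset.mul_sum, mul_assoc]
  exact Finset.sum_comm

lemma L_tv {μ ν : ∀ n, S n → ℝ} (hμ : ∀ n, Pv (μ n)) (hν : ∀ n, Pv (ν n)) :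
    ⨆ B : {B : Set (E S) // MeasurableSet B}, |(L μ).real B - (L ν).real B| =
      lm fun n => ⨆ A : Set (S n), |ms (μ n) A - ms (ν n) A| := by
  have b : ∀ n A, |ms (μ n) A - ms (ν n) A| ∈ Icc (0 : ℝ) 1 := fun n A => ⟨abs_nonneg _, abs_le.2
    ⟨by linarith [(ms_mem (hμ n) A).1, (ms_mem (hν n) A).2],
      by linarith [(ms_mem (hμ n) A).2, (ms_mem (hν n) A).1]⟩⟩
  choose M hM using fun n => exists_eq_ciSup_of_finite (f := fun A => |ms (μ n) A - ms (ν n) A|)
  have t : ∀ A : ∀ n, Set (S n), Tendsto (fun n => |ms (μ n) (A n) - ms (ν n) (A n)|) U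
      (𝓝 |(L μ).real (I A) - (L ν).real (I A)|) := fun A => by
    rw [L_real hμ, L_real hν]
    exact ((tl fun n => ms_mem (hμ n) _).sub (tl fun n => ms_mem (hν n) _)).abs
  simp only [← hM]
  rw [lm_eq (t M)]
  have u : ∀ B : {B : Set (E S) // MeasurableSet B}, |(L μ).real B - (L ν).real B| ≤
      |(L μ).real (I M) - (L ν).real (I M)| := by
    rintro ⟨B, hB⟩
    refine le_of_forall_pos_le_add fun ε hε => ?_
    obtain ⟨_, ⟨A, rfl⟩, hA⟩ := exists_measure_symmDiff_lt_of_generateFrom_isSetRing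
      (μ := L μ + L ν) ring ⟨{univ}, countable_singleton _, by rintro _ rfl; exact ⟨_, I_univ⟩,
        by simp⟩ rfl hB (ENNReal.ofReal_pos.2 hε)
    have c := ENNReal.toReal_le_of_le_ofReal hε.le hA.le
    rw [← Measure.real, measureReal_add_apply] at c
    have c1 := abs_measureReal_sub_le_measureReal_symmDiff (μ := L μ)
      (I_meas A).nullMeasurableSet hB.nullMeasurableSet
    have c2 := abs_measureReal_sub_le_measureReal_symmDiff (μ := L ν)
      (I_meas A).nullMeasurableSet hB.nullMeasurableSet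
    have c3 := le_of_tendsto_of_tendsto' (t A) (t M) fun n =>
      (le_ciSup (f := fun A => |ms (μ n) A - ms (ν n) A|) (Finite.bddAbove_range _) _).trans
        (hM n).ge
    rw [abs_le] at c1 c2
    have c4 := le_abs_self ((L μ).real (I A) - (L ν).real (I A))
    have c5 := neg_abs_le ((L μ).real (I A) - (L ν).real (I A))
    exact abs_le.2 ⟨by linarith [c1.1, c1.2, c2.1, c2.2], by linarith [c1.1, c1.2, c2.1, c2.2]⟩
  haveI : Nonempty {B : Set (E S) // MeasurableSet B} := ⟨⟨_, I_meas M⟩⟩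
  exact le_antisymm (ciSup_le u) (le_ciSup (f := fun B : {B : Set (E S) // MeasurableSet B} =>
    |(L μ).real B - (L ν).real B|) ⟨_, by rintro _ ⟨B, rfl⟩; exact u B⟩ ⟨_, I_meas M⟩)

end

end Pool.Agent.H15.Loeb
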