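import Mathlib

namespace Pool.Agent.H15.OrdP

open Finset Fintype Polynomial

variable {I : Type} [Fintype I] [DecidableEq I] (r : I → I → Prop) [DecidableRel r]

def cnt (S : Finset ℕ) : ℕ :=
  Finset.card {f ∈ piFinset fun _ : I => S | ∀ a b, r a b → f a ≤ f b}

def sur (S : Finset ℕ) : ℕ :=
  Finset.card {f ∈ piFinset fun _ : I => S | (∀ a b, r a b → f a ≤ f b) ∧ image f univ = S}

lemma sur_le (S T : Finset ℕ) (φ ψ : ℕ → ℕ) (h1 : ∀ x ∈ S, ∀ y ∈ S, x ≤ y → φ x ≤ φ y)
    (h2 : ∀ x ∈ S, φ x ∈ T ∧ ψ (φ x) = x) (h3 : ∀ y ∈ T, ψ y ∈ S ∧ φ (ψ y) = y) :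
    sur r S ≤ sur r T := by
  refine card_le_card_of_injOn (fun f => φ ∘ f) ?_ ?_
  · intro f hf
    simp only [coe_filter, mem_piFinset, Set.mem_setOf_eq] at hf ⊢
    obtain ⟨a1, a2, a3⟩ := hf
    refine ⟨fun a => (h2 _ (a1 a)).1, fun a b h => h1 _ (a1 a) _ (a1 b) (a2 a b h), ?_⟩
    ext y
    simp only [mem_image, mem_univ, true_and, Function.comp]
    refine ⟨?_, fun hy => ?_⟩
    · rintro ⟨a, rfl⟩; exact (h2 _ (a1 a)).1
    · have := (h3 y hy).1
      rw [← a3, mem_image] at this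
      obtain ⟨a, -, ha⟩ := this
      exact ⟨a, by rw [ha, (h3 y hy).2]⟩
  · intro f hf g hg h
    simp only [coe_filter, mem_piFinset, Set.mem_setOf_eq] at hf hg
    funext a
    rw [← (h2 _ (hf.1 a)).2, ← (h2 _ (hg.1 a)).2]
    exact congrArg ψ (congrFun h a)

lemma sur_eq (T : Finset ℕ) : sur r T = sur r (range T.card) := by
  have hf : (setOf fun x => x ∈ T).Finite := T.finite_toSet
  have hc : hf.toFinset.card = T.card := by congr 1; ext; exact hf.mem_toFinset
  have a1 : ∀ x ∈ T, Nat.count (· ∈ T) x ∈ range T.card ∧ Nat.nth (· ∈ T) (Nat.count (· ∈ T) x) = x :=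
    fun x hx => ⟨mem_range.2 (hc ▸ Nat.count_lt_card hf hx), Nat.nth_count hx⟩
  have a2 : ∀ y ∈ range T.card, Nat.nth (· ∈ T) y ∈ T ∧ Nat.count (· ∈ T) (Nat.nth (· ∈ T) y) = y :=
    fun y hy => ⟨Nat.nth_mem_of_lt_card hf (hc ▸ mem_range.1 hy),
      Nat.count_nth_of_lt_card_finite hf (hc ▸ mem_range.1 hy)⟩
  exact le_antisymm (sur_le r _ _ _ _ (fun x _ y _ h => Nat.count_monotone _ h) a1 a2)
    (sur_le r _ _ _ _ (fun x _ y hy h =>
      Nat.nth_le_nth_of_lt_card hf h (hc ▸ mem_range.1 hy)) a2 a1)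

lemma cnt_eq (S : Finset ℕ) :
    cnt r S = ∑ k ∈ range (S.card + 1), S.card.choose k * sur r (range k) := by
  have h := sum_powerset_apply_card (fun k => sur r (range k)) (x := S)
  simp only [smul_eq_mul] at h
  rw [← h, cnt, card_eq_sum_card_fiberwise (f := fun f => image f univ) (t := S.powerset)]
  · refine sum_congr rfl fun T hT => ?_
    rw [← sur_eq, sur]
    congr 1
    ext f
    simp only [mem_filter, mem_piFinset]
    refine ⟨fun ⟨⟨_, h2⟩, h3⟩ => ⟨fun a => h3 ▸ mem_image_of_mem f (mem_univ a), h2, h3⟩,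
      fun ⟨h1, h2, h3⟩ => ⟨⟨fun a => mem_powerset.1 hT (h1 a), h2⟩, h3⟩⟩
  · intro f hf
    simp only [coe_filter, mem_piFinset, Set.mem_setOf_eq] at hf
    simp only [coe_powerset, Set.mem_preimage, Set.mem_powerset_iff, coe_subset]
    exact image_subset_iff.2 fun a _ => hf.1 a

lemma cnt_card (S : Finset ℕ) : cnt r S = cnt r (range S.card) := by
  rw [cnt_eq, cnt_eq, card_range]

lemma sur_zero (k : ℕ) (h : Fintype.card I < k) : sur r (range k) = 0 := by
  rw [sur, card_eq_zero, filter_eq_empty_iff]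
  rintro f - ⟨-, h2⟩
  have := card_image_le (s := univ) (f := f)
  rw [h2, card_range, card_univ] at this
  omega

lemma poly : ∃ p : ℚ[X], p.natDegree ≤ Fintype.card I ∧
    ∀ t : ℕ, p.eval (t : ℚ) = cnt r (range (t + 1)) := by
  refine ⟨(∑ k ∈ range (Fintype.card I + 1),
    C ((sur r (range k) : ℚ) / k.factorial) * descPochhammer ℚ k).comp (X + C 1), ?_, fun t => ?_⟩
  · rw [natDegree_comp, natDegree_X_add_C, mul_one]
    refine natDegree_sum_le_of_forall_le _ _ fun k hk => (natDegree_C_mul_le _ _).trans ?_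
    rw [descPochhammer_natDegree]
    exact Nat.lt_succ_iff.1 (mem_range.1 hk)
  · have e : ∀ k, eval ((t + 1 : ℕ) : ℚ)
        (C ((sur r (range k) : ℚ) / k.factorial) * descPochhammer ℚ k) =
        (((t + 1).choose k * sur r (range k) : ℕ) : ℚ) := fun k => by
      rw [eval_mul, eval_C, Nat.cast_mul, Nat.cast_choose_eq_descPochhammer_div]; ring
    rw [eval_comp, eval_add, eval_X, eval_C, ← Nat.cast_succ, eval_finset_sum, cnt_eq, card_range]
    simp only [e]
    rw [← Nat.cast_sum]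
    congr 1
    have s1 : range (Fintype.card I + 1) ⊆ range (Fintype.card I + 1 + (t + 1 + 1)) :=
      range_subset_range.2 (by omega)
    have s2 : range (t + 1 + 1) ⊆ range (Fintype.card I + 1 + (t + 1 + 1)) :=
      range_subset_range.2 (by omega)
    rw [Finset.sum_subset s1, Finset.sum_subset s2]
    · intro k _ hk
      rw [Nat.choose_eq_zero_of_lt (by simp only [mem_range] at hk; omega), zero_mul]
    · intro k _ hk
      rw [sur_zero r k (by simp only [mem_range] at hk; omega), mul_zero]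

lemma coeff_one (N : ℕ) (W : ℕ → ℤ) (D : ℤ)
    (h : ∀ j ∈ range (N + 1), ∑ i ∈ range (N + 1), W i * (i : ℤ) ^ j = if j = 1 then D else 0)
    (hN : 1 ≤ N) (p : ℚ[X]) (hp : p.natDegree ≤ N) :
    D * p.coeff 1 = ∑ i ∈ range (N + 1), W i * p.eval (i : ℚ) := by
  simp only [eval_eq_sum_range' (Nat.lt_succ_of_le hp), mul_sum]
  rw [sum_comm]
  have e : ∀ j ∈ range (N + 1), ∑ i ∈ range (N + 1), (W i : ℚ) * (p.coeff j * (i : ℚ) ^ j) =
      if j = 1 then D * p.coeff 1 else 0 := fun j hj => by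
    have := congrArg (Int.cast : ℤ → ℚ) (h j hj)
    push_cast at this
    simp only [mul_left_comm _ (p.coeff j)]
    rw [← mul_sum, this]
    split_ifs with h1
    · rw [h1, mul_comm]
    · rw [mul_zero]
  rw [sum_congr rfl e, Finset.sum_ite_eq', if_pos (mem_range.2 (by omega))]

lemma sum_pi_succ (n : ℕ) (S : Finset ℕ) (F : (Fin (n + 1) → ℕ) → ℕ) :
    ∑ v ∈ piFinset fun _ : Fin (n + 1) => S, F v =
      ∑ a ∈ S, ∑ u ∈ piFinset fun _ : Fin n => S, F (Fin.cons a u) := by
  rw [← sum_product']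
  symm
  exact sum_equiv (Fin.consEquiv fun _ => ℕ) (by simp [Fin.forall_fin_succ, Fin.consEquiv])
    (by simp [Fin.consEquiv])

def Pth (M : ℕ → ℕ → ℕ) : (n : ℕ) → ℕ → (Fin n → ℕ) → ℕ → ℕ
  | 0, a, _, b => M a b
  | n + 1, a, v, b => M a (v 0) * Pth M n (v 0) (Fin.tail v) b

def W (M : ℕ → ℕ → ℕ) (S : Finset ℕ) : ℕ → ℕ → ℕ → ℕ
  | 0, b, a => M a b
  | n + 1, b, a => ∑ c ∈ S, W M S n b c * M a c

lemma sum_Pth (M : ℕ → ℕ → ℕ) (S : Finset ℕ) (n : ℕ) : ∀ a b,
    ∑ v ∈ piFinset fun _ : Fin n => S, Pth M n a v b = W M S n b a := by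
  induction n with
  | zero => intro a b; simp [Pth, W]
  | succ n ih =>
    intro a b
    simp only [sum_pi_succ, Pth, W, Fin.cons_zero, Fin.tail_cons, ← mul_sum, ih, mul_comm]

def rep (m : ℕ) (A : ℕ → ℕ → ℕ) : List (List ℕ) :=
  (List.range m).map fun a => (List.range m).map (A a)

noncomputable def dot (x : List ℕ) : List ℕ → ℕ :=
  List.rec (motive := fun _ => List ℕ → ℕ) (fun _ => 0)
    (fun a _ ih y => List.casesOn y 0 fun b m => Nat.add (Nat.mul a b) (ih m)) x

lemma dot_eq (x : List ℕ) : ∀ y, dot x y = (List.zipWith Nat.mul x y).sum := by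
  induction x with
  | nil => intro y; rfl
  | cons a l ih =>
    rintro (_ | ⟨b, m⟩)
    · rfl
    · rw [List.zipWith_cons_cons, List.sum_cons, ← ih]; rfl

noncomputable def mulL (A B : List (List ℕ)) : List (List ℕ) := A.map fun x => B.map (dot x)

lemma sum_list (m : ℕ) (f : ℕ → ℕ) : ((List.range m).map f).sum = ∑ i ∈ range m, f i := by
  induction m with
  | zero => simp
  | succ m ih => rw [List.range_succ, sum_range_succ, ← ih]; simp

lemma W_add (M : ℕ → ℕ → ℕ) (S : Finset ℕ) (n m : ℕ) : ∀ b a,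
    W M S (n + m + 1) b a = ∑ c ∈ S, W M S n b c * W M S m c a := by
  induction m with
  | zero => intro b a; rfl
  | succ m ih =>
    intro b a
    rw [← add_assoc, W]
    simp only [ih]
    simp only [W, sum_mul, mul_sum, mul_assoc]
    exact sum_comm

lemma W_symm (M : ℕ → ℕ → ℕ) (hM : ∀ a b, M a b = M b a) (S : Finset ℕ) (n : ℕ) : ∀ b a,
    W M S n b a = W M S n a b := by
  induction n with
  | zero => intro b a; exact hM a b
  | succ n ih =>
    intro b a
    have := W_add M S 0 n a b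
    rw [zero_add] at this
    rw [this, W]
    exact sum_congr rfl fun c _ => by rw [ih b c, mul_comm, W, hM]

lemma mul_rep (r : ℕ) (M : ℕ → ℕ → ℕ) (hM : ∀ a b, M a b = M b a) (n m : ℕ) :
    mulL (rep r (W M (range r) n)) (rep r (W M (range r) m)) =
      rep r (W M (range r) (n + m + 1)) := by
  simp only [mulL, rep, List.map_map, Function.comp_def, dot_eq, List.zipWith_map,
    List.zipWith_self, sum_list, Nat.mul_eq]
  refine List.map_congr_left fun a _ => List.map_congr_left fun b _ => ?_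
  rw [W_add]
  exact sum_congr rfl fun c _ => by rw [W_symm M hM _ m b c]

noncomputable def trL (A B : List (List ℕ)) : ℕ := (List.zipWith dot A B).sum

lemma tr_rep (r : ℕ) (M : ℕ → ℕ → ℕ) (hM : ∀ a b, M a b = M b a) (n m : ℕ) :
    trL (rep r (W M (range r) n)) (rep r (W M (range r) m)) =
      ∑ a ∈ range r, W M (range r) (n + m + 1) a a := by
  simp only [trL, rep, dot_eq, List.zipWith_map, List.zipWith_self, sum_list, Nat.mul_eq]
  refine sum_congr rfl fun a _ => ?_
  rw [W_add]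
  exact sum_congr rfl fun c _ => by rw [W_symm M hM _ m a c]

noncomputable def tr13 (A : List (List ℕ)) : ℕ :=
  (fun B => trL B (mulL B A)) ((fun C => mulL C C) (mulL (mulL A A) A))

lemma tr13_eq (r : ℕ) (M : ℕ → ℕ → ℕ) (hM : ∀ a b, M a b = M b a) :
    tr13 (rep r (W M (range r) 0)) = ∑ a ∈ range r, W M (range r) 12 a a := by
  simp only [tr13, mul_rep r M hM, tr_rep r M hM]

end Pool.Agent.H15.OrdP
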