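import Mathlib

set_option autoImplicit false
open Topology Pointwise

namespace Pool.Agent.H15.Para

abbrev X := ℝ ⊕ (ℕ × ℕ)

def T (n : ℕ) : Set X := {x | ∃ k l, n ≤ k ∧ x = Sum.inr (k, l)}

lemma T_anti {m n : ℕ} (h : m ≤ n) : T n ⊆ T m := by
  rintro x ⟨k, l, hk, rfl⟩
  exact ⟨k, l, h.trans hk, rfl⟩

lemma T_count (n : ℕ) : (T n).Countable := by
  refine (Set.countable_range (Sum.inr : ℕ × ℕ → X)).mono ?_
  rintro x ⟨k, l, -, rfl⟩
  exact ⟨_, rfl⟩

lemma out (y : X) : ∃ m, y ∉ T m := by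
  rcases y with r | ⟨k, l⟩
  · exact ⟨0, by rintro ⟨k, l, -, h⟩; cases h⟩
  · refine ⟨k + 1, ?_⟩
    rintro ⟨k', l', h, e⟩
    simp only [Sum.inr.injEq, Prod.mk.injEq] at e
    omega

def G0 : Subgroup (Equiv.Perm X) where
  carrier := {g | ∃ n, ∀ x ∈ T n, g x = x}
  one_mem' := ⟨0, fun _ _ => rfl⟩
  mul_mem' := by
    rintro a b ⟨n, hn⟩ ⟨m, hm⟩
    refine ⟨max n m, fun x hx => ?_⟩
    rw [Equiv.Perm.mul_apply, hm x (T_anti (le_max_right _ _) hx), hn x (T_anti (le_max_left _ _) hx)]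
  inv_mem' := by
    rintro a ⟨n, hn⟩
    exact ⟨n, fun x hx => by rw [Equiv.Perm.inv_eq_iff_eq, hn x hx]⟩

def G : Type := G0

noncomputable instance : Group G := inferInstanceAs (Group G0)

def ap (g : G) : Equiv.Perm X := (g : G0).1

lemma ap_mul (g h : G) (x : X) : ap (g * h) x = ap g (ap h x) := rfl
lemma ap_one (x : X) : ap 1 x = x := rfl
lemma ap_fix (g : G) : ∃ n, ∀ x ∈ T n, ap g x = x := (g : G0).2

def W (g : G) (n : ℕ) (B : Set X) : Set G := {h | ∀ x ∈ B, ap h x = ap g x ∨ ap h x ∈ T n}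

instance : TopologicalSpace G where
  IsOpen U := ∀ g ∈ U, ∃ n B, B.Countable ∧ W g n B ⊆ U
  isOpen_univ := fun _ _ => ⟨0, ∅, Set.countable_empty, Set.subset_univ _⟩
  isOpen_inter := by
    intro s t hs ht g hg
    obtain ⟨n, B, hB, h1⟩ := hs g hg.1
    obtain ⟨m, C, hC, h2⟩ := ht g hg.2
    refine ⟨max n m, B ∪ C, hB.union hC, fun h hh => ⟨h1 fun x hx => ?_, h2 fun x hx => ?_⟩⟩
    · exact (hh x (Or.inl hx)).imp id fun e => T_anti (le_max_left _ _) e
    · exact (hh x (Or.inr hx)).imp id fun e => T_anti (le_max_right _ _) e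
  isOpen_sUnion := by
    rintro S hS g ⟨U, hU, hg⟩
    obtain ⟨n, B, hB, h1⟩ := hS U hU g hg
    exact ⟨n, B, hB, h1.trans (Set.subset_sUnion_of_mem hU)⟩

lemma isOpen_iff (U : Set G) : IsOpen U ↔ ∀ g ∈ U, ∃ n B, B.Countable ∧ W g n B ⊆ U := Iff.rfl

lemma W_open (g : G) (n : ℕ) (B : Set X) (hB : B.Countable) : IsOpen (W g n B) := by
  rw [isOpen_iff]
  intro h hh
  refine ⟨n, B, hB, fun k hk x hx => ?_⟩
  rcases hk x hx with e | e
  · rw [e]; exact hh x hx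
  · exact Or.inr e

lemma W_nhds (g : G) (n : ℕ) (B : Set X) (hB : B.Countable) : W g n B ∈ 𝓝 g :=
  (W_open g n B hB).mem_nhds fun _ _ => Or.inl rfl

lemma of_nhds (g : G) (U : Set G) (hU : U ∈ 𝓝 g) : ∃ n B, B.Countable ∧ W g n B ⊆ U := by
  obtain ⟨V, hV, ho, hg⟩ := mem_nhds_iff.1 hU
  obtain ⟨n, B, hB, h⟩ := (isOpen_iff V).1 ho g hg
  exact ⟨n, B, hB, h.trans hV⟩

instance : ContinuousMul G where
  continuous_mul := by
    refine continuous_iff_continuousAt.2 ?_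
    rintro ⟨g, h⟩ U hU
    obtain ⟨n, B, hB, hW⟩ := of_nhds _ U hU
    obtain ⟨m, hm⟩ := ap_fix g
    rw [Filter.mem_map, nhds_prod_eq]
    refine Filter.mem_of_superset (Filter.prod_mem_prod
      (W_nhds g (max n m) (ap h '' B ∪ T (max n m)) ((hB.image _).union (T_count _)))
      (W_nhds h (max n m) B hB)) ?_
    rintro ⟨g', h'⟩ ⟨hg', hh'⟩
    refine hW fun x hx => ?_
    simp only [ap_mul]
    rcases hh' x hx with e | e
    · rw [e]
      exact (hg' _ (Or.inl ⟨x, hx, rfl⟩)).imp id fun e => T_anti (le_max_left _ _) e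
    · right
      rcases hg' _ (Or.inr e) with e2 | e2
      · rw [e2, hm _ (T_anti (le_max_right _ _) e)]
        exact T_anti (le_max_left _ _) e
      · exact T_anti (le_max_left _ _) e2

lemma exists_k (B : Set X) (hB : B.Countable) (m : ℕ) : ∃ k : G, ∀ x ∈ B, ap k x ∈ T m := by
  classical
  obtain ⟨e, he⟩ := Set.countable_iff_exists_injOn.1 hB
  let s : Set X := B ∪ T (m + 1)
  let f : X → X := fun x => if x ∈ T (m + 1) then x else Sum.inr (m, e x)
  have hm : ∀ l, (Sum.inr (m, l) : X) ∉ T (m + 1) := by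
    rintro l ⟨k', l', h, e⟩
    simp only [Sum.inr.injEq, Prod.mk.injEq] at e
    omega
  have hf : Function.Injective fun x : s => f x := by
    rintro ⟨x, hx⟩ ⟨y, hy⟩ hxy
    simp only [f] at hxy
    split_ifs at hxy with h1 h2 h2
    · exact Subtype.ext hxy
    · exact absurd (hxy ▸ h1) (hm _)
    · exact absurd (hxy ▸ h2) (hm _)
    · simp only [Sum.inr.injEq, Prod.mk.injEq, true_and] at hxy
      exact Subtype.ext (he (hx.resolve_right h1) (hy.resolve_right h2) hxy)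
  have hs : Cardinal.mk s < Cardinal.mk X := by
    have h1 : s.Countable := hB.union (T_count _)
    have h2 : Cardinal.mk s ≤ Cardinal.aleph0 := Cardinal.le_aleph0_iff_set_countable.2 h1
    exact lt_of_le_of_lt h2 Cardinal.aleph0_lt_mk
  obtain ⟨g, hg⟩ := Cardinal.extend_function_of_lt ⟨_, hf⟩ hs ⟨Equiv.refl X⟩
  have hg' : ∀ x ∈ s, g x = f x := fun x hx => hg ⟨x, hx⟩
  refine ⟨(⟨g, m + 1, fun x hx => ?_⟩ : G0), fun x hx => ?_⟩
  · rw [hg' x (Or.inr hx)]; simp [f, hx]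
  · change g x ∈ T m
    rw [hg' x (Or.inl hx)]
    simp only [f]
    split_ifs with h
    · exact T_anti (Nat.le_succ m) h
    · exact ⟨m, _, le_rfl, rfl⟩

lemma right_bdd : ∀ U ∈ 𝓝 (1 : G), ∃ F : Set G, F.Countable ∧ U * F = Set.univ := by
  intro U hU
  obtain ⟨n, B, hB, hW⟩ := of_nhds _ U hU
  choose k hk using exists_k B hB
  refine ⟨Set.range fun m => (k m)⁻¹, Set.countable_range _, Set.eq_univ_of_forall fun g => ?_⟩
  obtain ⟨m, hm⟩ := ap_fix g
  refine ⟨g * k (max n m), hW fun x hx => Or.inr ?_, _, ⟨max n m, rfl⟩, by simp⟩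
  rw [ap_mul, hm _ (T_anti (le_max_right _ _) (hk _ x hx))]
  exact T_anti (le_max_left _ _) (hk _ x hx)

lemma not_left : ¬ ∀ U ∈ 𝓝 (1 : G), ∃ F : Set G, F.Countable ∧ F * U = Set.univ := by
  classical
  intro H
  obtain ⟨F, hF, hU⟩ := H _ (W_nhds 1 0 (T 0) (T_count 0))
  have hc : (⋃ f ∈ F, ap f '' T 0).Countable := hF.biUnion fun f _ => (T_count 0).image _
  obtain ⟨y, hy⟩ : ∃ y, y ∉ ⋃ f ∈ F, ap f '' T 0 := by
    by_contra hcon
    push Not at hcon
    exact Set.not_countable_univ ((Set.eq_univ_of_forall hcon) ▸ hc)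
  obtain ⟨m, hm⟩ := out y
  obtain ⟨m', hm'⟩ := out (Sum.inr (0, 0))
  let g : G := (⟨Equiv.swap y (Sum.inr (0, 0)), max m m', fun x hx =>
    Equiv.swap_apply_of_ne_of_ne
      (fun e => hm (e ▸ T_anti (le_max_left _ _) hx))
      (fun e => hm' (e ▸ T_anti (le_max_right _ _) hx))⟩ : G0)
  have hg : g ∈ F * W 1 0 (T 0) := hU ▸ Set.mem_univ g
  obtain ⟨f, hf, u, hu, e⟩ := hg
  have h0 : (Sum.inr (0, 0) : X) ∈ T 0 := ⟨0, 0, le_rfl, rfl⟩
  have h1 : ap u (Sum.inr (0, 0)) ∈ T 0 := by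
    rcases hu _ h0 with e | e
    · rw [e]; exact h0
    · exact e
  have h2 : ap g (Sum.inr (0, 0)) = y := Equiv.swap_apply_right _ _
  apply hy
  simp only [Set.mem_iUnion]
  refine ⟨f, hf, _, h1, ?_⟩
  rw [← h2, ← e, ap_mul]

end Pool.Agent.H15.Para
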