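import Mathlib

/-! A family of count vectors closed under the cut rule. -/

set_option autoImplicit false

namespace Pool.Agent.H15.Prot

def mins : List (ℕ × ℕ × ℕ × ℕ) :=
  [(1,1,1,1), (0,1,2,3), (0,1,3,2), (0,2,1,3), (0,2,2,2), (0,2,3,1), (0,3,1,2), (0,3,2,1),
  (1,0,2,3), (1,0,3,2), (1,2,0,3), (1,2,3,0), (1,3,0,2), (1,3,2,0), (2,0,1,3), (2,0,2,2),
  (2,0,3,1), (2,1,0,3), (2,1,3,0), (2,2,0,2), (2,2,2,0), (2,3,0,1), (2,3,1,0), (3,0,1,2),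
  (3,0,2,1), (3,1,0,2), (3,1,2,0), (3,2,0,1), (3,2,1,0), (0,1,1,5), (0,1,5,1), (0,5,1,1),
  (1,0,1,5), (1,0,5,1), (1,1,0,5), (1,1,5,0), (1,5,0,1), (1,5,1,0), (5,0,1,1), (5,1,0,1),
  (5,1,1,0), (0,0,3,5), (0,0,4,4), (0,0,5,3), (0,3,0,5), (0,3,5,0), (0,4,0,4), (0,4,4,0),
  (0,5,0,3), (0,5,3,0), (3,0,0,5), (3,0,5,0), (3,5,0,0), (4,0,0,4), (4,0,4,0), (4,4,0,0),
  (5,0,0,3), (5,0,3,0), (5,3,0,0), (0,0,2,7), (0,0,7,2), (0,2,0,7), (0,2,7,0), (0,7,0,2),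
  (0,7,2,0), (2,0,0,7), (2,0,7,0), (2,7,0,0), (7,0,0,2), (7,0,2,0), (7,2,0,0), (0,0,1,9),
  (0,0,9,1), (0,1,0,9), (0,1,9,0), (0,9,0,1), (0,9,1,0), (1,0,0,9), (1,0,9,0), (1,9,0,0),
  (9,0,0,1), (9,0,1,0), (9,1,0,0), (0,0,0,13), (0,0,13,0), (0,13,0,0), (13,0,0,0)]

def dom (a b c d : ℕ) : Bool :=
  mins.any fun z => Nat.ble z.1 a && Nat.ble z.2.1 b && Nat.ble z.2.2.1 c && Nat.ble z.2.2.2 d

theorem chk : (mins.all fun u => mins.all fun v =>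
    dom (u.1 - 1 + (v.1 - 4)) (u.2.1 + v.2.1) (u.2.2.1 + v.2.2.1) (u.2.2.2 + v.2.2.2) &&
    dom (u.1 + v.1) (u.2.1 - 1 + (v.2.1 - 4)) (u.2.2.1 + v.2.2.1) (u.2.2.2 + v.2.2.2) &&
    dom (u.1 + v.1) (u.2.1 + v.2.1) (u.2.2.1 - 1 + (v.2.2.1 - 4)) (u.2.2.2 + v.2.2.2) &&
    dom (u.1 + v.1) (u.2.1 + v.2.1) (u.2.2.1 + v.2.2.1) (u.2.2.2 - 1 + (v.2.2.2 - 4))) = true := by
  decide +kernel

theorem dom_iff (a b c d : ℕ) : dom a b c d = true ↔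
    ∃ z ∈ mins, z.1 ≤ a ∧ z.2.1 ≤ b ∧ z.2.2.1 ≤ c ∧ z.2.2.2 ≤ d := by
  simp only [dom, List.any_eq_true, Bool.and_eq_true, Nat.ble_eq, and_assoc]

def Bad (v : Fin 4 → ℕ) : Prop := dom (v 0) (v 1) (v 2) (v 3) = true

theorem Bad.mono {v w : Fin 4 → ℕ} (h : Bad v) (hvw : ∀ j, v j ≤ w j) : Bad w := by
  obtain ⟨z, hz, h1, h2, h3, h4⟩ := (dom_iff _ _ _ _).mp h
  exact (dom_iff _ _ _ _).mpr ⟨z, hz, h1.trans (hvw _), h2.trans (hvw _), h3.trans (hvw _),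
    h4.trans (hvw _)⟩

theorem bad_ones (v : Fin 4 → ℕ) (h : ∀ j, 1 ≤ v j) : Bad v :=
  Bad.mono (v := fun _ => 1) (by unfold Bad; decide +kernel) h

theorem not_bad_axis (i : Fin 4) (v : Fin 4 → ℕ) (h : ∀ j, v j ≤ if j = i then 4 else 0) :
    ¬ Bad v := by
  intro hb
  have := hb.mono h
  revert this
  unfold Bad
  clear h hb
  revert i
  decide +kernel

theorem cut (i : Fin 4) (b c p q : Fin 4 → ℕ) (hp : ∀ j, p j ≤ b j + if j = i then 1 else 0)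
    (hq : ∀ j, q j ≤ c j + if j = i then 4 else 0) (h1 : Bad p) (h2 : Bad q) :
    Bad (fun j => b j + c j) := by
  obtain ⟨u, hu, u1, u2, u3, u4⟩ := (dom_iff _ _ _ _).mp h1
  obtain ⟨v, hv, v1, v2, v3, v4⟩ := (dom_iff _ _ _ _).mp h2
  have h := chk
  simp only [List.all_eq_true, Bool.and_eq_true] at h
  obtain ⟨⟨⟨k0, k1⟩, k2⟩, k3⟩ := h u hu v hv
  have p0 := hp 0; have p1 := hp 1; have p2 := hp 2; have p3 := hp 3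
  have q0 := hq 0; have q1 := hq 1; have q2 := hq 2; have q3 := hq 3
  show dom (b 0 + c 0) (b 1 + c 1) (b 2 + c 2) (b 3 + c 3) = true
  rw [dom_iff] at k0 k1 k2 k3 ⊢
  fin_cases i
  · obtain ⟨z, hz, z1, z2, z3, z4⟩ := k0
    simp at p0 p1 p2 p3 q0 q1 q2 q3
    exact ⟨z, hz, by omega, by omega, by omega, by omega⟩
  · obtain ⟨z, hz, z1, z2, z3, z4⟩ := k1
    simp at p0 p1 p2 p3 q0 q1 q2 q3
    exact ⟨z, hz, by omega, by omega, by omega, by omega⟩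
  · obtain ⟨z, hz, z1, z2, z3, z4⟩ := k2
    simp at p0 p1 p2 p3 q0 q1 q2 q3
    exact ⟨z, hz, by omega, by omega, by omega, by omega⟩
  · obtain ⟨z, hz, z1, z2, z3, z4⟩ := k3
    simp at p0 p1 p2 p3 q0 q1 q2 q3
    exact ⟨z, hz, by omega, by omega, by omega, by omega⟩

end Pool.Agent.H15.Prot
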