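import Pool.Agent.H15.ProtA

/-! Distributing avoidance constraints over a forest of blocks. -/

set_option autoImplicit false

namespace Pool.Agent.H15.Prot

variable {P : Type}

def cnt (Φ : List (P × Fin 4)) (j : Fin 4) : ℕ := Φ.countP fun x => decide (x.2 = j)

def Good (Φ : List (P × Fin 4)) : Prop := ¬ Bad (cnt Φ)

theorem cnt_append (Φ Ψ : List (P × Fin 4)) (j : Fin 4) : cnt (Φ ++ Ψ) j = cnt Φ j + cnt Ψ j := by
  simp [cnt]

theorem cnt_split (Φ : List (P × Fin 4)) (p : P × Fin 4 → Bool) (j : Fin 4) :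
    cnt Φ j = cnt (Φ.filter p) j + cnt (Φ.filter fun x => !p x) j := by
  rw [← cnt_append]
  exact ((List.filter_append_perm p Φ).countP_eq _).symm

theorem Good.left {Φ Ψ : List (P × Fin 4)} (h : ∀ j, cnt Φ j ≤ cnt Ψ j) (hg : Good Ψ) : Good Φ :=
  fun hb => hg (hb.mono h)

theorem sum_split (Φ : List (P × Fin 4)) (p : P × Fin 4 → Bool) (f : P × Fin 4 → ℕ) :
    (Φ.map f).sum = ((Φ.filter p).map f).sum + ((Φ.filter fun x => !p x).map f).sum := by
  rw [← List.sum_append, ← List.map_append]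
  exact ((List.filter_append_perm p Φ).map f).sum_eq.symm

theorem forest {R Λ : Type} (blk : P → R) (len : R → ℕ) (child par : Λ → R)
    (hinj : Function.Injective child) (cC cP : Λ → List (P × Fin 4))
    (hP : ∀ l, ∀ x ∈ cP l, blk x.1 = par l) (hlen : ∀ l, len (par l) < len (child l))
    (hP4 : ∀ l, (cP l).length ≤ 4) (hC : ∀ l, Good (cC l))
    (rule : ∀ l (Φ Ψ : List (P × Fin 4)), ¬ Bad (fun j => cnt Φ j + cnt Ψ j) →
      Good (Φ ++ cC l) ∨ Good (Ψ ++ cP l))
    (Φ : List (P × Fin 4)) (hΦ : Good Φ) :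
    ∃ Ψ : R → List (P × Fin 4), (∀ r, Good (Ψ r)) ∧ (∀ x ∈ Φ, x ∈ Ψ (blk x.1)) ∧
      ∀ l, (∀ x ∈ cC l, x ∈ Ψ (child l)) ∨
        ((∀ x ∈ cP l, x ∈ Ψ (par l)) ∧ ∃ x ∈ Φ, len (child l) ≤ len (blk x.1)) := by
  classical
  induction hμ : (Φ.map fun x => 5 ^ len (blk x.1)).sum using Nat.strong_induction_on
    generalizing Φ with
  | _ μ ih =>
  by_cases hne : Φ = []
  · subst hne
    refine ⟨fun r => if h : ∃ l, child l = r then cC h.choose else [], fun r => ?_, by simp,
      fun l => Or.inl fun x hx => ?_⟩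
    · by_cases h : ∃ l, child l = r
      · simp only [dif_pos h]; exact hC _
      · simp only [dif_neg h]; exact hΦ
    · have h : ∃ l', child l' = child l := ⟨l, rfl⟩
      simp only [dif_pos h]
      rw [hinj h.choose_spec]; exact hx
  obtain ⟨x0, hx0, hmax⟩ : ∃ x0 ∈ Φ, ∀ y ∈ Φ, len (blk y.1) ≤ len (blk x0.1) := by
    obtain ⟨x0, h1, h2⟩ := Finset.exists_max_image Φ.toFinset (fun x => len (blk x.1))
      (by simpa [List.toFinset_nonempty_iff] using hne)
    exact ⟨x0, by simpa using h1, fun y hy => h2 y (by simpa using hy)⟩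
  set r0 := blk x0.1 with hr0
  let p : P × Fin 4 → Bool := fun x => decide (blk x.1 = r0)
  set Φ1 := Φ.filter p with hΦ1
  set Φ2 := Φ.filter (fun x => !p x) with hΦ2
  have hsum := sum_split Φ p (fun x => 5 ^ len (blk x.1))
  rw [← hΦ1, ← hΦ2, hμ] at hsum
  have h1 : 5 ^ len r0 ≤ (Φ1.map fun x => 5 ^ len (blk x.1)).sum :=
    List.single_le_sum (by simp) _ (List.mem_map.mpr ⟨x0, by simp [hΦ1, p, hx0, hr0], rfl⟩)
  have hpos : 0 < 5 ^ len r0 := by positivity
  have hg1 : Good Φ1 := hΦ.left fun j => by rw [cnt_split Φ p j]; exact Nat.le_add_right _ _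
  have hg2 : Good Φ2 := hΦ.left fun j => by rw [cnt_split Φ p j]; exact Nat.le_add_left _ _
  -- common final step
  have fin : ∀ (Φ' T : List (P × Fin 4)), Good Φ' → Good T →
      (Φ'.map fun x => 5 ^ len (blk x.1)).sum < μ → (∀ x ∈ Φ2, x ∈ Φ') → (∀ x ∈ Φ1, x ∈ T) →
      (∀ y ∈ Φ', len (blk y.1) ≤ len r0) →
      (∀ l, child l = r0 → (∀ x ∈ cC l, x ∈ T) ∨ (∀ x ∈ cP l, x ∈ Φ')) →
      ∃ Ψ : R → List (P × Fin 4), (∀ r, Good (Ψ r)) ∧ (∀ x ∈ Φ, x ∈ Ψ (blk x.1)) ∧
      ∀ l, (∀ x ∈ cC l, x ∈ Ψ (child l)) ∨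
        ((∀ x ∈ cP l, x ∈ Ψ (par l)) ∧ ∃ x ∈ Φ, len (child l) ≤ len (blk x.1)) := by
    intro Φ' T g1 g2 hlt s2 s1 hb hl
    obtain ⟨Ψ, a1, a2, a3⟩ := ih _ hlt Φ' g1 rfl
    refine ⟨Function.update Ψ r0 T, fun r => ?_, fun x hx => ?_, fun l => ?_⟩
    · by_cases h : r = r0
      · subst h; simpa using g2
      · simpa [Function.update_of_ne h] using a1 r
    · by_cases h : blk x.1 = r0
      · rw [h, Function.update_self]; exact s1 x (by simp [hΦ1, p, hx, h])
      · rw [Function.update_of_ne h]; exact a2 x (s2 x (by simp [hΦ2, p, hx, h]))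
    · by_cases h : child l = r0
      · rcases hl l h with h2 | h2
        · left; rw [h, Function.update_self]; exact h2
        · right
          have hp : par l ≠ r0 := by
            intro h3; have := hlen l; rw [h, h3] at this; omega
          refine ⟨fun x hx => ?_, x0, hx0, by rw [h]⟩
          rw [Function.update_of_ne hp, ← hP l x hx]
          exact a2 x (h2 x hx)
      · rcases a3 l with h2 | ⟨h2, y, hy, h3⟩
        · left; rw [Function.update_of_ne h]; exact h2
        · right
          have h4 := hb y hy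
          have hp : par l ≠ r0 := by
            intro h5; have := hlen l; rw [h5] at this; omega
          refine ⟨fun x hx => ?_, x0, hx0, h3.trans h4⟩
          rw [Function.update_of_ne hp]; exact h2 x hx
  have hb2 : ∀ y ∈ Φ2, len (blk y.1) ≤ len r0 := fun y hy => hmax y (List.mem_of_mem_filter hy)
  by_cases hex : ∃ l, child l = r0
  · obtain ⟨l, hl⟩ := hex
    have hr := rule l Φ1 Φ2 (by
      intro hb; apply hΦ; refine hb.mono fun j => ?_
      rw [cnt_split Φ p j])
    rcases hr with hr | hr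
    · refine fin Φ2 (Φ1 ++ cC l) hg2 hr (by omega) (fun _ h => h)
        (fun x h => List.mem_append_left _ h) hb2 fun l' hl' => Or.inl ?_
      rw [hinj (hl'.trans hl.symm)]
      exact fun x h => List.mem_append_right _ h
    · have hlt := hlen l
      rw [hl] at hlt
      refine fin (Φ2 ++ cP l) Φ1 hr hg1 ?_ (fun x h => List.mem_append_left _ h) (fun _ h => h)
        ?_ fun l' hl' => Or.inr ?_
      · rw [List.map_append, List.sum_append]
        have h5 : ((cP l).map fun x => 5 ^ len (blk x.1)).sum ≤ 4 * 5 ^ len (par l) := by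
          have := List.sum_le_card_nsmul ((cP l).map fun x => 5 ^ len (blk x.1)) (5 ^ len (par l))
            (by
              intro z hz
              obtain ⟨y, hy, rfl⟩ := List.mem_map.mp hz
              rw [hP l y hy])
          rw [List.length_map, smul_eq_mul] at this
          exact this.trans (Nat.mul_le_mul_right _ (hP4 l))
        have h6 : 5 ^ (len (par l) + 1) ≤ 5 ^ len r0 := Nat.pow_le_pow_right (by norm_num) hlt
        have h7 : 0 < 5 ^ len (par l) := by positivity
        rw [pow_succ] at h6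
        omega
      · intro y hy
        rcases List.mem_append.mp hy with h | h
        · exact hb2 y h
        · rw [hP l y h]; omega
      · rw [hinj (hl'.trans hl.symm)]
        exact fun x h => List.mem_append_right _ h
  · exact fin Φ2 Φ1 hg2 hg1 (by omega) (fun _ h => h) (fun _ h => h) hb2
      fun l hl => absurd ⟨l, hl⟩ hex

end Pool.Agent.H15.Prot
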