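import Pool.Agent.H15.ProtB

/-! A four-colouring of the free group of countable rank. -/

set_option autoImplicit false

namespace Pool.Agent.H15.Prot

open FreeGroup

abbrev G := FreeGroup ℕ

def rep (k : ℕ) (h : G) : List (ℕ × Bool) := h.toWord.dropWhile fun x => decide (x.1 < k)

theorem toWord_cons (x : ℕ × Bool) (h : G) :
    (mk [x] * h).toWord = x :: h.toWord ∨
      ∃ tl, h.toWord = (x.1, !x.2) :: tl ∧ (mk [x] * h).toWord = tl := by
  have h1 : (mk [x] * h).toWord = reduce (x :: h.toWord) := by
    conv_lhs => rw [← mk_toWord (x := h), mul_mk, toWord_mk]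
    rfl
  rw [h1, reduce.cons, reduce_toWord]
  cases hw : h.toWord with
  | nil => left; rfl
  | cons hd tl =>
    by_cases hc : x.1 = hd.1 ∧ x.2 = !hd.2
    · right
      refine ⟨tl, ?_, by simp [hc]⟩
      obtain ⟨h2, h3⟩ := hc
      rw [h2, h3]; simp
    · left; simp only [if_neg hc]

theorem toWord_cancel (k : ℕ) (h : G) (tl : List (ℕ × Bool)) (hw : h.toWord = (k, false) :: tl) :
    (of k * h).toWord = tl := by
  have h1 : (of k * h).toWord = reduce ((k, true) :: h.toWord) := by
    conv_lhs => rw [← mk_toWord (x := h), of, mul_mk, toWord_mk]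
    rfl
  rw [h1, reduce.cons, reduce_toWord, hw]
  simp

theorem rep_single (k : ℕ) (x : ℕ × Bool) (hx : x.1 < k) (h : G) :
    rep k (mk [x] * h) = rep k h := by
  unfold rep
  rcases toWord_cons x h with h1 | ⟨tl, h1, h2⟩
  · rw [h1, List.dropWhile_cons_of_pos (by simpa using hx)]
  · rw [h2, h1, List.dropWhile_cons_of_pos (by simpa using hx)]

theorem rep_mk (k : ℕ) (L : List (ℕ × Bool)) (hL : ∀ x ∈ L, x.1 < k) (h : G) :
    rep k (mk L * h) = rep k h := by
  induction L with
  | nil => rw [← one_eq_mk, one_mul]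
  | cons x L ih =>
    have : mk (x :: L) = mk [x] * mk L := by rw [mul_mk]; rfl
    rw [this, mul_assoc, rep_single k x (hL x (by simp)), ih fun y hy => hL y (by simp [hy])]

theorem rep_mul (k : ℕ) (f : G) (hf : ∀ x ∈ f.toWord, x.1 < k) (h : G) :
    rep k (f * h) = rep k h := by
  conv_lhs => rw [← mk_toWord (x := f)]
  exact rep_mk k _ hf h

theorem rep_len (k : ℕ) (h : G) : (rep k h).length ≤ h.toWord.length :=
  (List.dropWhile_sublist _).length_le

theorem rep_head (k : ℕ) (h : G) (b : Bool) (tl : List (ℕ × Bool)) (hw : h.toWord = (k, b) :: tl) :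
    rep k h = (k, b) :: tl := by
  unfold rep
  rw [hw, List.dropWhile_cons_of_neg (by simp)]

variable (lk : ℕ → Fin 4 × List G)

def Active (k : ℕ) : Prop := (lk k).2.length ≤ 4 ∧ ∀ f ∈ (lk k).2, ∀ x ∈ f.toWord, x.1 < k

def Link (j : ℕ) (c : G → Fin 4) : Prop :=
  Active lk j → ∀ v, ∀ f ∈ (lk j).2, ¬ (c (of j * v) = (lk j).1 ∧ c (f * v) = (lk j).1)

theorem cnt_one (a : G) (i j : Fin 4) : cnt [(a, i)] j ≤ if j = i then 1 else 0 := by
  by_cases h : j = i
  · subst h; simp [cnt]
  · simp [cnt, h, Ne.symm h]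

theorem cnt_map (F : List G) (hF : F.length ≤ 4) (v : G) (i j : Fin 4) :
    cnt (F.map fun f => (f * v, i)) j ≤ if j = i then 4 else 0 := by
  by_cases h : j = i
  · subst h
    rw [if_pos rfl]
    exact List.countP_le_length.trans (by simpa using hF)
  · rw [if_neg h]
    simp [cnt, List.countP_eq_zero, Ne.symm h]

theorem inv (k : ℕ) (Φ : List (G × Fin 4)) (hΦ : Good Φ) :
    ∃ c : G → Fin 4, (∀ j < k, Link lk j c) ∧ ∀ x ∈ Φ, c x.1 ≠ x.2 := by
  classical
  induction k generalizing Φ with
  | zero =>
    have : ∃ j, cnt Φ j = 0 := by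
      by_contra h
      push Not at h
      exact hΦ (bad_ones _ fun j => Nat.one_le_iff_ne_zero.mpr (h j))
    obtain ⟨j, hj⟩ := this
    refine ⟨fun _ => j, by simp, fun x hx h => ?_⟩
    have := List.countP_eq_zero.mp hj x hx
    exact this (by simpa using h.symm)
  | succ k ih =>
    by_cases hA : Active lk k
    swap
    · obtain ⟨c, h1, h2⟩ := ih Φ hΦ
      refine ⟨c, fun j hj => ?_, h2⟩
      rcases Nat.lt_succ_iff_lt_or_eq.mp hj with h | rfl
      · exact h1 j h
      · exact fun h => absurd h hA
    set i := (lk k).1 with hi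
    set F := (lk k).2 with hF
    let S : G → Prop := fun v => ∃ tl, v.toWord = (k, false) :: tl
    let c1 : G → List (G × Fin 4) := fun v => [(of k * v, i)]
    let c4 : G → List (G × Fin 4) := fun v => F.map fun f => (f * v, i)
    have hnS : ∀ v, ¬ S v → (of k * v).toWord = (k, true) :: v.toWord := by
      intro v hv
      rcases toWord_cons (k, true) v with h | ⟨tl, h, -⟩
      · exact h
      · exact absurd ⟨tl, h⟩ hv
    have b4 : ∀ v, ∀ x ∈ c4 v, rep k x.1 = rep k v := by
      intro v x hx
      obtain ⟨f, hf, rfl⟩ := List.mem_map.mp hx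
      exact rep_mul k f (hA.2 f hf) v
    have b1 : ∀ v, ∀ x ∈ c1 v, rep k x.1 = rep k (of k * v) := by
      intro v x hx
      rw [List.mem_singleton.mp hx]
    have hrule : ∀ v (Φ Ψ : List (G × Fin 4)), ¬ Bad (fun j => cnt Φ j + cnt Ψ j) →
        Good (Φ ++ c1 v) ∨ Good (Ψ ++ c4 v) := by
      intro v Φ Ψ h
      by_contra hcon
      simp only [Good, not_or, not_not] at hcon
      refine h (cut i _ _ _ _ (fun j => ?_) (fun j => ?_) hcon.1 hcon.2)
      · rw [cnt_append]; exact Nat.add_le_add_left (cnt_one _ _ _) _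
      · rw [cnt_append]; exact Nat.add_le_add_left (cnt_map _ hA.1 _ _ _) _
    obtain ⟨Ψ, a1, a2, a3⟩ := forest (rep k) List.length
      (fun v => if S v then rep k v else rep k (of k * v))
      (fun v => if S v then rep k (of k * v) else rep k v)
      (by
        intro v w hvw
        by_cases hv : S v <;> by_cases hw : S w <;> simp only [hv, hw, if_true, if_false] at hvw
        · obtain ⟨t1, h1⟩ := hv
          obtain ⟨t2, h2⟩ := hw
          rw [rep_head k v _ _ h1, rep_head k w _ _ h2, ← h1, ← h2] at hvw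
          exact toWord_injective hvw
        · obtain ⟨t1, h1⟩ := hv
          rw [rep_head k v _ _ h1, rep_head k _ _ _ (hnS w hw)] at hvw
          simp at hvw
        · obtain ⟨t2, h2⟩ := hw
          rw [rep_head k w _ _ h2, rep_head k _ _ _ (hnS v hv)] at hvw
          simp at hvw
        · rw [rep_head k _ _ _ (hnS w hw), rep_head k _ _ _ (hnS v hv)] at hvw
          exact toWord_injective (List.cons.inj hvw).2)
      (fun v => if S v then c4 v else c1 v) (fun v => if S v then c1 v else c4 v)
      (by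
        intro v x hx
        by_cases hv : S v <;> simp only [hv, if_true, if_false] at hx ⊢
        · exact b1 v x hx
        · exact b4 v x hx)
      (by
        intro v
        by_cases hv : S v <;> simp only [hv, if_true, if_false]
        · obtain ⟨tl, h⟩ := hv
          have := rep_len k (of k * v)
          rw [toWord_cancel k v tl h] at this
          rw [rep_head k v _ _ h, List.length_cons]
          omega
        · have := rep_len k v
          rw [rep_head k _ _ _ (hnS v hv), List.length_cons]
          omega)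
      (by
        intro v
        by_cases hv : S v <;> simp only [hv, if_true, if_false]
        · simp [c1]
        · simpa [c4] using hA.1)
      (by
        intro v
        by_cases hv : S v <;> simp only [hv, if_true, if_false]
        · exact not_bad_axis i _ (cnt_map _ hA.1 _ _)
        · refine not_bad_axis i _ fun j => (cnt_one _ _ _).trans ?_
          split_ifs <;> omega)
      (by
        intro v Φ Ψ h
        by_cases hv : S v <;> simp only [hv, if_true, if_false]
        · exact (hrule v Ψ Φ (by simpa [add_comm] using h)).symm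
        · exact hrule v Φ Ψ h)
      Φ hΦ
    choose cc hc1 hc2 using fun r => ih (Ψ r) (a1 r)
    refine ⟨fun h => cc (rep k h) h, fun j hj => ?_, fun x hx => hc2 _ x (a2 x hx)⟩
    rcases Nat.lt_succ_iff_lt_or_eq.mp hj with h | rfl
    · intro hj' v f hf
      have e1 : rep k (of j * v) = rep k v := rep_single k (j, true) h v
      have e2 : rep k (f * v) = rep k v :=
        rep_mul k f (fun x hx => (hj'.2 f hf x hx).trans h) v
      simp only [e1, e2]
      exact hc1 _ j h hj' v f hf
    · rintro - v f hf ⟨h1, h2⟩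
      have m1 : (of j * v, i) ∈ c1 v := by simp [c1]
      have m4 : (f * v, i) ∈ c4 v := List.mem_map.mpr ⟨f, hf, rfl⟩
      have e2 : rep j (f * v) = rep j v := rep_mul j f (hA.2 f hf) v
      simp only [e2] at h2
      have := a3 v
      by_cases hv : S v <;> simp only [hv, if_true, if_false] at this
      · rcases this with h | ⟨h, -⟩
        · exact hc2 _ _ (h _ m4) h2
        · exact hc2 _ _ (h _ m1) h1
      · rcases this with h | ⟨h, -⟩
        · exact hc2 _ _ (h _ m1) h1
        · exact hc2 _ _ (h _ m4) h2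

theorem exists_col : ∃ c : G → Fin 4, ∀ j, Link lk j c := by
  have hnil : Good ([] : List (G × Fin 4)) := not_bad_axis 0 _ fun j => by simp [cnt]
  choose cc hc _ using fun k => inv lk k [] hnil
  let U := Filter.hyperfilter ℕ
  have h1 : ∀ h : G, ∃ i : Fin 4, ∀ᶠ k in (U : Filter ℕ), cc k h = i := by
    intro h
    exact Ultrafilter.eventually_exists_iff.mp (Filter.Eventually.of_forall fun k => ⟨_, rfl⟩)
  choose c hc' using h1
  refine ⟨c, fun j hA v f hf => ?_⟩
  have h2 : ∀ᶠ k in (U : Filter ℕ), j < k :=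
    Nat.hyperfilter_le_atTop (Filter.eventually_gt_atTop j)
  obtain ⟨k, ⟨k1, k2⟩, k3⟩ := (((hc' (of j * v)).and (hc' (f * v))).and h2).exists
  rw [← k1, ← k2]
  exact hc k j k3 hA v f hf

theorem main : ∃ c : G → Fin 4, ∀ (i : Fin 4) (F : List G), F.length ≤ 4 →
    ∃ t : G, ∀ v, ∀ f ∈ F, ¬ (c (t * v) = i ∧ c (f * v) = i) := by
  have : Countable G := toWord_injective.countable
  obtain ⟨e, he⟩ := exists_surjective_nat (Fin 4 × List G)
  obtain ⟨c, hc⟩ := exists_col (fun k => e (Nat.unpair k).1)
  refine ⟨c, fun i F hF => ?_⟩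
  obtain ⟨n, hn⟩ := he (i, F)
  obtain ⟨N, hN⟩ : ∃ N : ℕ, ∀ f ∈ F, ∀ x ∈ f.toWord, x.1 < N := by
    obtain ⟨N, hN⟩ := ((F.flatMap fun f => f.toWord.map Prod.fst).toFinset.finite_toSet).bddAbove
    refine ⟨N + 1, fun f hf x hx => Nat.lt_succ_of_le (hN ?_)⟩
    simp only [List.coe_toFinset, List.mem_flatMap, List.mem_map, Set.mem_setOf_eq]
    exact ⟨f, hf, x, hx, rfl⟩
  have h := hc (Nat.pair n N)
  unfold Link Active at h
  simp only [Nat.unpair_pair, hn] at h
  exact ⟨_, h ⟨hF, fun f hf x hx => (hN f hf x hx).trans_le (Nat.right_le_pair n N)⟩⟩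

end Pool.Agent.H15.Prot
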