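import Mathlib

set_option autoImplicit false

namespace Pool.Agent.H15.QP

variable {G : Type} [Group G]

noncomputable def gp (L : G → ℝ) (a b : G) : ℝ := (L a + L b - L (a⁻¹ * b)) / 2

structure Hyp (L : G → ℝ) (δ : ℝ) : Prop where
  mul : ∀ a b, L (a * b) ≤ L a + L b
  inv : ∀ a, L a⁻¹ = L a
  one : L 1 = 0
  hyp : ∀ x y z, min (gp L x y) (gp L y z) - δ ≤ gp L x z

namespace Hyp
variable {L : G → ℝ} {δ : ℝ} (H : Hyp L δ)
include H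

lemma d0 : 0 ≤ δ := by have := H.hyp 1 1 1; simpa using this

lemma nn (a : G) : 0 ≤ L a := by
  have := H.mul a a⁻¹
  rw [mul_inv_cancel, H.one, H.inv] at this
  linarith

lemma pert (x y k k' : G) : gp L x y - L k - L k' ≤ gp L (x * k) (y * k') := by
  have a1 := H.mul (x * k) k⁻¹
  have a2 := H.mul (y * k') k'⁻¹
  have a3 := H.mul (k⁻¹ * (x⁻¹ * y)) k'
  have a4 := H.mul k⁻¹ (x⁻¹ * y)
  rw [mul_inv_cancel_right, H.inv] at a1 a2
  rw [H.inv] at a4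
  unfold gp
  rw [show (x * k)⁻¹ * (y * k') = k⁻¹ * (x⁻¹ * y) * k' by group]
  linarith

lemma pw (t : G) (n : ℕ) : L (t ^ n) ≤ n * L t := by
  induction n with
  | zero => simp [H.one]
  | succ n ih => have := H.mul (t ^ n) t; rw [← pow_succ] at this; push_cast; linarith

lemma big (u : G) (ε F M : ℝ) (hε : 0 < ε) (h : ∀ n : ℕ, ε * n - F ≤ L (u ^ n)) :
    ∃ p : ℕ, 0 < p ∧ L (u ^ p) + M ≤ L ((u ^ p) ^ 2) := by
  by_contra! h'
  have : ∀ j : ℕ, L (u ^ 2 ^ j) ≤ L u + j * M := by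
    intro j
    induction j with
    | zero => simp
    | succ j ih =>
      have := h' (2 ^ j) (by positivity)
      rw [← pow_mul, ← pow_succ] at this
      push_cast
      linarith
  obtain ⟨i, hi⟩ := exists_nat_gt ((|F + L u| + 2 * |M|) / ε)
  rw [div_lt_iff₀ hε] at hi
  have a1 := (h _).trans (this (2 * (i + 1)))
  have a2 : ((i + 1 : ℕ) : ℝ) ^ 2 ≤ (2 ^ (2 * (i + 1)) : ℕ) := by
    rw [mul_comm, pow_mul]
    exact_mod_cast Nat.pow_le_pow_left Nat.lt_two_pow_self.le 2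
  have a3 := mul_le_mul_of_nonneg_left a2 hε.le
  have a4 := le_abs_self (F + L u)
  have a5 := le_abs_self M
  have a6 := abs_nonneg (F + L u)
  have a7 : (0 : ℝ) ≤ i := i.cast_nonneg
  push_cast at a1 a3
  nlinarith

lemma chain (s : G) (h : L s + (4 * δ + 1) ≤ L (s ^ 2)) :
    (∀ n : ℕ, (n : ℝ) ≤ L (s ^ n)) ∧
      ∃ E, 0 ≤ E ∧ ∀ n m : ℕ, L (s ^ n) + L (s ^ m) - E ≤ L (s ^ (n + m)) := by
  have d := H.d0
  have h2 : L (s ^ 2) ≤ 2 * L s := by simpa using H.pw s 2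
  have c1 : ∀ n : ℕ, L (s ^ n) + L s - L (s ^ (n + 1)) ≤ 2 * L s - L (s ^ 2) + 2 * δ := by
    intro n
    induction n with
    | zero => simp [H.one]; linarith
    | succ n ih =>
      have := H.hyp s⁻¹ (s ^ (n + 1))⁻¹ s
      unfold gp at this
      rw [H.inv, H.inv, inv_inv, inv_inv, ← pow_succ, ← pow_two,
        show s * (s ^ (n + 1))⁻¹ = (s ^ n)⁻¹ by group, H.inv] at this
      rcases min_le_iff.1 (sub_le_iff_le_add.1 this) with h | h <;> linarith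
  refine ⟨fun n => ?_, 2 * L s - L (s ^ 2) + 4 * δ, by linarith, fun n m => ?_⟩
  · induction n with
    | zero => simp [H.one]
    | succ n ih => have := c1 n; push_cast; linarith
  · rcases m with _ | m
    · simp [H.one]; linarith
    have := H.hyp (s ^ n)⁻¹ (s ^ (m + 1)) s
    unfold gp at this
    rw [H.inv, inv_inv, ← pow_succ, ← pow_add,
      show (s ^ (m + 1))⁻¹ * s = (s ^ m)⁻¹ by group, H.inv] at this
    have := c1 n
    have := c1 m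
    rcases min_le_iff.1 (sub_le_iff_le_add.1 ‹min _ _ - δ ≤ _›) with h | h <;> linarith

lemma contr (s k : G) (E F : ℝ) (hE : ∀ n m : ℕ, L (s ^ n) + L (s ^ m) - E ≤ L (s ^ (n + m)))
    (m j : ℕ) (hF : L ((s ^ (j + m))⁻¹ * k * s ^ (j + m)) ≤ F) :
    L ((s ^ m)⁻¹ * k * s ^ m) ≤ 3 * F + E + 4 * δ ∨
    L ((s ^ m)⁻¹ * k * s ^ m) ≤ L k - 2 * L (s ^ m) + 2 * E + 2 * F + 4 * δ := by
  have d := H.d0
  have f0 := (H.nn _).trans hF
  set z := s ^ (j + m) with hz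
  have b1 := H.hyp (s ^ j)⁻¹ z⁻¹ (z⁻¹ * k)
  have b2 := H.hyp (s ^ j)⁻¹ (z⁻¹ * k) (z⁻¹ * k * s ^ m)
  have c1 := H.mul (z⁻¹ * k * z)⁻¹ (z⁻¹ * k)
  have c2 := H.mul (z⁻¹ * k * z)⁻¹ (z⁻¹ * k * s ^ m)
  have c3 := H.mul (z⁻¹ * k * z) (s ^ j)⁻¹
  rw [H.inv, show (z⁻¹ * k * z)⁻¹ * (z⁻¹ * k) = z⁻¹ by group, H.inv] at c1
  rw [H.inv, show (z⁻¹ * k * z)⁻¹ * (z⁻¹ * k * s ^ m) = (s ^ j)⁻¹ by rw [hz]; group, H.inv] at c2
  rw [H.inv, show z⁻¹ * k * z * (s ^ j)⁻¹ = z⁻¹ * k * s ^ m by rw [hz]; group] at c3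
  have e1 : gp L (s ^ j)⁻¹ z⁻¹ = (L (s ^ j) + L z - L (s ^ m)) / 2 := by
    rw [gp, show (s ^ j)⁻¹⁻¹ * z⁻¹ = (s ^ m)⁻¹ by rw [hz]; group, H.inv, H.inv, H.inv]
  have e2 : gp L z⁻¹ (z⁻¹ * k) = (L z + L (z⁻¹ * k) - L k) / 2 := by
    rw [gp, show z⁻¹⁻¹ * (z⁻¹ * k) = k by group, H.inv]
  have e3 : gp L (z⁻¹ * k) (z⁻¹ * k * s ^ m) =
      (L (z⁻¹ * k) + L (z⁻¹ * k * s ^ m) - L (s ^ m)) / 2 := by
    rw [gp, inv_mul_cancel_left]
  have e4 : gp L (s ^ j)⁻¹ (z⁻¹ * k * s ^ m) =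
      (L (s ^ j) + L (z⁻¹ * k * s ^ m) - L ((s ^ m)⁻¹ * k * s ^ m)) / 2 := by
    rw [gp, show (s ^ j)⁻¹⁻¹ * (z⁻¹ * k * s ^ m) = (s ^ m)⁻¹ * k * s ^ m by rw [hz]; group, H.inv]
  have := hE j m
  rw [e1, e2] at b1
  rw [e3, e4] at b2
  rcases min_le_iff.1 (sub_le_iff_le_add.1 b1) with h | h <;>
    rcases min_le_iff.1 (sub_le_iff_le_add.1 b2) with h' | h'
  · left; linarith
  · left; linarith
  · right; linarith
  · left; linarith

lemma ends (t : G) (p : ℕ) (hp : 0 < p) (h : L (t ^ p) + (4 * δ + 1) ≤ L ((t ^ p) ^ 2)) (K : ℝ) :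
    ∃ N : ℕ, ∀ a b : ℕ, N ≤ a → N ≤ b → K ≤ gp L (t ^ a) (t ^ b) := by
  obtain ⟨h1, E, h0, h2⟩ := H.chain _ h
  obtain ⟨i, hi⟩ := exists_nat_ge (K + E + 2 * (p * L t))
  have k : ∀ a b : ℕ, i ≤ a → a ≤ b → i - E ≤ gp L ((t ^ p) ^ a) ((t ^ p) ^ b) ∧
      i - E ≤ gp L ((t ^ p) ^ b) ((t ^ p) ^ a) := by
    intro a b ha hb
    obtain ⟨c, rfl⟩ := Nat.exists_eq_add_of_le hb
    have := h2 a c
    have := h1 a
    have : (i : ℝ) ≤ a := by exact_mod_cast ha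
    unfold gp
    generalize t ^ p = s at *
    rw [show (s ^ a)⁻¹ * s ^ (a + c) = s ^ c by group,
      show (s ^ (a + c))⁻¹ * s ^ a = (s ^ c)⁻¹ by group, H.inv]
    constructor <;> linarith
  have r : ∀ a : ℕ, L (t ^ (a % p)) ≤ p * L t := fun a => (H.pw _ _).trans
    (mul_le_mul_of_nonneg_right (by exact_mod_cast (Nat.mod_lt a hp).le) (H.nn t))
  refine ⟨i * p, fun a b ha hb => ?_⟩
  have := H.pert ((t ^ p) ^ (a / p)) ((t ^ p) ^ (b / p)) (t ^ (a % p)) (t ^ (b % p))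
  rw [← pow_mul t p (a / p), ← pow_mul t p (b / p), ← pow_add, ← pow_add, Nat.div_add_mod,
    Nat.div_add_mod, pow_mul, pow_mul] at this
  rw [← Nat.le_div_iff_mul_le hp] at ha hb
  have := r a
  have := r b
  rcases le_total (a / p) (b / p) with h | h
  · have := (k _ _ ha h).1; linarith
  · have := (k _ _ hb h).2; linarith

end Hyp

def SE (L : G → ℝ) (a b : G) : Prop :=
  ∀ K : ℝ, ∃ N : ℕ, ∀ n m : ℕ, N ≤ n → N ≤ m → K ≤ gp L (a ^ n) (b ^ m)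

lemma Hyp.se {L : G → ℝ} {δ : ℝ} (H : Hyp L δ) (t : G) (p : ℕ) (hp : 0 < p)
    (h : L (t ^ p) + (4 * δ + 1) ≤ L ((t ^ p) ^ 2)) (g g' : G) (c c' : ℕ) (hc : 0 < c)
    (hc' : 0 < c') (B B' : ℝ) (h1 : ∀ n : ℕ, L ((t ^ (c * n))⁻¹ * g ^ n) ≤ B)
    (h2 : ∀ n : ℕ, L ((t ^ (c' * n))⁻¹ * g' ^ n) ≤ B') : SE L g g' := by
  intro K
  obtain ⟨N, hN⟩ := H.ends t p hp h (K + B + B')
  refine ⟨N, fun n m hn hm => ?_⟩
  have := H.pert (t ^ (c * n)) (t ^ (c' * m)) ((t ^ (c * n))⁻¹ * g ^ n) ((t ^ (c' * m))⁻¹ * g' ^ m)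
  rw [mul_inv_cancel_left, mul_inv_cancel_left] at this
  have := hN (c * n) (c' * m) (hn.trans (Nat.le_mul_of_pos_left _ hc))
    (hm.trans (Nat.le_mul_of_pos_left _ hc'))
  have := h1 n
  have := h2 m
  linarith

open Pointwise

noncomputable def len (S : Set G) (g : G) : ℕ := sInf {n : ℕ | g ∈ (S ∪ S⁻¹) ^ n}

lemma len_le {S : Set G} {g : G} {n : ℕ} (h : g ∈ (S ∪ S⁻¹) ^ n) : len S g ≤ n := Nat.sInf_le h

lemma len_mem {S : Set G} (h : Subgroup.closure S = ⊤) (g : G) : g ∈ (S ∪ S⁻¹) ^ len S g := by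
  refine Nat.sInf_mem (s := {n : ℕ | g ∈ (S ∪ S⁻¹) ^ n}) ?_
  have : g ∈ Subgroup.closure S := h ▸ trivial
  induction this using Subgroup.closure_induction_left with
  | one => exact ⟨0, by simp⟩
  | mul_left x hx y _ ih =>
    obtain ⟨n, hn⟩ := ih
    exact ⟨n + 1, by rw [Set.mem_setOf_eq, pow_succ']; exact Set.mul_mem_mul (Or.inl hx) hn⟩
  | inv_mul_cancel x hx y _ ih =>
    obtain ⟨n, hn⟩ := ih
    exact ⟨n + 1, by
      rw [Set.mem_setOf_eq, pow_succ']; exact Set.mul_mem_mul (Or.inr (by simpa using hx)) hn⟩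

lemma len_mul {S : Set G} (h : Subgroup.closure S = ⊤) (a b : G) :
    len S (a * b) ≤ len S a + len S b :=
  len_le (by rw [pow_add]; exact Set.mul_mem_mul (len_mem h a) (len_mem h b))

lemma len_inv (S : Set G) (a : G) : len S a⁻¹ = len S a := by
  unfold len
  congr 1
  ext n
  rw [Set.mem_setOf_eq, ← Set.mem_inv, ← inv_pow, Set.union_inv, inv_inv, Set.union_comm]
  rfl

lemma len_one (S : Set G) : len S 1 = 0 := Nat.le_zero.1 (len_le (by simp))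

lemma len_gen {S : Set G} {a : G} (h : a ∈ S) : len S a ≤ 1 := len_le (by simp [h])

end Pool.Agent.H15.QP
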