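import Mathlib
import Pool.Agent.H15.QP1
import Pool.Agent.H15.Berg

set_option autoImplicit false

namespace Pool.Agent.H15.QP

open Equiv Set Pointwise

def GG : Subgroup (Perm ℤ) where
  carrier := {σ | ∃ c n : ℤ, ∀ x > n, σ x = x + c}
  one_mem' := ⟨0, 0, fun x _ => by simp⟩
  mul_mem' := by
    rintro a b ⟨c, n, h⟩ ⟨c', n', h'⟩
    refine ⟨c' + c, max n' (n - c'), fun x hx => ?_⟩
    rw [Perm.mul_apply, h' x (by omega), h _ (by omega), add_assoc]
  inv_mem' := by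
    rintro a ⟨c, n, h⟩
    refine ⟨-c, n + c, fun x hx => Perm.inv_eq_iff_eq.2 ?_⟩
    rw [h _ (by omega)]
    ring

def Tr (a : GG) (c n : ℤ) : Prop := ∀ x > n, a.1 x = x + c

def t : GG := ⟨Equiv.addRight 1, 1, 0, fun _ _ => rfl⟩

def sw (x y : ℤ) : GG := ⟨swap x y, 0, max x y, fun z hz => by
  rw [swap_apply_of_ne_of_ne (by omega) (by omega), add_zero]⟩

lemma ap (a b : GG) (x : ℤ) : (a * b).1 x = a.1 (b.1 x) := rfl
lemma tz (m x : ℤ) : (t ^ m).1 x = x + m := by simp [t]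
lemma tn (m : ℕ) (x : ℤ) : (t ^ m).1 x = x + m := by simp [t]
lemma tni (m : ℕ) (x : ℤ) : (t ^ m)⁻¹.1 x = x - m := by
  rw [← zpow_natCast, ← zpow_neg, tz, sub_eq_add_neg]
lemma ex_tr (a : GG) : ∃ c n, Tr a c n := a.2
lemma Tr.mul {a b : GG} {c n c' n' : ℤ} (h : Tr a c n) (h' : Tr b c' n') :
    Tr (a * b) (c + c') (max n' (n - c')) := fun x hx => by
  rw [ap, h' x (by omega), h _ (by omega)]; ring
lemma Tr.inv {a : GG} {c n : ℤ} (h : Tr a c n) : Tr a⁻¹ (-c) (n + c) := fun x hx =>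
  Perm.inv_eq_iff_eq.2 (by rw [h _ (by omega)]; ring)
lemma Tr.mono {a : GG} {c n n' : ℤ} (h : Tr a c n) (h' : n ≤ n') : Tr a c n' :=
  fun x hx => h x (by omega)
lemma Tr.uniq {a : GG} {c n c' n' : ℤ} (h : Tr a c n) (h' : Tr a c' n') : c = c' := by
  have := (h (max n n' + 1) (by omega)).symm.trans (h' _ (by omega))
  omega
lemma Tr.pow {a : GG} {c n : ℤ} (h : Tr a c n) (hc : 0 ≤ c) (m : ℕ) : Tr (a ^ m) (c * m) n := by
  induction m with
  | zero => intro x _; simp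
  | succ m ih =>
    intro x hx
    rw [pow_succ, ap, h x hx, ih _ (by omega)]
    push_cast
    ring
lemma Tr.pow' {a : GG} {c n : ℤ} (h : Tr a c n) (m : ℕ) : ∃ n', Tr (a ^ m) (c * m) n' := by
  induction m with
  | zero => exact ⟨0, fun x _ => by simp⟩
  | succ m ih =>
    obtain ⟨n', ih⟩ := ih
    have := ih.mul h
    rw [← pow_succ] at this
    exact ⟨_, by simpa [mul_add] using this⟩
lemma Tr.le {a : GG} {n x : ℤ} (h : Tr a 0 n) (hx : x ≤ n) : a.1 x ≤ n :=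
  Berg.fix_mem (S := Iic n) (fun y hy => by simpa using h y (not_le.1 hy)) hx
lemma Tr.conj {a : GG} {n : ℤ} (h : Tr a 0 n) (m : ℕ) : Tr ((t ^ m)⁻¹ * a * t ^ m) 0 (n - m) :=
  fun x hx => by rw [ap, ap, tn, h _ (by omega), tni]; ring
lemma sw_conj (a : GG) (x y : ℤ) : sw (a.1 x) (a.1 y) = a * sw x y * a⁻¹ :=
  Subtype.ext (swap_apply_apply a.1 x y)

lemma bdd (l : GG → ℕ) (hm : ∀ a b, l (a * b) ≤ l a + l b) (hi : ∀ a, l a⁻¹ = l a) (n : ℤ) :
    ∃ F : ℕ, ∀ k, Tr k 0 n → l k ≤ F := by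
  have : Infinite {x : ℤ // x ≤ n} := (Iic_infinite n).to_subtype
  let ι : Perm {x : ℤ // x ≤ n} →* GG := (Perm.ofSubtype).codRestrict GG fun σ =>
    ⟨0, n, fun x hx => by rw [Perm.ofSubtype_apply_of_not_mem σ (not_le.2 hx), add_zero]⟩
  obtain ⟨F, hF⟩ := Berg.bergman (fun σ => l (ι σ)) (fun a b => by simp only [map_mul, hm])
    fun a => by simp only [map_inv, hi]
  refine ⟨F, fun k hk => ?_⟩
  have h1 : ∀ x, k.1 x ≤ n ↔ x ≤ n := fun x =>
    ⟨fun h => by_contra fun h' => by have := hk x (by omega); omega, hk.le⟩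
  have := hF (k.1.subtypePerm h1)
  rwa [show ι (k.1.subtypePerm h1) = k from Subtype.ext (Perm.ofSubtype_subtypePerm h1
    fun x hx => by_contra fun h => hx (by simpa using hk x (by omega)))] at this

lemma gen (A : Set GG) (hi : ∀ a ∈ A, a⁻¹ ∈ A) (h0 : ∀ k, Tr k 0 0 → k ∈ A)
    (h : ∀ n : ℤ, ∃ a ∈ A, Tr a 0 n ∧ a.1 n ≠ n) (n : ℕ) :
    ∀ k, Tr k 0 n → k ∈ A ^ (16 * (n + 1) ^ 2) := by
  have h1 : (1 : GG) ∈ A := h0 _ fun x _ => by simp
  have mo : ∀ {k : GG} {a : ℕ} (b : ℕ), k ∈ A ^ a → a ≤ b → k ∈ A ^ b :=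
    fun b hk hab => Set.pow_subset_pow_right h1 hab hk
  have mu : ∀ {k k' : GG} {a b : ℕ}, k ∈ A ^ a → k' ∈ A ^ b → k * k' ∈ A ^ (a + b) :=
    fun hk hk' => by rw [pow_add]; exact mul_mem_mul hk hk'
  have o : ∀ {k : GG}, k ∈ A → k ∈ A ^ 1 := fun h => by rwa [pow_one]
  have s0 : ∀ x y : ℤ, x ≤ 0 → y ≤ 0 → sw x y ∈ A := fun x y hx hy => h0 _ fun z hz => by
    show swap x y z = _
    rw [swap_apply_of_ne_of_ne (by omega) (by omega), add_zero]
  have T : ∀ n : ℕ, ∀ x ≤ (n : ℤ), ∀ y ≤ 0, sw x y ∈ A ^ (4 * n + 1) := by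
    intro n
    induction n with
    | zero => exact fun x hx y hy => o (s0 x y hx hy)
    | succ n ih =>
      intro x hx y hy
      rcases hx.eq_or_lt with rfl | hx
      swap
      · exact mo _ (ih x (by push_cast at hx; omega) y hy) (by omega)
      obtain ⟨a, a1, a2, a3⟩ := h (n + 1 : ℕ)
      obtain ⟨z, z1, z2⟩ := (Iic_infinite (0 : ℤ)).exists_notMem_finite
        ((finite_Ioc (0 : ℤ) (n + 1 : ℕ)).preimage a.1.injective.injOn)
      have z1 : z ≤ 0 := z1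
      have z3 := a2.le (x := z) (by omega)
      have z4 := a2.le le_rfl
      have z5 : a.1 z ≤ 0 := by_contra fun h => z2 ⟨not_le.1 h, z3⟩
      have e1 := ih (a.1 (n + 1 : ℕ)) (by push_cast at *; omega) _ z5
      have e2 := mu (mu (o (hi _ a1)) e1) (o a1)
      rw [sw_conj, show a⁻¹ * (a * sw (n + 1 : ℕ) z * a⁻¹) * a = sw (n + 1 : ℕ) z by group] at e2
      have e3 := mu (mu (o (s0 z y z1 hy)) e2) (o (hi _ (s0 z y z1 hy)))
      rw [← sw_conj] at e3
      have f1 : (sw z y).1 (n + 1 : ℕ) = (n + 1 : ℕ) :=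
        swap_apply_of_ne_of_ne (by omega) (by omega)
      have f2 : (sw z y).1 z = y := swap_apply_left _ _
      rw [f1, f2] at e3
      exact mo _ e3 (by omega)
  induction n with
  | zero => exact fun k hk => mo _ (o (h0 k hk)) (by omega)
  | succ n ih =>
    intro k hk
    have y1 := hk.le le_rfl
    set x : ℤ := ((n + 1 : ℕ) : ℤ) with hx
    have e1 : sw x (k.1 x) ∈ A ^ (3 * (4 * (n + 1) + 1)) := by
      by_cases c1 : k.1 x ≤ 0
      · exact mo _ (T _ x le_rfl _ c1) (by omega)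
      by_cases c2 : k.1 x = x
      · rw [c2, show sw x x = 1 from Subtype.ext (swap_self x)]
        exact mo _ (o h1) (by omega)
      have e := T _ _ y1 0 le_rfl
      have e' := mu (mu e (T _ x le_rfl 0 le_rfl)) e
      have f1 : (sw (k.1 x) 0).1 x = x := swap_apply_of_ne_of_ne (Ne.symm c2) (by omega)
      have f2 : (sw (k.1 x) 0).1 0 = k.1 x := swap_apply_right _ _
      have f3 := sw_conj (sw (k.1 x) 0) x 0
      rw [f1, f2, show (sw (k.1 x) 0)⁻¹ = sw (k.1 x) 0 from Subtype.ext (swap_inv _ _)] at f3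
      exact mo _ (f3 ▸ e') (by omega)
    have e2 := ih (sw x (k.1 x) * k) fun z hz => by
      show swap x (k.1 x) (k.1 z) = _
      rcases eq_or_ne z x with rfl | h
      · rw [swap_apply_right, add_zero]
      · rw [hk z (by omega), swap_apply_of_ne_of_ne (by omega) (by omega)]
    have e3 := mu e1 e2
    rw [← mul_assoc, show sw x (k.1 x) * sw x (k.1 x) = 1 from
      Subtype.ext (swap_mul_self _ _), one_mul] at e3
    exact mo _ e3 (by nlinarith)

lemma exq (r u : ℕ) : ∃ q, 16 * (r + q * u + 1) ^ 2 ≤ 2 ^ q := by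
  set C := 16 * (r + u + 1) ^ 2
  refine ⟨3 * (9 * C + 1), ?_⟩
  set j := 9 * C + 1 with hj
  have h1 : j ^ 3 ≤ 2 ^ (3 * j) := by
    rw [mul_comm, pow_mul]
    exact Nat.pow_le_pow_left Nat.lt_two_pow_self.le 3
  have h2 : r + 3 * j * u + 1 ≤ (r + u + 1) * (3 * j) := by nlinarith [Nat.zero_le (r * C)]
  calc 16 * (r + 3 * j * u + 1) ^ 2 ≤ 16 * ((r + u + 1) * (3 * j)) ^ 2 := by gcongr
    _ = 9 * C * j ^ 2 := by simp only [C]; ring
    _ ≤ j * j ^ 2 := by gcongr; omega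
    _ = j ^ 3 := by ring
    _ ≤ _ := h1

section
variable {L : GG → ℝ} {δ : ℝ} (H : Hyp L δ) (hb : ∀ n, ∃ F : ℝ, ∀ k, Tr k 0 n → L k ≤ F)
include H hb

lemma heights (p : ℕ) (hp : 0 < p) (h : L (t ^ p) + (4 * δ + 1) ≤ L ((t ^ p) ^ 2))
    (hN : ¬ ∃ B, ∀ k n, Tr k 0 n → L k ≤ B) (B : ℝ) :
    ∃ n, ∀ k n', Tr k 0 n' → L k ≤ B → Tr k 0 n := by
  by_contra! hB
  obtain ⟨h1, E, E0, h2⟩ := H.chain _ h
  obtain ⟨F, hF⟩ := hb 0
  have F0 : 0 ≤ F := H.one ▸ hF 1 fun x _ => by simp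
  have d0 := H.d0
  set R := 3 * F + E + 4 * δ with hR
  let c : ℕ → GG → GG := fun m k => (t ^ m)⁻¹ * k * t ^ m
  have cc : ∀ m m' k, c m (c m' k) = c (m' + m) k := fun m m' k => by simp only [c]; group
  have cm : ∀ m k k', c m (k * k') = c m k * c m k' := fun m k k' => by simp only [c]; group
  let A : Set GG := {k | (∃ n, Tr k 0 n) ∧ ∀ m, L (c (p * m) k) ≤ R}
  have shr : ∀ B, ∃ m0, ∀ m ≥ m0, ∀ k n, Tr k 0 n → L k ≤ B → c (p * m) k ∈ A := fun B => by
    obtain ⟨m0, h0⟩ := exists_nat_ge (B + E)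
    refine ⟨m0, fun m hm k n hk hL => ⟨⟨_, hk.conj _⟩, fun m' => ?_⟩⟩
    rw [cc, ← mul_add]
    have := H.contr (t ^ p) k E F h2 (m + m') n.toNat (by
      rw [← pow_mul]
      refine hF _ ((hk.conj _).mono ?_)
      have := Nat.le_mul_of_pos_left (n.toNat + (m + m')) hp
      omega)
    have a := h1 (m + m')
    have b : (m0 : ℝ) ≤ (m + m' : ℕ) := by exact_mod_cast hm.trans (Nat.le_add_right _ _)
    have b' : (0 : ℝ) ≤ m0 := m0.cast_nonneg
    rw [← pow_mul] at this a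
    rcases this with h | h
    · exact h
    · show L ((t ^ (p * (m + m')))⁻¹ * k * t ^ (p * (m + m'))) ≤ R
      linarith
  have A0 : ∀ k, Tr k 0 0 → k ∈ A := fun k hk => ⟨⟨0, hk⟩, fun m =>
    (hF _ ((hk.conj _).mono (by omega))).trans (by linarith)⟩
  have Ai : ∀ a ∈ A, a⁻¹ ∈ A := by
    rintro a ⟨⟨n, hn⟩, h⟩
    refine ⟨⟨_, by simpa using hn.inv⟩, fun m => ?_⟩
    rw [show c (p * m) a⁻¹ = (c (p * m) a)⁻¹ by simp only [c]; group, H.inv]
    exact h m
  have Ah : ∀ n : ℤ, ∃ a ∈ A, Tr a 0 n ∧ a.1 n ≠ n := fun n => by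
    obtain ⟨m0, hm⟩ := shr (B + 2 * (p * L t))
    obtain ⟨k, n', k1, k2, k3⟩ := hB (n + p * m0)
    obtain ⟨z, z1, z2⟩ := Int.exists_greatest_of_bdd (P := fun x => k.1 x ≠ x)
      ⟨n', fun x hx => by_contra fun h => hx (by simpa using k1 x (by omega))⟩ (by
        by_contra! h
        exact k3 fun x _ => by simp [h])
    have k4 : Tr k 0 z := fun x hx => by_contra fun h => by
      have := z2 x (by simpa using h); omega
    have k5 : n + p * m0 < z := not_le.1 fun h => k3 (k4.mono h)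
    obtain ⟨u, hu⟩ : ∃ u : ℕ, z - n = u :=
      Int.eq_ofNat_of_zero_le (by have : (0 : ℤ) ≤ p * m0 := by positivity
                                  omega)
    have r := (H.pw t (u % p)).trans
      (mul_le_mul_of_nonneg_right (by exact_mod_cast (Nat.mod_lt u hp).le : _ ≤ (p : ℝ)) (H.nn t))
    have := hm (u / p) ((Nat.le_div_iff_mul_le hp).2 (by
      have : ((m0 * p : ℕ) : ℤ) ≤ u := by push_cast; linarith
      exact_mod_cast this)) (c (u % p) k) _ (k4.conj _) (by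
      have a1 := H.mul ((t ^ (u % p))⁻¹ * k) (t ^ (u % p))
      have a2 := H.mul (t ^ (u % p))⁻¹ k
      rw [H.inv] at a2
      simp only [c]
      linarith)
    rw [cc, Nat.mod_add_div] at this
    refine ⟨_, this, (k4.conj u).mono (by omega), fun h => z1 ?_⟩
    rw [ap, ap, tn, tni, show n + u = z by omega] at h
    omega
  obtain ⟨m0, hm⟩ := shr (2 * R)
  have dbl : ∀ q, ∀ k ∈ A ^ 2 ^ q, c (q * (p * m0)) k ∈ A := by
    intro q
    induction q with
    | zero => simp [c]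
    | succ q ih =>
      intro k hk
      rw [pow_succ, mul_two, pow_add] at hk
      obtain ⟨a, ha, b, hb, rfl⟩ := hk
      obtain ⟨⟨n1, a1⟩, a2⟩ := ih a ha
      obtain ⟨⟨n2, b1⟩, b2⟩ := ih b hb
      have := hm m0 le_rfl _ _ (by simpa using a1.mul b1) (by
        have := H.mul (c (q * (p * m0)) a) (c (q * (p * m0)) b)
        have a3 := a2 0
        have b3 := b2 0
        rw [cc] at a3 b3
        simp only [mul_zero, add_zero] at a3 b3
        linarith)
      rwa [← cm, cc, ← add_one_mul] at this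
  refine hN ⟨R, fun k n hk => ?_⟩
  obtain ⟨q, hq⟩ := exq n.toNat (p * m0)
  have := dbl q _ (Set.pow_subset_pow_right (A0 1 fun x _ => by simp) hq
    (gen A Ai A0 Ah _ (t ^ (q * (p * m0)) * k * (t ^ (q * (p * m0)))⁻¹) fun x hx => by
      rw [ap, ap, tni, hk _ (by push_cast at hx ⊢; omega), tn]; ring))
  simpa [c, mul_assoc] using this.2 0

end

end Pool.Agent.H15.QP
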