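import Mathlib
import Pool.Agent.H15.QP2

set_option autoImplicit false

namespace Pool.Agent.H15.QP

open Equiv Set Pointwise

def Lox {G : Type} [Group G] (L : G → ℝ) (g : G) : Prop :=
  ∃ c : ℝ, 0 < c ∧ ∀ n : ℕ, c * (n : ℝ) ≤ L (g ^ n)

lemma Tr.cor {g : GG} {c : ℕ} {n : ℤ} (h : Tr g c n) (m : ℕ) :
    Tr ((t ^ (c * m))⁻¹ * g ^ m) 0 n := fun x hx => by
  rw [ap, h.pow c.cast_nonneg m x hx, tni]
  push_cast
  ring

section
variable {L : GG → ℝ} {δ : ℝ} (H : Hyp L δ) (hb : ∀ n, ∃ F : ℝ, ∀ k, Tr k 0 n → L k ≤ F)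
include H hb

lemma lox1 {g : GG} (hg : Lox L g) {c : ℕ} {n : ℤ} (h : Tr g c n) :
    0 < c ∧ ∃ p, 0 < p ∧ L (t ^ p) + (4 * δ + 1) ≤ L ((t ^ p) ^ 2) := by
  obtain ⟨ε, e0, he⟩ := hg
  obtain ⟨F, hF⟩ := hb n
  obtain ⟨p, p0, hp⟩ := H.big (t ^ c) ε F (4 * δ + 1) e0 fun m => by
    have := H.mul (t ^ (c * m)) ((t ^ (c * m))⁻¹ * g ^ m)
    rw [mul_inv_cancel_left] at this
    have := hF _ (h.cor m)
    have := he m
    rw [← pow_mul]
    linarith
  have c0 : 0 < c := Nat.pos_of_ne_zero fun h => by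
    have := H.d0
    simp [h] at hp
    linarith
  exact ⟨c0, c * p, by positivity, by rwa [pow_mul]⟩

lemma lox2 {g : GG} (hg : Lox L g) : (∃ c : ℕ, 0 < c ∧ ∃ n, Tr g c n ∨ Tr g⁻¹ c n) ∧
    ∃ p, 0 < p ∧ L (t ^ p) + (4 * δ + 1) ≤ L ((t ^ p) ^ 2) := by
  obtain ⟨c, n, h⟩ := ex_tr g
  obtain ⟨c, rfl | rfl⟩ := Int.eq_nat_or_neg c
  · exact ⟨⟨c, (lox1 H hb hg h).1, n, Or.inl h⟩, (lox1 H hb hg h).2⟩
  · have h' := h.inv
    rw [neg_neg] at h'
    have hg' : Lox L g⁻¹ := by simpa only [Lox, inv_pow, H.inv] using hg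
    exact ⟨⟨c, (lox1 H hb hg' h').1, _, Or.inr h'⟩, (lox1 H hb hg' h').2⟩

lemma share {p : ℕ} (hp : 0 < p) (h : L (t ^ p) + (4 * δ + 1) ≤ L ((t ^ p) ^ 2)) {g g' : GG}
    {c c' : ℕ} {n n' : ℤ} (hc : 0 < c) (hc' : 0 < c') (h1 : Tr g c n) (h2 : Tr g' c' n') :
    SE L g g' := by
  obtain ⟨F, hF⟩ := hb n
  obtain ⟨F', hF'⟩ := hb n'
  exact H.se t p hp h g g' c c' hc hc' F F' (fun m => hF _ (h1.cor m)) fun m => hF' _ (h2.cor m)

theorem qp4 {g h : GG} (hg : Lox L g) (hh : Lox L h) :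
    SE L g h ∨ SE L g h⁻¹ ∨ SE L g⁻¹ h ∨ SE L g⁻¹ h⁻¹ := by
  obtain ⟨⟨c, hc, n, h1⟩, p, hp, h3⟩ := lox2 H hb hg
  obtain ⟨c', hc', n', h2⟩ := (lox2 H hb hh).1
  rcases h1 with h1 | h1 <;> rcases h2 with h2 | h2 <;> simp [share H hb hp h3 hc hc' h1 h2]

theorem uniq {g h : GG} (hg : Lox L g) (hh : Lox L h)
    (hn : ¬ ((SE L g h ∧ SE L g⁻¹ h⁻¹) ∨ (SE L g h⁻¹ ∧ SE L g⁻¹ h))) :
    ∃ C : ℕ, ∀ y, L y ≤ 1 → ∃ c : ℤ, |c| ≤ C ∧ Tr y c C := by
  obtain ⟨⟨c, hc, n, h1⟩, p, hp, h3⟩ := lox2 H hb hg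
  obtain ⟨c', hc', n', h2⟩ := (lox2 H hb hh).1
  have hN : ¬ ∃ B, ∀ k n, Tr k 0 n → L k ≤ B := by
    rintro ⟨B, hB⟩
    have k1 : ∀ {g : GG} {c : ℕ} {n : ℤ}, Tr g c n → ∀ m,
        L ((t⁻¹ ^ (c * m))⁻¹ * g⁻¹ ^ m) ≤ B := fun {g c n} h m => by
      refine hB _ (n + c * m) fun x hx => ?_
      rw [inv_pow, inv_pow, inv_inv, ap, (h.pow c.cast_nonneg m).inv x hx, tn]
      push_cast
      ring
    have k : ∀ {g h : GG} {n n' : ℤ}, Tr g c n → Tr h c' n' → SE L g h ∧ SE L g⁻¹ h⁻¹ :=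
      fun h1 h2 => ⟨share H hb hp h3 hc hc' h1 h2, H.se t⁻¹ p hp
        (by simpa only [inv_pow, H.inv] using h3) _ _ c c' hc hc' B B (k1 h1) (k1 h2)⟩
    rcases h1 with h1 | h1 <;> rcases h2 with h2 | h2 <;> have := k h1 h2 <;>
      (try simp only [inv_inv] at this) <;> tauto
  have hh := heights H hb p hp h3 hN
  obtain ⟨n1, a2⟩ := hh (2 + 2 * L t)
  obtain ⟨n2, e2⟩ : ∃ n2, n2 = n1 + 1 := ⟨_, rfl⟩
  obtain ⟨n3, a3⟩ := hh (2 + L (sw n2 (n2 - 1)))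
  have k : ∀ y, L y ≤ 1 → Tr y (y.1 n2 - n2) n2 ∧ y.1 n2 ≤ n3 := by
    intro y hy
    obtain ⟨c, n, h⟩ := ex_tr y
    have t1 : ∀ n, Tr t 1 n := fun _ _ _ => rfl
    have b1 := a2 (y⁻¹ * t⁻¹ * y * t) _
      (by simpa using ((h.inv.mul (t1 0).inv).mul h).mul (t1 0)) (by
        have a1 := H.mul (y⁻¹ * t⁻¹ * y) t
        have a2 := H.mul (y⁻¹ * t⁻¹) y
        have a3 := H.mul y⁻¹ t⁻¹
        rw [H.inv, H.inv] at a3
        linarith)
    have b2 : ∀ x ≥ n2, y.1 (x + 1) = y.1 x + 1 := fun x hx => by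
      have := b1 x (by omega)
      rw [ap, ap, ap, add_zero] at this
      exact Perm.inv_eq_iff_eq.1 (Perm.inv_eq_iff_eq.1 this)
    have b3 := a3 (y * sw n2 (n2 - 1) * y⁻¹) (max (y.1 n2) (y.1 (n2 - 1))) (by
      rw [← sw_conj]
      intro z hz
      show swap _ _ z = _
      rw [swap_apply_of_ne_of_ne (by omega) (by omega), add_zero]) (by
      have a1 := H.mul (y * sw n2 (n2 - 1)) y⁻¹
      have a2 := H.mul y (sw n2 (n2 - 1))
      rw [H.inv] at a1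
      linarith)
    refine ⟨fun x hx => ?_, by_contra fun h => ?_⟩
    · induction x, hx.le using Int.le_induction with
      | base => omega
      | succ x h ih =>
        rw [b2 x h]
        rcases h.eq_or_lt with rfl | h
        · ring
        · rw [ih h]; ring
    · have := b3 _ (not_le.1 h)
      rw [← sw_conj, add_zero] at this
      have := y.1.injective ((swap_apply_left _ _).symm.trans this)
      omega
  refine ⟨n2.natAbs + n3.natAbs, fun y hy => ⟨_, ?_, (k y hy).1.mono ?_⟩⟩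
  swap
  · omega
  have a := k y hy
  have b := k y⁻¹ (by rwa [H.inv])
  have := a.1.inv.uniq b.1
  rw [abs_le]
  omega

end

noncomputable def χ (a : GG) : ℤ := (ex_tr a).choose
lemma χ_eq {a : GG} {c n : ℤ} (h : Tr a c n) : χ a = c := (ex_tr a).choose_spec.choose_spec.uniq h
lemma exM (a : GG) : ∃ j, (0 ≤ j ∧ χ a ≤ j ∧ Tr a (χ a) (j - χ a)) ∧
    ∀ i, (0 ≤ i ∧ χ a ≤ i ∧ Tr a (χ a) (i - χ a)) → j ≤ i := by
  obtain ⟨n, hn⟩ := (ex_tr a).choose_spec
  exact Int.exists_least_of_bdd ⟨0, fun z h => h.1⟩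
    ⟨max 0 (max (χ a) (n + χ a)), by omega, by omega, Tr.mono hn (by omega)⟩
noncomputable def M (a : GG) : ℤ := (exM a).choose
lemma M0 (a : GG) : 0 ≤ M a := (exM a).choose_spec.1.1
lemma M1 (a : GG) : χ a ≤ M a := (exM a).choose_spec.1.2.1
lemma M2 (a : GG) : Tr a (χ a) (M a - χ a) := (exM a).choose_spec.1.2.2
lemma M3 {a : GG} {c j : ℤ} (h0 : 0 ≤ j) (h1 : c ≤ j) (h : Tr a c (j - c)) : M a ≤ j :=
  (exM a).choose_spec.2 j (by rw [χ_eq h]; exact ⟨h0, h1, h⟩)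
lemma χ_mul (a b : GG) : χ (a * b) = χ a + χ b := χ_eq ((M2 a).mul (M2 b))
lemma χ_inv (a : GG) : χ a⁻¹ = -χ a := χ_eq (M2 a).inv
lemma M_mul (a b : GG) : M (a * b) ≤ max (M a) (χ a + M b) := by
  have := M0 a; have := M1 b
  exact M3 (by omega) (by omega) (((M2 a).mul (M2 b)).mono (by omega))
lemma M_inv (a : GG) : M a⁻¹ = M a - χ a := by
  have : ∀ a : GG, M a⁻¹ ≤ M a - χ a := fun a => by
    have := M0 a; have := M1 a
    exact M3 (by omega) (by omega) ((M2 a).inv.mono (by omega))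
  have h := this a⁻¹
  have := this a
  rw [inv_inv, χ_inv] at h
  omega

def XX : Set GG := insert t {k | Tr k 0 0}

lemma dec {a : GG} {c j : ℤ} (h : Tr a c (j - c)) : Tr (t ^ (-j) * a * t ^ (j - c)) 0 0 :=
  fun x hx => by rw [ap, ap, tz (j - c), h _ (by omega), tz]; ring

lemma XX_top : Subgroup.closure XX = ⊤ := by
  refine eq_top_iff.2 fun a _ => ?_
  have h1 : t ∈ Subgroup.closure XX := Subgroup.subset_closure (Or.inl rfl)
  have := mul_mem (mul_mem (zpow_mem h1 (M a)) (Subgroup.subset_closure (k := XX)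
    (Or.inr (dec (M2 a))))) (zpow_mem h1 (-(M a - χ a)))
  rwa [show t ^ M a * (t ^ (-M a) * a * t ^ (M a - χ a)) * t ^ (-(M a - χ a)) = a by group] at this

lemma len_t (m : ℤ) : len XX (t ^ m) ≤ m.natAbs := by
  have : ∀ n : ℕ, len XX (t ^ n) ≤ n := fun n => len_le (Set.pow_mem_pow (Or.inl (Or.inl rfl)))
  obtain ⟨n, rfl | rfl⟩ := Int.eq_nat_or_neg m
  · simpa using this n
  · simpa [len_inv] using this n

lemma len_ub {a : GG} {c j : ℤ} (h : Tr a c (j - c)) :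
    len XX a ≤ j.natAbs + 1 + (j - c).natAbs := by
  have a1 := len_mul XX_top (t ^ j * (t ^ (-j) * a * t ^ (j - c))) (t ^ (-(j - c)))
  have a2 := len_mul XX_top (t ^ j) (t ^ (-j) * a * t ^ (j - c))
  have a3 := len_gen (S := XX) (Or.inr (dec h))
  have := len_t j
  have := len_t (-(j - c))
  rw [show t ^ j * (t ^ (-j) * a * t ^ (j - c)) * t ^ (-(j - c)) = a by group] at a1
  omega

lemma len_lb (a : GG) : 2 * M a - χ a ≤ len XX a := by
  have k : ∀ x ∈ XX, 2 * M x - χ x ≤ 1 := by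
    rintro x (rfl | h)
    · have h : Tr t 1 (1 - 1) := fun _ _ => rfl
      have := M3 (by omega) le_rfl h
      rw [χ_eq h]; omega
    · have := M3 (c := 0) le_rfl le_rfl h
      rw [χ_eq h]; omega
  have : ∀ n : ℕ, ∀ a ∈ (XX ∪ XX⁻¹) ^ n, 2 * M a - χ a ≤ n := by
    intro n
    induction n with
    | zero =>
      rintro a (rfl : a = 1)
      have h : Tr 1 0 (0 - 0) := fun _ _ => by simp
      have := M3 le_rfl le_rfl h
      rw [χ_eq h]; omega
    | succ n ih =>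
      rw [pow_succ]
      rintro _ ⟨a, ha, b, hb, rfl⟩
      have := ih a ha
      have : 2 * M b - χ b ≤ 1 := hb.elim (k b) fun h => by
        have := k _ h
        rw [M_inv, χ_inv] at this
        omega
      have := M_mul a b; have := M0 b; have := M1 a
      simp only [χ_mul]
      omega
  exact this _ a (len_mem XX_top a)

lemma len_ub' (a : GG) : (len XX a : ℤ) ≤ 2 * M a - χ a + 1 := by
  have := len_ub (M2 a); have := M0 a; have := M1 a
  omega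

lemma gp_b (x y : GG) : ((M x + M y - (χ x + M (x⁻¹ * y)) : ℤ) : ℝ) - 1 ≤
    gp (fun g => len XX g) x y ∧
    gp (fun g => len XX g) x y ≤ ((M x + M y - (χ x + M (x⁻¹ * y)) : ℤ) : ℝ) + 1 := by
  have a1 := len_lb x; have a2 := len_lb y; have a3 := len_lb (x⁻¹ * y)
  have b1 := len_ub' x; have b2 := len_ub' y; have b3 := len_ub' (x⁻¹ * y)
  rw [χ_mul, χ_inv] at a3 b3
  rify at a1 a2 a3 b1 b2 b3
  simp only [gp]
  push_cast
  constructor <;> linarith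

lemma hypX : Hyp (fun g => (len XX g : ℝ)) 2 where
  mul a b := by exact_mod_cast len_mul XX_top a b
  inv a := by rw [len_inv]
  one := by simp [len_one]
  hyp x y z := by
    have u : ∀ a b c : GG, χ a + M (a⁻¹ * c) ≤ max (χ a + M (a⁻¹ * b)) (χ b + M (b⁻¹ * c)) := by
      intro a b c
      have := M_mul (a⁻¹ * b) (b⁻¹ * c)
      rw [show a⁻¹ * b * (b⁻¹ * c) = a⁻¹ * c by group, χ_mul, χ_inv] at this
      omega
    have s : ∀ a b : GG, χ a + M (a⁻¹ * b) = χ b + M (b⁻¹ * a) := by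
      intro a b
      have := M_inv (a⁻¹ * b)
      rw [show (a⁻¹ * b)⁻¹ = b⁻¹ * a by group, χ_mul, χ_inv] at this
      omega
    have v : ∀ a b : GG, M b ≤ max (M a) (χ a + M (a⁻¹ * b)) := fun a b => by
      simpa using M_mul a (a⁻¹ * b)
    have : min (M x + M y - (χ x + M (x⁻¹ * y))) (M y + M z - (χ y + M (y⁻¹ * z))) ≤
        M x + M z - (χ x + M (x⁻¹ * z)) := by
      have w : ∀ a b : GG, χ a + M (a⁻¹ * b) ≤ max (M a) (M b) := fun a b => by
        have := M_mul a⁻¹ b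
        rw [M_inv, χ_inv] at this
        omega
      have := u x y z; have := v x y; have := v y z; have := v y x; have := v z y
      have := s x y; have := s y z; have := w x z
      omega
    have a := (gp_b x y).2; have b := (gp_b y z).2; have c := (gp_b x z).1
    rcases min_le_iff.1 this with h | h <;> rify at h <;> push_cast at a b c
    · linarith [min_le_left (gp (fun g => (len XX g : ℝ)) x y) (gp (fun g => len XX g) y z)]
    · linarith [min_le_right (gp (fun g => (len XX g : ℝ)) x y) (gp (fun g => len XX g) y z)]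

lemma loxX {g : GG} {n : ℤ} (h : Tr g 1 n) : Lox (fun g => (len XX g : ℝ)) g :=
  ⟨1, one_pos, fun m => by
    have a := len_lb (g ^ m)
    have := M1 (g ^ m)
    rw [χ_eq (h.pow zero_le_one m)] at *
    have : (m : ℤ) ≤ len XX (g ^ m) := by omega
    rw [one_mul]
    show (m : ℝ) ≤ (len XX (g ^ m) : ℝ)
    exact_mod_cast this⟩

lemma nse {h : GG} (hh : ∀ m : ℕ, 2 ≤ m → 0 < M (h ^ m)) :
    ¬ SE (fun g => (len XX g : ℝ)) t⁻¹ h := by
  intro hs
  obtain ⟨N, hN⟩ := hs 2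
  have a := (hN N (N + 2) le_rfl (by omega)).trans (gp_b _ _).2
  have b := hh (N + 2) (by omega)
  have c := M_mul (t⁻¹ ^ N) ((t⁻¹ ^ N)⁻¹ * h ^ (N + 2))
  have d : M (t⁻¹ ^ N) ≤ 0 := M3 (c := -N) le_rfl (by omega) fun x _ => by
    rw [inv_pow, tni]; ring
  rw [mul_inv_cancel_left] at c
  norm_cast at a
  omega

def hh : GG := sw 0 1 * t * (sw 0 1)⁻¹

lemma hh_tr : Tr hh 1 1 := fun x hx => by
  show swap 0 1 (swap 0 1 x + 1) = _
  rw [swap_apply_of_ne_of_ne (a := 0) (b := 1) (x := x) (by omega) (by omega),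
    swap_apply_of_ne_of_ne (by omega) (by omega)]

lemma nse1 : ¬ SE (fun g => (len XX g : ℝ)) t⁻¹ hh := nse fun m hm => by
  have := M1 (hh ^ m)
  rw [χ_eq (hh_tr.pow zero_le_one m)] at this
  omega

lemma nse2 : ¬ SE (fun g => (len XX g : ℝ)) t⁻¹ hh⁻¹ := nse fun m hm => by
  by_contra! h
  have a := M2 (hh⁻¹ ^ m)
  rw [inv_pow, χ_eq (hh_tr.pow zero_le_one m).inv] at a
  rw [inv_pow] at h
  have := Perm.inv_eq_iff_eq.1 (a (1 + m) (by omega))
  rw [hh, conj_pow, ap, ap, tn, show (1 : ℤ) + m + -(1 * m) = 1 by ring,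
    show (sw 0 1)⁻¹.1 1 = 0 by decide] at this
  rw [show (sw 0 1).1 (0 + m) = 0 + m from swap_apply_of_ne_of_ne (by omega) (by omega)] at this
  omega

lemma hypS {S : Set GG} (h : Subgroup.closure S = ⊤) (n : ℤ) :
    ∃ F : ℝ, ∀ k, Tr k 0 n → (len S k : ℝ) ≤ F := by
  obtain ⟨F, hF⟩ := bdd (len S) (len_mul h) (len_inv S) n
  exact ⟨F, fun k hk => by exact_mod_cast hF k hk⟩

end Pool.Agent.H15.QP
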