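import Mathlib

set_option autoImplicit false

namespace Pool.Agent.H15.Rob

open Finset

noncomputable section

def t (n : ℕ) (N : ℝ) (k : ℕ) : ℝ := (n.descFactorial k : ℝ) / (ascPochhammer ℝ k).eval N
def A (β : ℝ) (k : ℕ) : ℝ := (ascPochhammer ℝ k).eval β / (k.factorial : ℝ)
def F (n : ℕ) (β : ℝ) (z : ℂ) : ℂ := ∑ k ∈ range (n + 1), (t n (β + n) k : ℂ) * ((A β k : ℂ) * z ^ k)
def G (n : ℕ) (β : ℝ) (z : ℂ) : ℂ :=
  ∑ k ∈ range n, (t n (β + n) (k + 1) : ℂ) * ((A β k : ℂ) * z ^ (k + 1))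

lemma t1 (m k : ℕ) {N : ℝ} (hN : 0 < N) : t m N (k + 1) = t m N k * (m - k) / (N + k) := by
  have := (ascPochhammer_pos k N hN).ne'
  rw [t, t, ascPochhammer_succ_eval, Nat.descFactorial_succ]
  rcases le_total k m with h | h
  · rw [Nat.cast_mul, Nat.cast_sub h]; field_simp
  · rcases h.eq_or_lt with rfl | h
    · simp
    · simp [Nat.descFactorial_of_lt h]

lemma t2 (m k : ℕ) {N : ℝ} (hN : 0 < N) : t (m + 1) N (k + 1) = t m N k * (m + 1) / (N + k) := by
  have := (ascPochhammer_pos k N hN).ne'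
  rw [t, t, ascPochhammer_succ_eval, Nat.succ_descFactorial_succ]
  push_cast; field_simp

lemma A1 (β : ℝ) (k : ℕ) : A β (k + 1) = A β k * (β + k) / (k + 1) := by
  rw [A, A, ascPochhammer_succ_eval, Nat.factorial_succ]; push_cast; field_simp

lemma A2 (β : ℝ) (k : ℕ) : A β (k + 1) = β * A (β + 1) k / (k + 1) := by
  rw [A, A, ascPochhammer_succ_left, Nat.factorial_succ]
  simp only [Polynomial.eval_mul, Polynomial.eval_X, Polynomial.eval_comp, Polynomial.eval_add,
    Polynomial.eval_one]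
  push_cast; field_simp

lemma A3 {β : ℝ} (h : 0 < β) (k : ℕ) : A β k = β * A (β + 1) k / (β + k) := by
  have := (A1 β k).symm.trans (A2 β k)
  field_simp at this ⊢
  exact this

lemma recur (m : ℕ) {β : ℝ} (h : 0 < β) (z : ℂ) :
    F (m + 1) β z = (1 + (β / (2 * m + β + 1) : ℝ) * z) * F m (β + 1) z -
      (1 - (β / (2 * m + β + 1) : ℝ)) * G m (β + 1) z ∧
    G (m + 1) β z = (1 - (β / (2 * m + β + 1) : ℝ)) * z * F m (β + 1) z -
      ((β / (2 * m + β + 1) : ℝ) + z) * G m (β + 1) z := by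
  have e : β + ((m + 1 : ℕ) : ℝ) = β + 1 + m := by push_cast; ring
  have hN : 0 < β + 1 + m := by positivity
  have z0 : t m (β + 1 + m) (m + 1) = 0 := by simp [t]
  have f1 : F m (β + 1) z = ∑ k ∈ range (m + 1),
      (t m (β + 1 + m) (k + 1) : ℂ) * ((A (β + 1) (k + 1) : ℂ) * z ^ (k + 1)) + 1 := by
    rw [sum_range_succ, z0, F, sum_range_succ']; simp [t, A]
  have f2 : z * F m (β + 1) z = ∑ k ∈ range (m + 1),
      (t m (β + 1 + m) k : ℂ) * ((A (β + 1) k : ℂ) * z ^ (k + 1)) := by
    rw [F, mul_sum]; exact sum_congr rfl fun _ _ => by ring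
  have g1 : G m (β + 1) z = ∑ k ∈ range (m + 1),
      (t m (β + 1 + m) (k + 1) : ℂ) * ((A (β + 1) k : ℂ) * z ^ (k + 1)) := by
    rw [sum_range_succ, z0, G]; simp
  have g2 : z * G m (β + 1) z = ∑ k ∈ range (m + 1),
      (t m (β + 1 + m) k : ℂ) * ((A (β + 1) k * k / (β + k) : ℝ) * z ^ (k + 1)) := by
    rw [sum_range_succ', G, mul_sum]
    simp only [Nat.cast_zero, mul_zero, zero_div, Complex.ofReal_zero, zero_mul, add_zero]
    refine sum_congr rfl fun k _ => ?_
    have : A (β + 1) (k + 1) * ((k + 1 : ℕ) : ℝ) / (β + ((k + 1 : ℕ) : ℝ)) = A (β + 1) k := by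
      rw [A1]; push_cast; field_simp; ring
    rw [this]; ring
  constructor
  · rw [add_mul, one_mul, mul_assoc, f2, f1, g1, F, sum_range_succ', e, mul_sum, mul_sum,
      add_right_comm _ (1 : ℂ), add_sub_right_comm _ (1 : ℂ), ← sum_add_distrib, ← sum_sub_distrib]
    congr 1
    · refine sum_congr rfl fun k _ => ?_
      have : t (m + 1) (β + 1 + m) (k + 1) * A β (k + 1) =
          t m (β + 1 + m) (k + 1) * A (β + 1) (k + 1) +
          β / (2 * m + β + 1) * (t m (β + 1 + m) k * A (β + 1) k) -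
          (1 - β / (2 * m + β + 1)) * (t m (β + 1 + m) (k + 1) * A (β + 1) k) := by
        rw [t2 _ _ hN, t1 _ _ hN, A2 β, A1 (β + 1)]; field_simp; ring
      have := congrArg (fun x : ℝ => (x : ℂ) * z ^ (k + 1)) this
      push_cast at this ⊢
      linear_combination this
    · simp [t, A]
  · rw [add_mul, mul_assoc, f2, g2, g1, G, e, mul_sum, mul_sum, ← sum_add_distrib, ← sum_sub_distrib]
    refine sum_congr rfl fun k _ => ?_
    have : t (m + 1) (β + 1 + m) (k + 1) * A β k =
        (1 - β / (2 * m + β + 1)) * (t m (β + 1 + m) k * A (β + 1) k) -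
        (β / (2 * m + β + 1) * (t m (β + 1 + m) (k + 1) * A (β + 1) k) +
        t m (β + 1 + m) k * (A (β + 1) k * k / (β + k))) := by
      rw [t2 _ _ hN, t1 _ _ hN, A3 h]; field_simp; ring
    have := congrArg (fun x : ℝ => (x : ℂ) * z ^ (k + 1)) this
    push_cast at this ⊢
    linear_combination this

lemma main (n : ℕ) : ∀ β : ℝ, 0 < β → ∀ z : ℂ, ‖z‖ < 1 →
    Complex.normSq (G n β z) < Complex.normSq (F n β z) := by
  induction n with
  | zero => intro β _ z _; simp [F, G, t, A]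
  | succ m ih =>
    intro β h z hz
    obtain ⟨e1, e2⟩ := recur m h z
    have := ih (β + 1) (by positivity) z hz
    rw [e1, e2]
    have a0 : 0 < β / (2 * m + β + 1) := by positivity
    have a1 : β / (2 * m + β + 1) ≤ 1 := by
      rw [div_le_one (by positivity)]; linarith [(Nat.cast_nonneg m : (0 : ℝ) ≤ m)]
    generalize β / (2 * m + β + 1) = a at *
    generalize F m (β + 1) z = f at *
    generalize G m (β + 1) z = g at *
    have b0 : Complex.normSq z < 1 := by
      rw [Complex.normSq_eq_norm_sq]; nlinarith [norm_nonneg z]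
    have b1 : 0 < Complex.normSq (1 + z) := Complex.normSq_pos.2 fun e => by
      rw [eq_neg_of_add_eq_zero_right e] at hz; simp at hz
    have key : Complex.normSq ((1 + a * z) * f - (1 - a) * g) -
        Complex.normSq ((1 - a) * z * f - (a + z) * g) =
        a * Complex.normSq (1 + z) * (Complex.normSq f - Complex.normSq g) +
        (1 - a) * Complex.normSq (f - g) * (1 - Complex.normSq z) := by
      simp [Complex.normSq_apply]; ring
    have := mul_pos (mul_pos a0 b1) (sub_pos.2 this)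
    have := mul_nonneg (mul_nonneg (sub_nonneg.2 a1) (Complex.normSq_nonneg (f - g))) (sub_pos.2 b0).le
    linarith

lemma fin (n : ℕ) (β : ℝ) (h : 0 < β) (x : ℂ) (hx : ‖x‖ = 1) (z : ℂ) (hz : ‖z‖ < 1) :
    F n β z + x * G n β z ≠ 0 := fun e => by
  have := main n β h z hz
  rw [eq_neg_of_add_eq_zero_left e, Complex.normSq_neg, map_mul, Complex.normSq_eq_norm_sq x, hx] at this
  simp at this

end

end Pool.Agent.H15.Rob
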