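import Mathlib

/-! A strictly weaker complete invariant metric on the group of all maps from the circle to itself. -/

set_option autoImplicit false

namespace Pool.Agent.H15.Scottish

open Classical in
noncomputable def w (q : Circle) : ℝ := if q = 1 then 1 else dist q 1

theorem cdist (a b : Circle) : dist a b = ‖(a : ℂ) - b‖ :=
  dist_eq_norm (a : ℂ) (b : ℂ)

theorem dist_le_two (a b : Circle) : dist a b ≤ 2 := by
  rw [cdist]
  calc ‖(a : ℂ) - b‖ ≤ ‖(a : ℂ)‖ + ‖(b : ℂ)‖ := norm_sub_le _ _
    _ = 2 := by rw [Circle.norm_coe, Circle.norm_coe]; norm_num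

theorem w_pos (q : Circle) : 0 < w q := by
  unfold w; split_ifs with h
  · norm_num
  · exact dist_pos.mpr h

theorem w_le (q : Circle) : w q ≤ 2 := by
  unfold w; split_ifs with h
  · norm_num
  · exact dist_le_two _ _

def W : Type := Circle → Circle

noncomputable instance : CommGroup W := inferInstanceAs (CommGroup (Circle → Circle))

noncomputable def D (x y : W) : ℝ := ⨆ q : Circle, w q * dist (x q) (y q)

theorem le_D (x y : W) (q : Circle) : w q * dist (x q) (y q) ≤ D x y := by
  apply le_ciSup (f := fun q : Circle => w q * dist (x q) (y q))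
  refine ⟨4, ?_⟩
  rintro _ ⟨q, rfl⟩
  have := w_le q
  have := w_pos q
  have := dist_le_two (x q) (y q)
  have := dist_nonneg (x := x q) (y := y q)
  show w q * dist (x q) (y q) ≤ 4
  nlinarith

theorem D_le (x y : W) (c : ℝ) (h : ∀ q, w q * dist (x q) (y q) ≤ c) : D x y ≤ c := ciSup_le h

noncomputable instance : MetricSpace W where
  dist := D
  dist_self x := by simp [D]
  dist_comm x y := by simp [D, dist_comm]
  dist_triangle x y z := by
    apply D_le
    intro q
    have h1 := le_D x y q
    have h2 := le_D y z q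
    have h3 := dist_triangle (x q) (y q) (z q)
    have := w_pos q
    nlinarith
  eq_of_dist_eq_zero := by
    intro x y h
    funext q
    have h1 := le_D x y q
    have h2 : D x y = 0 := h
    have := w_pos q
    have h3 := dist_nonneg (x := x q) (y := y q)
    exact eq_of_dist_eq_zero (by nlinarith)

theorem dist_def (x y : W) : dist x y = D x y := rfl

instance : CompleteSpace W := by
  apply Metric.complete_of_cauchySeq_tendsto
  intro u hu
  have h1 : ∀ q, ∃ l, Filter.Tendsto (fun n => u n q) Filter.atTop (nhds l) := by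
    intro q
    apply cauchySeq_tendsto_of_complete
    refine (Metric.cauchySeq_iff (u := fun n => (u n q : Circle))).mpr ?_
    intro ε hε
    obtain ⟨N, hN⟩ := Metric.cauchySeq_iff.mp hu (w q * ε) (mul_pos (w_pos q) hε)
    refine ⟨N, fun m hm n hn => ?_⟩
    exact lt_of_mul_lt_mul_left ((le_D _ _ q).trans_lt (hN m hm n hn)) (w_pos q).le
  choose l hl using h1
  refine ⟨l, (Metric.tendsto_atTop (α := W)).mpr ?_⟩
  intro ε hε
  obtain ⟨N, hN⟩ := Metric.cauchySeq_iff.mp hu (ε / 2) (by linarith)
  refine ⟨N, fun n hn => ?_⟩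
  have : D (u n) l ≤ ε / 2 := by
    apply D_le
    intro q
    have h2 : Filter.Tendsto (fun m => w q * dist (u n q) (u m q)) Filter.atTop
        (nhds (w q * dist (u n q) (l q))) := (tendsto_const_nhds.dist (hl q)).const_mul _
    apply le_of_tendsto h2
    filter_upwards [Filter.eventually_ge_atTop N] with m hm
    exact (le_D _ _ q).trans (hN n hn m hm).le
  exact lt_of_le_of_lt this (by linarith)

theorem cdist_mul (a b c : Circle) : dist (a * c) (b * c) = dist a b := by
  rw [cdist, cdist]
  have : ((a * c : Circle) : ℂ) - ((b * c : Circle) : ℂ) = ((a : ℂ) - b) * c := by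
    rw [Circle.coe_mul, Circle.coe_mul]; ring
  exact (congrArg _ this).trans (by rw [norm_mul, Circle.norm_coe, mul_one])

theorem dist_mul (x y z : W) : dist (x * z) (y * z) = dist x y := by
  simp only [dist_def, D]
  congr 1
  funext q
  exact congrArg _ (cdist_mul (x q) (y q) (z q))

instance : IsIsometricSMul Wᵐᵒᵖ W :=
  ⟨fun c => Isometry.of_dist_eq fun x y => dist_mul x y c.unop⟩

instance : IsIsometricSMul W W :=
  ⟨fun c => Isometry.of_dist_eq fun x y => by
    simp only [smul_eq_mul]; rw [mul_comm c, mul_comm c]; exact dist_mul x y c⟩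

instance : IsTopologicalGroup W where
  continuous_mul := by
    rw [Metric.continuous_iff]
    intro p ε hε
    refine ⟨ε / 2, by linarith, fun r hr => ?_⟩
    rw [Prod.dist_eq, max_lt_iff] at hr
    calc dist (r.1 * r.2) (p.1 * p.2) ≤ dist (r.1 * r.2) (p.1 * r.2) + dist (p.1 * r.2) (p.1 * p.2) :=
          dist_triangle _ _ _
      _ = dist r.1 p.1 + dist r.2 p.2 := by
          rw [dist_mul, mul_comm p.1, mul_comm p.1, dist_mul]
      _ < ε := by linarith [hr.1, hr.2]
  continuous_inv := by
    apply Isometry.continuous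
    apply Isometry.of_dist_eq
    intro x y
    rw [← dist_mul _ _ (x * y), inv_mul_cancel_left, mul_comm x y, inv_mul_cancel_left, dist_comm]

noncomputable def U : (Circle → Circle) →* W where
  toFun x := x
  map_one' := rfl
  map_mul' _ _ := rfl

theorem small_w (δ : ℝ) (hδ : 0 < δ) : ∃ q, w q < δ := by
  have hc : Continuous (fun t : ℝ => dist (Circle.exp t) 1) := by fun_prop
  have h0 : Filter.Tendsto (fun t : ℝ => dist (Circle.exp t) 1) (nhds 0) (nhds 0) := by
    simpa using hc.tendsto 0
  have h1 : ∀ᶠ t : ℝ in nhds 0, dist (Circle.exp t) 1 < δ := h0.eventually (gt_mem_nhds hδ)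
  have h2 : ∀ᶠ t : ℝ in nhds 0, t < 1 := gt_mem_nhds one_pos
  have h3 : ∀ᶠ t : ℝ in nhdsWithin 0 (Set.Ioi 0), dist (Circle.exp t) 1 < δ ∧ t < 1 :=
    (h1.and h2).filter_mono nhdsWithin_le_nhds
  obtain ⟨t, ⟨ht1, ht2⟩, ht3⟩ := (h3.and self_mem_nhdsWithin).exists
  refine ⟨Circle.exp t, ?_⟩
  have ht : (0 : ℝ) < t := ht3
  have hne : Circle.exp t ≠ 1 := by
    intro h
    obtain ⟨n, hn⟩ := Circle.exp_eq_one.mp h
    have hpi := Real.pi_gt_three
    rcases le_or_gt n 0 with h4 | h4
    · have : (n : ℝ) ≤ 0 := by exact_mod_cast h4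
      nlinarith
    · have : (1 : ℝ) ≤ n := by exact_mod_cast h4
      nlinarith
  simpa [w, hne] using ht1

end Pool.Agent.H15.Scottish
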