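import Mathlib

set_option autoImplicit false

namespace Pool.Agent.H15.Spec

open Finset Matrix

variable {n : Type} [Fintype n] [DecidableEq n]

lemma decomp {A : Matrix n n ℝ} (hA : A.IsHermitian) :
    ∃ V : Matrix n n ℝ, (∀ i j, A i j = ∑ k, V i k * hA.eigenvalues k * V j k) ∧
      (∀ k l, ∑ i, V i k * V i l = if k = l then 1 else 0) ∧
      (∀ i j, ∑ k, V i k * V j k = if i = j then 1 else 0) := by
  refine ⟨hA.eigenvectorUnitary, fun i j => ?_, fun k l => ?_, fun i j => ?_⟩
  · conv_lhs => rw [hA.spectral_theorem, Unitary.conjStarAlgAut_apply]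
    simp [mul_apply, diagonal]
  · have := congrFun (congrFun (Unitary.coe_star_mul_self hA.eigenvectorUnitary) k) l
    simpa [mul_apply, one_apply] using this
  · have := congrFun (congrFun (Unitary.coe_mul_star_self hA.eigenvectorUnitary) i) j
    simpa [mul_apply, one_apply] using this

lemma trace_perm_le {A : Matrix n n ℝ} (hA : A.IsHermitian) (σ : Equiv.Perm n) :
    ∑ i, A i (σ i) ≤ ∑ k, |hA.eigenvalues k| := by
  obtain ⟨V, h1, h2, -⟩ := decomp hA
  simp only [h1]
  rw [sum_comm]
  refine sum_le_sum fun k _ => ?_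
  have e : ∑ i, V i k * hA.eigenvalues k * V (σ i) k =
      hA.eigenvalues k * ∑ i, V i k * V (σ i) k := by
    rw [mul_sum]; exact sum_congr rfl fun i _ => by ring
  have a := h2 k k
  rw [if_pos rfl] at a
  have b : ∑ i, V (σ i) k * V (σ i) k = 1 := by
    rw [← a]; exact Equiv.sum_comp σ (fun i => V i k * V i k)
  have c : |∑ i, V i k * V (σ i) k| ≤ 1 := by
    refine (abs_sum_le_sum_abs _ _).trans ?_
    have : ∑ i, |V i k * V (σ i) k| ≤ ∑ i, (V i k * V i k + V (σ i) k * V (σ i) k) / 2 :=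
      sum_le_sum fun i _ => by
        rw [abs_le]
        constructor <;> nlinarith [sq_nonneg (V i k + V (σ i) k), sq_nonneg (V i k - V (σ i) k)]
    rw [← sum_div, sum_add_distrib, a, b] at this
    linarith
  rw [e]
  refine (le_abs_self _).trans ?_
  rw [abs_mul]
  exact mul_le_of_le_one_right (abs_nonneg _) c

lemma rayleigh_le {A : Matrix n n ℝ} (hA : A.IsHermitian) (x : n → ℝ) (c : ℝ)
    (hc : ∀ k, hA.eigenvalues k ≤ c) :
    ∑ i, ∑ j, x i * A i j * x j ≤ c * ∑ i, x i * x i := by
  obtain ⟨V, h1, -, h3⟩ := decomp hA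
  have e1 : ∑ i, ∑ j, x i * A i j * x j =
      ∑ k, hA.eigenvalues k * ((∑ i, x i * V i k) * ∑ j, x j * V j k) := by
    simp only [h1, mul_sum, sum_mul]
    rw [sum_comm]
    conv_rhs => rw [sum_comm]
    refine sum_congr rfl fun j _ => ?_
    rw [sum_comm]
    exact sum_congr rfl fun k _ => sum_congr rfl fun i _ => by ring
  have e2 : ∑ i, x i * x i = ∑ k, (∑ i, x i * V i k) * ∑ j, x j * V j k := by
    have : ∀ i, x i * x i = ∑ j, x i * x j * ∑ k, V i k * V j k := by
      intro i; simp [h3]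
    simp only [this, mul_sum, sum_mul]
    rw [sum_comm]
    conv_rhs => rw [sum_comm]
    refine sum_congr rfl fun j _ => ?_
    rw [sum_comm]
    exact sum_congr rfl fun k _ => sum_congr rfl fun i _ => by ring
  rw [e1, e2, mul_sum]
  exact sum_le_sum fun k _ => mul_le_mul_of_nonneg_right (hc k) (mul_self_nonneg _)

end Pool.Agent.H15.Spec
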