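import Mathlib

set_option autoImplicit false

namespace Pool.Agent.H15.Tmp

abbrev Sq := ℕ → Fin 6

def Cl (S : Set Sq) : Prop := S.Nonempty ∧ ∀ f : ℕ → Sq, (∀ i, f i ∈ S) → ∃ s ∈ S, ∀ i t u,
  i < 14 → t < 14 → u < 14 → t ≤ i + 1 → i ≤ t + 1 → u ≤ i + 1 → i ≤ u + 1 → t ≤ u + 1 →
  u ≤ t + 1 → s t ≠ f i u

def P (S : Set Sq) (j : ℕ) (a b : Fin 6) : Prop := ∃ s ∈ S, s j = a ∧ s (j + 1) = b

def D (S : Set Sq) (j : ℕ) (a b : Fin 6) : Prop := a ≠ b ∧ (P S j a b ∨ P S j b a)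

variable {S : Set Sq} (h : Cl S)
include h

lemma av (g : Fin 6) (t : ℕ) : ∃ v ∈ S, ∀ s ∈ S, s t ≠ v t → s t ≠ g := by
  by_cases k : ∃ v ∈ S, v t = g
  · obtain ⟨v, a, rfl⟩ := k
    exact ⟨v, a, fun _ _ => id⟩
  · exact ⟨_, h.1.some_mem, fun s a _ e => k ⟨s, a, e⟩⟩

lemma win (j : ℕ) (l : List Sq) (hl : ∀ v ∈ l, v ∈ S) : ∃ s ∈ S, ∀ i (hi : i < l.length) t u,
    j + i < 14 → t < 14 → u < 14 → t ≤ j + i + 1 → j + i ≤ t + 1 → u ≤ j + i + 1 → j + i ≤ u + 1 →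
    t ≤ u + 1 → u ≤ t + 1 → s t ≠ l[i] u := by
  obtain ⟨s, a, b⟩ := h.2 (fun i => l.getD (i - j) h.1.some) fun i => by
    rw [List.getD_eq_getElem?_getD]
    rcases e : l[i - j]? with _ | v
    exacts [h.1.some_mem, hl v (List.mem_of_getElem? e)]
  refine ⟨s, a, fun i hi t u => ?_⟩
  simpa [hi] using b (j + i) t u

lemma w4 (j : ℕ) (hj : j + 3 < 14) (p q r v : Sq) (hp : p ∈ S) (hq : q ∈ S) (hr : r ∈ S)
    (hv : v ∈ S) : ∃ s ∈ S,
    (s (j + 1) ≠ p j ∧ s (j + 1) ≠ p (j + 1) ∧ s (j + 1) ≠ q j ∧ s (j + 1) ≠ q (j + 1) ∧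
      s (j + 1) ≠ q (j + 2) ∧ s (j + 1) ≠ r (j + 1) ∧ s (j + 1) ≠ r (j + 2)) ∧
    s (j + 2) ≠ q (j + 1) ∧ s (j + 2) ≠ q (j + 2) ∧ s (j + 2) ≠ r (j + 1) ∧ s (j + 2) ≠ r (j + 2) ∧
      s (j + 2) ≠ v (j + 2) ∧ s (j + 2) ≠ v (j + 3) := by
  obtain ⟨s, a, b⟩ := win h j [p, q, r, v] (by simp [*])
  refine ⟨s, a, ⟨b 0 ?_ _ _ ?_ ?_ ?_ ?_ ?_ ?_ ?_ ?_ ?_, b 0 ?_ _ _ ?_ ?_ ?_ ?_ ?_ ?_ ?_ ?_ ?_,
    b 1 ?_ _ _ ?_ ?_ ?_ ?_ ?_ ?_ ?_ ?_ ?_, b 1 ?_ _ _ ?_ ?_ ?_ ?_ ?_ ?_ ?_ ?_ ?_,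
    b 1 ?_ _ _ ?_ ?_ ?_ ?_ ?_ ?_ ?_ ?_ ?_, b 2 ?_ _ _ ?_ ?_ ?_ ?_ ?_ ?_ ?_ ?_ ?_,
    b 2 ?_ _ _ ?_ ?_ ?_ ?_ ?_ ?_ ?_ ?_ ?_⟩, b 1 ?_ _ _ ?_ ?_ ?_ ?_ ?_ ?_ ?_ ?_ ?_,
    b 1 ?_ _ _ ?_ ?_ ?_ ?_ ?_ ?_ ?_ ?_ ?_, b 2 ?_ _ _ ?_ ?_ ?_ ?_ ?_ ?_ ?_ ?_ ?_,
    b 2 ?_ _ _ ?_ ?_ ?_ ?_ ?_ ?_ ?_ ?_ ?_, b 3 ?_ _ _ ?_ ?_ ?_ ?_ ?_ ?_ ?_ ?_ ?_,
    b 3 ?_ _ _ ?_ ?_ ?_ ?_ ?_ ?_ ?_ ?_ ?_⟩ <;> first | omega | simp

omit h in
lemma dv {j : ℕ} {a b : Fin 6} (d : D S j a b) :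
    ∃ v ∈ S, ∀ x, x ≠ v j → x ≠ v (j + 1) → x ≠ a ∧ x ≠ b := by
  obtain ⟨-, ⟨v, m, rfl, rfl⟩ | ⟨v, m, rfl, rfl⟩⟩ := d
  exacts [⟨v, m, fun _ a b => ⟨a, b⟩⟩, ⟨v, m, fun _ a b => ⟨b, a⟩⟩]

omit h in
lemma pig {a b c d e f x : Fin 6} (n : [a, b, c, d, e, f].Nodup) (k : x ∉ [a, b, c, d, e]) :
    x = f := by_contra fun m => by
  have := (List.nodup_cons.2 ⟨show x ∉ _ by simp_all, n⟩).length_le_card
  simp at this

lemma a1 {j : ℕ} (hj : j + 3 < 14) {a b c d e f : Fin 6} (n : [a, b, c, d, e, f].Nodup)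
    (x : D S (j + 1) a b) (y : D S (j + 1) c d) :
    P S (j + 1) f e ∧ ¬D S j e f := by
  obtain ⟨q, hq, q1⟩ := dv x
  obtain ⟨r, hr, r1⟩ := dv y
  obtain ⟨v, hv, v1⟩ := av h f (j + 2)
  have n' : [a, b, c, d, f, e].Nodup := by simp at n ⊢; tauto
  constructor
  · obtain ⟨p, hp, p1⟩ := av h e (j + 1)
    obtain ⟨s, m, ⟨-, k2, -, k4, k5, k6, k7⟩, l1, l2, l3, l4, l5, -⟩ := w4 h j hj p q r v hp hq hr hv
    exact ⟨s, m, pig n (by simp [q1 _ k4 k5, r1 _ k6 k7, p1 s m k2]),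
      pig n' (by simp [q1 _ l1 l2, r1 _ l3 l4, v1 s m l5])⟩
  · intro z
    obtain ⟨p, hp, p1⟩ := dv z
    obtain ⟨s, m, ⟨k1, k2, -, k4, k5, k6, k7⟩, -⟩ := w4 h j hj p q r v hp hq hr hv
    exact (p1 _ k1 k2).2 (pig n (by simp [q1 _ k4 k5, r1 _ k6 k7, p1 _ k1 k2]))

lemma a3 {j : ℕ} (hj : j + 3 < 14) {a b c d e f : Fin 6} (n : [a, b, c, d, e, f].Nodup)
    (x : D S j a b) (y : P S j c d) (z : P S j f e) :
    D S (j + 1) f a ∨ D S (j + 1) f b ∨ D S (j + 1) f c := by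
  obtain ⟨p, hp, p1⟩ := dv x
  obtain ⟨q, hq, q1, q2⟩ := y
  obtain ⟨r, hr, -, r2⟩ := z
  obtain ⟨v, hv, v1⟩ := av h f (j + 2)
  obtain ⟨s, m, ⟨k1, k2, k3, k4, -, k6, -⟩, l1, -, l3, -, l5, -⟩ := w4 h j hj p q r v hp hq hr hv
  rw [q1] at k3
  rw [q2] at k4 l1
  rw [r2] at k6 l3
  have e1 := pig n (x := s (j + 1)) (by simp [p1 _ k1 k2, k3, k4, k6])
  have t : D S (j + 1) f (s (j + 2)) := ⟨(v1 s m l5).symm, .inl ⟨s, m, e1, rfl⟩⟩
  by_contra! k
  have n' : [a, b, d, e, f, c].Nodup := by simp at n ⊢; tauto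
  refine k.2.2 (pig n' (x := s (j + 2)) ?_ ▸ t)
  simp [l1, l3, v1 s m l5, show s (j + 2) ≠ a from fun e => k.1 (e ▸ t),
    show s (j + 2) ≠ b from fun e => k.2.1 (e ▸ t)]

omit h in
lemma core (E : Fin 6 → Fin 6 → Prop) (sy : ∀ a b, E a b → E b a)
    (cl : ∀ a b c d e f : Fin 6, [a, b, c, d, e, f].Nodup → E a b → E c d →
      E e f ∧ e.1 / 2 ≠ f.1 / 2)
    (dg : ∀ a b c d e f : Fin 6, [a, b, c, d, e, f].Nodup → a.1 / 2 = b.1 / 2 →
      c.1 / 2 = d.1 / 2 → E f a ∨ E f b ∨ E f c) : False := by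
  rcases dg 4 5 3 2 1 0 (by decide) rfl rfl with h04 | h05 | h03
  · rcases dg 4 5 3 2 0 1 (by decide) rfl rfl with h14 | h15 | h13
    · rcases dg 0 1 3 2 4 5 (by decide) rfl rfl with h50 | h51 | h53
      · exact (cl 1 4 5 0 2 3 (by decide) h14 h50).2 (by decide)
      · exact (cl 0 4 5 1 2 3 (by decide) h04 h51).2 (by decide)
      · have h12 := (cl 0 4 5 3 1 2 (by decide) h04 h53).1
        have h02 := (cl 1 4 5 3 0 2 (by decide) h14 h53).1
        rcases dg 0 1 2 3 4 5 (by decide) rfl rfl with h50 | h51 | h52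
        · exact (cl 1 4 5 0 2 3 (by decide) h14 h50).2 (by decide)
        · exact (cl 0 4 5 1 2 3 (by decide) h04 h51).2 (by decide)
        · have h13 := (cl 0 4 5 2 1 3 (by decide) h04 h52).1
          have h03 := (cl 1 4 5 2 0 3 (by decide) h14 h52).1
          exact (cl 1 2 0 3 4 5 (by decide) h12 h03).2 (by decide)
    · exact (cl 0 4 1 5 2 3 (by decide) h04 h15).2 (by decide)
    · have h25 := (cl 0 4 1 3 2 5 (by decide) h04 h13).1
      rcases dg 2 3 5 4 1 0 (by decide) rfl rfl with h02 | h03 | h05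
      · exact (cl 1 3 0 2 4 5 (by decide) h13 h02).2 (by decide)
      · have h14 := (cl 2 5 0 3 1 4 (by decide) h25 h03).1
        rcases dg 0 1 4 5 3 2 (by decide) rfl rfl with h20 | h21 | h24
        · exact (cl 1 3 2 0 4 5 (by decide) h13 h20).2 (by decide)
        · have h35 := (cl 0 4 2 1 3 5 (by decide) h04 h21).1
          exact (cl 0 3 2 1 4 5 (by decide) h03 h21).2 (by decide)
        · have h05 := (cl 1 3 2 4 0 5 (by decide) h13 h24).1
          have h15 := (cl 0 3 2 4 1 5 (by decide) h03 h24).1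
          exact (cl 0 4 1 5 2 3 (by decide) h04 h15).2 (by decide)
      · have h24 := (cl 1 3 0 5 2 4 (by decide) h13 h05).1
        rcases dg 4 5 2 3 0 1 (by decide) rfl rfl with h14 | h15 | h12
        · have h03 := (cl 2 5 1 4 0 3 (by decide) h25 h14).1
          exact (cl 0 5 1 4 2 3 (by decide) h05 h14).2 (by decide)
        · exact (cl 0 4 1 5 2 3 (by decide) h04 h15).2 (by decide)
        · have h35 := (cl 0 4 1 2 3 5 (by decide) h04 h12).1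
          have h34 := (cl 0 5 1 2 3 4 (by decide) h05 h12).1
          exact (cl 2 5 3 4 0 1 (by decide) h25 h34).2 (by decide)
  · rcases dg 4 5 3 2 0 1 (by decide) rfl rfl with h14 | h15 | h13
    · exact (cl 0 5 1 4 2 3 (by decide) h05 h14).2 (by decide)
    · rcases dg 0 1 3 2 5 4 (by decide) rfl rfl with h40 | h41 | h43
      · exact (cl 1 5 4 0 2 3 (by decide) h15 h40).2 (by decide)
      · exact (cl 0 5 4 1 2 3 (by decide) h05 h41).2 (by decide)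
      · have h12 := (cl 0 5 4 3 1 2 (by decide) h05 h43).1
        have h02 := (cl 1 5 4 3 0 2 (by decide) h15 h43).1
        rcases dg 0 1 2 3 5 4 (by decide) rfl rfl with h40 | h41 | h42
        · exact (cl 1 5 4 0 2 3 (by decide) h15 h40).2 (by decide)
        · exact (cl 0 5 4 1 2 3 (by decide) h05 h41).2 (by decide)
        · have h13 := (cl 0 5 4 2 1 3 (by decide) h05 h42).1
          have h03 := (cl 1 5 4 2 0 3 (by decide) h15 h42).1
          exact (cl 1 2 0 3 4 5 (by decide) h12 h03).2 (by decide)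
    · have h24 := (cl 0 5 1 3 2 4 (by decide) h05 h13).1
      rcases dg 2 3 4 5 1 0 (by decide) rfl rfl with h02 | h03 | h04
      · exact (cl 1 3 0 2 4 5 (by decide) h13 h02).2 (by decide)
      · have h15 := (cl 2 4 0 3 1 5 (by decide) h24 h03).1
        rcases dg 0 1 5 4 3 2 (by decide) rfl rfl with h20 | h21 | h25
        · exact (cl 1 3 2 0 4 5 (by decide) h13 h20).2 (by decide)
        · have h34 := (cl 0 5 2 1 3 4 (by decide) h05 h21).1
          exact (cl 0 3 2 1 4 5 (by decide) h03 h21).2 (by decide)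
        · have h04 := (cl 1 3 2 5 0 4 (by decide) h13 h25).1
          have h14 := (cl 0 3 2 5 1 4 (by decide) h03 h25).1
          exact (cl 0 5 1 4 2 3 (by decide) h05 h14).2 (by decide)
      · have h25 := (cl 1 3 0 4 2 5 (by decide) h13 h04).1
        rcases dg 4 5 2 3 0 1 (by decide) rfl rfl with h14 | h15 | h12
        · exact (cl 0 5 1 4 2 3 (by decide) h05 h14).2 (by decide)
        · have h03 := (cl 2 4 1 5 0 3 (by decide) h24 h15).1
          exact (cl 0 4 1 5 2 3 (by decide) h04 h15).2 (by decide)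
        · have h34 := (cl 0 5 1 2 3 4 (by decide) h05 h12).1
          have h35 := (cl 0 4 1 2 3 5 (by decide) h04 h12).1
          exact (cl 2 4 3 5 0 1 (by decide) h24 h35).2 (by decide)
  · rcases dg 2 3 5 4 0 1 (by decide) rfl rfl with h12 | h13 | h15
    · exact (cl 0 3 1 2 4 5 (by decide) h03 h12).2 (by decide)
    · rcases dg 0 1 5 4 3 2 (by decide) rfl rfl with h20 | h21 | h25
      · exact (cl 1 3 2 0 4 5 (by decide) h13 h20).2 (by decide)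
      · exact (cl 0 3 2 1 4 5 (by decide) h03 h21).2 (by decide)
      · have h14 := (cl 0 3 2 5 1 4 (by decide) h03 h25).1
        have h04 := (cl 1 3 2 5 0 4 (by decide) h13 h25).1
        rcases dg 0 1 4 5 3 2 (by decide) rfl rfl with h20 | h21 | h24
        · exact (cl 1 3 2 0 4 5 (by decide) h13 h20).2 (by decide)
        · exact (cl 0 3 2 1 4 5 (by decide) h03 h21).2 (by decide)
        · have h15 := (cl 0 3 2 4 1 5 (by decide) h03 h24).1
          have h05 := (cl 1 3 2 4 0 5 (by decide) h13 h24).1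
          exact (cl 1 4 0 5 2 3 (by decide) h14 h05).2 (by decide)
    · have h24 := (cl 0 3 1 5 2 4 (by decide) h03 h15).1
      rcases dg 4 5 2 3 1 0 (by decide) rfl rfl with h04 | h05 | h02
      · exact (cl 1 5 0 4 2 3 (by decide) h15 h04).2 (by decide)
      · have h13 := (cl 2 4 0 5 1 3 (by decide) h24 h05).1
        rcases dg 0 1 5 4 3 2 (by decide) rfl rfl with h20 | h21 | h25
        · have h34 := (cl 1 5 2 0 3 4 (by decide) h15 h20).1
          have h12 := (cl 0 5 3 4 1 2 (by decide) h05 h34).1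
          exact (cl 0 3 1 2 4 5 (by decide) h03 h12).2 (by decide)
        · exact (cl 0 3 2 1 4 5 (by decide) h03 h21).2 (by decide)
        · have h14 := (cl 0 3 2 5 1 4 (by decide) h03 h25).1
          exact (cl 0 5 1 4 2 3 (by decide) h05 h14).2 (by decide)
      · have h34 := (cl 1 5 0 2 3 4 (by decide) h15 h02).1
        rcases dg 2 3 4 5 0 1 (by decide) rfl rfl with h12 | h13 | h14
        · exact (cl 0 3 1 2 4 5 (by decide) h03 h12).2 (by decide)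
        · have h05 := (cl 2 4 1 3 0 5 (by decide) h24 h13).1
          exact (cl 0 2 1 3 4 5 (by decide) h02 h13).2 (by decide)
        · have h25 := (cl 0 3 1 4 2 5 (by decide) h03 h14).1
          have h35 := (cl 0 2 1 4 3 5 (by decide) h02 h14).1
          exact (cl 2 4 3 5 0 1 (by decide) h24 h35).2 (by decide)

lemma ca {j : ℕ} (hj : j + 4 < 14) {a b c d : Fin 6} (n : [a, b, c, d].Nodup)
    (x : D S (j + 1) a b) (y : D S (j + 1) c d) : False := by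
  obtain ⟨e, f, n⟩ : ∃ e f, [a, b, c, d, e, f].Nodup := by
    clear x y
    revert a b c d
    decide +kernel
  let g : Fin 6 → Fin 6 := ![a, b, c, d, e, f]
  have gi : g.Injective := List.nodup_ofFn.1 (by simpa [g] using n)
  have gn : ∀ {l : List (Fin 6)}, l.Nodup → (l.map g).Nodup := fun k => k.map gi
  have z : D S (j + 1) e f := ⟨gi.ne (a₁ := 4) (a₂ := 5) (by decide),
    .inr (a1 h (by omega) n x y).1⟩
  have b1 : ∀ u v : Fin 6, u ≠ v → u.1 / 2 = v.1 / 2 → P S (j + 1) (g u) (g v) := fun u v p q => by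
    have r := fun a b c d e f (k : [a, b, c, d, e, f].Nodup) =>
      fun x y => (a1 h (j := j) (by omega) (gn k) x y).1
    have := r 0 1 2 3 4 5 (by decide) x y
    have := r 0 1 2 3 5 4 (by decide) x y
    have := r 0 1 4 5 2 3 (by decide) x z
    have := r 0 1 4 5 3 2 (by decide) x z
    have := r 2 3 4 5 0 1 (by decide) y z
    have := r 2 3 4 5 1 0 (by decide) y z
    fin_cases u <;> fin_cases v <;> first | assumption | simp at p q
  refine core (fun u v => D S (j + 2) (g u) (g v)) (fun u v k => ⟨k.1.symm, k.2.symm⟩)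
    (fun a b c d e f n x y => ?_) fun a b c d e f n p q => ?_
  · have := a1 h (j := j + 1) (by omega) (gn n) x y
    have r : e ≠ f := by simp at n; tauto
    exact ⟨⟨gi.ne r, .inr this.1⟩, fun k => this.2 ⟨gi.ne r, .inl (b1 _ _ r k)⟩⟩
  · have r : a ≠ b ∧ c ≠ d ∧ f ≠ e := by simp at n; tauto
    refine a3 h (by omega) (gn n) ⟨gi.ne r.1, .inl (b1 _ _ r.1 p)⟩ (b1 _ _ r.2.1 q)
      (b1 _ _ r.2.2 ?_)
    simp [Fin.ext_iff] at n
    omega

lemma nb {j : ℕ} (hj : j + 4 < 14) {a b c d : Fin 6} (x : D S (j + 1) a b) (y : D S (j + 1) c d) :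
    c = a ∨ c = b ∨ d = a ∨ d = b := by_contra fun k =>
  ca h hj (by have := x.1; have := y.1; simp at k ⊢; tauto) x y

lemma cs {j : ℕ} (hj : j + 4 < 14) {a b : Fin 6} (x : D S (j + 1) a b) {s : Sq} (m : s ∈ S)
    (p : s (j + 1) ≠ a ∧ s (j + 1) ≠ b) (q : s (j + 2) ≠ a ∧ s (j + 2) ≠ b) :
    s (j + 1) = s (j + 2) := by_contra fun k => by
  have := nb h hj x ⟨k, .inl ⟨s, m, rfl, rfl⟩⟩
  tauto

lemma b3 {j : ℕ} (hj : j + 4 < 14) {a b c d : Fin 6} (x : D S (j + 1) a b) (y : D S (j + 2) c d) :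
    c = a ∨ c = b ∨ d = a ∨ d = b := by_contra fun k => by
  obtain ⟨f, e, n⟩ : ∃ e f, [a, b, c, d, e, f].Nodup := by
    have := x.1
    have := y.1
    clear x y
    revert a b c d
    decide +kernel
  obtain ⟨p, hp, p1⟩ := av h e (j + 1)
  obtain ⟨q, hq, q1⟩ := dv x
  obtain ⟨r, hr, r1⟩ := av h f (j + 2)
  obtain ⟨v, hv, v1⟩ := dv y
  obtain ⟨s, m, ⟨-, k2, -, k4, k5, -⟩, l1, l2, -, l4, l5, l6⟩ :=
    w4 h j (by omega) p q r v hp hq hr hv
  exact p1 s m k2 ((cs h hj x m (q1 _ k4 k5) (q1 _ l1 l2)).trans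
    (pig n (by simp [q1 _ l1 l2, v1 _ l5 l6, r1 s m l4])))

lemma b2 {j : ℕ} (hj : j + 4 < 14) {a b r : Fin 6} (x : D S (j + 1) a b) (ra : r ≠ a) (rb : r ≠ b) :
    P S (j + 2) r a ∨ P S (j + 2) r b := by
  obtain ⟨c, d, e, n⟩ : ∃ c d e, [a, b, c, d, e, r].Nodup := by
    have := x.1
    clear x
    revert a b r
    decide +kernel
  obtain ⟨p0, h0, q0⟩ := av h c (j + 1)
  obtain ⟨p1, h1, q1⟩ := dv x
  obtain ⟨p2, h2, q2⟩ := av h d (j + 2)
  obtain ⟨p3, h3, q3⟩ := av h e (j + 2)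
  obtain ⟨p4, h4, q4⟩ := av h r (j + 3)
  obtain ⟨s, m, w⟩ := win h j [p0, p1, p2, p3, p4] (by simp [*])
  have k0 := q0 s m (by apply w 0 <;> first | omega | simp)
  have k1 := q1 (s (j + 1)) (by apply w 1 <;> first | omega | simp)
    (by apply w 1 <;> first | omega | simp)
  have k1' := q1 (s (j + 2)) (by apply w 1 <;> first | omega | simp)
    (by apply w 1 <;> first | omega | simp)
  have k2 := q2 s m (by apply w 2 <;> first | omega | simp)
  have k3 := q3 s m (by apply w 3 <;> first | omega | simp)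
  have k4 := q4 s m (by apply w 4 <;> first | omega | simp)
  rw [cs h hj x m k1 k1'] at k0
  have e := pig n (x := s (j + 2)) (by simp [*])
  have t : P S (j + 2) r (s (j + 3)) := ⟨s, m, e, rfl⟩
  rcases b3 h hj x ⟨k4.symm, .inl t⟩ with k | k | k | k
  exacts [(ra k).elim, (rb k).elim, .inl (k ▸ t), .inr (k ▸ t)]

omit h in
def St (S : Set Sq) (k : ℕ) (a : Fin 6) : Prop := ∃ b, ∀ r, r ≠ a → r ≠ b → P S k r a

omit h in
lemma cen : ∀ a b u v : Fin 6, (∀ r, r ≠ a → r ≠ b → u = r ∨ u = a ∨ v = r ∨ v = a) →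
    u = a ∨ v = a := by decide +kernel

lemma sn {j : ℕ} (hj : j + 4 < 14) {a : Fin 6} (x : St S (j + 1) a) : St S (j + 2) a := by
  obtain ⟨b, x⟩ := x
  obtain ⟨r, ra, rb⟩ : ∃ r, r ≠ a ∧ r ≠ b := by clear x; revert a b; decide
  refine ⟨r, fun t ta tr => (b2 h hj ⟨ra, .inl (x r ra rb)⟩ tr ta).resolve_left fun k => ?_⟩
  exact (cen a b t r fun u p q => b3 h hj ⟨p, .inl (x u p q)⟩ ⟨tr, .inl k⟩).elim ta ra

lemma sc {j : ℕ} (hj : j + 4 < 14) {a : Fin 6} (x : St S (j + 1) a) {s : Sq} (m : s ∈ S)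
    (p : s (j + 1) ≠ a) (q : s (j + 2) ≠ a) : s (j + 2) = s (j + 1) := by_contra fun k => by
  obtain ⟨b, x⟩ := x
  exact (cen a b _ _ fun u p q => nb h hj ⟨p, .inl (x u p q)⟩
    ⟨k, .inr ⟨s, m, rfl, rfl⟩⟩).elim q p

lemma b1 : ∃ j ≤ 2, ∃ a, St S (j + 2) a := by
  obtain ⟨j, hj, a, b, x⟩ : ∃ j ≤ 2, ∃ a b, D S (j + 1) a b := by_contra fun k => by
    have c : ∀ j ≤ 2, ∀ s ∈ S, s (j + 2) = s (j + 1) := fun j hj s m => by_contra fun e =>
      k ⟨j, hj, _, _, e, .inr ⟨s, m, rfl, rfl⟩⟩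
    obtain ⟨p0, h0, q0⟩ := av h 0 1
    obtain ⟨p1, h1, q1⟩ := av h 1 1
    obtain ⟨p2, h2, q2⟩ := av h 2 2
    obtain ⟨p3, h3, q3⟩ := av h 3 3
    obtain ⟨p4, h4, q4⟩ := av h 4 4
    obtain ⟨p5, h5, q5⟩ := av h 5 4
    obtain ⟨s, m, w⟩ := win h 0 [p0, p1, p2, p3, p4, p5] (by simp [*])
    have k0 := q0 s m (by apply w 0 <;> first | omega | simp)
    have k1 := q1 s m (by apply w 1 <;> first | omega | simp)
    have k2 := q2 s m (by apply w 2 <;> first | omega | simp)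
    have k3 := q3 s m (by apply w 3 <;> first | omega | simp)
    have k4 := q4 s m (by apply w 4 <;> first | omega | simp)
    have k5 := q5 s m (by apply w 5 <;> first | omega | simp)
    have := c 0 (by omega) s m
    have := c 1 (by omega) s m
    have := c 2 (by omega) s m
    simp only [Nat.reduceAdd] at *
    omega
  refine ⟨j, hj, ?_⟩
  by_cases k : ∀ r, r ≠ a → r ≠ b → P S (j + 2) r a
  · exact ⟨a, b, k⟩
  push Not at k
  obtain ⟨r, ra, rb, k⟩ := k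
  have t := (b2 h (by omega) x ra rb).resolve_left k
  refine ⟨b, a, fun u ub ua => (b2 h (by omega) x ua ub).elim (fun e => ?_) id⟩
  rcases nb h (j := j + 1) (by omega) ⟨rb, .inl t⟩ ⟨ua, .inl e⟩ with q | q | q | q
  exacts [q ▸ t, (ub q).elim, (ra q.symm).elim, (x.1 q).elim]

theorem no : False := by
  obtain ⟨j, hj, a, x0⟩ := b1 h
  have x1 := sn h (j := j + 1) (by omega) x0
  have x2 := sn h (j := j + 2) (by omega) x1
  have x3 := sn h (j := j + 3) (by omega) x2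
  have x4 := sn h (j := j + 4) (by omega) x3
  have u : ∀ k, St S k a → ∃ v ∈ S, v (k + 1) = a := fun k ⟨b, x⟩ => by
    obtain ⟨r, ra, rb⟩ : ∃ r, r ≠ a ∧ r ≠ b := by clear * -; revert a b; decide
    obtain ⟨v, m, -, e⟩ := x r ra rb
    exact ⟨v, m, e⟩
  obtain ⟨b, c, d, e, f, n⟩ : ∃ b c d e f, [b, c, d, e, f, a].Nodup := by
    clear * -
    revert a
    decide +kernel
  obtain ⟨p0, h0, q0⟩ := av h b (j + 2)
  obtain ⟨p1, h1, q1⟩ := av h c (j + 2)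
  obtain ⟨p2, h2, q2⟩ := u _ x0
  obtain ⟨p3, h3, q3⟩ := av h d (j + 4)
  obtain ⟨p4, h4, q4⟩ := av h e (j + 5)
  obtain ⟨p5, h5, q5⟩ := u _ x3
  obtain ⟨p6, h6, q6⟩ := av h f (j + 7)
  obtain ⟨s, m, w⟩ := win h (j + 1) [p0, p1, p2, p3, p4, p5, p6] (by simp [*])
  have k0 := q0 s m (by apply w 0 <;> first | omega | simp)
  have k1 := q1 s m (by apply w 1 <;> first | omega | simp)
  have k3 := q3 s m (by apply w 3 <;> first | omega | simp)
  have k4 := q4 s m (by apply w 4 <;> first | omega | simp)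
  have k6 := q6 s m (by apply w 6 <;> first | omega | simp)
  have y : ∀ t, j + 2 ≤ t → t ≤ j + 7 → s t ≠ a := fun t p q => by
    rcases le_or_gt t (j + 4) with k | k
    · rw [← q2]; apply w 2 <;> first | omega | simp
    · rw [← q5]; apply w 5 <;> first | omega | simp
  have e0 := sc h (j := j + 1) (by omega) x0 m (y _ (by omega) (by omega)) (y _ (by omega) (by omega))
  have e1 := sc h (j := j + 2) (by omega) x1 m (y _ (by omega) (by omega)) (y _ (by omega) (by omega))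
  have e2 := sc h (j := j + 3) (by omega) x2 m (y _ (by omega) (by omega)) (y _ (by omega) (by omega))
  have e3 := sc h (j := j + 4) (by omega) x3 m (y _ (by omega) (by omega)) (y _ (by omega) (by omega))
  have e4 := sc h (j := j + 5) (by omega) x4 m (y _ (by omega) (by omega)) (y _ (by omega) (by omega))
  simp only [add_assoc, Nat.reduceAdd] at e0 e1 e2 e3 e4
  rw [e4] at k6
  rw [e3] at k6
  rw [e2] at k6 k4
  rw [e1, e0] at k6 k4 k3
  exact y (j + 2) le_rfl (by omega) (pig n (by simp [*]))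

end Pool.Agent.H15.Tmp
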