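import Mathlib

set_option autoImplicit false
open scoped Topology

namespace Pool.Agent.H15.Wedge

open Complex

abbrev E := Fin 2 → ℂ
abbrev F2 := EuclideanSpace ℂ (Fin 2)

noncomputable def rho : E →L[ℝ] (Fin 2 → ℝ) :=
  ContinuousLinearMap.pi fun j => Complex.imCLM.comp (ContinuousLinearMap.proj j)

@[simp] lemma rho_apply (w : E) (j : Fin 2) : rho w j = (w j).im := rfl

def Gam : Set (Fin 2 → ℝ) := {x | 0 < x 0 ∧ 0 < x 1}

noncomputable def q0 (w : E) : ℂ := w 0 + w 1 - I * (w 0 * w 1)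
noncomputable def p0 (w : E) : ℂ := w 0 + w 1 + I * (w 0 * w 1)
noncomputable def qq (w : E) : ℂ := (w 0 + I) * q0 w
noncomputable def e0 : F2 := EuclideanSpace.single 0 1
noncomputable def e1 : F2 := EuclideanSpace.single 1 1
noncomputable def pp (w : E) : F2 := (I * q0 w) • e0 + (w 0 * p0 w) • e1
noncomputable def gg (w : E) : F2 := (qq w)⁻¹ • pp w

lemma pp0 (w : E) : pp w 0 = I * q0 w := by simp [pp, e0, e1]
lemma pp1 (w : E) : pp w 1 = w 0 * p0 w := by simp [pp, e0, e1]

lemma norm_pp (w : E) : ‖pp w‖ ^ 2 = normSq (q0 w) + normSq (w 0) * normSq (p0 w) := by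
  rw [EuclideanSpace.norm_sq_eq, Fin.sum_univ_two, pp0, pp1, ← Complex.normSq_eq_norm_sq,
    ← Complex.normSq_eq_norm_sq]
  simp

lemma normSq_diff (w : E) : normSq (q0 w) - normSq (p0 w) =
    4 * (normSq (w 0) * (w 1).im + normSq (w 1) * (w 0).im) := by
  simp [q0, p0, normSq_apply]; ring

lemma normSq_add_I (z : ℂ) : normSq (z + I) = normSq z + 1 + 2 * z.im := by
  simp [normSq_apply]; ring

lemma an_coord (j : Fin 2) (w : E) : AnalyticAt ℂ (fun w : E => w j) w :=
  (ContinuousLinearMap.proj (R := ℂ) (φ := fun _ : Fin 2 => ℂ) j).analyticAt w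

lemma an_q0 (w : E) : AnalyticAt ℂ q0 w :=
  ((an_coord 0 w).add (an_coord 1 w)).sub (analyticAt_const.mul ((an_coord 0 w).mul (an_coord 1 w)))

lemma an_p0 (w : E) : AnalyticAt ℂ p0 w :=
  ((an_coord 0 w).add (an_coord 1 w)).add (analyticAt_const.mul ((an_coord 0 w).mul (an_coord 1 w)))

lemma an_qq (w : E) : AnalyticAt ℂ qq w := ((an_coord 0 w).add analyticAt_const).mul (an_q0 w)

lemma an_pp (w : E) : AnalyticAt ℂ pp w :=
  ((analyticAt_const.mul (an_q0 w)).smul analyticAt_const).add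
    (((an_coord 0 w).mul (an_p0 w)).smul analyticAt_const)

lemma an_gg (w : E) (h : qq w ≠ 0) : AnalyticAt ℂ gg w := ((an_qq w).inv h).smul (an_pp w)

lemma lt_of_wedge (w : E) (h0 : 0 < (w 0).im) (h1 : 0 < (w 1).im) :
    normSq (p0 w) < normSq (q0 w) := by
  have := normSq_diff w
  have a : 0 < normSq (w 0) := normSq_pos.2 (by intro h; simp [h] at h0)
  have b : 0 < normSq (w 1) := normSq_pos.2 (by intro h; simp [h] at h1)
  nlinarith [mul_pos a h1, mul_pos b h0]

lemma qq_ne (w : E) (h0 : 0 < (w 0).im) (h1 : 0 < (w 1).im) : qq w ≠ 0 := by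
  have h := lt_of_wedge w h0 h1
  have h2 : q0 w ≠ 0 := by
    intro e; rw [e] at h; simp at h; exact absurd h (not_lt.2 (normSq_nonneg _))
  have h3 : w 0 + I ≠ 0 := by
    intro e; have := congrArg Complex.im e; simp at this; linarith
  exact mul_ne_zero h3 h2

lemma norm_gg_sq (w : E) : ‖gg w‖ ^ 2 =
    (normSq (q0 w) + normSq (w 0) * normSq (p0 w)) / (normSq (w 0 + I) * normSq (q0 w)) := by
  rw [gg, norm_smul, mul_pow, norm_pp, norm_inv, inv_pow, ← Complex.normSq_eq_norm_sq, qq,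
    map_mul, div_eq_inv_mul]

lemma norm_gg_lt (w : E) (h0 : 0 < (w 0).im) (h1 : 0 < (w 1).im) : ‖gg w‖ < 1 := by
  have h := lt_of_wedge w h0 h1
  have hq : 0 < normSq (q0 w) := lt_of_le_of_lt (normSq_nonneg _) h
  have hs : ‖gg w‖ ^ 2 < 1 := by
    rw [norm_gg_sq, normSq_add_I, div_lt_one (by nlinarith [normSq_nonneg (w 0)])]
    nlinarith [normSq_nonneg (w 0), mul_nonneg (normSq_nonneg (w 0)) (sub_pos.2 h).le,
      mul_pos hq h0]
  nlinarith [norm_nonneg (gg w)]

lemma norm_gg_ge (w : E) (h0 : 0 < (w 0).im) (h1 : 0 < (w 1).im) : ‖w 0 + I‖⁻¹ ≤ ‖gg w‖ := by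
  have h := qq_ne w h0 h1
  have h2 : q0 w ≠ 0 := right_ne_zero_of_mul h
  have h3 : w 0 + I ≠ 0 := left_ne_zero_of_mul h
  have : gg w 0 = I / (w 0 + I) := by
    simp only [gg, PiLp.smul_apply, pp0, smul_eq_mul, qq]; field_simp
  have h4 := PiLp.norm_apply_le (gg w) 0
  rw [this] at h4
  simpa using h4

lemma real_ne (m : E) (h0 : (m 0).im = 0) (h1 : (m 1).im = 0) (hm : m ≠ 0) : qq m ≠ 0 := by
  have h3 : m 0 + I ≠ 0 := by
    intro e; have := congrArg Complex.im e; simp at this; linarith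
  refine mul_ne_zero h3 ?_
  intro e
  have a := congrArg Complex.re e
  have b := congrArg Complex.im e
  simp [q0, h0, h1] at a b
  apply hm
  have c0 : (m 0).re = 0 := by rcases b with b | b <;> linarith
  have c1 : (m 1).re = 0 := by rcases b with b | b <;> linarith
  funext j; fin_cases j
  · exact Complex.ext c0 h0
  · exact Complex.ext c1 h1

lemma real_norm (m : E) (h0 : (m 0).im = 0) (h1 : (m 1).im = 0) (hm : m ≠ 0) : ‖gg m‖ = 1 := by
  have h := real_ne m h0 h1 hm
  have h2 : 0 < normSq (q0 m) := normSq_pos.2 (right_ne_zero_of_mul h)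
  have h3 : 0 < normSq (m 0 + I) := normSq_pos.2 (left_ne_zero_of_mul h)
  have hd := normSq_diff m
  rw [h0, h1] at hd
  have hs : ‖gg m‖ ^ 2 = 1 := by
    rw [norm_gg_sq, div_eq_one_iff_eq (mul_pos h3 h2).ne', normSq_add_I, h0]
    have : normSq (p0 m) = normSq (q0 m) := by linarith
    rw [this]; ring
  nlinarith [norm_nonneg (gg m)]

lemma tends (m : E) (h0 : (m 0).im = 0) (h1 : (m 1).im = 0) :
    Filter.Tendsto (fun w => ‖gg w‖) (𝓝[{w | w ∈ (Set.univ : Set E) ∧ rho w ∈ Gam}] m) (𝓝 1) := by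
  by_cases hm : m = 0
  · subst hm
    have hl : Filter.Tendsto (fun w : E => ‖w 0 + I‖⁻¹)
        (𝓝[{w | w ∈ (Set.univ : Set E) ∧ rho w ∈ Gam}] 0) (𝓝 1) := by
      have c : ContinuousAt (fun w : E => ‖w 0 + I‖⁻¹) 0 :=
        ContinuousAt.inv₀ (((an_coord 0 0).continuousAt.add continuousAt_const).norm) (by simp)
      have := c.tendsto
      simp only [Pi.zero_apply, zero_add, norm_I, inv_one] at this
      exact this.mono_left nhdsWithin_le_nhds
    refine tendsto_of_tendsto_of_tendsto_of_le_of_le' hl tendsto_const_nhds ?_ ?_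
    · filter_upwards [self_mem_nhdsWithin] with w hw using norm_gg_ge w hw.2.1 hw.2.2
    · filter_upwards [self_mem_nhdsWithin] with w hw using (norm_gg_lt w hw.2.1 hw.2.2).le
  · have c := (an_gg m (real_ne m h0 h1 hm)).continuousAt.norm.tendsto
    rw [real_norm m h0 h1 hm] at c
    exact c.mono_left nhdsWithin_le_nhds

/-- boundary identity -/
lemma bdry (V : Set E) (hV : IsOpen V) (F : E → F2) (hF : AnalyticOnNhd ℂ F V)
    (hFg : ∀ w ∈ V, rho w ∈ Gam → F w = gg w) (m : E) (hmV : m ∈ V)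
    (h0 : (m 0).im = 0) (h1 : (m 1).im = 0) : qq m * F m 1 = m 0 * p0 m := by
  let c : ℝ → E := fun y => m + fun _ => (y : ℂ) * I
  have hc : Continuous c := by
    refine continuous_const.add (continuous_pi fun _ => by fun_prop)
  have hc0 : c 0 = m := by funext j; simp [c]
  have hct : Filter.Tendsto c (𝓝[>] 0) (𝓝 m) := by
    have := hc.tendsto 0
    rw [hc0] at this
    exact this.mono_left nhdsWithin_le_nhds
  have hF1 : ContinuousAt (fun w => F w 1) m :=
    (EuclideanSpace.proj (𝕜 := ℂ) (1 : Fin 2)).continuous.continuousAt.comp (hF m hmV).continuousAt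
  have t1 : Filter.Tendsto (fun y => qq (c y) * F (c y) 1) (𝓝[>] 0) (𝓝 (qq m * F m 1)) :=
    (((an_qq m).continuousAt.mul hF1).tendsto).comp hct
  have t2 : Filter.Tendsto (fun y => c y 0 * p0 (c y)) (𝓝[>] 0) (𝓝 (m 0 * p0 m)) :=
    (((an_coord 0 m).continuousAt.mul (an_p0 m).continuousAt).tendsto).comp hct
  refine tendsto_nhds_unique_of_eventuallyEq t1 t2 ?_
  filter_upwards [self_mem_nhdsWithin, hct (hV.mem_nhds hmV)] with y hy hyV
  have a0 : 0 < (c y 0).im := by simpa [c, h0] using hy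
  have a1 : 0 < (c y 1).im := by simpa [c, h1] using hy
  rw [hFg (c y) hyV ⟨a0, a1⟩]
  have := qq_ne (c y) a0 a1
  simp only [gg, PiLp.smul_apply, pp1, smul_eq_mul]
  field_simp

lemma no_ext (V : Set E) (hV : V ∈ 𝓝 (0 : E)) (F : E → F2) (hF : AnalyticOnNhd ℂ F V)
    (hFg : ∀ w ∈ V, rho w ∈ Gam → F w = gg w) : False := by
  obtain ⟨V', hVV, hV', h0V⟩ := mem_nhds_iff.1 hV
  have hb := bdry V' hV' F (hF.mono hVV) (fun w hw => hFg w (hVV hw))
  let G : E → ℂ := fun w => F w 1
  have hG : DifferentiableAt ℂ G 0 :=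
    (EuclideanSpace.proj (𝕜 := ℂ) (1 : Fin 2)).differentiableAt.comp 0
      (hF 0 (hVV h0V)).differentiableAt
  set L := fderiv ℂ G 0 with hL
  have hline : ∀ v : E, HasDerivAt (fun s : ℂ => G (s • v)) (L v) 0 := by
    intro v
    have h1 : HasDerivAt (fun s : ℂ => s • v) v 0 := by
      simpa using (hasDerivAt_id (0 : ℂ)).smul_const v
    have h2 : HasFDerivAt G L ((fun s : ℂ => s • v) 0) := by simpa using hG.hasFDerivAt
    exact h2.comp_hasDerivAt 0 h1
  let v1 : E := ![1, 0]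
  let v2 : E := ![1, -1]
  let v3 : E := ![0, 2]
  let v4 : E := ![0, 1]
  have hH : HasDerivAt (fun s : ℂ => G (s • v1) - G (s • v2) - G (s • v3) + G (s • v4)) 0 0 := by
    have := (((hline v1).sub (hline v2)).sub (hline v3)).add (hline v4)
    have e : L v1 - L v2 - L v3 + L v4 = 0 := by
      rw [← map_sub, ← map_sub, ← map_add]
      have : v1 - v2 - v3 + v4 = 0 := by
        funext j; fin_cases j <;> simp [v1, v2, v3, v4]; norm_num
      rw [this, map_zero]
    rw [e] at this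
    exact this
  have hK : HasDerivAt (fun s : ℂ => 2 * s / (s + I)) (2 / I) 0 := by
    have := (((hasDerivAt_id (0 : ℂ)).const_mul 2).div ((hasDerivAt_id (0 : ℂ)).add_const I)
      (by simp))
    have e : (2 * 1 * (id (0 : ℂ) + I) - 2 * id (0 : ℂ) * 1) / (id (0 : ℂ) + I) ^ 2 = 2 / I := by
      simp only [id, zero_add, mul_zero, zero_mul, sub_zero, mul_one]
      field_simp
    rw [e] at this
    exact this
  have hH' := hH.comp_ofReal (z := 0)
  have hK' := hK.comp_ofReal (z := 0)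
  have mem : ∀ v : E, ∀ᶠ x : ℝ in 𝓝 0, (x : ℂ) • v ∈ V' := by
    intro v
    have c : Continuous fun x : ℝ => (x : ℂ) • v := by fun_prop
    have := c.tendsto 0
    simp only [ofReal_zero, zero_smul] at this
    exact this (hV'.mem_nhds h0V)
  have ev : (fun x : ℝ => G ((x : ℂ) • v1) - G ((x : ℂ) • v2) - G ((x : ℂ) • v3) + G ((x : ℂ) • v4))
      =ᶠ[𝓝 0] fun x : ℝ => 2 * (x : ℂ) / ((x : ℂ) + I) := by
    filter_upwards [mem v1, mem v2, mem v3, mem v4] with x m1 m2 m3 m4
    by_cases hx : x = 0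
    · subst hx; simp
    have hx' : (x : ℂ) ≠ 0 := by exact_mod_cast hx
    have hxI : (x : ℂ) + I ≠ 0 := by
      intro e; have := congrArg Complex.im e; simp at this
    have b1 := hb _ m1 (by simp [v1]) (by simp [v1])
    have b2 := hb _ m2 (by simp [v2]) (by simp [v2])
    have b3 := hb _ m3 (by simp [v3]) (by simp [v3])
    have b4 := hb _ m4 (by simp [v4]) (by simp [v4])
    change _ * G _ = _ at b1 b2 b3 b4
    generalize G ((x : ℂ) • v1) = y1 at b1
    generalize G ((x : ℂ) • v2) = y2 at b2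
    generalize G ((x : ℂ) • v3) = y3 at b3
    generalize G ((x : ℂ) • v4) = y4 at b4
    have g1 : y1 = x / (x + I) := by
      simp [qq, q0, p0, v1] at b1
      rw [eq_div_iff hxI]
      apply mul_left_cancel₀ hx'
      linear_combination b1
    have g2 : y2 = -x / (x + I) := by
      simp [qq, q0, p0, v2] at b2
      rw [eq_div_iff hxI]
      apply mul_left_cancel₀ (mul_ne_zero I_ne_zero (mul_ne_zero hx' hx'))
      linear_combination b2
    have g3 : y3 = 0 := by
      simp [qq, q0, p0, v3, hx] at b3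
      exact b3
    have g4 : y4 = 0 := by
      simp [qq, q0, p0, v4, hx] at b4
      exact b4
    rw [g1, g2, g3, g4]; ring
  have := (hH'.congr_of_eventuallyEq ev.symm).unique hK'
  simp at this

end Pool.Agent.H15.Wedge
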