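import Mathlib

namespace Pool.Agent.H15.Wien

open Finset

lemma lemA (d : ℕ) : ∃ (u : ℕ → ℤ) (k0 k1 k2 : ℤ), u 0 = 1 ∧ ∀ y v : ℂ,
    (y - v) ^ 2 * ∑ i ∈ range (d + 1), (u i : ℂ) * y ^ i * v ^ (d + 1 - i) +
      y ^ (d + 1) * (k0 * v ^ 2 + k1 * v * y + k2 * y ^ 2) = (y + v) ^ (d + 3) := by
  induction d with
  | zero => exact ⟨fun _ => 1, 5, 2, 1, rfl, fun y v => by simp; ring⟩
  | succ d ih =>
    obtain ⟨u, k0, k1, k2, h0, h⟩ := ih
    refine ⟨fun i => (if i < d + 1 then u i else k0) + (if i = 0 then 0 else u (i - 1)),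
      3 * k0 + k1, k1 + k2 - k0, k2, by simp [h0], fun y v => ?_⟩
    have e1 : ∑ i ∈ range (d + 1 + 1), ((if i < d + 1 then u i else k0 : ℤ) : ℂ) * y ^ i *
        v ^ (d + 1 + 1 - i) = v * ∑ i ∈ range (d + 1), (u i : ℂ) * y ^ i * v ^ (d + 1 - i) +
        k0 * y ^ (d + 1) * v := by
      rw [sum_range_succ, mul_sum]
      congr 1
      · refine sum_congr rfl fun i hi => ?_
        have := mem_range.1 hi
        rw [if_pos this, show d + 1 + 1 - i = d + 1 - i + 1 by omega]; ring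
      · simp
    have e2 : ∑ i ∈ range (d + 1 + 1), ((if i = 0 then 0 else u (i - 1) : ℤ) : ℂ) * y ^ i *
        v ^ (d + 1 + 1 - i) = y * ∑ i ∈ range (d + 1), (u i : ℂ) * y ^ i * v ^ (d + 1 - i) := by
      rw [sum_range_succ', mul_sum]
      simp only [if_true, Int.cast_zero, zero_mul, add_zero, Nat.succ_ne_zero, if_false,
        Nat.add_sub_cancel, Nat.add_sub_add_right]
      refine sum_congr rfl fun i hi => ?_
      have := mem_range.1 hi
      rw [show d + 1 - i = d + 1 - i from rfl]; ring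
    simp only [Int.cast_add, add_mul, sum_add_distrib, e1, e2]
    rw [show d + 1 + 3 = d + 3 + 1 from rfl, pow_succ (y + v), ← h]
    push_cast
    ring

abbrev Q (d : ℕ) := Fin d → Bool

def chi {d : ℕ} (S : Finset (Fin d)) (p : Q d) : ℤ := ∏ i, if i ∈ S ∧ p i = true then -1 else 1

lemma chi_sq {d : ℕ} (S : Finset (Fin d)) (p : Q d) : chi S p = 1 ∨ chi S p = -1 := by
  refine prod_induction _ (fun x : ℤ => x = 1 ∨ x = -1) ?_ (.inl rfl) fun i _ => ?_
  · rintro a b (rfl | rfl) (rfl | rfl) <;> simp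
  · split_ifs <;> simp

lemma four {d : ℕ} (z : ℂ) (S T : Finset (Fin d)) :
    ∑ p : Q d, ∑ q : Q d, z ^ hammingDist p q * chi S p * chi T q =
      if S = T then 2 ^ d * ((1 + z) ^ (d - S.card) * (1 - z) ^ S.card) else 0 := by
  have e : ∀ p q : Q d, z ^ hammingDist p q * chi S p * chi T q = ∏ i,
      ((if p i ≠ q i then z else 1) * (if i ∈ S ∧ p i = true then -1 else 1) *
        (if i ∈ T ∧ q i = true then -1 else 1)) := fun p q => by
    simp only [prod_mul_distrib, chi, hammingDist, Int.cast_prod, apply_ite (Int.cast : ℤ → ℂ),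
      Int.cast_neg, Int.cast_one]
    rw [prod_ite (fun _ => z), prod_const, prod_const_one, mul_one]
  simp only [e]
  have e2 : ∀ p : Q d, ∑ q : Q d, ∏ i, ((if p i ≠ q i then z else 1) *
      (if i ∈ S ∧ p i = true then -1 else 1) * (if i ∈ T ∧ q i = true then -1 else 1)) =
      ∏ i, ∑ b : Bool, ((if p i ≠ b then z else 1) *
      (if i ∈ S ∧ p i = true then -1 else 1) * (if i ∈ T ∧ b = true then -1 else 1)) :=
    fun p => by rw [prod_univ_sum, Fintype.piFinset_univ]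
  simp only [e2]
  rw [← Fintype.piFinset_univ, ← prod_univ_sum (f := fun i a => ∑ b : Bool,
    ((if a ≠ b then z else 1) * (if i ∈ S ∧ a = true then -1 else 1) *
      (if i ∈ T ∧ b = true then -1 else 1)))]
  split_ifs with h
  · subst h
    have : ∀ i, ∑ a : Bool, ∑ b : Bool, ((if a ≠ b then z else 1) *
        (if i ∈ S ∧ a = true then -1 else 1) * (if i ∈ S ∧ b = true then -1 else 1)) =
        2 * if i ∈ S then 1 - z else 1 + z := fun i => by
      by_cases h : i ∈ S <;> simp [h] <;> ring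
    simp only [this, prod_mul_distrib, prod_const, card_univ, Fintype.card_fin, prod_ite]
    rw [filter_mem_eq_inter, univ_inter, filter_not, filter_mem_eq_inter, univ_inter,
      card_univ_diff, Fintype.card_fin, mul_comm ((1 - z) ^ _)]
  · obtain ⟨i, hi⟩ := not_forall.1 (mt Finset.ext h)
    refine prod_eq_zero (mem_univ i) ?_
    by_cases h1 : i ∈ S <;> by_cases h2 : i ∈ T <;> simp [h1, h2] at hi ⊢ <;> ring

lemma four' {d : ℕ} (z : ℂ) (e : Finset (Fin d) → ℂ) :
    ∑ p : Q d, ∑ q : Q d, z ^ hammingDist p q * (∑ S, e S * chi S p) * ∑ S, e S * chi S q =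
      2 ^ d * ∑ S, e S ^ 2 * ((1 + z) ^ (d - S.card) * (1 - z) ^ S.card) := by
  have : ∀ p q : Q d, z ^ hammingDist p q * (∑ S, e S * chi S p) * ∑ S, e S * chi S q =
      ∑ S, ∑ T, e S * e T * (z ^ hammingDist p q * chi S p * chi T q) := fun p q => by
    rw [mul_assoc, sum_mul_sum, mul_sum]
    refine sum_congr rfl fun S _ => ?_
    rw [mul_sum]
    exact sum_congr rfl fun T _ => by ring
  simp only [this]
  rw [sum_congr rfl fun p _ => sum_comm, sum_comm, mul_sum]
  refine sum_congr rfl fun S _ => ?_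
  rw [sum_congr rfl fun p _ => sum_comm, sum_comm]
  simp only [← mul_sum, four, mul_ite, mul_zero, sum_ite_eq, mem_univ, if_true]
  ring

lemma chi_sum {d : ℕ} (S : Finset (Fin d)) :
    ∑ p : Q d, chi S p = if S = ∅ then 2 ^ d else 0 := by
  unfold chi
  rw [← Fintype.piFinset_univ,
    ← prod_univ_sum (f := fun i a => if i ∈ S ∧ a = true then (-1 : ℤ) else 1)]
  split_ifs with h
  · simp [h]
  · obtain ⟨i, hi⟩ := nonempty_iff_ne_empty.2 h
    exact prod_eq_zero (mem_univ i) (by simp [hi])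

lemma sqs {α : Type} [DecidableEq α] (A : Finset α) (W : ℕ)
    (h : 3 < A.card ∨ (A.card = 1 ∧ IsSquare W)) :
    ∃ c : α → ℕ, ∑ a ∈ A, c a ^ 2 = W := by
  rcases h with h | ⟨h, r, rfl⟩
  · obtain ⟨B, hB, h4⟩ := exists_subset_card_eq (show 4 ≤ A.card from h)
    obtain ⟨x, y, z, w, e⟩ := Nat.sum_four_squares W
    let f : Fin 4 ≃ B := (B.equivFinOfCardEq h4).symm
    refine ⟨fun a => if h : a ∈ B then ![x, y, z, w] (f.symm ⟨a, h⟩) else 0, ?_⟩
    rw [← sum_subset hB fun a _ ha => by simp [ha], ← sum_coe_sort, ← f.sum_comp, ← e]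
    simp [Fin.sum_univ_four]
  · exact ⟨fun _ => r, by simp [h, pow_two]⟩

lemma le_ch (d : ℕ) : ∀ j, 0 < j → j < d → d ≤ d.choose j := by
  induction d with
  | zero => omega
  | succ d ih =>
    rintro (_ | j) h1 h2
    · omega
    rcases j.eq_zero_or_pos with rfl | h
    · simp
    by_cases h3 : j + 1 = d
    · rw [h3, Nat.choose_succ_self_right]
    · have := ih j h (by omega)
      have := Nat.choose_pos (show j + 1 ≤ d by omega)
      rw [Nat.choose_succ_succ']; omega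

lemma coef (d : ℕ) (hd : 4 ≤ d) (u : ℕ → ℤ) (u0 : u 0 = 1) :
    ∃ (s : ℕ) (c : Finset (Fin d) → ℕ), ∑ S ∈ univ.erase ∅, c S < c ∅ ∧
      (c ∅ : ℤ) = 2 ^ d * (s ^ 2 - 1) ∧ ∀ j, 0 < j → j ≤ d →
        ∑ S ∈ powersetCard j univ, (c S : ℤ) ^ 2 =
          2 ^ d * u (d - j) + (s ^ 2 - 2 ^ d) * d.choose j := by
  obtain ⟨n, hn⟩ : ∃ n : ℕ, n = 2 ^ d := ⟨_, rfl⟩
  have hn' : (2 : ℤ) ^ d = n := by rw [hn]; simp
  obtain ⟨B, hB⟩ : ∃ B : ℕ, ∀ i ≤ d, |u i| ≤ B :=
    ⟨∑ i ∈ range (d + 1), (u i).natAbs, fun i hi => by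
      rw [← Int.natCast_natAbs]
      exact_mod_cast single_le_sum (f := fun i => (u i).natAbs) (fun _ _ => Nat.zero_le _)
        (mem_range.2 (by omega))⟩
  obtain ⟨s, hs⟩ : ∃ s : ℕ, s = n * B + n + 2 := ⟨_, rfl⟩
  have s1 : (n : ℤ) * B + n + 2 = s := by rw [hs]; simp
  have s2 : (s : ℤ) ≤ s ^ 2 := by nlinarith [Int.natCast_nonneg s]
  have n0 : 0 < n := hn ▸ Nat.two_pow_pos d
  have w : ∀ j ≤ d, 0 ≤ n * u (d - j) + (s ^ 2 - n) * (d.choose j : ℤ) ∧
      n * u (d - j) + (s ^ 2 - n) * (d.choose j : ℤ) ≤ (s * (n + 1)) ^ 2 := fun j hj => by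
    have a1 := abs_le.1 (hB (d - j) (by omega))
    have a2 : (1 : ℤ) ≤ d.choose j := by exact_mod_cast Nat.choose_pos hj
    have a3 : (d.choose j : ℤ) ≤ n := by rw [hn]; exact_mod_cast Nat.choose_le_two_pow d j
    have a4 : (0 : ℤ) ≤ n := Int.natCast_nonneg n
    have a5 : (0 : ℤ) ≤ n * B := by positivity
    have a6 := mul_le_mul_of_nonneg_left a1.1 a4
    have a7 := mul_le_mul_of_nonneg_left a1.2 a4
    have a8 := mul_le_mul_of_nonneg_left a2 (show (0 : ℤ) ≤ s ^ 2 - n by linarith)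
    have a9 := mul_le_mul_of_nonneg_left a3 (show (0 : ℤ) ≤ s ^ 2 - n by linarith)
    exact ⟨by linarith, by nlinarith [mul_nonneg (sq_nonneg (s : ℤ)) a4, sq_nonneg ((s : ℤ) * n)]⟩
  have h : ∀ j, ∃ c : Finset (Fin d) → ℕ, 0 < j → j ≤ d → ∑ S ∈ powersetCard j univ, c S ^ 2 =
      (n * u (d - j) + (s ^ 2 - n) * (d.choose j : ℤ)).toNat := fun j => by
    by_cases hj : 0 < j ∧ j ≤ d
    · refine (sqs _ _ ?_).imp fun c h _ _ => h
      rw [card_powersetCard, card_univ, Fintype.card_fin]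
      rcases hj.2.eq_or_lt with rfl | h
      · exact .inr ⟨by simp, s, by simp [u0, pow_two]; norm_cast⟩
      · exact .inl (by have := le_ch d j hj.1 h; omega)
    · exact ⟨0, fun a b => absurd ⟨a, b⟩ hj⟩
  choose c hc using h
  have hc' : ∀ j, 0 < j → j ≤ d → ∑ S ∈ powersetCard j univ, (c j S : ℤ) ^ 2 =
      n * u (d - j) + (s ^ 2 - n) * (d.choose j : ℤ) := fun j a b => by
    rw [← Int.toNat_of_nonneg (w j b).1, ← hc j a b]; simp
  refine ⟨s, fun S => if S = ∅ then n * (s ^ 2 - 1) else c S.card S, ?_, ?_, fun j a b => ?_⟩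
  · have : ∀ S ∈ univ.erase (∅ : Finset (Fin d)),
        (if S = ∅ then n * (s ^ 2 - 1) else c S.card S) ≤ s * (n + 1) := fun S hS => by
      have h0 := (mem_erase.1 hS).1
      have h1 : S.card ≤ d := by simpa using S.card_le_univ
      have := single_le_sum (f := fun T => (c S.card T : ℤ) ^ 2) (fun _ _ => sq_nonneg _)
        (mem_powersetCard_univ.2 (rfl : S.card = S.card))
      rw [hc' _ (card_pos.2 (nonempty_iff_ne_empty.2 h0)) h1] at this
      rw [if_neg h0]
      exact_mod_cast (abs_le_of_sq_le_sq' (this.trans (w _ h1).2) (by positivity)).2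
    refine (sum_le_card_nsmul _ _ _ this).trans_lt ?_
    have h2 : (univ.erase (∅ : Finset (Fin d))).card ≤ n := card_erase_le.trans (by simp [hn])
    beta_reduce
    rw [if_pos rfl, smul_eq_mul]
    refine (Nat.mul_le_mul_right _ h2).trans_lt (Nat.mul_lt_mul_of_pos_left ?_ n0)
    have : s * (n + 2) ≤ s ^ 2 := by rw [pow_two]; exact Nat.mul_le_mul_left _ (by omega)
    have : s * (n + 2) = s * (n + 1) + s := by ring
    omega
  · beta_reduce
    rw [if_pos rfl, hn', Nat.cast_mul, Nat.cast_sub (Nat.one_le_pow _ _ (by omega))]; simp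
  · rw [hn', ← hc' j a b]
    refine sum_congr rfl fun S hS => ?_
    have := mem_powersetCard_univ.1 hS
    beta_reduce
    rw [if_neg (by rintro rfl; simp at this; omega), this]

lemma closer {d : ℕ} (p q : Q d) (h : hammingDist p q ≠ 0) :
    ∃ r, hammingDist r q = 1 ∧ hammingDist p r + 1 = hammingDist p q := by
  obtain ⟨i, hi⟩ := Function.ne_iff.1 (hammingDist_ne_zero.1 h)
  refine ⟨Function.update q i (p i), ?_, ?_⟩
  · rw [hammingDist, card_eq_one]
    refine ⟨i, ?_⟩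
    ext j
    by_cases e : j = i <;> simp [e, hi]
  · rw [hammingDist, hammingDist, ← card_erase_add_one (s := {j | p j ≠ q j}) (a := i) (by simpa)]
    congr 2
    ext j
    by_cases e : j = i <;> simp [e]

end Pool.Agent.H15.Wien
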